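import Pool.Agent.Helper131.CG.Base

namespace Pool.Agent.Helper131.CG

open Complex MeasureTheory Set Filter Topology
open scoped ContDiff

theorem pz_equiv {Γ : Subgroup SL2R} {m : ℂ → ℝ} (hm : ConfMetric Γ m) {g : SL2R} (hg : g ∈ Γ)
    {z : ℂ} (hz : z ∈ UH) :
    pz m (mob g z) = den g z ^ 2 * pz m z + 2 * (g 1 0 : ℂ) * den g z := by
  have hd : den g z ≠ 0 := den_ne_zero g hz
  have hgz : mob g z ∈ UH := mob_mem g hz
  -- differentiability of `Lm m`
  have hL : ∀ w ∈ UH, DifferentiableAt ℝ (Lm m) w := by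
    intro w hw
    have h1 : DifferentiableAt ℝ m w :=
      (hm.smooth.differentiableOn (by simp)).differentiableAt (isOpen_UH.mem_nhds hw)
    exact h1.log (hm.pos w hw).ne'
  have hmob : HasFDerivAt (mob g) (fderiv ℝ (mob g) z) z := by
    have h1 : DifferentiableAt ℝ (mob g) z :=
      ((contDiffOn_mob g).differentiableOn (by simp)).differentiableAt (isOpen_UH.mem_nhds hz)
    exact h1.hasFDerivAt
  -- the chain rule
  have hA : HasFDerivAt (fun w => Lm m (mob g w))
      ((fderiv ℝ (Lm m) (mob g z)).comp (fderiv ℝ (mob g) z)) z :=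
    (hL _ hgz).hasFDerivAt.comp z hmob
  have hden : HasFDerivAt (den g)
      (((ContinuousLinearMap.toSpanSingleton ℂ (g 1 0 : ℂ)) : ℂ →L[ℂ] ℂ).restrictScalars ℝ) z :=
    (hasDerivAt_den g z).hasFDerivAt.restrictScalars ℝ
  have hns : HasFDerivAt (fun w => ‖den g w‖ ^ 2) _ z := hden.norm_sq
  have hlog := (hns.log (pow_ne_zero 2 (norm_ne_zero_iff.2 hd))).const_mul 2
  have hB := (hL z hz).hasFDerivAt.add hlog
  have heq : (fun w => Lm m (mob g w)) =ᶠ[𝓝 z]
      (fun w => Lm m w + 2 * Real.log (‖den g w‖ ^ 2)) := by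
    filter_upwards [isOpen_UH.mem_nhds hz] with w hw
    have hdw : den g w ≠ 0 := den_ne_zero g hw
    have h1 := hm.equiv g hg w hw
    unfold Lm
    rw [h1, Real.log_mul (hm.pos w hw).ne' (pow_ne_zero 4 (norm_ne_zero_iff.2 hdw)),
      Real.log_pow, Real.log_pow]
    push_cast
    ring
  have huniq := hA.unique (hB.congr_of_eventuallyEq heq)
  have key : ∀ v : ℂ, fderiv ℝ (Lm m) (mob g z) v
      = fderiv ℝ (Lm m) z (den g z ^ 2 * v) + 4 * ((g 1 0 : ℂ) * den g z * v).re := by
    intro v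
    have h1 := congrArg (fun L : ℂ →L[ℝ] ℝ => L (den g z ^ 2 * v)) huniq
    have hn : ‖den g z‖ ^ 2 ≠ 0 := pow_ne_zero 2 (norm_ne_zero_iff.2 hd)
    simp only [ContinuousLinearMap.comp_apply, fderiv_mob g hz, add_apply,
      smul_apply, smul_eq_mul, ContinuousLinearMap.coe_restrictScalars',
      ContinuousLinearMap.toSpanSingleton_apply, innerSL_apply_apply] at h1
    have h2 : den g z ^ 2 * v / den g z ^ 2 = v := by field_simp
    rw [h2] at h1
    rw [h1]
    congr 1
    have hn2 : ‖den g z‖ ^ 2 = (den g z).re ^ 2 + (den g z).im ^ 2 := by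
      rw [← Complex.normSq_eq_norm_sq, Complex.normSq_apply]; ring
    have h3 : inner ℝ (den g z) (den g z ^ 2 * v * ((g 1 0 : ℝ) : ℂ))
        = ‖den g z‖ ^ 2 * ((g 1 0 : ℂ) * den g z * v).re := by
      rw [hn2, Complex.inner]
      simp only [pow_two, Complex.mul_re, Complex.mul_im, Complex.ofReal_re, Complex.ofReal_im,
        Complex.conj_re, Complex.conj_im]
      ring
    rw [h3, nsmul_eq_mul]
    push_cast
    field_simp
    ring
  have hlin : ∀ (L : ℂ →L[ℝ] ℝ) (a : ℂ), L a = a.re * L 1 + a.im * L I := by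
    intro L a
    have h : a = a.re • (1 : ℂ) + a.im • I := by
      apply Complex.ext <;> simp
    conv_lhs => rw [h]
    rw [map_add, map_smul, map_smul, smul_eq_mul, smul_eq_mul]
  unfold pz
  rw [key 1, key I, hlin _ (den g z ^ 2 * 1), hlin _ (den g z ^ 2 * I)]
  apply Complex.ext
  · simp
    ring
  · simp
    ring

end Pool.Agent.Helper131.CG
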