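import Pool.Agent.Helper131.CG.Base
import Pool.Agent.Helper131.CG.L_pz_equiv
import Pool.Agent.Helper131.CG.L_smooth_facts

namespace Pool.Agent.Helper131.CG

open Complex MeasureTheory Set Filter Topology
open scoped ContDiff

theorem clm_dbar_curv_facts (A : ℂ →L[ℝ] ℂ) (a : ℂ) :
    (A a + I * A (I * a)) / 2 = ((A 1 + I * A I) / 2) * (starRingEnd ℂ) a := by
  have h1 : a = a.re • (1 : ℂ) + a.im • I := by
    apply Complex.ext <;> simp
  have h2 : I * a = (-a.im) • (1 : ℂ) + a.re • I := by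
    apply Complex.ext <;> simp
  have e1 : A a = (a.re : ℂ) * A 1 + (a.im : ℂ) * A I := by
    conv_lhs => rw [h1]
    rw [map_add, map_smul, map_smul, Complex.real_smul, Complex.real_smul]
  have e2 : A (I * a) = -(a.im : ℂ) * A 1 + (a.re : ℂ) * A I := by
    rw [h2, map_add, map_smul, map_smul, Complex.real_smul, Complex.real_smul]
    push_cast
    ring
  have e3 : (starRingEnd ℂ) a = (a.re : ℂ) - (a.im : ℂ) * I := by
    apply Complex.ext <;> simp
  rw [e1, e2, e3]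
  linear_combination ((a.im : ℂ) * A I / 2) * Complex.I_sq

theorem contDiffOn_Lx_curv_facts {Γ : Subgroup SL2R} {m : ℂ → ℝ} (hm : ConfMetric Γ m) (v : ℂ) :
    ContDiffOn ℝ ∞ (fun w => fderiv ℝ (Lm m) w v) UH := by
  have h1 : ContDiffOn ℝ ∞ (fderiv ℝ (Lm m)) UH :=
    (contDiffOn_Lm hm).fderiv_of_isOpen isOpen_UH (by norm_num)
  exact h1.clm_apply contDiffOn_const

theorem contDiffOn_Lxx_curv_facts {Γ : Subgroup SL2R} {m : ℂ → ℝ} (hm : ConfMetric Γ m) (v w' : ℂ) :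
    ContDiffOn ℝ ∞ (fun z => fderiv ℝ (fun w => fderiv ℝ (Lm m) w v) z w') UH := by
  have h1 : ContDiffOn ℝ ∞ (fderiv ℝ (fun w => fderiv ℝ (Lm m) w v)) UH :=
    (contDiffOn_Lx_curv_facts hm v).fderiv_of_isOpen isOpen_UH (by norm_num)
  exact h1.clm_apply contDiffOn_const

theorem fderiv_pz_curv_facts {Γ : Subgroup SL2R} {m : ℂ → ℝ} (hm : ConfMetric Γ m) {z : ℂ} (hz : z ∈ UH)
    (v : ℂ) : fderiv ℝ (pz m) z v =
      (((fderiv ℝ (fun w => fderiv ℝ (Lm m) w 1) z v : ℝ) : ℂ) -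
        ((fderiv ℝ (fun w => fderiv ℝ (Lm m) w I) z v : ℝ) : ℂ) * I) / 2 := by
  have hU : UH ∈ 𝓝 z := isOpen_UH.mem_nhds hz
  have hx : HasFDerivAt (fun w => fderiv ℝ (Lm m) w 1)
      (fderiv ℝ (fun w => fderiv ℝ (Lm m) w 1) z) z :=
    (((contDiffOn_Lx_curv_facts hm 1).contDiffAt hU).differentiableAt (by norm_num)).hasFDerivAt
  have hy : HasFDerivAt (fun w => fderiv ℝ (Lm m) w I)
      (fderiv ℝ (fun w => fderiv ℝ (Lm m) w I) z) z :=
    (((contDiffOn_Lx_curv_facts hm I).contDiffAt hU).differentiableAt (by norm_num)).hasFDerivAt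
  have hX := (Complex.ofRealCLM.hasFDerivAt).comp z hx
  have hY := (Complex.ofRealCLM.hasFDerivAt).comp z hy
  have hP := (hX.sub (hY.mul_const I)).mul_const ((2 : ℂ)⁻¹)
  have e : (fun w => ((⇑Complex.ofRealCLM ∘ fun w => fderiv ℝ (Lm m) w 1) -
      fun y => (⇑Complex.ofRealCLM ∘ fun w => fderiv ℝ (Lm m) w I) y * I) w * (2 : ℂ)⁻¹) = pz m := by
    funext w
    simp [pz, div_eq_mul_inv]
  have h3 : HasFDerivAt (pz m) ((2 : ℂ)⁻¹ • (Complex.ofRealCLM.comp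
      (fderiv ℝ (fun w => fderiv ℝ (Lm m) w 1) z) - I • Complex.ofRealCLM.comp
      (fderiv ℝ (fun w => fderiv ℝ (Lm m) w I) z))) z := by
    rw [← e]
    exact hP
  rw [h3.fderiv]
  simp
  ring

theorem dbar_pz_re_curv_facts {Γ : Subgroup SL2R} {m : ℂ → ℝ} (hm : ConfMetric Γ m) {z : ℂ} (hz : z ∈ UH) :
    (dbar (pz m) z).re = lap (Lm m) z / 4 := by
  unfold dbar lap
  rw [fderiv_pz_curv_facts hm hz, fderiv_pz_curv_facts hm hz]
  simp
  ring

theorem curv_key_curv_facts {Γ : Subgroup SL2R} {m : ℂ → ℝ} (hm : ConfMetric Γ m) {g : SL2R} (hg : g ∈ Γ)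
    {z : ℂ} (hz : z ∈ UH) :
    dbar (pz m) (mob g z) * (starRingEnd ℂ) (1 / den g z ^ 2) = den g z ^ 2 * dbar (pz m) z := by
  have hU : UH ∈ 𝓝 z := isOpen_UH.mem_nhds hz
  have hU' : UH ∈ 𝓝 (mob g z) := isOpen_UH.mem_nhds (mob_mem g hz)
  have hP : HasFDerivAt (pz m) (fderiv ℝ (pz m) z) z :=
    (((contDiffOn_pz hm).contDiffAt hU).differentiableAt (by norm_num)).hasFDerivAt
  have hP' : HasFDerivAt (pz m) (fderiv ℝ (pz m) (mob g z)) (mob g z) :=
    (((contDiffOn_pz hm).contDiffAt hU').differentiableAt (by norm_num)).hasFDerivAt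
  have hφ : HasFDerivAt (mob g) (fderiv ℝ (mob g) z) z :=
    (((contDiffOn_mob g).contDiffAt hU).differentiableAt (by norm_num)).hasFDerivAt
  have hL := hP'.comp z hφ
  have hd : HasFDerivAt (den g) ((g 1 0 : ℂ) • (1 : ℂ →L[ℝ] ℂ)) z :=
    (hasDerivAt_den g z).complexToReal_fderiv
  have hR := ((hd.mul hd).mul hP).add (hd.const_mul (2 * (g 1 0 : ℂ)))
  have heq : (pz m ∘ mob g) =ᶠ[𝓝 z] ((den g * den g * pz m) +
      fun y => 2 * (g 1 0 : ℂ) * den g y) := by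
    filter_upwards [hU] with w hw
    simp only [Function.comp, Pi.add_apply, Pi.mul_apply]
    rw [pz_equiv hm hg hw]
    ring
  have hu := hL.unique (hR.congr_of_eventuallyEq heq)
  have h1 := congrArg (fun L : ℂ →L[ℝ] ℂ => L 1) hu
  have hI := congrArg (fun L : ℂ →L[ℝ] ℂ => L I) hu
  simp only [ContinuousLinearMap.comp_apply, fderiv_mob g hz, ContinuousLinearMap.add_apply,
    ContinuousLinearMap.smul_apply, ContinuousLinearMap.one_apply, smul_eq_mul, Pi.mul_apply]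
    at h1 hI
  have hA := clm_dbar_curv_facts (fderiv ℝ (pz m) (mob g z)) (1 / den g z ^ 2)
  have e1 : I * (1 / den g z ^ 2) = I / den g z ^ 2 := by ring
  rw [e1, h1, hI] at hA
  unfold dbar
  rw [← hA]
  linear_combination ((2 * den g z * (g 1 0 : ℂ) * pz m z + 2 * (g 1 0 : ℂ) ^ 2) / 2) * Complex.I_sq

theorem lap_equiv_curv_facts {Γ : Subgroup SL2R} {m : ℂ → ℝ} (hm : ConfMetric Γ m) {g : SL2R} (hg : g ∈ Γ)
    {z : ℂ} (hz : z ∈ UH) : lap (Lm m) (mob g z) = ‖den g z‖ ^ 4 * lap (Lm m) z := by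
  have hk := curv_key_curv_facts hm hg hz
  have hd := den_ne_zero g hz
  have hc : (starRingEnd ℂ) (1 / den g z ^ 2) * (starRingEnd ℂ) (den g z ^ 2) = 1 := by
    rw [← map_mul, one_div, inv_mul_cancel₀ (pow_ne_zero 2 hd), map_one]
  have h1 : dbar (pz m) (mob g z) = ((‖den g z‖ ^ 4 : ℝ) : ℂ) * dbar (pz m) z := by
    have e1 : dbar (pz m) (mob g z) = dbar (pz m) (mob g z) * (starRingEnd ℂ) (1 / den g z ^ 2) *
        (starRingEnd ℂ) (den g z ^ 2) := by rw [mul_assoc, hc, mul_one]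
    have e2 : den g z ^ 2 * (starRingEnd ℂ) (den g z ^ 2) = ((‖den g z‖ ^ 4 : ℝ) : ℂ) := by
      rw [Complex.mul_conj']
      push_cast
      rw [norm_pow]
      push_cast
      ring
    rw [e1, hk, ← e2]
    ring
  have h2 := congrArg Complex.re h1
  rw [Complex.re_ofReal_mul, dbar_pz_re_curv_facts hm (mob_mem g hz), dbar_pz_re_curv_facts hm hz] at h2
  linarith

theorem curv_contDiff {Γ : Subgroup SL2R} {m : ℂ → ℝ} (hm : ConfMetric Γ m) :
    ContDiffOn ℝ ∞ (curv m) UH := by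
  have h1 : ContDiffOn ℝ ∞ (lap (Lm m)) UH :=
    (contDiffOn_Lxx_curv_facts hm 1 1).add (contDiffOn_Lxx_curv_facts hm I I)
  have h2 : ContDiffOn ℝ ∞ (fun z => 2 * m z) UH := contDiffOn_const.mul hm.smooth
  exact h1.neg.div h2 (fun z hz => by have := hm.pos z hz; positivity)

theorem curv_inv {Γ : Subgroup SL2R} {m : ℂ → ℝ} (hm : ConfMetric Γ m) :
    ∀ g ∈ Γ, ∀ z ∈ UH, curv m (mob g z) = curv m z := by
  intro g hg z hz
  have hd : 0 < ‖den g z‖ := norm_pos_iff.2 (den_ne_zero g hz)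
  have hmz := hm.pos z hz
  unfold curv
  rw [lap_equiv_curv_facts hm hg hz, hm.equiv g hg z hz]
  field_simp

end Pool.Agent.Helper131.CG
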