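import Pool.Agent.Helper131.CG.L_main_flow
import Pool.Agent.Helper131.CG.L_curv_facts

namespace Pool.Agent.Helper131.CG

open Complex MeasureTheory Set Filter Topology
open scoped ContDiff

theorem AG2_cont {Γ : Subgroup SL2R} (hΓ : SurfaceGroup Γ) {m : ℂ → ℝ} (hm : ConfMetric Γ m)
    {χ : ℂ → ℝ} (hχ : Cut Γ χ)
    {u : ℝ → ℂ → ℂ} {p : ℝ → ℂ → ℝ} {Φ Ψ : ℝ → ℂ → ℂ} (F : Flow Γ m u p Φ Ψ) :
    Continuous (fun t : ℝ => ∫ z, χ z * (curv m z *
        fderiv ℝ (fun ζ => wfun m u p Φ t (Ψ t ζ)) z (u t z)) * m z) := by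
  have hmc : ContinuousOn m UH := hm.smooth.continuousOn
  have hu0 : ∀ t, ContDiffOn ℝ 1 (u t) UH := fun t => jc_slice F.sol.u_smooth t
  let G : ℝ → ℂ → ℝ := fun t z => curv m (Φ t z) * (m (Φ t z) *
          ((starRingEnd ℂ) (fderiv ℝ (Φ t) z (I * u 0 z)) * u t (Φ t z)).im
          + m (Φ t z) * ‖u t (Φ t z)‖ ^ 2)
  have hΦc : ContinuousOn (fun q : ℝ × ℂ => Φ q.1 q.2) (univ ×ˢ UH) := F.smooth.continuousOn
  have hΦm : MapsTo (fun q : ℝ × ℂ => Φ q.1 q.2) (univ ×ˢ UH) UH := fun q hq => F.maps q.1 hq.2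
  have huΦ := cont_uΦ F
  have hu0c : ContinuousOn (fun q : ℝ × ℂ => I * u 0 q.2) (univ ×ˢ UH) :=
    continuousOn_const.mul ((hu0 0).continuousOn.comp continuousOn_snd fun q hq => hq.2)
  have hKc : ContinuousOn (curv m) UH := (curv_contDiff hm).continuousOn
  have hG : ContinuousOn (fun q : ℝ × ℂ => G q.1 q.2) (univ ×ˢ UH) := by
    refine ContinuousOn.mul (hKc.comp hΦc hΦm) (ContinuousOn.add ?_ ?_)
    · refine ContinuousOn.mul (hmc.comp hΦc hΦm) ?_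
      refine Complex.continuous_im.comp_continuousOn (ContinuousOn.mul ?_ huΦ)
      exact Complex.continuous_conj.comp_continuousOn ((jc_fderiv F.smooth).clm_apply hu0c)
    · exact (hmc.comp hΦc hΦm).mul (huΦ.norm.pow 2)
  have h0 := swap_cont hχ.smooth.continuous hχ.compact hχ.supp hmc hG
  refine h0.congr fun t => ?_
  let H : ℂ → ℝ := fun z => curv m z * fderiv ℝ (fun ζ => wfun m u p Φ t (Ψ t ζ)) z (u t z)
  have h2 : ∫ z, χ z * G t z * m z = ∫ z, χ z * H (Φ t z) * m z := by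
    refine int_cut_congr hχ fun z hz => ?_
    simp only [G, H]
    rw [dw_field hm F t hz]
    ring
  rw [h2]
  refine int_inv hΓ hm hχ (jc_slice F.smooth t) (F.ismooth t) (F.maps t) (F.imaps t) (F.left t)
    (F.right t) (F.comm t) (F.area t) (F := H) ?_ ?_
  · exact hKc.mul (((wt_contDiff hm F t).continuousOn_fderiv_of_isOpen isOpen_UH le_rfl).clm_apply
        (hu0 t).continuousOn)
  · intro g hg z hz
    simp only [H]
    rw [curv_inv hm g hg z hz, F.sol.u_equiv t g hg z hz,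
      j10714_fd_AG (wt_contDiff hm F t) (wt_inv hm F t) hg hz]

theorem AG2_int {Γ : Subgroup SL2R} (hΓ : SurfaceGroup Γ) {m : ℂ → ℝ} (hm : ConfMetric Γ m)
    {χ : ℂ → ℝ} (hχ : Cut Γ χ)
    {u : ℝ → ℂ → ℂ} {p : ℝ → ℂ → ℝ} {Φ Ψ : ℝ → ℂ → ℂ} (F : Flow Γ m u p Φ Ψ) (T : ℝ) :
    IntervalIntegrable (fun t : ℝ => ∫ z, χ z * (curv m z *
        fderiv ℝ (fun ζ => wfun m u p Φ t (Ψ t ζ)) z (u t z)) * m z) volume 0 T :=
  (AG2_cont hΓ hm hχ F).intervalIntegrable _ _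

end Pool.Agent.Helper131.CG
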