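import Pool.Agent.Helper131.CG.Mob

namespace Pool.Agent.Helper131.CG

open Complex MeasureTheory Set Filter Topology
open scoped ContDiff

/-- cut-off function: `C¹`, compactly supported in `UH`, sum of translates `= 1`. -/
structure Cut (Γ : Subgroup SL2R) (χ : ℂ → ℝ) : Prop where
  smooth : ContDiff ℝ 1 χ
  compact : HasCompactSupport χ
  supp : tsupport χ ⊆ UH
  nonneg : ∀ z, 0 ≤ χ z
  sum_one : ∀ z ∈ UH, ∑ᶠ g : Γ, χ (mob (g : SL2R) z) = 1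

/-- Eulerian solution with its flow `Φ` (`Φ_0 = id`), and `Ψ_t = Φ_t⁻¹`. -/
structure Flow (Γ : Subgroup SL2R) (m : ℂ → ℝ) (u : ℝ → ℂ → ℂ) (p : ℝ → ℂ → ℝ)
    (Φ Ψ : ℝ → ℂ → ℂ) : Prop where
  sol : EulerSol Γ m u p
  smooth : ContDiffOn ℝ 1 (fun q : ℝ × ℂ => Φ q.1 q.2) (univ ×ˢ UH)
  maps : ∀ t, MapsTo (Φ t) UH UH
  imaps : ∀ t, MapsTo (Ψ t) UH UH
  left : ∀ t, ∀ z ∈ UH, Ψ t (Φ t z) = z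
  right : ∀ t, ∀ z ∈ UH, Φ t (Ψ t z) = z
  ismooth : ∀ t, ContDiffOn ℝ 1 (Ψ t) UH
  zero : ∀ z ∈ UH, Φ 0 z = z
  comm : ∀ t, ∀ g ∈ Γ, ∀ z ∈ UH, Φ t (mob g z) = mob g (Φ t z)
  area : ∀ t, ∀ z ∈ UH, (fderiv ℝ (Φ t) z).det * m (Φ t z) = m z
  flow : ∀ t, ∀ z ∈ UH, HasDerivAt (fun s => Φ s z) (u t (Φ t z)) t

/-- Weber's potential. -/
noncomputable def wfun (m : ℂ → ℝ) (u : ℝ → ℂ → ℂ) (p : ℝ → ℂ → ℝ) (Φ : ℝ → ℂ → ℂ) (t : ℝ)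
    (z : ℂ) : ℝ :=
  ∫ s in (0 : ℝ)..t, (m (Φ s z) * ‖u s (Φ s z)‖ ^ 2 / 2 - p s (Φ s z))

/-- integral of the form `Im(∂L/∂z dz)` along the trajectory `Φ_t(z)`, `0 ≤ t ≤ T`. -/
noncomputable def Afun (m : ℂ → ℝ) (u : ℝ → ℂ → ℂ) (Φ : ℝ → ℂ → ℂ) (T : ℝ) (z : ℂ) : ℝ :=
  ∫ t in (0 : ℝ)..T, (pz m (Φ t z) * u t (Φ t z)).im

end Pool.Agent.Helper131.CG
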