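import Mathlib

/-!
# Ideal fluids on closed surfaces of genus `≥ 2`: definitions

A closed oriented surface of genus `≥ 2` with a Riemannian metric is written as `M = Γ \ ℍ` with a
metric `m |dz|²` in the conformal class of the hyperbolic metric; all objects on `M` are given by
their lifts to the upper half plane `UH ⊆ ℂ`.
-/

namespace Pool.Agent.Helper131.CG

open Complex MeasureTheory Set Filter Topology
open scoped ContDiff

/-- The upper half plane, as an open subset of `ℂ`. -/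
def UH : Set ℂ := {z | 0 < z.im}

/-- `SL(2,ℝ)`. -/
abbrev SL2R := Matrix.SpecialLinearGroup (Fin 2) ℝ

/-- The denominator `c z + d` of the Möbius transformation of `g = (a b; c d)`. -/
noncomputable def den (g : SL2R) (z : ℂ) : ℂ := (g 1 0 : ℂ) * z + (g 1 1 : ℂ)

/-- The Möbius transformation `z ↦ (a z + b)/(c z + d)` of `g = (a b; c d)`. -/
noncomputable def mob (g : SL2R) (z : ℂ) : ℂ := ((g 0 0 : ℂ) * z + (g 0 1 : ℂ)) / den g z

/-- `Γ` is a discrete subgroup of `SL(2,ℝ)` acting freely (up to `±1`) and cocompactly on the upper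
half plane, i.e. `Γ \ UH` is a closed surface (of genus `≥ 2`), with universal cover `UH`. -/
structure SurfaceGroup (Γ : Subgroup SL2R) : Prop where
  discrete : DiscreteTopology Γ
  free : ∀ g ∈ Γ, ∀ z ∈ UH, mob g z = z → ∀ w ∈ UH, mob g w = w
  cocompact : ∃ K : Set ℂ, IsCompact K ∧ K ⊆ UH ∧ ∀ z ∈ UH, ∃ g ∈ Γ, mob g z ∈ K

/-- `m |dz|²` is (the lift of) a Riemannian metric on `Γ \ UH`: `m` is positive and smooth, and
`m(gz) |g'(z)|² = m(z)`, where `g'(z) = 1/(cz+d)²`. -/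
structure ConfMetric (Γ : Subgroup SL2R) (m : ℂ → ℝ) : Prop where
  smooth : ContDiffOn ℝ ∞ m UH
  pos : ∀ z ∈ UH, 0 < m z
  equiv : ∀ g ∈ Γ, ∀ z ∈ UH, m (mob g z) = m z * ‖den g z‖ ^ 4

/-- The density of the hyperbolic metric `|dz|²/y²`. -/
noncomputable def hyp (z : ℂ) : ℝ := 1 / z.im ^ 2

/-- `L = log m`. -/
noncomputable def Lm (m : ℂ → ℝ) (z : ℂ) : ℝ := Real.log (m z)

/-- `∂L/∂z = (L_x - i L_y)/2` for `L = log m`. -/
noncomputable def pz (m : ℂ → ℝ) (z : ℂ) : ℂ :=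
  (((fderiv ℝ (Lm m) z 1 : ℝ) : ℂ) - ((fderiv ℝ (Lm m) z I : ℝ) : ℂ) * I) / 2

/-- Covariant derivative `∇_v w = Dw(v) + ∂L/∂z · v · w` of the metric `m |dz|²` (vector fields are
complex valued functions, `·` is the product of complex numbers). -/
noncomputable def cov (m : ℂ → ℝ) (v w : ℂ → ℂ) (z : ℂ) : ℂ :=
  fderiv ℝ w z (v z) + pz m z * v z * w z

/-- Gradient of a function for the metric `m |dz|²`. -/
noncomputable def grad (m : ℂ → ℝ) (f : ℂ → ℝ) (z : ℂ) : ℂ :=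
  (((fderiv ℝ f z 1 : ℝ) : ℂ) + ((fderiv ℝ f z I : ℝ) : ℂ) * I) / (m z : ℂ)

/-- Divergence of a vector field for the metric `m |dz|²`. -/
noncomputable def dvg (m : ℂ → ℝ) (v : ℂ → ℂ) (z : ℂ) : ℝ :=
  (fderiv ℝ v z 1).re + (fderiv ℝ v z I).im + fderiv ℝ (Lm m) z (v z)

/-- Vorticity (curl) of a vector field for the metric `m |dz|²`. -/
noncomputable def vort (m : ℂ → ℝ) (v : ℂ → ℂ) (z : ℂ) : ℝ :=
  (fderiv ℝ v z 1).im - (fderiv ℝ v z I).re + 2 * (pz m z * v z).im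

/-- `∂v/∂z̄`. -/
noncomputable def dbar (v : ℂ → ℂ) (z : ℂ) : ℂ := (fderiv ℝ v z 1 + I * fderiv ℝ v z I) / 2

/-- Euclidean Laplacian `f_xx + f_yy`. -/
noncomputable def lap (f : ℂ → ℝ) (z : ℂ) : ℝ :=
  fderiv ℝ (fun w => fderiv ℝ f w 1) z 1 + fderiv ℝ (fun w => fderiv ℝ f w I) z I

/-- Gauss curvature `K = -Δ(log m)/(2m)` of the metric `m |dz|²`. -/
noncomputable def curv (m : ℂ → ℝ) (z : ℂ) : ℝ := - lap (Lm m) z / (2 * m z)

/-- `(u, p)` is (the lift of) a solution of the incompressible Euler equations on `Γ \ UH`, with the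
metric `m |dz|²`, defined for all times; `u` is `C¹` in space and time, and `p` is continuous and
has a continuous spatial derivative. -/
structure EulerSol (Γ : Subgroup SL2R) (m : ℂ → ℝ) (u : ℝ → ℂ → ℂ) (p : ℝ → ℂ → ℝ) : Prop where
  u_smooth : ContDiffOn ℝ 1 (fun q : ℝ × ℂ => u q.1 q.2) (univ ×ˢ UH)
  u_equiv : ∀ t, ∀ g ∈ Γ, ∀ z ∈ UH, u t (mob g z) = u t z / den g z ^ 2
  p_cont : ContinuousOn (fun q : ℝ × ℂ => p q.1 q.2) (univ ×ˢ UH)
  p_diff : ∀ t, DifferentiableOn ℝ (p t) UH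
  dp_cont : ContinuousOn (fun q : ℝ × ℂ => fderiv ℝ (p q.1) q.2) (univ ×ˢ UH)
  p_inv : ∀ t, ∀ g ∈ Γ, ∀ z ∈ UH, p t (mob g z) = p t z
  div_free : ∀ t, ∀ z ∈ UH, dvg m (u t) z = 0
  euler : ∀ t, ∀ z ∈ UH,
    deriv (fun s => u s z) t + cov m (u t) (u t) z + grad m (p t) z = 0

/-- `η` is (the lift to the universal cover of) a path in the group of area preserving `C¹`
diffeomorphisms of `Γ \ UH` with the area form of the metric `m |dz|²`. -/
structure DiffPath (Γ : Subgroup SL2R) (m : ℂ → ℝ) (η : ℝ → ℂ → ℂ) : Prop where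
  smooth : ContDiffOn ℝ 1 (fun q : ℝ × ℂ => η q.1 q.2) (univ ×ˢ UH)
  bij : ∀ t, BijOn (η t) UH UH
  lift : ∀ g ∈ Γ, ∃ g' ∈ Γ, ∀ t, ∀ z ∈ UH, η t (mob g z) = mob g' (η t z)
  lift' : ∀ g' ∈ Γ, ∃ g ∈ Γ, ∀ t, ∀ z ∈ UH, η t (mob g z) = mob g' (η t z)
  area : ∀ t, ∀ z ∈ UH, (fderiv ℝ (η t) z).det * m (η t z) = m z

/-- `η` is a geodesic of the group of area preserving diffeomorphisms of `Γ \ UH`, with the right
invariant `L²` metric: the velocity `u_t = (dη_t/dt) ∘ η_t⁻¹` solves the incompressible Euler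
equations. -/
def IsGeodesic (Γ : Subgroup SL2R) (m : ℂ → ℝ) (η : ℝ → ℂ → ℂ) : Prop :=
  DiffPath Γ m η ∧ ∃ (u : ℝ → ℂ → ℂ) (p : ℝ → ℂ → ℝ), EulerSol Γ m u p ∧
    ∀ t, ∀ z ∈ UH, HasDerivAt (fun s => η s z) (u t (η t z)) t

end Pool.Agent.Helper131.CG
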