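import Pool.Agent.Helper131.CG.Defs

namespace Pool.Agent.Helper131.CG

open Complex MeasureTheory Set Filter Topology
open scoped ContDiff

/-- The curvature condition: there are `lam` and a vector field `X` with
`div X = 2 (K + lam)` and `lam |v|² + ⟨∇_v X, v⟩ > 0` for all tangent vectors `v ≠ 0`. -/
structure VirialField (Γ : Subgroup SL2R) (m : ℂ → ℝ) (lam : ℝ) (X : ℂ → ℂ) : Prop where
  smooth : ContDiffOn ℝ 1 X UH
  equiv : ∀ g ∈ Γ, ∀ z ∈ UH, X (mob g z) = X z / den g z ^ 2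
  div : ∀ z ∈ UH, dvg m X z = 2 * (curv m z + lam)
  pos : ∀ z ∈ UH, ∀ v : ℂ, v ≠ 0 →
    0 < lam * ‖v‖ ^ 2 + ((starRingEnd ℂ) v * (fderiv ℝ X z v + pz m z * v * X z)).re

/-- The density of the metric `(1 + (ε/2) Δ F) |dz|²/y²`, `Δ` the hyperbolic Laplacian. -/
noncomputable def mF (F : ℂ → ℝ) (ε : ℝ) (z : ℂ) : ℝ := hyp z + ε / 2 * lap F z

end Pool.Agent.Helper131.CG
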