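import Pool.Agent.Helper131.CG.Base
import Pool.Agent.Helper131.CG.L_smooth_facts

namespace Pool.Agent.Helper131.CG

open Complex MeasureTheory Set Filter Topology
open scoped ContDiff

theorem CG3_lin_grad_facts (A : ℂ →L[ℝ] ℂ) (w : ℂ) : A w = (w.re : ℂ) * A 1 + (w.im : ℂ) * A I := by
  have h : w = w.re • (1 : ℂ) + w.im • I := by
    rw [Complex.real_smul, Complex.real_smul, mul_one]
    exact (Complex.re_add_im w).symm
  conv_lhs => rw [h]
  rw [map_add, map_smul, map_smul, Complex.real_smul, Complex.real_smul]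

theorem CG3_linR_grad_facts (A : ℂ →L[ℝ] ℝ) (w : ℂ) : A w = w.re * A 1 + w.im * A I := by
  have h : w = w.re • (1 : ℂ) + w.im • I := by
    rw [Complex.real_smul, Complex.real_smul, mul_one]
    exact (Complex.re_add_im w).symm
  conv_lhs => rw [h]
  rw [map_add, map_smul, map_smul, smul_eq_mul, smul_eq_mul]

theorem CG3_smooth_grad_facts {G : ℂ → ℝ} (hG : ContDiffOn ℝ ∞ G UH) (v : ℂ) :
    ContDiffOn ℝ ∞ (fun z => fderiv ℝ G z v) UH := by
  have h : ContDiffOn ℝ ∞ (fderiv ℝ G) UH := hG.fderiv_of_isOpen isOpen_UH (by simp)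
  exact h.clm_apply contDiffOn_const

theorem CG3_diff_grad_facts {G : ℂ → ℝ} (hG : ContDiffOn ℝ ∞ G UH) {z : ℂ} (hz : z ∈ UH) :
    DifferentiableAt ℝ G z :=
  (hG.differentiableOn (by simp)).differentiableAt (isOpen_UH.mem_nhds hz)

theorem CG3_chain_grad_facts {Γ : Subgroup SL2R} {G : ℂ → ℝ} (hG : ContDiffOn ℝ ∞ G UH)
    (hinv : ∀ g ∈ Γ, ∀ z ∈ UH, G (mob g z) = G z) {g : SL2R} (hg : g ∈ Γ) {z : ℂ} (hz : z ∈ UH)
    (v : ℂ) : fderiv ℝ G (mob g z) v = fderiv ℝ G z (v * den g z ^ 2) := by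
  have h1 : (fun w => G (mob g w)) =ᶠ[𝓝 z] G := by
    filter_upwards [isOpen_UH.mem_nhds hz] with w hw
    exact hinv g hg w hw
  have h2 : HasFDerivAt (mob g) (fderiv ℝ (mob g) z) z :=
    (((hasDerivAt_mob g hz).hasFDerivAt.restrictScalars ℝ).differentiableAt).hasFDerivAt
  have h3 : HasFDerivAt G (fderiv ℝ G (mob g z)) (mob g z) := (CG3_diff_grad_facts hG (mob_mem g hz)).hasFDerivAt
  have h4 := (h3.comp z h2).fderiv
  have h5 : fderiv ℝ (G ∘ mob g) z = fderiv ℝ G z := h1.fderiv_eq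
  rw [h5] at h4
  rw [h4, ContinuousLinearMap.comp_apply, fderiv_mob g hz,
    mul_div_cancel_right₀ _ (pow_ne_zero 2 (den_ne_zero g hz))]

theorem grad_contDiff {Γ : Subgroup SL2R} {m : ℂ → ℝ} (hm : ConfMetric Γ m) {G : ℂ → ℝ}
    (hG : ContDiffOn ℝ ∞ G UH) : ContDiffOn ℝ ∞ (grad m G) UH := by
  have h1 : ContDiffOn ℝ ∞ (fun z => ((fderiv ℝ G z 1 : ℝ) : ℂ)) UH :=
    Complex.ofRealCLM.contDiff.comp_contDiffOn (CG3_smooth_grad_facts hG 1)
  have h2 : ContDiffOn ℝ ∞ (fun z => ((fderiv ℝ G z I : ℝ) : ℂ)) UH :=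
    Complex.ofRealCLM.contDiff.comp_contDiffOn (CG3_smooth_grad_facts hG I)
  have h3 : ContDiffOn ℝ ∞ (fun z => ((m z : ℝ) : ℂ)) UH :=
    Complex.ofRealCLM.contDiff.comp_contDiffOn hm.smooth
  have h4 : ContDiffOn ℝ ∞ (fun z => (((m z : ℝ) : ℂ))⁻¹) UH := h3.inv fun z hz => by
    have := (hm.pos z hz).ne'
    exact_mod_cast this
  exact ((h1.add (h2.mul contDiffOn_const)).mul h4).congr fun z _ => by
    unfold grad
    rw [div_eq_mul_inv]

theorem CG3_norm4_grad_facts (d : ℂ) : ((‖d‖ ^ 4 : ℝ) : ℂ) = d ^ 2 * (starRingEnd ℂ) (d ^ 2) := by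
  rw [Complex.mul_conj, Complex.normSq_eq_norm_sq, norm_pow]
  congr 1
  ring

theorem grad_equiv {Γ : Subgroup SL2R} {m : ℂ → ℝ} (hm : ConfMetric Γ m) {G : ℂ → ℝ}
    (hG : ContDiffOn ℝ ∞ G UH) (hinv : ∀ g ∈ Γ, ∀ z ∈ UH, G (mob g z) = G z) :
    ∀ g ∈ Γ, ∀ z ∈ UH, grad m G (mob g z) = grad m G z / den g z ^ 2 := by
  intro g hg z hz
  unfold grad
  have hD : den g z ^ 2 ≠ 0 := pow_ne_zero 2 (den_ne_zero g hz)
  have hm0 : ((m z : ℝ) : ℂ) ≠ 0 := by
    have := (hm.pos z hz).ne'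
    exact_mod_cast this
  rw [CG3_chain_grad_facts hG hinv hg hz, CG3_chain_grad_facts hG hinv hg hz, hm.equiv g hg z hz]
  rw [Complex.ofReal_mul, CG3_norm4_grad_facts]
  set D := den g z ^ 2 with hDdef
  rw [CG3_linR_grad_facts _ (1 * D), CG3_linR_grad_facts _ (I * D)]
  have hcD : (starRingEnd ℂ) D ≠ 0 := by
    rw [Ne, map_eq_zero]
    exact hD
  have e : (((1 * D).re * fderiv ℝ G z 1 + (1 * D).im * fderiv ℝ G z I : ℝ) : ℂ) +
      (((I * D).re * fderiv ℝ G z 1 + (I * D).im * fderiv ℝ G z I : ℝ) : ℂ) * I =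
      (((fderiv ℝ G z 1 : ℝ) : ℂ) + ((fderiv ℝ G z I : ℝ) : ℂ) * I) * (starRingEnd ℂ) D := by
    apply Complex.ext
    · simp
      ring
    · simp
      ring
  rw [e]
  field_simp

theorem dvg_grad {Γ : Subgroup SL2R} {m : ℂ → ℝ} (hm : ConfMetric Γ m) {G : ℂ → ℝ}
    (hG : ContDiffOn ℝ ∞ G UH) {z : ℂ} (hz : z ∈ UH) :
    dvg m (grad m G) z = lap G z / m z := by
  have hm0 : m z ≠ 0 := (hm.pos z hz).ne'
  have hV : DifferentiableAt ℝ (grad m G) z :=
    ((grad_contDiff hm hG).differentiableOn (by simp)).differentiableAt (isOpen_UH.mem_nhds hz)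
  have hx : DifferentiableAt ℝ (fun w => fderiv ℝ G w 1) z := CG3_diff_grad_facts (CG3_smooth_grad_facts hG 1) hz
  have hy : DifferentiableAt ℝ (fun w => fderiv ℝ G w I) z := CG3_diff_grad_facts (CG3_smooth_grad_facts hG I) hz
  have hmd : DifferentiableAt ℝ m z := CG3_diff_grad_facts hm.smooth hz
  have hre : ∀ w, (grad m G w).re = fderiv ℝ G w 1 / m w := by
    intro w
    unfold grad
    rw [Complex.div_ofReal_re]
    simp
  have him : ∀ w, (grad m G w).im = fderiv ℝ G w I / m w := by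
    intro w
    unfold grad
    rw [Complex.div_ofReal_im]
    simp
  have e1 : (fderiv ℝ (grad m G) z 1).re = fderiv ℝ (fun w => fderiv ℝ G w 1 / m w) z 1 := by
    have h1 : HasFDerivAt (fun w => (grad m G w).re) (Complex.reCLM.comp (fderiv ℝ (grad m G) z)) z :=
      Complex.reCLM.hasFDerivAt.comp z hV.hasFDerivAt
    have h2 : (fun w => (grad m G w).re) = fun w => fderiv ℝ G w 1 / m w := funext hre
    rw [← h2, h1.fderiv]
    rfl
  have e2 : (fderiv ℝ (grad m G) z I).im = fderiv ℝ (fun w => fderiv ℝ G w I / m w) z I := by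
    have h1 : HasFDerivAt (fun w => (grad m G w).im) (Complex.imCLM.comp (fderiv ℝ (grad m G) z)) z :=
      Complex.imCLM.hasFDerivAt.comp z hV.hasFDerivAt
    have h2 : (fun w => (grad m G w).im) = fun w => fderiv ℝ G w I / m w := funext him
    rw [← h2, h1.fderiv]
    rfl
  have hdiv : ∀ (F : ℂ → ℝ), DifferentiableAt ℝ F z → ∀ v, fderiv ℝ (fun w => F w / m w) z v =
      (fderiv ℝ F z v * m z - F z * fderiv ℝ m z v) / m z ^ 2 := by
    intro F hF v
    have hF' := hF.hasFDerivAt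
    have hm' := hmd.hasFDerivAt
    have hline : HasDerivAt (fun t : ℝ => z + t • v) v 0 := by
      have := ((hasDerivAt_id (0 : ℝ)).smul_const v).const_add z
      simpa using this
    have h0 : z + (0 : ℝ) • v = z := by simp
    have hFl : HasDerivAt (fun t : ℝ => F (z + t • v)) (fderiv ℝ F z v) 0 := by
      refine HasFDerivAt.comp_hasDerivAt (x := (0 : ℝ)) (f := fun t : ℝ => z + t • v) ?_ hline
      rw [h0]; exact hF'
    have hml : HasDerivAt (fun t : ℝ => m (z + t • v)) (fderiv ℝ m z v) 0 := by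
      refine HasFDerivAt.comp_hasDerivAt (x := (0 : ℝ)) (f := fun t : ℝ => z + t • v) ?_ hline
      rw [h0]; exact hm'
    have hq := hFl.div hml (by rw [h0]; exact hm0)
    have hdq : DifferentiableAt ℝ (fun w => F w / m w) z := by
      simp only [div_eq_mul_inv]
      exact hF.mul (hmd.inv hm0)
    have hql : HasDerivAt (fun t : ℝ => F (z + t • v) / m (z + t • v))
        (fderiv ℝ (fun w => F w / m w) z v) 0 := by
      refine HasFDerivAt.comp_hasDerivAt (x := (0 : ℝ)) (f := fun t : ℝ => z + t • v)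
        (l := fun w => F w / m w) ?_ hline
      rw [h0]; exact hdq.hasFDerivAt
    have := hql.unique hq
    rw [this, h0]
  have e3 : fderiv ℝ (Lm m) z (grad m G z) = (fderiv ℝ m z (grad m G z)) / m z := by
    have h1 : HasFDerivAt (Lm m) ((m z)⁻¹ • fderiv ℝ m z) z := hmd.hasFDerivAt.log hm0
    rw [h1.fderiv, _root_.smul_apply, smul_eq_mul]
    ring
  unfold dvg lap
  rw [e1, e2, e3, hdiv _ hx, hdiv _ hy, CG3_linR_grad_facts (fderiv ℝ m z) (grad m G z), hre, him]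
  field_simp
  ring

/-- conjugate of the euclidean gradient -/
noncomputable def CG3_f_grad_facts (G : ℂ → ℝ) (w : ℂ) : ℂ :=
  ((fderiv ℝ G w 1 : ℝ) : ℂ) - ((fderiv ℝ G w I : ℝ) : ℂ) * I

theorem CG3_f_fderiv_grad_facts {G : ℂ → ℝ} (hG : ContDiffOn ℝ ∞ G UH) {z : ℂ} (hz : z ∈ UH) :
    DifferentiableAt ℝ (CG3_f_grad_facts G) z ∧ ∀ v, fderiv ℝ (CG3_f_grad_facts G) z v =
      ((fderiv ℝ (fun w => fderiv ℝ G w 1) z v : ℝ) : ℂ) -
        ((fderiv ℝ (fun w => fderiv ℝ G w I) z v : ℝ) : ℂ) * I := by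
  have hx : DifferentiableAt ℝ (fun w => fderiv ℝ G w 1) z := CG3_diff_grad_facts (CG3_smooth_grad_facts hG 1) hz
  have hy : DifferentiableAt ℝ (fun w => fderiv ℝ G w I) z := CG3_diff_grad_facts (CG3_smooth_grad_facts hG I) hz
  have h1 : HasFDerivAt (fun w => ((fderiv ℝ G w 1 : ℝ) : ℂ))
      (Complex.ofRealCLM.comp (fderiv ℝ (fun w => fderiv ℝ G w 1) z)) z :=
    Complex.ofRealCLM.hasFDerivAt.comp z hx.hasFDerivAt
  have h2 : HasFDerivAt (fun w => ((fderiv ℝ G w I : ℝ) : ℂ))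
      (Complex.ofRealCLM.comp (fderiv ℝ (fun w => fderiv ℝ G w I) z)) z :=
    Complex.ofRealCLM.hasFDerivAt.comp z hy.hasFDerivAt
  have h3 := h1.sub (h2.mul_const I)
  have h4 : HasFDerivAt (CG3_f_grad_facts G) _ z := h3
  refine ⟨h4.differentiableAt, fun v => ?_⟩
  rw [h4.fderiv]
  simp [mul_comm]

theorem CG3_f_equiv_grad_facts {Γ : Subgroup SL2R} {G : ℂ → ℝ} (hG : ContDiffOn ℝ ∞ G UH)
    (hinv : ∀ g ∈ Γ, ∀ z ∈ UH, G (mob g z) = G z) {g : SL2R} (hg : g ∈ Γ) {z : ℂ} (hz : z ∈ UH) :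
    CG3_f_grad_facts G (mob g z) = den g z ^ 2 * CG3_f_grad_facts G z := by
  unfold CG3_f_grad_facts
  rw [CG3_chain_grad_facts hG hinv hg hz, CG3_chain_grad_facts hG hinv hg hz]
  set D := den g z ^ 2 with hDdef
  rw [CG3_linR_grad_facts _ (1 * D), CG3_linR_grad_facts _ (I * D)]
  apply Complex.ext
  · simp
  · simp

theorem CG3_den_grad_facts (g : SL2R) (z : ℂ) :
    HasDerivAt (fun w => den g w ^ 2) (2 * den g z * (g 1 0 : ℂ)) z := by
  have h1 : HasDerivAt (den g) (g 1 0 : ℂ) z := by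
    have h : HasDerivAt (fun w => (g 1 0 : ℂ) * w + (g 1 1 : ℂ)) ((g 1 0 : ℂ) * 1) z :=
      ((hasDerivAt_id z).const_mul (g 1 0 : ℂ)).add_const (g 1 1 : ℂ)
    rw [mul_one] at h
    exact h
  have := h1.fun_pow 2
  simpa using this

theorem lap_equiv {Γ : Subgroup SL2R} {G : ℂ → ℝ}
    (hG : ContDiffOn ℝ ∞ G UH) (hinv : ∀ g ∈ Γ, ∀ z ∈ UH, G (mob g z) = G z) :
    ∀ g ∈ Γ, ∀ z ∈ UH, lap G (mob g z) = ‖den g z‖ ^ 4 * lap G z := by
  intro g hg z hz
  obtain ⟨d1, f1⟩ := CG3_f_fderiv_grad_facts hG hz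
  obtain ⟨d2, f2⟩ := CG3_f_fderiv_grad_facts hG (mob_mem g hz)
  have hD : den g z ^ 2 ≠ 0 := pow_ne_zero 2 (den_ne_zero g hz)
  have h2 : HasFDerivAt (mob g) (fderiv ℝ (mob g) z) z :=
    (((hasDerivAt_mob g hz).hasFDerivAt.restrictScalars ℝ).differentiableAt).hasFDerivAt
  have hL := d2.hasFDerivAt.comp z h2
  have hDen := (CG3_den_grad_facts g z).hasFDerivAt.restrictScalars ℝ
  have hR := hDen.mul d1.hasFDerivAt
  have heq : (CG3_f_grad_facts G ∘ mob g) =ᶠ[𝓝 z] fun w => den g w ^ 2 * CG3_f_grad_facts G w := by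
    filter_upwards [isOpen_UH.mem_nhds hz] with w hw
    exact CG3_f_equiv_grad_facts hG hinv hg hw
  have hLR := (hL.congr_of_eventuallyEq heq.symm).unique hR
  have hv : ∀ v, fderiv ℝ (CG3_f_grad_facts G) (mob g z) (v / den g z ^ 2) =
      den g z ^ 2 * fderiv ℝ (CG3_f_grad_facts G) z v + CG3_f_grad_facts G z * (v * (2 * den g z * (g 1 0 : ℂ))) := by
    intro v
    have := congrArg (fun A : ℂ →L[ℝ] ℂ => A v) hLR
    simp only [ContinuousLinearMap.comp_apply] at this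
    rw [fderiv_mob g hz] at this
    rw [this]
    simp
  -- apply the d-bar operator
  have hP : ∀ x : ℂ, x ∈ UH → fderiv ℝ (CG3_f_grad_facts G) x 1 + I * fderiv ℝ (CG3_f_grad_facts G) x I =
      ((lap G x : ℝ) : ℂ) + ((fderiv ℝ (fun w => fderiv ℝ G w 1) x I -
        fderiv ℝ (fun w => fderiv ℝ G w I) x 1 : ℝ) : ℂ) * I := by
    intro x hx
    obtain ⟨_, f3⟩ := CG3_f_fderiv_grad_facts hG hx
    rw [f3, f3]
    unfold lap
    push_cast
    linear_combination (-((fderiv ℝ (fun w => fderiv ℝ G w I) x I : ℝ) : ℂ)) * I_mul_I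
  set A := fderiv ℝ (CG3_f_grad_facts G) (mob g z) with hA
  set a := (den g z ^ 2)⁻¹ with ha
  have k1 := hv 1
  have k2 := hv I
  have k3 : A (1 / den g z ^ 2) + I * A (I / den g z ^ 2) = (starRingEnd ℂ) a * (A 1 + I * A I) := by
    have e1 : (1 : ℂ) / den g z ^ 2 = a := by rw [ha, one_div]
    have e2 : I / den g z ^ 2 = I * a := by rw [ha, div_eq_mul_inv]
    rw [e1, e2, CG3_lin_grad_facts A a, CG3_lin_grad_facts A (I * a)]
    have e3 : (starRingEnd ℂ) a = (a.re : ℂ) - (a.im : ℂ) * I := by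
      apply Complex.ext <;> simp
    rw [e3]
    simp only [Complex.mul_re, Complex.mul_im, Complex.I_re, Complex.I_im, zero_mul, one_mul,
      zero_sub, zero_add]
    push_cast
    linear_combination (A I) * (a.im : ℂ) * I_mul_I
  have k4 : (starRingEnd ℂ) a * (A 1 + I * A I) =
      den g z ^ 2 * (fderiv ℝ (CG3_f_grad_facts G) z 1 + I * fderiv ℝ (CG3_f_grad_facts G) z I) := by
    rw [← k3, k1, k2]
    linear_combination (CG3_f_grad_facts G z * (2 * den g z * (g 1 0 : ℂ))) * I_mul_I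
  rw [hP z hz, hA, hP (mob g z) (mob_mem g hz)] at k4
  have k5 : ((lap G (mob g z) : ℝ) : ℂ) + ((fderiv ℝ (fun w => fderiv ℝ G w 1) (mob g z) I -
        fderiv ℝ (fun w => fderiv ℝ G w I) (mob g z) 1 : ℝ) : ℂ) * I =
      ((‖den g z‖ ^ 4 : ℝ) : ℂ) * (((lap G z : ℝ) : ℂ) + ((fderiv ℝ (fun w => fderiv ℝ G w 1) z I -
        fderiv ℝ (fun w => fderiv ℝ G w I) z 1 : ℝ) : ℂ) * I) := by
    rw [CG3_norm4_grad_facts]
    have hcD : (starRingEnd ℂ) (den g z ^ 2) ≠ 0 := by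
      rw [Ne, map_eq_zero]
      exact hD
    have e4 : (starRingEnd ℂ) a = ((starRingEnd ℂ) (den g z ^ 2))⁻¹ := by rw [ha, map_inv₀]
    rw [e4, inv_mul_eq_iff_eq_mul₀ hcD] at k4
    rw [k4]
    ring
  have k6 := congrArg Complex.re k5
  simp only [Complex.add_re, Complex.ofReal_re, Complex.re_ofReal_mul, Complex.I_re, mul_zero,
    add_zero] at k6
  exact k6

end Pool.Agent.Helper131.CG
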