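import Pool.Agent.Helper131.CG.Base

namespace Pool.Agent.Helper131.CG

open Complex MeasureTheory Set Filter Topology
open scoped ContDiff

theorem hyp_conf (Γ : Subgroup SL2R) : ConfMetric Γ hyp := by
  refine ⟨?_, ?_, ?_⟩
  · unfold hyp
    apply ContDiffOn.div contDiffOn_const
    · exact (Complex.imCLM.contDiff.pow 2).contDiffOn
    · intro z hz
      have : 0 < z.im := hz
      positivity
  · intro z hz
    have : 0 < z.im := hz
    unfold hyp
    positivity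
  · intro g _ z hz
    have h1 : 0 < z.im := hz
    have h2 : ‖den g z‖ ≠ 0 := norm_ne_zero_iff.mpr (den_ne_zero g hz)
    unfold hyp
    rw [mob_im g hz]
    field_simp

theorem curv_hyp_L_hyp_metric : Lm hyp = fun w : ℂ => -2 * Real.log w.im := by
  funext w
  unfold Lm hyp
  rw [one_div, Real.log_inv, Real.log_pow]
  push_cast
  ring

theorem curv_hyp_fd_hyp_metric {w : ℂ} (hw : w ∈ UH) :
    fderiv ℝ (Lm hyp) w = (-2 : ℝ) • ((w.im)⁻¹ • Complex.imCLM) := by
  have h1 : 0 < w.im := hw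
  rw [curv_hyp_L_hyp_metric]
  have h2 : HasFDerivAt (fun w : ℂ => Real.log w.im) ((w.im)⁻¹ • Complex.imCLM) w :=
    (Complex.imCLM.hasFDerivAt (x := w)).log h1.ne'
  exact (h2.const_mul (-2)).fderiv

theorem curv_hyp {z : ℂ} (hz : z ∈ UH) : curv hyp z = -1 := by
  have hy : 0 < z.im := hz
  have hev : ∀ᶠ w in 𝓝 z, w ∈ UH := isOpen_UH.mem_nhds hz
  have e1 : (fun w => fderiv ℝ (Lm hyp) w 1) =ᶠ[𝓝 z] fun _ => 0 := by
    filter_upwards [hev] with w hw
    rw [curv_hyp_fd_hyp_metric hw]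
    simp
  have e2 : (fun w => fderiv ℝ (Lm hyp) w I) =ᶠ[𝓝 z] fun w => -2 * (w.im)⁻¹ := by
    filter_upwards [hev] with w hw
    rw [curv_hyp_fd_hyp_metric hw]
    simp
  have h3 : HasFDerivAt (fun w : ℂ => -2 * (w.im)⁻¹)
      ((-2 : ℝ) • ((-(z.im ^ 2)⁻¹) • Complex.imCLM)) z := by
    have h4 : HasDerivAt (fun y : ℝ => y⁻¹) (-(z.im ^ 2)⁻¹) z.im := hasDerivAt_inv hy.ne'
    have h5 := h4.comp_hasFDerivAt z (Complex.imCLM.hasFDerivAt (x := z))
    exact h5.const_mul (-2)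
  unfold curv lap
  rw [e1.fderiv_eq, e2.fderiv_eq, h3.fderiv]
  unfold hyp
  simp
  field_simp

end Pool.Agent.Helper131.CG
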