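import Pool.Agent.Helper131.CG.Defs2

namespace Pool.Agent.Helper131.CG

/-- potential of the virial field -/
noncomputable def GF (F : ℂ → ℝ) (ε : ℝ) (z : ℂ) : ℝ := ε * F z - Real.log (mF F ε z / hyp z)

/-- `∇_v X` for the metric `m |dz|²` -/
noncomputable def covX (m : ℂ → ℝ) (X : ℂ → ℂ) (z v : ℂ) : ℂ := fderiv ℝ X z v + pz m z * v * X z

end Pool.Agent.Helper131.CG
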