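import Pool.Agent.Helper131.CG.Base
import Pool.Agent.Helper131.CG.L_grad_facts
import Pool.Agent.Helper131.CG.L_hyp_metric
import Pool.Agent.Helper131.CG.L_mF_def
import Pool.Agent.Helper131.CG.L_smooth_facts

namespace Pool.Agent.Helper131.CG

open Complex MeasureTheory Set Filter Topology
open scoped ContDiff

theorem GF_aux_pt_GF_facts {f : ℂ → ℝ} (hf : ContDiffOn ℝ ∞ f UH) {z : ℂ} (hz : z ∈ UH) :
    DifferentiableAt ℝ f z :=
  (hf.differentiableOn (by simp)).differentiableAt (isOpen_UH.mem_nhds hz)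

theorem GF_aux_pt2_GF_facts {f : ℂ → ℝ} (hf : ContDiffOn ℝ ∞ f UH) (v : ℂ) {z : ℂ} (hz : z ∈ UH) :
    DifferentiableAt ℝ (fun w => fderiv ℝ f w v) z := by
  have h1 : ContDiffOn ℝ 1 (fderiv ℝ f) UH := hf.fderiv_of_isOpen isOpen_UH
    (WithTop.coe_le_coe.2 (le_top : ((1 : ℕ∞) + 1) ≤ ⊤))
  have h2 : DifferentiableAt ℝ (fderiv ℝ f) z :=
    (h1.differentiableOn (by simp)).differentiableAt (isOpen_UH.mem_nhds hz)
  exact h2.clm_apply (differentiableAt_const v)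

theorem GF_aux_lin_GF_facts {f g : ℂ → ℝ} (hf : ContDiffOn ℝ ∞ f UH) (hg : ContDiffOn ℝ ∞ g UH) (a b : ℝ)
    {z : ℂ} (hz : z ∈ UH) : lap (fun w => a * f w + b * g w) z = a * lap f z + b * lap g z := by
  have h1 : ∀ w ∈ UH, ∀ v : ℂ, fderiv ℝ (fun w => a * f w + b * g w) w v =
      a * fderiv ℝ f w v + b * fderiv ℝ g w v := by
    intro w hw v
    have e1 := ((GF_aux_pt_GF_facts hf hw).hasFDerivAt.const_mul a).add
      ((GF_aux_pt_GF_facts hg hw).hasFDerivAt.const_mul b)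
    have e2 : HasFDerivAt (fun w => a * f w + b * g w)
      (a • fderiv ℝ f w + b • fderiv ℝ g w) w := e1
    rw [e2.fderiv]
    simp
  have h2 : ∀ v : ℂ, fderiv ℝ (fun w => fderiv ℝ (fun w => a * f w + b * g w) w v) z v =
      a * fderiv ℝ (fun w => fderiv ℝ f w v) z v + b * fderiv ℝ (fun w => fderiv ℝ g w v) z v := by
    intro v
    have e0 : (fun w => fderiv ℝ (fun w => a * f w + b * g w) w v) =ᶠ[𝓝 z]
        fun w => a * fderiv ℝ f w v + b * fderiv ℝ g w v := by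
      filter_upwards [isOpen_UH.mem_nhds hz] with w hw using h1 w hw v
    rw [e0.fderiv_eq]
    have e1 := ((GF_aux_pt2_GF_facts hf v hz).hasFDerivAt.const_mul a).add
      ((GF_aux_pt2_GF_facts hg v hz).hasFDerivAt.const_mul b)
    have e2 : HasFDerivAt (fun w => a * fderiv ℝ f w v + b * fderiv ℝ g w v)
      (a • fderiv ℝ (fun w => fderiv ℝ f w v) z + b • fderiv ℝ (fun w => fderiv ℝ g w v) z) z := e1
    rw [e2.fderiv]
    simp
  unfold lap
  rw [h2 1, h2 I]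
  ring

theorem GF_aux_congr_GF_facts {f g : ℂ → ℝ} {z : ℂ} (hz : z ∈ UH) (h : ∀ w ∈ UH, f w = g w) :
    lap f z = lap g z := by
  have h1 : ∀ w ∈ UH, ∀ v : ℂ, fderiv ℝ f w v = fderiv ℝ g w v := by
    intro w hw v
    have e0 : f =ᶠ[𝓝 w] g := by
      filter_upwards [isOpen_UH.mem_nhds hw] with u hu using h u hu
    rw [e0.fderiv_eq]
  have h2 : ∀ v : ℂ, fderiv ℝ (fun w => fderiv ℝ f w v) z = fderiv ℝ (fun w => fderiv ℝ g w v) z := by
    intro v
    have e0 : (fun w => fderiv ℝ f w v) =ᶠ[𝓝 z] fun w => fderiv ℝ g w v := by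
      filter_upwards [isOpen_UH.mem_nhds hz] with u hu using h1 u hu v
    rw [e0.fderiv_eq]
  unfold lap
  rw [h2 1, h2 I]

theorem GF_contDiff {Γ : Subgroup SL2R} {F : ℂ → ℝ} (hF : ContDiffOn ℝ ∞ F UH) {ε : ℝ}
    (hm : ConfMetric Γ (mF F ε)) : ContDiffOn ℝ ∞ (GF F ε) UH := by
  have h1 : ContDiffOn ℝ ∞ (fun z => mF F ε z / hyp z) UH :=
    hm.smooth.div (hyp_conf Γ).smooth fun z hz => ((hyp_conf Γ).pos z hz).ne'
  have h2 : ContDiffOn ℝ ∞ (fun z => Real.log (mF F ε z / hyp z)) UH :=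
    h1.log fun z hz => (div_pos (hm.pos z hz) ((hyp_conf Γ).pos z hz)).ne'
  exact (contDiffOn_const.mul hF).sub h2

theorem GF_inv {Γ : Subgroup SL2R} {F : ℂ → ℝ} (hF : ContDiffOn ℝ ∞ F UH)
    (hinv : ∀ g ∈ Γ, ∀ z ∈ UH, F (mob g z) = F z) {ε : ℝ} (hm : ConfMetric Γ (mF F ε)) :
    ∀ g ∈ Γ, ∀ z ∈ UH, GF F ε (mob g z) = GF F ε z := by
  intro g hg z hz
  unfold GF
  have hd : ‖den g z‖ ^ 4 ≠ 0 := pow_ne_zero _ (norm_ne_zero_iff.2 (den_ne_zero g hz))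
  rw [hinv g hg z hz, hm.equiv g hg z hz, (hyp_conf Γ).equiv g hg z hz,
    mul_div_mul_right _ _ hd]

theorem GF_lap {Γ : Subgroup SL2R} {F : ℂ → ℝ} (hF : ContDiffOn ℝ ∞ F UH) {ε : ℝ}
    (hm : ConfMetric Γ (mF F ε)) {z : ℂ} (hz : z ∈ UH) :
    lap (GF F ε) z / mF F ε z = 2 * (curv (mF F ε) z + 1) := by
  have hhyp := hyp_conf Γ
  have hsm := contDiffOn_Lm hm
  have hsh := contDiffOn_Lm hhyp
  have hmul : ContDiffOn ℝ ∞ (fun w => (-1 : ℝ) * Lm (mF F ε) w + 1 * Lm hyp w) UH :=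
    (contDiffOn_const.mul hsm).add (contDiffOn_const.mul hsh)
  have h1 : ∀ w ∈ UH, GF F ε w =
      (fun w => ε * F w + 1 * ((-1 : ℝ) * Lm (mF F ε) w + 1 * Lm hyp w)) w := by
    intro w hw
    unfold GF Lm
    rw [Real.log_div (hm.pos w hw).ne' (hhyp.pos w hw).ne']
    ring
  have h2 : lap (GF F ε) z = ε * lap F z + (-lap (Lm (mF F ε)) z + lap (Lm hyp) z) := by
    rw [GF_aux_congr_GF_facts hz h1, GF_aux_lin_GF_facts hF hmul ε 1 hz, GF_aux_lin_GF_facts hsm hsh (-1) 1 hz]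
    ring
  have hp := hm.pos z hz
  have hph := hhyp.pos z hz
  have h3 : lap (Lm hyp) z = 2 * hyp z := by
    have := curv_hyp hz
    unfold curv at this
    rw [div_eq_iff (by positivity)] at this
    linarith
  have h4 : mF F ε z = hyp z + ε / 2 * lap F z := rfl
  unfold curv
  rw [h2, h3]
  field_simp
  rw [h4]
  ring

end Pool.Agent.Helper131.CG
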