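import Pool.Agent.Helper131.CG.Base
import Pool.Agent.Helper131.CG.L_pz_equiv

namespace Pool.Agent.Helper131.CG

open Complex MeasureTheory Set Filter Topology
open scoped ContDiff

theorem fderiv_equiv {Γ : Subgroup SL2R} {v : ℂ → ℂ} (hv : ContDiffOn ℝ 1 v UH)
    (heq : ∀ g ∈ Γ, ∀ z ∈ UH, v (mob g z) = v z / den g z ^ 2) {g : SL2R} (hg : g ∈ Γ)
    {z : ℂ} (hz : z ∈ UH) (w : ℂ) :
    fderiv ℝ v (mob g z) w = fderiv ℝ v z (den g z ^ 2 * w) / den g z ^ 2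
      - 2 * (g 1 0 : ℂ) * v z * w / den g z := by
  have hd := den_ne_zero g hz
  have hvd : ∀ y ∈ UH, DifferentiableAt ℝ v y := fun y hy =>
    (hv.differentiableOn (by norm_num)).differentiableAt (isOpen_UH.mem_nhds hy)
  have hmob : DifferentiableAt ℝ (mob g) z := (hasDerivAt_mob g hz).differentiableAt.restrictScalars ℝ
  have h1 : HasFDerivAt (fun ζ => v (mob g ζ)) ((fderiv ℝ v (mob g z)).comp (fderiv ℝ (mob g) z)) z :=
    (hvd _ (mob_mem g hz)).hasFDerivAt.comp z hmob.hasFDerivAt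
  have hinv : HasDerivAt (fun ζ => (den g ζ ^ 2)⁻¹) (-(2 * den g z * (g 1 0 : ℂ)) / (den g z ^ 2) ^ 2) z := by
    have := ((hasDerivAt_den g z).pow 2).inv (pow_ne_zero 2 hd)
    refine HasDerivAt.congr_deriv this ?_
    simp
  have h2 := (hvd z hz).hasFDerivAt.mul' (hinv.hasFDerivAt.restrictScalars ℝ)
  have hev : (fun ζ => v (mob g ζ)) =ᶠ[𝓝 z] (v * fun ζ => (den g ζ ^ 2)⁻¹) := by
    filter_upwards [isOpen_UH.mem_nhds hz] with ζ hζ
    rw [heq g hg ζ hζ, div_eq_mul_inv]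
    rfl
  have h3 := (h2.congr_of_eventuallyEq hev).unique h1
  have h4 := congrArg (fun T : ℂ →L[ℝ] ℂ => T (den g z ^ 2 * w)) h3
  simp only [ContinuousLinearMap.add_apply, ContinuousLinearMap.comp_apply] at h4
  rw [fderiv_mob g hz] at h4
  rw [mul_div_cancel_left₀ _ (pow_ne_zero 2 hd)] at h4
  rw [← h4]
  simp
  field_simp
  ring

theorem cov_equiv {Γ : Subgroup SL2R} {m : ℂ → ℝ} (hm : ConfMetric Γ m) {v : ℂ → ℂ}
    (hv : ContDiffOn ℝ 1 v UH)
    (heq : ∀ g ∈ Γ, ∀ z ∈ UH, v (mob g z) = v z / den g z ^ 2) :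
    ∀ g ∈ Γ, ∀ z ∈ UH, cov m v v (mob g z) = cov m v v z / den g z ^ 2 := by
  intro g hg z hz
  have hd := den_ne_zero g hz
  unfold cov
  rw [fderiv_equiv hv heq hg hz, pz_equiv hm hg hz, heq g hg z hz,
    mul_div_cancel₀ (v z) (pow_ne_zero 2 hd)]
  field_simp
  ring

theorem fderiv_re_im_field_equiv {v : ℂ → ℂ} (z w : ℂ) :
    fderiv ℝ v z w = (w.re : ℂ) * fderiv ℝ v z 1 + (w.im : ℂ) * fderiv ℝ v z I := by
  conv_lhs => rw [← Complex.re_add_im w]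
  have e1 : ((w.re : ℂ) + (w.im : ℂ) * I) = w.re • (1 : ℂ) + w.im • I := by
    simp
  rw [e1, map_add, map_smul, map_smul]
  simp

theorem vort_inv {Γ : Subgroup SL2R} {m : ℂ → ℝ} (hm : ConfMetric Γ m) {v : ℂ → ℂ}
    (hv : ContDiffOn ℝ 1 v UH)
    (heq : ∀ g ∈ Γ, ∀ z ∈ UH, v (mob g z) = v z / den g z ^ 2) :
    ∀ g ∈ Γ, ∀ z ∈ UH, vort m v (mob g z) = vort m v z := by
  intro g hg z hz
  have hd := den_ne_zero g hz
  have key : ∀ y, vort m v y = (fderiv ℝ v y 1 - I * fderiv ℝ v y I + 2 * (pz m y * v y)).im := by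
    intro y
    unfold vort
    simp
  rw [key, key]
  congr 1
  rw [fderiv_equiv hv heq hg hz, fderiv_equiv hv heq hg hz, pz_equiv hm hg hz, heq g hg z hz,
    fderiv_re_im_field_equiv z (den g z ^ 2 * 1), fderiv_re_im_field_equiv z (den g z ^ 2 * I)]
  have e1 : ((den g z ^ 2 * 1).re : ℂ) + ((den g z ^ 2 * 1).im : ℂ) * I = den g z ^ 2 := by
    rw [Complex.re_add_im, mul_one]
  have e2 : (den g z ^ 2 * I).re = - (den g z ^ 2 * 1).im := by simp
  have e3 : (den g z ^ 2 * I).im = (den g z ^ 2 * 1).re := by simp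
  rw [e2, e3]
  push_cast
  generalize ((den g z ^ 2 * 1).re : ℂ) = p at e1 ⊢
  generalize ((den g z ^ 2 * 1).im : ℂ) = q at e1 ⊢
  generalize fderiv ℝ v z 1 = a
  generalize fderiv ℝ v z I = b
  have hI : I ^ 2 = -1 := Complex.I_sq
  have e4 : (p * a + q * b) - I * (-q * a + p * b) = den g z ^ 2 * (a - I * b) := by
    rw [← e1]
    linear_combination (q * b) * hI
  have e5 : (p * a + q * b) / den g z ^ 2 - I * ((-q * a + p * b) / den g z ^ 2) = a - I * b := by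
    rw [← mul_div_assoc, ← sub_div, e4, mul_div_cancel_left₀ _ (pow_ne_zero 2 hd)]
  have e6 : (p * a + q * b) / den g z ^ 2 - 2 * (g 1 0 : ℂ) * v z * 1 / den g z -
        I * ((-q * a + p * b) / den g z ^ 2 - 2 * (g 1 0 : ℂ) * v z * I / den g z)
      = a - I * b - 4 * (g 1 0 : ℂ) * v z / den g z := by
    rw [← e5]
    have : I * (2 * (g 1 0 : ℂ) * v z * I / den g z) = - (2 * (g 1 0 : ℂ) * v z / den g z) := by
      rw [show I * (2 * (g 1 0 : ℂ) * v z * I / den g z) = I ^ 2 * (2 * (g 1 0 : ℂ) * v z / den g z) by ring, hI]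
      ring
    rw [mul_sub, this]
    ring
  rw [e6]
  field_simp
  ring

theorem dbar_inv {Γ : Subgroup SL2R} {v : ℂ → ℂ} (hv : ContDiffOn ℝ 1 v UH)
    (heq : ∀ g ∈ Γ, ∀ z ∈ UH, v (mob g z) = v z / den g z ^ 2) :
    ∀ g ∈ Γ, ∀ z ∈ UH, ‖dbar v (mob g z)‖ = ‖dbar v z‖ := by
  intro g hg z hz
  have hd := den_ne_zero g hz
  unfold dbar
  rw [fderiv_equiv hv heq hg hz, fderiv_equiv hv heq hg hz,
    fderiv_re_im_field_equiv z (den g z ^ 2 * 1), fderiv_re_im_field_equiv z (den g z ^ 2 * I)]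
  have e1 : ((den g z ^ 2 * 1).re : ℂ) - ((den g z ^ 2 * 1).im : ℂ) * I
      = (starRingEnd ℂ) (den g z ^ 2) := by
    generalize den g z ^ 2 = D
    apply Complex.ext <;> simp
  have e2 : (den g z ^ 2 * I).re = - (den g z ^ 2 * 1).im := by simp
  have e3 : (den g z ^ 2 * I).im = (den g z ^ 2 * 1).re := by simp
  rw [e2, e3]
  push_cast
  generalize ((den g z ^ 2 * 1).re : ℂ) = p at e1 ⊢
  generalize ((den g z ^ 2 * 1).im : ℂ) = q at e1 ⊢
  generalize fderiv ℝ v z 1 = a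
  generalize fderiv ℝ v z I = b
  have hI : I ^ 2 = -1 := Complex.I_sq
  have e6 : (p * a + q * b) / den g z ^ 2 - 2 * (g 1 0 : ℂ) * v z * 1 / den g z +
        I * ((-q * a + p * b) / den g z ^ 2 - 2 * (g 1 0 : ℂ) * v z * I / den g z)
      = ((starRingEnd ℂ) (den g z ^ 2)) * (a + I * b) / den g z ^ 2 := by
    rw [← e1]
    have h1 : I * (2 * (g 1 0 : ℂ) * v z * I / den g z) = - (2 * (g 1 0 : ℂ) * v z / den g z) := by
      rw [show I * (2 * (g 1 0 : ℂ) * v z * I / den g z) = I ^ 2 * (2 * (g 1 0 : ℂ) * v z / den g z) by ring, hI]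
      ring
    have h2 : (p - q * I) * (a + I * b) = (p * a + q * b) + I * (-q * a + p * b) := by
      linear_combination (-q * b) * hI
    rw [mul_sub, h1, h2]
    ring
  rw [e6]
  rw [norm_div, norm_div, norm_div, norm_mul, RCLike.norm_conj]
  have : ‖den g z ^ 2‖ ≠ 0 := norm_ne_zero_iff.2 (pow_ne_zero 2 hd)
  rw [mul_div_cancel_left₀ _ this]

theorem norm_inv {Γ : Subgroup SL2R} {m : ℂ → ℝ} (hm : ConfMetric Γ m) {v : ℂ → ℂ}
    (heq : ∀ g ∈ Γ, ∀ z ∈ UH, v (mob g z) = v z / den g z ^ 2) :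
    ∀ g ∈ Γ, ∀ z ∈ UH, m (mob g z) * ‖v (mob g z)‖ ^ 2 = m z * ‖v z‖ ^ 2 := by
  intro g hg z hz
  have hd : ‖den g z‖ ≠ 0 := norm_ne_zero_iff.2 (den_ne_zero g hz)
  rw [hm.equiv g hg z hz, heq g hg z hz, norm_div, norm_pow]
  field_simp

end Pool.Agent.Helper131.CG
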