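import Pool.Agent.Helper131.CG.Base
import Pool.Agent.Helper131.CG.L_field_equiv
import Pool.Agent.Helper131.CG.L_mF_def
import Pool.Agent.Helper131.CG.L_pz_equiv

namespace Pool.Agent.Helper131.CG

open Complex MeasureTheory Set Filter Topology
open scoped ContDiff

theorem covX_equiv {Γ : Subgroup SL2R} {m : ℂ → ℝ} (hm : ConfMetric Γ m) {X : ℂ → ℂ}
    (hX : ContDiffOn ℝ 1 X UH) (heq : ∀ g ∈ Γ, ∀ z ∈ UH, X (mob g z) = X z / den g z ^ 2)
    {g : SL2R} (hg : g ∈ Γ) {z : ℂ} (hz : z ∈ UH) (v : ℂ) :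
    covX m X (mob g z) (v / den g z ^ 2) = covX m X z v / den g z ^ 2 := by
  have hd : den g z ≠ 0 := den_ne_zero g hz
  have e : den g z ^ 2 * (v / den g z ^ 2) = v := mul_div_cancel₀ v (pow_ne_zero 2 hd)
  unfold covX
  rw [fderiv_equiv hX heq hg hz, pz_equiv hm hg hz, heq g hg z hz, e]
  field_simp
  ring

end Pool.Agent.Helper131.CG
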