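import Pool.Agent.Helper131.CG.Base
import Pool.Agent.Helper131.CG.L_grad_facts
import Pool.Agent.Helper131.CG.L_hyp_metric
import Pool.Agent.Helper131.CG.L_mF_def

namespace Pool.Agent.Helper131.CG

open Complex MeasureTheory Set Filter Topology
open scoped ContDiff

theorem lap_contDiffOn_aux_mF_metric {F : ℂ → ℝ} (hF : ContDiffOn ℝ ∞ F UH) :
    ContDiffOn ℝ ∞ (lap F) UH := by
  have h1 : ContDiffOn ℝ ∞ (fderiv ℝ F) UH := hF.fderiv_of_isOpen isOpen_UH (by simp)
  have h2 : ∀ v : ℂ, ContDiffOn ℝ ∞ (fun w => fderiv ℝ F w v) UH := fun v =>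
    h1.clm_apply contDiffOn_const
  have h3 : ∀ v : ℂ, ContDiffOn ℝ ∞ (fun z => fderiv ℝ (fun w => fderiv ℝ F w v) z v) UH :=
    fun v => ((h2 v).fderiv_of_isOpen isOpen_UH (m := ∞) (by simp)).clm_apply contDiffOn_const
  exact (h3 1).add (h3 I)

theorem mF_conf {Γ : Subgroup SL2R} (hΓ : SurfaceGroup Γ) {F : ℂ → ℝ}
    (hF : ContDiffOn ℝ ∞ F UH) (hinv : ∀ g ∈ Γ, ∀ z ∈ UH, F (mob g z) = F z) :
    ∃ ε₁ : ℝ, 0 < ε₁ ∧ ∀ ε : ℝ, |ε| < ε₁ → ConfMetric Γ (mF F ε) := by
  have hh := hyp_conf Γ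
  have hlap := lap_contDiffOn_aux_mF_metric hF
  have hle := lap_equiv hF hinv
  obtain ⟨K, hK, hKU, hKc⟩ := hΓ.cocompact
  have hb : ContinuousOn (fun z => lap F z / hyp z) K :=
    (hlap.continuousOn.mono hKU).div (hh.smooth.continuousOn.mono hKU)
      (fun z hz => (hh.pos z (hKU hz)).ne')
  obtain ⟨B, hB⟩ := hK.exists_bound_of_continuousOn hb
  have hB2 : ∀ z ∈ UH, |lap F z / hyp z| ≤ |B| := by
    intro z hz
    obtain ⟨g, hg, hgz⟩ := hKc z hz
    have e1 := hB _ hgz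
    simp only [Real.norm_eq_abs] at e1
    have e2 : lap F (mob g z) / hyp (mob g z) = lap F z / hyp z := by
      rw [hle g hg z hz, hh.equiv g hg z hz]
      have h1 : ‖den g z‖ ^ 4 ≠ 0 := pow_ne_zero _ (norm_ne_zero_iff.2 (den_ne_zero g hz))
      have h2 : hyp z ≠ 0 := (hh.pos z hz).ne'
      rw [mul_comm (hyp z), mul_div_mul_left _ _ h1]
    rw [e2] at e1
    exact e1.trans (le_abs_self B)
  have hB0 : 0 < |B| + 1 := by positivity
  refine ⟨1 / (|B| + 1), by positivity, fun ε hε => ⟨?_, ?_, ?_⟩⟩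
  · exact hh.smooth.add (contDiffOn_const.mul hlap)
  · intro z hz
    have hp := hh.pos z hz
    have e : mF F ε z = hyp z * (1 + ε / 2 * (lap F z / hyp z)) := by
      unfold mF
      field_simp
    rw [e]
    apply mul_pos hp
    have h1 : |ε / 2 * (lap F z / hyp z)| < 1 := by
      rw [abs_mul, abs_div, abs_two]
      have h2 := hB2 z hz
      rw [lt_div_iff₀ hB0] at hε
      have h3 : |ε| / 2 * |lap F z / hyp z| ≤ |ε| / 2 * |B| :=
        mul_le_mul_of_nonneg_left h2 (by positivity)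
      have h4 : |ε| / 2 * |B| ≤ |ε| * (|B| + 1) := by
        have h5 : 0 ≤ |ε| := abs_nonneg _
        have h6 : 0 ≤ |B| := abs_nonneg _
        have h7 : 0 ≤ |ε| * |B| := mul_nonneg h5 h6
        linarith [h7, h5]
      linarith
    have := (abs_lt.1 h1).1
    linarith
  · intro g hg z hz
    unfold mF
    rw [hle g hg z hz, hh.equiv g hg z hz]
    ring

end Pool.Agent.Helper131.CG
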