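import Pool.Agent.Helper131.CG.Base
import Pool.Agent.Helper131.CG.L_grad_facts
import Pool.Agent.Helper131.CG.L_hyp_metric
import Pool.Agent.Helper131.CG.L_mF_def
import Pool.Agent.Helper131.CG.L_smooth_facts

namespace Pool.Agent.Helper131.CG

open Complex MeasureTheory Set Filter Topology
open scoped ContDiff

theorem pos_local_aux_slice_pos_local {G : Type*} [NormedAddCommGroup G] [NormedSpace ℝ G]
    {h : ℝ × ℂ → G} {q₀ : ℝ × ℂ} (hh : ContDiffAt ℝ ∞ h q₀) :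
    ContDiffAt ℝ ∞ (fun q : ℝ × ℂ => fderiv ℝ (fun w => h (q.1, w)) q.2) q₀ := by
  have h1 : ContDiffAt ℝ ∞ (Function.uncurry (fun (q : ℝ × ℂ) (w : ℂ) => h (q.1, w)))
      (q₀, q₀.2) := by
    have h2 : ContDiffAt ℝ ∞ (fun r : (ℝ × ℂ) × ℂ => (r.1.1, r.2)) (q₀, q₀.2) := by
      fun_prop
    exact ContDiffAt.comp (q₀, q₀.2) (g := h) (f := fun r : (ℝ × ℂ) × ℂ => (r.1.1, r.2)) hh h2
  exact ContDiffAt.fderiv (n := ∞) h1 contDiffAt_snd (by simp)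

theorem pos_local_aux_fderiv_pos_local {F : ℂ → ℝ} {z₀ : ℂ} (hF : ContDiffAt ℝ ∞ F z₀) (c : ℂ) :
    ContDiffAt ℝ ∞ (fun z => fderiv ℝ F z c) z₀ :=
  (hF.fderiv_right (m := ∞) (by simp)).clm_apply contDiffAt_const

theorem pos_local_aux_lap_pos_local {F : ℂ → ℝ} {z₀ : ℂ} (hF : ContDiffAt ℝ ∞ F z₀) :
    ContDiffAt ℝ ∞ (lap F) z₀ := by
  unfold lap
  exact (pos_local_aux_fderiv_pos_local (pos_local_aux_fderiv_pos_local hF 1) 1).add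
    (pos_local_aux_fderiv_pos_local (pos_local_aux_fderiv_pos_local hF I) I)

theorem pos_local_aux_mF_pos_local {F : ℂ → ℝ} {ε : ℝ} {z₀ : ℂ} (hz : z₀ ∈ UH)
    (hF : ContDiffAt ℝ ∞ F z₀) :
    ContDiffAt ℝ ∞ (fun q : ℝ × ℂ => mF F q.1 q.2) (ε, z₀) := by
  unfold mF
  have h1 : ContDiffAt ℝ ∞ hyp z₀ :=
    (hyp_conf ⊥).smooth.contDiffAt (isOpen_UH.mem_nhds hz)
  have h2 : ContDiffAt ℝ ∞ (fun q : ℝ × ℂ => hyp q.2) (ε, z₀) :=
    ContDiffAt.comp (ε, z₀) (g := hyp) (f := Prod.snd) h1 contDiffAt_snd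
  have h3 : ContDiffAt ℝ ∞ (fun q : ℝ × ℂ => lap F q.2) (ε, z₀) :=
    ContDiffAt.comp (ε, z₀) (g := lap F) (f := Prod.snd) (pos_local_aux_lap_pos_local hF) contDiffAt_snd
  exact h2.add ((contDiffAt_fst.div_const 2).mul h3)

theorem pos_local_aux_hyp_pos_local {z₀ : ℂ} (hz : z₀ ∈ UH) : hyp z₀ ≠ 0 :=
  ((hyp_conf ⊥).pos z₀ hz).ne'

theorem pos_local_aux_mF0_pos_local (F : ℂ → ℝ) : mF F 0 = hyp := by
  funext z
  unfold mF
  ring

theorem pos_local_aux_GF0_pos_local (F : ℂ → ℝ) : GF F 0 = fun _ => 0 := by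
  funext z
  unfold GF
  rw [pos_local_aux_mF0_pos_local]
  by_cases h : hyp z = 0
  · rw [h]; simp
  · rw [div_self h]; simp

theorem pos_local_aux_GF_pos_local {F : ℂ → ℝ} {z₀ : ℂ} (hz : z₀ ∈ UH) (hF : ContDiffAt ℝ ∞ F z₀) :
    ContDiffAt ℝ ∞ (fun q : ℝ × ℂ => GF F q.1 q.2) (0, z₀) := by
  unfold GF
  have h1 : ContDiffAt ℝ ∞ hyp z₀ :=
    (hyp_conf ⊥).smooth.contDiffAt (isOpen_UH.mem_nhds hz)
  have h2 : ContDiffAt ℝ ∞ (fun q : ℝ × ℂ => hyp q.2) (0, z₀) :=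
    ContDiffAt.comp (0, z₀) (g := hyp) (f := Prod.snd) h1 contDiffAt_snd
  have h3 : ContDiffAt ℝ ∞ (fun q : ℝ × ℂ => F q.2) (0, z₀) :=
    ContDiffAt.comp (0, z₀) (g := F) (f := Prod.snd) hF contDiffAt_snd
  have hne := pos_local_aux_hyp_pos_local hz
  refine (contDiffAt_fst.mul h3).sub (ContDiffAt.log ?_ ?_)
  · exact (pos_local_aux_mF_pos_local hz hF).div h2 hne
  · change mF F 0 z₀ / hyp z₀ ≠ 0
    rw [pos_local_aux_mF0_pos_local, div_self hne]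
    exact one_ne_zero

theorem pos_local_aux_cast_pos_local {g : ℝ × ℂ → ℝ} {q : ℝ × ℂ} (hg : ContDiffAt ℝ ∞ g q) :
    ContDiffAt ℝ ∞ (fun q => (g q : ℂ)) q :=
  Complex.ofRealCLM.contDiff.contDiffAt.comp q hg

theorem pos_local_aux_X_pos_local {F : ℂ → ℝ} {z₀ : ℂ} (hz : z₀ ∈ UH) (hF : ContDiffAt ℝ ∞ F z₀) :
    ContDiffAt ℝ ∞ (fun q : ℝ × ℂ => grad (mF F q.1) (GF F q.1) q.2) (0, z₀) := by
  unfold grad
  have h1 := pos_local_aux_slice_pos_local (pos_local_aux_GF_pos_local hz hF)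
  have h2 : ∀ c : ℂ, ContDiffAt ℝ ∞
      (fun q : ℝ × ℂ => (((fderiv ℝ (GF F q.1) q.2 c : ℝ)) : ℂ)) (0, z₀) :=
    fun c => pos_local_aux_cast_pos_local (h1.clm_apply contDiffAt_const)
  have h3 : ContDiffAt ℝ ∞ (fun q : ℝ × ℂ => ((mF F q.1 q.2 : ℝ) : ℂ)) (0, z₀) :=
    pos_local_aux_cast_pos_local (pos_local_aux_mF_pos_local hz hF)
  have h4 : ((mF F (0 : ℝ) z₀ : ℝ) : ℂ) ≠ 0 := by
    rw [pos_local_aux_mF0_pos_local]
    exact_mod_cast pos_local_aux_hyp_pos_local hz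
  simp only [div_eq_mul_inv]
  exact ((h2 1).add ((h2 I).mul contDiffAt_const)).mul
    (ContDiffAt.inv (f := fun q : ℝ × ℂ => ((mF F q.1 q.2 : ℝ) : ℂ)) h3 h4)

theorem pos_local_aux_pz_pos_local {F : ℂ → ℝ} {z₀ : ℂ} (hz : z₀ ∈ UH) (hF : ContDiffAt ℝ ∞ F z₀) :
    ContDiffAt ℝ ∞ (fun q : ℝ × ℂ => pz (mF F q.1) q.2) (0, z₀) := by
  unfold pz Lm
  have h0 : ContDiffAt ℝ ∞ (fun q : ℝ × ℂ => Real.log (mF F q.1 q.2)) (0, z₀) := by
    refine (pos_local_aux_mF_pos_local hz hF).log ?_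
    change mF F 0 z₀ ≠ 0
    rw [pos_local_aux_mF0_pos_local]
    exact pos_local_aux_hyp_pos_local hz
  have h1 := pos_local_aux_slice_pos_local h0
  have h2 : ∀ c : ℂ, ContDiffAt ℝ ∞
      (fun q : ℝ × ℂ => (((fderiv ℝ (fun z => Real.log (mF F q.1 z)) q.2 c : ℝ)) : ℂ)) (0, z₀) :=
    fun c => pos_local_aux_cast_pos_local (h1.clm_apply contDiffAt_const)
  simp only [div_eq_mul_inv]
  exact ((h2 1).sub ((h2 I).mul contDiffAt_const)).mul contDiffAt_const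

theorem pos_local {F : ℂ → ℝ} (hF : ContDiffOn ℝ ∞ F UH) {K : Set ℂ} (hK : IsCompact K)
    (hKU : K ⊆ UH) :
    ∃ ε₂ : ℝ, 0 < ε₂ ∧ ∀ ε : ℝ, |ε| < ε₂ → ∀ z ∈ K, ∀ v : ℂ, v ≠ 0 →
      0 < ‖v‖ ^ 2 +
        ((starRingEnd ℂ) v * covX (mF F ε) (grad (mF F ε) (GF F ε)) z v).re := by
  have key : ∀ᶠ ε in 𝓝 (0 : ℝ), ∀ z ∈ K,
      ‖fderiv ℝ (grad (mF F ε) (GF F ε)) z‖ +
        ‖pz (mF F ε) z‖ * ‖grad (mF F ε) (GF F ε) z‖ < 1 := by
    apply hK.eventually_forall_of_forall_eventually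
    intro z₀ hz₀
    have hz : z₀ ∈ UH := hKU hz₀
    have hFz : ContDiffAt ℝ ∞ F z₀ := hF.contDiffAt (isOpen_UH.mem_nhds hz)
    have c1 : ContinuousAt (fun q : ℝ × ℂ => grad (mF F q.1) (GF F q.1) q.2) (0, z₀) :=
      (pos_local_aux_X_pos_local hz hFz).continuousAt
    have c2 : ContinuousAt (fun q : ℝ × ℂ => fderiv ℝ (grad (mF F q.1) (GF F q.1)) q.2) (0, z₀) :=
      (pos_local_aux_slice_pos_local (pos_local_aux_X_pos_local hz hFz)).continuousAt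
    have c3 : ContinuousAt (fun q : ℝ × ℂ => pz (mF F q.1) q.2) (0, z₀) :=
      (pos_local_aux_pz_pos_local hz hFz).continuousAt
    have c4 : ContinuousAt (fun q : ℝ × ℂ => ‖fderiv ℝ (grad (mF F q.1) (GF F q.1)) q.2‖ +
        ‖pz (mF F q.1) q.2‖ * ‖grad (mF F q.1) (GF F q.1) q.2‖) (0, z₀) :=
      c2.norm.add (c3.norm.mul c1.norm)
    have e0 : grad (mF F 0) (GF F 0) = fun _ => 0 := by
      funext z
      rw [pos_local_aux_GF0_pos_local]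
      unfold grad
      simp
    have e1 : ‖fderiv ℝ (grad (mF F 0) (GF F 0)) z₀‖ +
        ‖pz (mF F 0) z₀‖ * ‖grad (mF F 0) (GF F 0) z₀‖ < 1 := by
      rw [e0]
      simp
    exact c4.eventually_lt_const e1
  obtain ⟨ε₂, hε₂, hb⟩ := Metric.eventually_nhds_iff.mp key
  refine ⟨ε₂, hε₂, ?_⟩
  intro ε hε z hz v hv
  have h1 := hb (y := ε) (by rw [Real.dist_eq, sub_zero]; exact hε) z hz
  have hv' : 0 < ‖v‖ := norm_pos_iff.mpr hv
  have h2 : ‖covX (mF F ε) (grad (mF F ε) (GF F ε)) z v‖ ≤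
      (‖fderiv ℝ (grad (mF F ε) (GF F ε)) z‖ +
        ‖pz (mF F ε) z‖ * ‖grad (mF F ε) (GF F ε) z‖) * ‖v‖ := by
    unfold covX
    refine (norm_add_le _ _).trans ?_
    have h3 := ContinuousLinearMap.le_opNorm (fderiv ℝ (grad (mF F ε) (GF F ε)) z) v
    rw [norm_mul, norm_mul]
    linarith
  have h3 : ‖(starRingEnd ℂ) v * covX (mF F ε) (grad (mF F ε) (GF F ε)) z v‖ < ‖v‖ ^ 2 := by
    rw [norm_mul, RCLike.norm_conj]
    have h4 : ‖covX (mF F ε) (grad (mF F ε) (GF F ε)) z v‖ < ‖v‖ := by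
      refine lt_of_le_of_lt h2 ?_
      have := mul_lt_mul_of_pos_right h1 hv'
      linarith
    have := mul_lt_mul_of_pos_left h4 hv'
    rw [sq]; exact this
  have h4 := Complex.abs_re_le_norm
    ((starRingEnd ℂ) v * covX (mF F ε) (grad (mF F ε) (GF F ε)) z v)
  have h5 := neg_abs_le
    ((starRingEnd ℂ) v * covX (mF F ε) (grad (mF F ε) (GF F ε)) z v).re
  linarith

end Pool.Agent.Helper131.CG
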