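import Pool.Agent.Helper131.CG.GenFlow
import Pool.Agent.Helper131.CG.L_mF_def
import Pool.Agent.Helper131.CG.L_grad_facts
import Pool.Agent.Helper131.CG.L_covX_equiv
import Pool.Agent.Helper131.CG.L_mF_metric
import Pool.Agent.Helper131.CG.L_GF_facts
import Pool.Agent.Helper131.CG.L_pos_local

namespace Pool.Agent.Helper131.CG

open Complex MeasureTheory Set Filter Topology
open scoped ContDiff

theorem family {Γ : Subgroup SL2R} (hΓ : SurfaceGroup Γ) {F : ℂ → ℝ}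
    (hF : ContDiffOn ℝ ∞ F UH) (hinv : ∀ g ∈ Γ, ∀ z ∈ UH, F (mob g z) = F z) :
    ∃ ε₀ : ℝ, 0 < ε₀ ∧ ∀ ε : ℝ, |ε| < ε₀ → ConfMetric Γ (mF F ε) ∧
      VirialField Γ (mF F ε) 1 (grad (mF F ε) (GF F ε)) := by
  obtain ⟨ε₁, h1, hm⟩ := mF_conf hΓ hF hinv
  obtain ⟨K, hK, hKU, hcov⟩ := hΓ.cocompact
  obtain ⟨ε₂, h2, hpos⟩ := pos_local hF hK hKU
  refine ⟨min ε₁ ε₂, lt_min h1 h2, fun ε hε => ?_⟩
  have hm' := hm ε (lt_of_lt_of_le hε (min_le_left _ _))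
  have hG := GF_contDiff hF hm'
  have hGi := GF_inv hF hinv hm'
  have hX : ContDiffOn ℝ 1 (grad (mF F ε) (GF F ε)) UH := (grad_contDiff hm' hG).of_le (by simp)
  have hXe := grad_equiv hm' hG hGi
  refine ⟨hm', hX, hXe, ?_, ?_⟩
  · intro z hz
    rw [dvg_grad hm' hG hz, GF_lap hF hm' hz]
  · intro z hz v hv
    obtain ⟨g, hg, hgK⟩ := hcov z hz
    have hd := den_ne_zero g hz
    have hv' : v / den g z ^ 2 ≠ 0 := div_ne_zero hv (pow_ne_zero 2 hd)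
    have h3 := hpos ε (lt_of_lt_of_le hε (min_le_right _ _)) _ hgK _ hv'
    rw [covX_equiv hm' hX hXe hg hz v] at h3
    have h4 : (starRingEnd ℂ) (v / den g z ^ 2) *
        (covX (mF F ε) (grad (mF F ε) (GF F ε)) z v / den g z ^ 2) =
        ((1 / ‖den g z‖ ^ 4 : ℝ) : ℂ) * ((starRingEnd ℂ) v *
          covX (mF F ε) (grad (mF F ε) (GF F ε)) z v) := by
      have e1 : (den g z) * (starRingEnd ℂ) (den g z) = ((‖den g z‖ ^ 2 : ℝ) : ℂ) := by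
        rw [Complex.mul_conj, Complex.normSq_eq_norm_sq]
      have hd' : (starRingEnd ℂ) (den g z) ≠ 0 := by simpa using hd
      have e2 : ((‖den g z‖ ^ 4 : ℝ) : ℂ) = (den g z * (starRingEnd ℂ) (den g z)) ^ 2 := by
        rw [e1]; push_cast; ring
      rw [Complex.ofReal_div, e2, map_div₀, map_pow]
      push_cast
      field_simp
    rw [h4, Complex.re_ofReal_mul, norm_div, norm_pow] at h3
    have hdn : 0 < ‖den g z‖ := norm_pos_iff.2 hd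
    have h5 : (‖v‖ / ‖den g z‖ ^ 2) ^ 2 + 1 / ‖den g z‖ ^ 4 * ((starRingEnd ℂ) v *
        covX (mF F ε) (grad (mF F ε) (GF F ε)) z v).re = 1 / ‖den g z‖ ^ 4 * (1 * ‖v‖ ^ 2 +
        ((starRingEnd ℂ) v * covX (mF F ε) (grad (mF F ε) (GF F ε)) z v).re) := by
      field_simp
    rw [h5] at h3
    have h6 : 0 < 1 / ‖den g z‖ ^ 4 := by positivity
    exact (mul_pos_iff_of_pos_left h6).1 h3

/-- near-hyperbolic metrics have no closed geodesics -/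
theorem near_hyp {Γ : Subgroup SL2R} (hΓ : SurfaceGroup Γ) {F : ℂ → ℝ}
    (hF : ContDiffOn ℝ ∞ F UH) (hinv : ∀ g ∈ Γ, ∀ z ∈ UH, F (mob g z) = F z) :
    ∃ ε₀ : ℝ, 0 < ε₀ ∧ ∀ ε : ℝ, |ε| < ε₀ → ConfMetric Γ (mF F ε) ∧
      ∀ (η : ℝ → ℂ → ℂ), IsGeodesic Γ (mF F ε) η → ∀ T : ℝ, 0 < T →
        (∀ z ∈ UH, ∃ g ∈ Γ, η T z = mob g (η 0 z)) → ∀ t, ∀ z ∈ UH, η t z = η 0 z := by
  obtain ⟨ε₀, h0, h⟩ := family hΓ hF hinv
  refine ⟨ε₀, h0, fun ε hε => ⟨(h ε hε).1, fun η hη T hT hret => ?_⟩⟩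
  exact gen_no_closed hΓ (h ε hε).1 (h ε hε).2 hη hT hret

end Pool.Agent.Helper131.CG
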