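import Pool.Agent.Helper131.CG.Base

namespace Pool.Agent.Helper131.CG

open Complex MeasureTheory Set Filter Topology
open scoped ContDiff

theorem j10695_cont_ibp {φ : ℂ → ℝ} (hs : tsupport φ ⊆ UH) {h : ℂ → ℝ} (hc : ContinuousOn h UH)
    (h0 : ∀ z, z ∉ tsupport φ → h z = 0) : Continuous h := by
  rw [continuous_iff_continuousAt]
  intro z
  by_cases hz : z ∈ tsupport φ
  · exact hc.continuousAt (isOpen_UH.mem_nhds (hs hz))
  · have h1 : (fun _ : ℂ => (0 : ℝ)) =ᶠ[𝓝 z] h := by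
      filter_upwards [(isClosed_tsupport φ).isOpen_compl.mem_nhds hz] with y hy
      exact (h0 y hy).symm
    exact continuousAt_const.congr h1

theorem j10695_int_ibp {φ : ℂ → ℝ} (hc : HasCompactSupport φ) (hs : tsupport φ ⊆ UH) {h : ℂ → ℝ}
    (hcont : ContinuousOn h UH) (h0 : ∀ z, z ∉ tsupport φ → h z = 0) : Integrable h :=
  (j10695_cont_ibp hs hcont h0).integrable_of_hasCompactSupport
    (HasCompactSupport.intro hc (fun z hz => h0 z hz))

theorem j10695_fd0_ibp {φ : ℂ → ℝ} {z : ℂ} (hz : z ∉ tsupport φ) : fderiv ℝ φ z = 0 := by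
  have h1 : φ =ᶠ[𝓝 z] (fun _ => (0 : ℝ)) := by
    filter_upwards [(isClosed_tsupport φ).isOpen_compl.mem_nhds hz] with y hy
    exact image_eq_zero_of_notMem_tsupport hy
  rw [h1.fderiv_eq]
  simp

theorem j10695_i1_ibp {φ : ℂ → ℝ} (hφ : ContDiff ℝ 1 φ) (hc : HasCompactSupport φ) (hs : tsupport φ ⊆ UH)
    {f : ℂ → ℝ} (hf : ContDiffOn ℝ 1 f UH) (w : ℂ) : Integrable (fun z => φ z * fderiv ℝ f z w) := by
  refine j10695_int_ibp hc hs ?_ ?_
  · refine hφ.continuous.continuousOn.mul ?_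
    exact (hf.continuousOn_fderiv_of_isOpen isOpen_UH le_rfl).clm_apply continuousOn_const
  · intro z hz
    rw [image_eq_zero_of_notMem_tsupport hz, zero_mul]

theorem j10695_i2_ibp {φ : ℂ → ℝ} (hφ : ContDiff ℝ 1 φ) (hc : HasCompactSupport φ) (hs : tsupport φ ⊆ UH)
    {f : ℂ → ℝ} (hf : ContDiffOn ℝ 1 f UH) (w : ℂ) : Integrable (fun z => fderiv ℝ φ z w * f z) := by
  refine j10695_int_ibp hc hs ?_ ?_
  · refine ContinuousOn.mul ?_ hf.continuousOn
    exact ((hφ.continuous_fderiv one_ne_zero).clm_apply continuous_const).continuousOn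
  · intro z hz
    rw [j10695_fd0_ibp hz]
    simp

/-- integration by parts for `C¹` functions with compact support in `UH` -/
theorem ibp {φ : ℂ → ℝ} (hφ : ContDiff ℝ 1 φ) (hc : HasCompactSupport φ) (hs : tsupport φ ⊆ UH)
    {f : ℂ → ℝ} (hf : ContDiffOn ℝ 1 f UH) (w : ℂ) :
    ∫ z, φ z * fderiv ℝ f z w = - ∫ z, fderiv ℝ φ z w * f z := by
  have i1 := j10695_i1_ibp hφ hc hs hf w
  have i2 := j10695_i2_ibp hφ hc hs hf w
  set g : ℂ → ℝ := fun z => φ z * f z with hg
  have hg0 : ∀ z, z ∉ tsupport φ → g =ᶠ[𝓝 z] (fun _ => (0 : ℝ)) := by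
    intro z hz
    filter_upwards [(isClosed_tsupport φ).isOpen_compl.mem_nhds hz] with y hy
    show φ y * f y = 0
    rw [image_eq_zero_of_notMem_tsupport hy, zero_mul]
  have hfd : ∀ z ∈ UH, DifferentiableAt ℝ f z := fun z hz =>
    (hf.differentiableOn one_ne_zero).differentiableAt (isOpen_UH.mem_nhds hz)
  have hφd : Differentiable ℝ φ := hφ.differentiable one_ne_zero
  have hgd : Differentiable ℝ g := by
    intro z
    by_cases hz : z ∈ tsupport φ
    · exact (hφd z).mul (hfd z (hs hz))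
    · exact (hg0 z hz).differentiableAt_iff.2 (differentiableAt_const _)
  have hgf : ∀ z, fderiv ℝ g z w = φ z * fderiv ℝ f z w + fderiv ℝ φ z w * f z := by
    intro z
    by_cases hz : z ∈ tsupport φ
    · rw [hg, fderiv_fun_mul (hφd z) (hfd z (hs hz))]
      simp only [ContinuousLinearMap.add_apply, ContinuousLinearMap.smul_apply, smul_eq_mul]
      ring
    · rw [(hg0 z hz).fderiv_eq, image_eq_zero_of_notMem_tsupport hz, j10695_fd0_ibp hz]
      simp
  have i3 : Integrable (fun z => fderiv ℝ g z w) := by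
    simp_rw [hgf]
    exact i1.add i2
  have i4 : Integrable g := by
    refine j10695_int_ibp hc hs (hφ.continuous.continuousOn.mul hf.continuousOn) ?_
    intro z hz
    show φ z * f z = 0
    rw [image_eq_zero_of_notMem_tsupport hz, zero_mul]
  have h0 : ∫ z, fderiv ℝ g z w = 0 := by
    have h1 := integral_mul_fderiv_eq_neg_fderiv_mul_of_integrable (𝕜 := ℝ) (μ := (volume : Measure ℂ))
      (f := fun _ : ℂ => (1 : ℝ)) (g := g) (v := w) (by simp) (by simpa using i3) (by simpa using i4)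
      (fun _ _ => differentiableAt_const _) (fun x _ => hgd x)
    simpa using h1
  simp_rw [hgf] at h0
  rw [integral_add i1 i2] at h0
  linarith


theorem ibp_div {φ : ℂ → ℝ} (hφ : ContDiff ℝ 1 φ) (hc : HasCompactSupport φ)
    (hs : tsupport φ ⊆ UH) {V : ℂ → ℂ} (hV : ContDiffOn ℝ 1 V UH) :
    ∫ z, φ z * ((fderiv ℝ V z 1).re + (fderiv ℝ V z I).im) = - ∫ z, fderiv ℝ φ z (V z) := by
  have hVd : ∀ z ∈ UH, DifferentiableAt ℝ V z := fun z hz =>
    (hV.differentiableOn one_ne_zero).differentiableAt (isOpen_UH.mem_nhds hz)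
  have hre : ContDiffOn ℝ 1 (fun z => (V z).re) UH := Complex.reCLM.contDiff.comp_contDiffOn hV
  have him : ContDiffOn ℝ 1 (fun z => (V z).im) UH := Complex.imCLM.contDiff.comp_contDiffOn hV
  have e1 : ∀ z w, φ z * fderiv ℝ (fun z => (V z).re) z w = φ z * (fderiv ℝ V z w).re := by
    intro z w
    by_cases hz : z ∈ tsupport φ
    · have h1 : fderiv ℝ (fun z => (V z).re) z = Complex.reCLM.comp (fderiv ℝ V z) :=
        (Complex.reCLM.hasFDerivAt.comp z (hVd z (hs hz)).hasFDerivAt).fderiv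
      rw [h1]
      rfl
    · rw [image_eq_zero_of_notMem_tsupport hz, zero_mul, zero_mul]
  have e2 : ∀ z w, φ z * fderiv ℝ (fun z => (V z).im) z w = φ z * (fderiv ℝ V z w).im := by
    intro z w
    by_cases hz : z ∈ tsupport φ
    · have h1 : fderiv ℝ (fun z => (V z).im) z = Complex.imCLM.comp (fderiv ℝ V z) :=
        (Complex.imCLM.hasFDerivAt.comp z (hVd z (hs hz)).hasFDerivAt).fderiv
      rw [h1]
      rfl
    · rw [image_eq_zero_of_notMem_tsupport hz, zero_mul, zero_mul]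
  have l1 : ∀ z, φ z * ((fderiv ℝ V z 1).re + (fderiv ℝ V z I).im) =
      φ z * fderiv ℝ (fun z => (V z).re) z 1 + φ z * fderiv ℝ (fun z => (V z).im) z I := by
    intro z
    rw [e1, e2, mul_add]
  have l2 : ∀ z, fderiv ℝ φ z (V z) = fderiv ℝ φ z 1 * (V z).re + fderiv ℝ φ z I * (V z).im := by
    intro z
    have h1 : V z = (V z).re • (1 : ℂ) + (V z).im • I := by
      rw [Complex.real_smul, Complex.real_smul, mul_one, Complex.re_add_im]
    conv_lhs => rw [h1]
    rw [map_add, map_smul, map_smul, smul_eq_mul, smul_eq_mul]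
    ring
  simp_rw [l1, l2]
  rw [integral_add (j10695_i1_ibp hφ hc hs hre 1) (j10695_i1_ibp hφ hc hs him I),
    integral_add (j10695_i2_ibp hφ hc hs hre 1) (j10695_i2_ibp hφ hc hs him I),
    ibp hφ hc hs hre 1, ibp hφ hc hs him I]
  ring

end Pool.Agent.Helper131.CG
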