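import Pool.Agent.Helper131.CG.Base

namespace Pool.Agent.Helper131.CG

open Complex MeasureTheory Set Filter Topology
open scoped ContDiff

theorem integral_mob {Γ : Subgroup SL2R} {m : ℂ → ℝ}
    (hm : ∀ g ∈ Γ, ∀ z ∈ UH, m (mob g z) = m z * ‖den g z‖ ^ 4) (g : SL2R) (hg : g ∈ Γ)
    (F : ℂ → ℝ) : ∫ z in UH, F (mob g z) * m z = ∫ z in UH, F z * m z := by
  have hder : ∀ z ∈ UH, HasFDerivWithinAt (mob g) ((1 / den g z ^ 2) • (1 : ℂ →L[ℝ] ℂ)) UH z :=
    fun z hz => ((hasDerivAt_mob g hz).complexToReal_fderiv).hasFDerivWithinAt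
  have hdet : ∀ a : ℂ, (a • (1 : ℂ →L[ℝ] ℂ)).det = ‖a‖ ^ 2 := by
    intro a
    have h1 : ((a • (1 : ℂ →L[ℝ] ℂ) : ℂ →L[ℝ] ℂ) : ℂ →ₗ[ℝ] ℂ) = Algebra.lmul ℝ ℂ a := by
      ext <;> simp
    rw [ContinuousLinearMap.det, h1, ← Algebra.norm_apply, Algebra.norm_complex_eq]
    show Complex.normSq a = _
    rw [Complex.normSq_eq_norm_sq]
  have hmeas : MeasurableSet UH := isOpen_UH.measurableSet
  have hbij := bijOn_mob g
  have key := integral_image_eq_integral_abs_det_fderiv_smul volume hmeas hder hbij.injOn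
    (fun z => F z * m z)
  rw [hbij.image_eq] at key
  rw [key]
  apply setIntegral_congr_fun hmeas
  intro z hz
  have hd : den g z ≠ 0 := den_ne_zero g hz
  have hn : ‖den g z‖ ≠ 0 := norm_ne_zero_iff.mpr hd
  show F (mob g z) * m z = |((1 / den g z ^ 2) • (1 : ℂ →L[ℝ] ℂ)).det| • (F (mob g z) * m (mob g z))
  rw [hdet, hm g hg z hz, norm_div, norm_one, norm_pow, smul_eq_mul, abs_of_nonneg (by positivity)]
  field_simp

end Pool.Agent.Helper131.CG
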