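import Pool.Agent.Helper131.CG.Base

namespace Pool.Agent.Helper131.CG

open Complex MeasureTheory Set Filter Topology
open scoped ContDiff

theorem locfin {Γ : Subgroup SL2R} (hΓ : SurfaceGroup Γ) {K : Set ℂ} (hK : IsCompact K)
    (hKU : K ⊆ UH) : {g : Γ | ∃ z ∈ K, mob (g : SL2R) z ∈ K}.Finite := by
  haveI : DiscreteTopology Γ := hΓ.discrete
  have hemb : Topology.IsInducing ((↑) : UpperHalfPlane → ℂ) :=
    UpperHalfPlane.isOpenEmbedding_coe.isInducing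
  have hrange : K ⊆ Set.range ((↑) : UpperHalfPlane → ℂ) := by
    intro z hz
    exact ⟨⟨z, hKU hz⟩, rfl⟩
  have hL : IsCompact (((↑) : UpperHalfPlane → ℂ) ⁻¹' K) :=
    (hemb.isCompact_preimage_iff hrange).2 hK
  have hfin := ProperlyDiscontinuousSMul.finite_disjoint_inter_image (Γ := Γ) hL hL
  refine hfin.subset ?_
  rintro g ⟨z, hz, hgz⟩
  refine ⟨g • (⟨z, hKU hz⟩ : UpperHalfPlane), ⟨⟨z, hKU hz⟩, hz, rfl⟩, ?_⟩
  show ((g • (⟨z, hKU hz⟩ : UpperHalfPlane) : UpperHalfPlane) : ℂ) ∈ K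
  have : ((g • (⟨z, hKU hz⟩ : UpperHalfPlane) : UpperHalfPlane) : ℂ) = mob (g : SL2R) z := by
    rw [Subgroup.smul_def, UpperHalfPlane.coe_specialLinearGroup_apply]
    rfl
  rw [this]
  exact hgz

end Pool.Agent.Helper131.CG
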