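import Pool.Agent.Helper131.CG.Base
import Pool.Agent.Helper131.CG.L_integral_mob
import Pool.Agent.Helper131.CG.L_locfin

namespace Pool.Agent.Helper131.CG

open Complex MeasureTheory Set Filter Topology
open scoped ContDiff

theorem int_dcut {Γ : Subgroup SL2R} (hΓ : SurfaceGroup Γ) {m : ℂ → ℝ} (hm : ConfMetric Γ m)
    {χ : ℂ → ℝ} (hχ : Cut Γ χ) {V : ℂ → ℂ} (hV : ContinuousOn V UH)
    (heq : ∀ g ∈ Γ, ∀ z ∈ UH, V (mob g z) = V z / den g z ^ 2) :
    ∫ z, fderiv ℝ χ z (V z) * m z = 0 := by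
  classical
  set K : Set ℂ := tsupport χ with hKdef
  have hK : IsCompact K := hχ.compact
  have hKU : K ⊆ UH := hχ.supp
  have hUHm : MeasurableSet UH := isOpen_UH.measurableSet
  let N : Finset Γ := (locfin hΓ hK hKU).toFinset
  have hmemK : ∀ z, χ z ≠ 0 → z ∈ K := fun z hz => subset_tsupport _ hz
  have hN : ∀ g : Γ, ∀ z ∈ K, mob (g : SL2R) z ∈ K → g ∈ N := by
    intro g z hz hgz
    simp only [N, Set.Finite.mem_toFinset, Set.mem_setOf_eq]
    exact ⟨z, hz, hgz⟩
  have h1 : ∀ z ∈ K, ∑ g ∈ N, χ (mob (g : SL2R) z) = 1 := by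
    intro z hz
    rw [← hχ.sum_one z (hKU hz)]
    symm
    apply finsum_eq_sum_of_support_subset
    intro g hg
    exact hN g z hz (hmemK _ hg)
  have h2 : ∀ z ∈ K, ∑ g ∈ N, χ (mob ((g : SL2R)⁻¹) z) = 1 := by
    intro z hz
    have e : ∑ᶠ g : Γ, χ (mob ((g : SL2R)⁻¹) z) = 1 := by
      rw [← hχ.sum_one z (hKU hz)]
      exact finsum_comp_equiv (Equiv.inv Γ) (f := fun g : Γ => χ (mob (g : SL2R) z))
    rw [← e]
    symm
    apply finsum_eq_sum_of_support_subset
    intro g hg
    have hw : mob ((g : SL2R)⁻¹) z ∈ K := hmemK _ hg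
    refine hN g _ hw ?_
    rw [mob_mob_inv _ (hKU hz)]
    exact hz
  let G : ℂ → ℝ := fun z => fderiv ℝ χ z (V z)
  have hG0 : ∀ z, z ∉ K → G z = 0 := by
    intro z hz
    have : fderiv ℝ χ z = 0 := by
      have : z ∉ tsupport (fderiv ℝ χ) := fun h => hz (tsupport_fderiv_subset ℝ h)
      exact image_eq_zero_of_notMem_tsupport this
    simp only [G, this]
    rfl
  have hGc : ContinuousOn G UH :=
    (hχ.smooth.continuous_fderiv (by norm_num)).continuousOn.clm_apply hV
  have hmc : ContinuousOn m UH := hm.smooth.continuousOn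
  have hχc : Continuous χ := hχ.smooth.continuous
  have hmobc : ∀ g : SL2R, ContinuousOn (mob g) UH := fun g => (contDiffOn_mob g).continuousOn
  have hint : ∀ H : ℂ → ℝ, ContinuousOn H UH → (∀ z ∈ UH, z ∉ K → H z = 0) → IntegrableOn H UH := by
    intro H hH h0
    exact ((hH.mono hKU).integrableOn_compact hK).of_forall_diff_eq_zero hUHm
      (fun z hz => h0 z hz.1 hz.2)
  have e0 : ∫ z, G z * m z = ∫ z in UH, G z * m z := by
    symm
    apply setIntegral_eq_integral_of_forall_compl_eq_zero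
    intro z hz
    rw [hG0 z (fun h => hz (hKU h)), zero_mul]
  have e1 : ∫ z in UH, G z * m z = ∑ g ∈ N, ∫ z in UH, χ (mob (g : SL2R) z) * G z * m z := by
    rw [← integral_finsetSum]
    · refine setIntegral_congr_fun hUHm (fun z hz => ?_)
      by_cases hzK : z ∈ K
      · have := h1 z hzK
        rw [← Finset.sum_mul, ← Finset.sum_mul, this, one_mul]
      · rw [hG0 z hzK]
        simp
    · intro g _
      apply hint
      · exact ((hχc.comp_continuousOn (hmobc g)).mul hGc).mul hmc
      · intro z _ hzK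
        rw [hG0 z hzK]
        simp
  have e2 : ∀ g ∈ N, ∫ z in UH, χ (mob (g : SL2R) z) * G z * m z =
      ∫ z in UH, χ z * G (mob ((g : SL2R)⁻¹) z) * m z := by
    intro g _
    rw [← integral_mob hm.equiv (g : SL2R) g.2 (fun z => χ z * G (mob ((g : SL2R)⁻¹) z))]
    refine setIntegral_congr_fun hUHm (fun z hz => ?_)
    rw [mob_inv_mob _ hz]
  have e3 : ∑ g ∈ N, ∫ z in UH, χ z * G (mob ((g : SL2R)⁻¹) z) * m z = 0 := by
    rw [← integral_finsetSum]
    · have : ∀ z ∈ UH, ∑ g ∈ N, χ z * G (mob ((g : SL2R)⁻¹) z) * m z = 0 := by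
        intro z hz
        rw [← Finset.sum_mul, ← Finset.mul_sum]
        by_cases hχz : χ z = 0
        · rw [hχz]; simp
        have hsum : ∑ g ∈ N, G (mob ((g : SL2R)⁻¹) z) = 0 := by
          have hd : ∀ g : Γ, DifferentiableAt ℝ (fun w => χ (mob ((g : SL2R)⁻¹) w)) z := by
            intro g
            exact ((hχ.smooth.differentiable (by norm_num)) _).comp z
              ((hasDerivAt_mob _ hz).differentiableAt.restrictScalars ℝ)
          have hg : ∀ g : Γ, G (mob ((g : SL2R)⁻¹) z) =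
              fderiv ℝ (fun w => χ (mob ((g : SL2R)⁻¹) w)) z (V z) := by
            intro g
            have hc := fderiv_comp (𝕜 := ℝ) z ((hχ.smooth.differentiable (by norm_num)) (mob ((g : SL2R)⁻¹) z))
              ((hasDerivAt_mob ((g : SL2R)⁻¹) hz).differentiableAt.restrictScalars ℝ)
            have hc' : fderiv ℝ (fun w => χ (mob ((g : SL2R)⁻¹) w)) z =
              (fderiv ℝ χ (mob ((g : SL2R)⁻¹) z)).comp (fderiv ℝ (mob ((g : SL2R)⁻¹)) z) := hc
            rw [hc', ContinuousLinearMap.comp_apply, fderiv_mob _ hz]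
            simp only [G]
            rw [heq _ (Γ.inv_mem g.2) z hz]
          rw [Finset.sum_congr rfl (fun g _ => hg g)]
          have hs : ∑ g ∈ N, fderiv ℝ (fun w => χ (mob ((g : SL2R)⁻¹) w)) z (V z) =
              fderiv ℝ (fun w => ∑ g ∈ N, χ (mob ((g : SL2R)⁻¹) w)) z (V z) := by
            rw [fderiv_fun_sum (fun g _ => hd g)]
            simp
          rw [hs]
          have hev : (fun w => ∑ g ∈ N, χ (mob ((g : SL2R)⁻¹) w)) =ᶠ[𝓝 z] fun _ => (1 : ℝ) := by
            filter_upwards [hχc.continuousAt.eventually_ne hχz] with w hw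
            exact h2 w (hmemK w hw)
          rw [hev.fderiv_eq]
          simp
        rw [hsum]; simp
      rw [setIntegral_congr_fun hUHm this]
      simp
    · intro g _
      apply hint
      · refine (hχc.continuousOn.mul (hGc.comp (hmobc _) (fun z hz => mob_mem _ hz))).mul hmc
      · intro z _ hzK
        have : χ z = 0 := by
          by_contra h
          exact hzK (hmemK z h)
        rw [this]; simp
  calc ∫ z, fderiv ℝ χ z (V z) * m z = ∫ z in UH, G z * m z := e0
    _ = ∑ g ∈ N, ∫ z in UH, χ (mob (g : SL2R) z) * G z * m z := e1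
    _ = ∑ g ∈ N, ∫ z in UH, χ z * G (mob ((g : SL2R)⁻¹) z) * m z := Finset.sum_congr rfl e2
    _ = 0 := e3

end Pool.Agent.Helper131.CG
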