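import Pool.Agent.Helper131.CG.Base
import Pool.Agent.Helper131.CG.L_ibp
import Pool.Agent.Helper131.CG.L_int_dcut

namespace Pool.Agent.Helper131.CG

open Complex MeasureTheory Set Filter Topology
open scoped ContDiff

theorem int_div {Γ : Subgroup SL2R} (hΓ : SurfaceGroup Γ) {m : ℂ → ℝ} (hm : ConfMetric Γ m)
    {χ : ℂ → ℝ} (hχ : Cut Γ χ) {V : ℂ → ℂ} (hV : ContDiffOn ℝ 1 V UH)
    (heq : ∀ g ∈ Γ, ∀ z ∈ UH, V (mob g z) = V z / den g z ^ 2) :
    ∫ z, χ z * dvg m V z * m z = 0 := by
  have hm1 : ContDiffOn ℝ 1 m UH := hm.smooth.of_le (by exact_mod_cast le_top)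
  have hF : ContDiffOn ℝ 1 (fun z => m z • V z) UH := hm1.smul hV
  have h1 := ibp_div hχ.smooth hχ.compact hχ.supp hF
  have h2 : ∀ z, fderiv ℝ χ z (m z • V z) = fderiv ℝ χ z (V z) * m z := by
    intro z
    rw [map_smul, smul_eq_mul, mul_comm]
  have h3 : (∫ z, fderiv ℝ χ z (m z • V z)) = 0 := by
    simp_rw [h2]
    exact int_dcut hΓ hm hχ hV.continuousOn heq
  have h4 : ∀ z, χ z * dvg m V z * m z =
      χ z * ((fderiv ℝ (fun z => m z • V z) z 1).re + (fderiv ℝ (fun z => m z • V z) z I).im) := by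
    intro z
    by_cases hz : z ∈ UH
    · have hmd : DifferentiableAt ℝ m z :=
        (hm1.differentiableOn (by norm_num)).differentiableAt (isOpen_UH.mem_nhds hz)
      have hVd : DifferentiableAt ℝ V z :=
        (hV.differentiableOn (by norm_num)).differentiableAt (isOpen_UH.mem_nhds hz)
      have e : ∀ w, fderiv ℝ (fun z => m z • V z) z w =
          m z • fderiv ℝ V z w + (fderiv ℝ m z w) • V z := by
        intro w
        rw [fderiv_fun_smul hmd hVd]
        rfl
      have hmz : m z ≠ 0 := (hm.pos z hz).ne'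
      have e2 : fderiv ℝ (Lm m) z (V z) = fderiv ℝ m z (V z) / m z := by
        have : HasFDerivAt (Lm m) ((m z)⁻¹ • fderiv ℝ m z) z := hmd.hasFDerivAt.log hmz
        rw [this.fderiv]
        simp only [ContinuousLinearMap.smul_apply, smul_eq_mul]
        field_simp
      have e3 : fderiv ℝ m z (V z) = (V z).re * fderiv ℝ m z 1 + (V z).im * fderiv ℝ m z I := by
        have : V z = (V z).re • (1 : ℂ) + (V z).im • I := by simp [Complex.re_add_im]
        conv_lhs => rw [this, map_add, map_smul, map_smul]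
        simp only [smul_eq_mul]
      unfold dvg
      rw [e, e, e2, e3]
      simp only [Complex.add_re, Complex.add_im, Complex.real_smul, Complex.re_ofReal_mul,
        Complex.im_ofReal_mul]
      field_simp
      ring
    · have : χ z = 0 := image_eq_zero_of_notMem_tsupport (fun h => hz (hχ.supp h))
      rw [this]
      ring
  simp_rw [h4]
  rw [h1, h3, neg_zero]

end Pool.Agent.Helper131.CG
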