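import Pool.Agent.Helper131.CG.Base
import Pool.Agent.Helper131.CG.L_int_div

namespace Pool.Agent.Helper131.CG

open Complex MeasureTheory Set Filter Topology
open scoped ContDiff

theorem j10712_Lm_cd_D0 {Γ : Subgroup SL2R} {m : ℂ → ℝ} (hm : ConfMetric Γ m) : ContDiffOn ℝ 1 (Lm m) UH := by
  have h1 : ContDiffOn ℝ 1 m UH := hm.smooth.of_le (by exact_mod_cast le_top)
  exact h1.log (fun z hz => (hm.pos z hz).ne')

theorem j10712_chi_zero_D0 {Γ : Subgroup SL2R} {χ : ℂ → ℝ} (hχ : Cut Γ χ) {z : ℂ} (hz : z ∉ UH) : χ z = 0 := by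
  by_contra h
  exact hz (hχ.supp (subset_tsupport _ h))

theorem j10712_chi_integrable_D0 {Γ : Subgroup SL2R} {χ : ℂ → ℝ} (hχ : Cut Γ χ) {G : ℂ → ℝ}
    (hG : ContinuousOn G UH) : Integrable (fun z => χ z * G z) := by
  apply Continuous.integrable_of_hasCompactSupport
  · rw [continuous_iff_continuousAt]
    intro z
    by_cases hz : z ∈ UH
    · exact hχ.smooth.continuous.continuousAt.mul (hG.continuousAt (isOpen_UH.mem_nhds hz))
    · have h1 : z ∉ tsupport χ := fun h => hz (hχ.supp h)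
      have h2 : χ =ᶠ[𝓝 z] 0 := notMem_tsupport_iff_eventuallyEq.mp h1
      have h3 : (fun z => χ z * G z) =ᶠ[𝓝 z] fun _ => (0 : ℝ) := by
        filter_upwards [h2] with w hw
        simp [hw]
      exact continuousAt_const.congr h3.symm
  · exact hχ.compact.mul_right

theorem j10712_fd_apply_D0 (f : ℂ → ℝ) (z w : ℂ) :
    fderiv ℝ f z w = w.re * fderiv ℝ f z 1 + w.im * fderiv ℝ f z I := by
  have h : w = w.re • (1 : ℂ) + w.im • I := by
    apply Complex.ext <;> simp
  conv_lhs => rw [h]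
  rw [map_add, map_smul, map_smul, smul_eq_mul, smul_eq_mul]

theorem j10712_dvg_mul_D0 {Γ : Subgroup SL2R} {m : ℂ → ℝ} (_hm : ConfMetric Γ m) {f : ℂ → ℝ} {v : ℂ → ℂ} {z : ℂ}
    (hf : DifferentiableAt ℝ f z) (hv : DifferentiableAt ℝ v z) :
    dvg m (fun w => (f w : ℂ) * v w) z = fderiv ℝ f z (v z) + f z * dvg m v z := by
  have h1 : HasFDerivAt (fun w => (f w : ℂ)) (Complex.ofRealCLM.comp (fderiv ℝ f z)) z :=
    Complex.ofRealCLM.hasFDerivAt.comp z hf.hasFDerivAt
  have h2 : HasFDerivAt (fun w => (f w : ℂ) * v w) _ z := h1.mul hv.hasFDerivAt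
  have h3 : ∀ w : ℂ, fderiv ℝ (fun w => (f w : ℂ) * v w) z w
      = (f z : ℂ) * fderiv ℝ v z w + ((fderiv ℝ f z w : ℝ) : ℂ) * v z := by
    intro w
    rw [h2.fderiv]
    simp [mul_comm]
  unfold dvg
  rw [h3, h3, j10712_fd_apply_D0 (Lm m) z ((f z : ℂ) * v z), j10712_fd_apply_D0 (Lm m) z (v z), j10712_fd_apply_D0 f z (v z)]
  simp
  ring

theorem j10712_dvg_I_D0 {m : ℂ → ℝ} {v : ℂ → ℂ} {z : ℂ} (hv : DifferentiableAt ℝ v z) :
    dvg m (fun w => I * v w) z = - vort m v z := by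
  have h1 : ∀ w : ℂ, fderiv ℝ (fun w => I * v w) z w = I * fderiv ℝ v z w := by
    intro w
    rw [(hv.hasFDerivAt.const_mul I).fderiv]
    simp
  unfold dvg vort pz
  rw [h1, h1, j10712_fd_apply_D0 (Lm m) z (I * v z)]
  simp
  ring



theorem D0 {Γ : Subgroup SL2R} (hΓ : SurfaceGroup Γ) {m : ℂ → ℝ} (hm : ConfMetric Γ m)
    {χ : ℂ → ℝ} (hχ : Cut Γ χ) {v : ℂ → ℂ} (hv : ContDiffOn ℝ 1 v UH)
    (heq : ∀ g ∈ Γ, ∀ z ∈ UH, v (mob g z) = v z / den g z ^ 2)
    (hdiv : ∀ z ∈ UH, dvg m v z = 0) {f : ℂ → ℝ} (hf : ContDiffOn ℝ 1 f UH)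
    (hinv : ∀ g ∈ Γ, ∀ z ∈ UH, f (mob g z) = f z) :
    ∫ z, χ z * fderiv ℝ f z (v z) * m z = 0 := by
  have hV : ContDiffOn ℝ 1 (fun w => (f w : ℂ) * v w) UH :=
    (Complex.ofRealCLM.contDiff.comp_contDiffOn hf).mul hv
  have h := int_div hΓ hm hχ hV (by
    intro g hg z hz
    simp only [hinv g hg z hz, heq g hg z hz]
    ring)
  rw [← h]
  apply integral_congr_ae
  filter_upwards with z
  by_cases hz : z ∈ UH
  · rw [j10712_dvg_mul_D0 hm ((hf.differentiableOn one_ne_zero).differentiableAt (isOpen_UH.mem_nhds hz))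
      ((hv.differentiableOn one_ne_zero).differentiableAt (isOpen_UH.mem_nhds hz)), hdiv z hz]
    ring
  · rw [j10712_chi_zero_D0 hχ hz]; ring

/-- integration by parts for the curl -/
theorem A4 {Γ : Subgroup SL2R} (hΓ : SurfaceGroup Γ) {m : ℂ → ℝ} (hm : ConfMetric Γ m)
    {χ : ℂ → ℝ} (hχ : Cut Γ χ) {v : ℂ → ℂ} (hv : ContDiffOn ℝ 1 v UH)
    (heq : ∀ g ∈ Γ, ∀ z ∈ UH, v (mob g z) = v z / den g z ^ 2)
    {f : ℂ → ℝ} (hf : ContDiffOn ℝ 1 f UH)
    (hinv : ∀ g ∈ Γ, ∀ z ∈ UH, f (mob g z) = f z) :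
    ∫ z, χ z * (vort m v z * f z) * m z = ∫ z, χ z * fderiv ℝ f z (I * v z) * m z := by
  have hIv : ContDiffOn ℝ 1 (fun w => I * v w) UH := contDiffOn_const.mul hv
  have hV : ContDiffOn ℝ 1 (fun w => (f w : ℂ) * (I * v w)) UH :=
    (Complex.ofRealCLM.contDiff.comp_contDiffOn hf).mul hIv
  have h := int_div hΓ hm hχ hV (by
    intro g hg z hz
    simp only [hinv g hg z hz, heq g hg z hz]
    ring)
  have hmc : ContinuousOn m UH := hm.smooth.continuousOn
  have hfc : ContinuousOn f UH := hf.continuousOn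
  have hvc : ContinuousOn v UH := hv.continuousOn
  have hdf : ContinuousOn (fderiv ℝ f) UH := hf.continuousOn_fderiv_of_isOpen isOpen_UH le_rfl
  have hdv : ContinuousOn (fderiv ℝ v) UH := hv.continuousOn_fderiv_of_isOpen isOpen_UH le_rfl
  have hdL : ContinuousOn (fderiv ℝ (Lm m)) UH :=
    (j10712_Lm_cd_D0 hm).continuousOn_fderiv_of_isOpen isOpen_UH le_rfl
  have hpz : ContinuousOn (pz m) UH := by
    unfold pz
    exact ((Complex.continuous_ofReal.comp_continuousOn (hdL.clm_apply continuousOn_const)).sub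
      ((Complex.continuous_ofReal.comp_continuousOn (hdL.clm_apply continuousOn_const)).mul
        continuousOn_const)).div_const 2
  have hvort : ContinuousOn (vort m v) UH := by
    unfold vort
    exact ((Complex.continuous_im.comp_continuousOn (hdv.clm_apply continuousOn_const)).sub
      (Complex.continuous_re.comp_continuousOn (hdv.clm_apply continuousOn_const))).add
      (continuousOn_const.mul (Complex.continuous_im.comp_continuousOn (hpz.mul hvc)))
  have hi1 : Integrable (fun z => χ z * (vort m v z * f z) * m z) := by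
    have := j10712_chi_integrable_D0 hχ ((hvort.mul hfc).mul hmc)
    refine this.congr ?_
    filter_upwards with z
    simp only [Pi.mul_apply]
    ring
  have hi2 : Integrable (fun z => χ z * fderiv ℝ f z (I * v z) * m z) := by
    have := j10712_chi_integrable_D0 hχ ((hdf.clm_apply (continuousOn_const.mul hvc :
      ContinuousOn (fun z => I * v z) UH)).mul hmc)
    refine this.congr ?_
    filter_upwards with z
    simp only [Pi.mul_apply]
    ring
  have hsub : ∫ z, (χ z * fderiv ℝ f z (I * v z) * m z - χ z * (vort m v z * f z) * m z) = 0 := by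
    rw [← h]
    apply integral_congr_ae
    filter_upwards with z
    by_cases hz : z ∈ UH
    · rw [j10712_dvg_mul_D0 hm ((hf.differentiableOn one_ne_zero).differentiableAt (isOpen_UH.mem_nhds hz))
        ((hIv.differentiableOn one_ne_zero).differentiableAt (isOpen_UH.mem_nhds hz)),
        j10712_dvg_I_D0 ((hv.differentiableOn one_ne_zero).differentiableAt (isOpen_UH.mem_nhds hz))]
      ring
    · rw [j10712_chi_zero_D0 hχ hz]; ring
  rw [integral_sub hi2 hi1] at hsub
  linarith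

end Pool.Agent.Helper131.CG
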