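import Pool.Agent.Helper131.CG.Base

namespace Pool.Agent.Helper131.CG

open Complex MeasureTheory Set Filter Topology
open scoped ContDiff

theorem lin {u : ℝ → ℂ → ℂ} {Φ : ℝ → ℂ → ℂ}
    (hu : ContDiffOn ℝ 1 (fun q : ℝ × ℂ => u q.1 q.2) (univ ×ˢ UH))
    (hΦ : ContDiffOn ℝ 1 (fun q : ℝ × ℂ => Φ q.1 q.2) (univ ×ˢ UH))
    (maps : ∀ t, MapsTo (Φ t) UH UH)
    (flow : ∀ t, ∀ z ∈ UH, HasDerivAt (fun s => Φ s z) (u t (Φ t z)) t)
    (t : ℝ) {z : ℂ} (hz : z ∈ UH) (v : ℂ) :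
    HasDerivAt (fun s => fderiv ℝ (Φ s) z v)
      (fderiv ℝ (u t) (Φ t z) (fderiv ℝ (Φ t) z v)) t := by
  set h : ℝ → ℂ → ℂ := fun s w => u s (Φ s w) with hh
  have hhC : ContDiffOn ℝ 1 (fun q : ℝ × ℂ => h q.1 q.2) (univ ×ˢ UH) := by
    have h1 : ContDiffOn ℝ 1 (fun q : ℝ × ℂ => (q.1, Φ q.1 q.2)) (univ ×ˢ UH) :=
      contDiff_fst.contDiffOn.prodMk hΦ
    exact hu.comp h1 (fun q hq => ⟨trivial, maps q.1 hq.2⟩)
  have hcont : ∀ w ∈ UH, Continuous (fun s => h s w) := by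
    intro w hw
    have h1 : ContinuousOn (fun q : ℝ × ℂ => h q.1 q.2) (univ ×ˢ UH) := hhC.continuousOn
    have h2 : Continuous (fun s : ℝ => ((s, w) : ℝ × ℂ)) := by fun_prop
    exact h1.comp_continuous h2 (fun s => ⟨trivial, hw⟩)
  have hD : ContinuousOn (fun q : ℝ × ℂ => fderiv ℝ (h q.1) q.2) (univ ×ˢ UH) := jc_fderiv hhC
  have hDcont : Continuous (fun s => fderiv ℝ (h s) z) := by
    have h2 : Continuous (fun s : ℝ => ((s, z) : ℝ × ℂ)) := by fun_prop
    exact hD.comp_continuous h2 (fun s => ⟨trivial, hz⟩)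
  -- integral formula
  have hint : ∀ τ : ℝ, ∀ w ∈ UH, Φ τ w = Φ 0 w + ∫ s in (0 : ℝ)..τ, h s w := by
    intro τ w hw
    have := intervalIntegral.integral_eq_sub_of_hasDerivAt (a := 0) (b := τ)
      (f := fun s => Φ s w) (f' := fun s => h s w) (fun s _ => flow s w hw)
      ((hcont w hw).intervalIntegrable _ _)
    rw [this]; ring
  -- a small closed ball
  obtain ⟨r, hr, hball⟩ := Metric.isOpen_iff.1 isOpen_UH z hz
  have hcb : Metric.closedBall z (r / 2) ⊆ UH := by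
    intro w hw
    apply hball
    rw [Metric.mem_closedBall] at hw
    rw [Metric.mem_ball]; linarith
  have key : ∀ τ : ℝ, HasFDerivAt (Φ τ) (fderiv ℝ (Φ 0) z + ∫ s in (0 : ℝ)..τ, fderiv ℝ (h s) z) z := by
    intro τ
    -- bound
    have hK : IsCompact ((uIcc (0 : ℝ) τ) ×ˢ (Metric.closedBall z (r / 2))) :=
      isCompact_uIcc.prod (isCompact_closedBall _ _)
    obtain ⟨C, hC⟩ := hK.exists_bound_of_continuousOn
      (f := fun q : ℝ × ℂ => fderiv ℝ (h q.1) q.2)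
      (hD.mono (fun q hq => ⟨trivial, hcb hq.2⟩))
    have h1 : HasFDerivAt (fun w => ∫ s in (0 : ℝ)..τ, h s w) (∫ s in (0 : ℝ)..τ, fderiv ℝ (h s) z) z := by
      refine intervalIntegral.hasFDerivAt_integral_of_dominated_of_fderiv_le
        (F := fun w s => h s w) (F' := fun w s => fderiv ℝ (h s) w)
        (s := Metric.closedBall z (r / 2)) (bound := fun _ => C)
        (Metric.closedBall_mem_nhds z (by linarith)) ?_ ?_ ?_ ?_ ?_ ?_
      · filter_upwards [isOpen_UH.mem_nhds hz] with w hw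
        exact (hcont w hw).aestronglyMeasurable
      · exact (hcont z hz).intervalIntegrable _ _
      · exact hDcont.aestronglyMeasurable
      · refine Filter.Eventually.of_forall (fun s hs w hw => ?_)
        exact hC (s, w) ⟨uIoc_subset_uIcc hs, hw⟩
      · exact intervalIntegrable_const
      · refine Filter.Eventually.of_forall (fun s hs w hw => ?_)
        exact jc_hasFDerivAt hhC s (hcb hw)
    have h2 : HasFDerivAt (fun w => Φ 0 w + ∫ s in (0 : ℝ)..τ, h s w)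
        (fderiv ℝ (Φ 0) z + ∫ s in (0 : ℝ)..τ, fderiv ℝ (h s) z) z :=
      (jc_hasFDerivAt hΦ 0 hz).add h1
    refine h2.congr_of_eventuallyEq ?_
    filter_upwards [isOpen_UH.mem_nhds hz] with w hw
    exact hint τ w hw
  have hfd : ∀ τ : ℝ, fderiv ℝ (Φ τ) z = fderiv ℝ (Φ 0) z + ∫ s in (0 : ℝ)..τ, fderiv ℝ (h s) z :=
    fun τ => (key τ).fderiv
  have h3 : HasDerivAt (fun τ => fderiv ℝ (Φ τ) z) (fderiv ℝ (h t) z) t := by
    have h4 : HasDerivAt (fun τ => ∫ s in (0 : ℝ)..τ, fderiv ℝ (h s) z) (fderiv ℝ (h t) z) t :=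
      intervalIntegral.integral_hasDerivAt_right (hDcont.intervalIntegrable _ _)
        (hDcont.stronglyMeasurableAtFilter _ _) hDcont.continuousAt
    have h5 := h4.const_add (fderiv ℝ (Φ 0) z)
    have h6 : (fun τ => fderiv ℝ (Φ τ) z) =
        fun τ => fderiv ℝ (Φ 0) z + ∫ s in (0 : ℝ)..τ, fderiv ℝ (h s) z := funext hfd
    rw [h6]; exact h5
  have h7 : fderiv ℝ (h t) z = (fderiv ℝ (u t) (Φ t z)).comp (fderiv ℝ (Φ t) z) := by
    have h8 : HasFDerivAt (u t) (fderiv ℝ (u t) (Φ t z)) (Φ t z) :=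
      jc_hasFDerivAt hu t (maps t hz)
    have h9 : HasFDerivAt (Φ t) (fderiv ℝ (Φ t) z) z := jc_hasFDerivAt hΦ t hz
    exact (h8.comp z h9).fderiv
  have h10 : HasDerivAt (fun s => fderiv ℝ (Φ s) z v) (fderiv ℝ (h t) z v) t := by
    have := ((ContinuousLinearMap.apply ℝ ℂ v).hasFDerivAt (x := fderiv ℝ (Φ t) z)).comp_hasDerivAt t h3
    exact this
  rw [h7] at h10
  exact h10

end Pool.Agent.Helper131.CG
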