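import Pool.Agent.Helper131.CG.Base
import Pool.Agent.Helper131.CG.L_lin

namespace Pool.Agent.Helper131.CG

open Complex MeasureTheory Set Filter Topology
open scoped ContDiff

theorem opn10702_weber : IsOpen (univ ×ˢ UH : Set (ℝ × ℂ)) := isOpen_univ.prod isOpen_UH

/-- chain rule for a jointly `C¹` map along a curve -/
theorem chain10702_weber {E : Type*} [NormedAddCommGroup E] [NormedSpace ℝ E] {f : ℝ → ℂ → E}
    (hf : ContDiffOn ℝ 1 (fun q : ℝ × ℂ => f q.1 q.2) (univ ×ˢ UH)) (t : ℝ) {x : ℝ → ℂ} {x' : ℂ}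
    (hx : HasDerivAt x x' t) (hxt : x t ∈ UH) :
    HasDerivAt (fun s => f s (x s)) (deriv (fun s => f s (x t)) t + fderiv ℝ (f t) (x t) x') t := by
  have hd : DifferentiableAt ℝ (fun q : ℝ × ℂ => f q.1 q.2) (t, x t) :=
    (hf.differentiableOn (by norm_num)).differentiableAt (opn10702_weber.mem_nhds ⟨trivial, hxt⟩)
  obtain ⟨D, hD⟩ := hd
  have h1 : HasDerivAt (fun s => f s (x s)) (D (1, x')) t := by
    have := hD.comp_hasDerivAt t ((hasDerivAt_id t).prodMk hx)
    exact this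
  have h2 : HasDerivAt (fun s => f s (x t)) (D (1, 0)) t := by
    have := hD.comp_hasDerivAt t ((hasDerivAt_id t).prodMk (hasDerivAt_const t (x t)))
    exact this
  have h3 : HasFDerivAt (f t) (D.comp (ContinuousLinearMap.inr ℝ ℝ ℂ)) (x t) := by
    have := hD.comp (x t) (hasFDerivAt_prodMk_right t (x t))
    exact this
  rw [h2.deriv, h3.fderiv]
  have e : D (1, x') = D (1, 0) + D.comp (ContinuousLinearMap.inr ℝ ℝ ℂ) x' := by
    rw [ContinuousLinearMap.comp_apply, ContinuousLinearMap.inr_apply, ← map_add]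
    simp
  rw [← e]
  exact h1

/-- derivative of the Lagrangian in the space variable -/
noncomputable def KK10702_weber (m : ℂ → ℝ) (u : ℝ → ℂ → ℂ) (p : ℝ → ℂ → ℝ) (s : ℝ) (x : ℂ) :
    ℂ →L[ℝ] ℝ :=
  (‖u s x‖ ^ 2 / 2) • fderiv ℝ m x + (m x) • ((innerSL ℝ (u s x)).comp (fderiv ℝ (u s) x)) -
    fderiv ℝ (p s) x

theorem KK_deriv10702_weber {Γ : Subgroup SL2R} {m : ℂ → ℝ} (hm : ConfMetric Γ m) {u : ℝ → ℂ → ℂ}
    {p : ℝ → ℂ → ℝ} (hE : EulerSol Γ m u p) (s : ℝ) {x : ℂ} (hx : x ∈ UH) :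
    HasFDerivAt (fun x => m x * ‖u s x‖ ^ 2 / 2 - p s x) (KK10702_weber m u p s x) x := by
  have h1 : HasFDerivAt m (fderiv ℝ m x) x :=
    ((hm.smooth.differentiableOn (by simp)).differentiableAt (isOpen_UH.mem_nhds hx)).hasFDerivAt
  have h2 := (jc_hasFDerivAt hE.u_smooth s hx).norm_sq
  have h3 : HasFDerivAt (p s) (fderiv ℝ (p s) x) x :=
    ((hE.p_diff s).differentiableAt (isOpen_UH.mem_nhds hx)).hasFDerivAt
  have h4 := ((h1.mul h2).mul_const ((2 : ℝ)⁻¹)).sub h3
  refine (h4.congr_fderiv ?_)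
  ext v
  simp only [KK10702_weber, ContinuousLinearMap.sub_apply, ContinuousLinearMap.add_apply,
    ContinuousLinearMap.smul_apply, smul_eq_mul, ContinuousLinearMap.comp_apply, nsmul_eq_mul]
  push_cast
  ring

theorem m_cont10702_weber {Γ : Subgroup SL2R} {m : ℂ → ℝ} (hm : ConfMetric Γ m) :
    ContinuousOn (fun q : ℝ × ℂ => m q.2) (univ ×ˢ UH) :=
  hm.smooth.continuousOn.comp continuous_snd.continuousOn (fun q hq => hq.2)

theorem KK_cont10702_weber {Γ : Subgroup SL2R} {m : ℂ → ℝ} (hm : ConfMetric Γ m) {u : ℝ → ℂ → ℂ}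
    {p : ℝ → ℂ → ℝ} (hE : EulerSol Γ m u p) :
    ContinuousOn (fun q : ℝ × ℂ => KK10702_weber m u p q.1 q.2) (univ ×ˢ UH) := by
  have hu : ContinuousOn (fun q : ℝ × ℂ => u q.1 q.2) (univ ×ˢ UH) := hE.u_smooth.continuousOn
  have hdm : ContinuousOn (fun q : ℝ × ℂ => fderiv ℝ m q.2) (univ ×ˢ UH) :=
    (hm.smooth.continuousOn_fderiv_of_isOpen isOpen_UH (by simp)).comp
      continuous_snd.continuousOn (fun q hq => hq.2)
  have hdu := jc_fderiv hE.u_smooth
  have hin : ContinuousOn (fun q : ℝ × ℂ => innerSL ℝ (u q.1 q.2)) (univ ×ˢ UH) :=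
    (innerSL ℝ (E := ℂ)).continuous.comp_continuousOn hu
  exact ((((hu.norm.pow 2).div_const 2).smul hdm).add ((m_cont10702_weber hm).smul
    (hin.clm_comp hdu))).sub hE.dp_cont

theorem alg10702_weber (a b c d e f : ℝ) :
    2 * (a * c - b * d) * (c * e + d * f) -
      ((a * (c * c - d * d) - b * (c * d + d * c)) * e +
       (a * (c * d + d * c) + b * (c * c - d * d)) * f) =
      (a * e - b * f) * (c ^ 2 + d ^ 2) := by
  ring

theorem weber {Γ : Subgroup SL2R} {m : ℂ → ℝ} (hm : ConfMetric Γ m) {u : ℝ → ℂ → ℂ}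
    {p : ℝ → ℂ → ℝ} {Φ Ψ : ℝ → ℂ → ℂ} (F : Flow Γ m u p Φ Ψ) (t : ℝ) {z : ℂ} (hz : z ∈ UH) :
    DifferentiableAt ℝ (wfun m u p Φ t) z ∧
    ∀ v : ℂ, fderiv ℝ (wfun m u p Φ t) z v =
      m (Φ t z) * ((starRingEnd ℂ) (u t (Φ t z)) * fderiv ℝ (Φ t) z v).re
        - m z * ((starRingEnd ℂ) (u 0 z) * v).re := by
  have hE := F.sol
  -- the joint map
  have hΦc : ContinuousOn (fun q : ℝ × ℂ => (q.1, Φ q.1 q.2)) (univ ×ˢ UH) :=
    continuous_fst.continuousOn.prodMk F.smooth.continuousOn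
  have hΦm : MapsTo (fun q : ℝ × ℂ => (q.1, Φ q.1 q.2)) (univ ×ˢ UH) (univ ×ˢ UH) :=
    fun q hq => ⟨trivial, F.maps q.1 hq.2⟩
  have hGc : ContinuousOn (fun q : ℝ × ℂ => m (Φ q.1 q.2) * ‖u q.1 (Φ q.1 q.2)‖ ^ 2 / 2 -
      p q.1 (Φ q.1 q.2)) (univ ×ˢ UH) := by
    have h1 := (m_cont10702_weber hm).comp hΦc hΦm
    have h2 := hE.u_smooth.continuousOn.comp hΦc hΦm
    have h3 := hE.p_cont.comp hΦc hΦm
    exact ((h1.mul (h2.norm.pow 2)).div_const 2).sub h3
  set G' : ℝ → ℂ → ℂ →L[ℝ] ℝ := fun s w =>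
    (KK10702_weber m u p s (Φ s w)).comp (fderiv ℝ (Φ s) w) with hG'
  have hG'c : ContinuousOn (fun q : ℝ × ℂ => G' q.1 q.2) (univ ×ˢ UH) :=
    ((KK_cont10702_weber hm hE).comp hΦc hΦm).clm_comp (jc_fderiv F.smooth)
  have hG'd : ∀ s : ℝ, ∀ w ∈ UH, HasFDerivAt
      (fun w => m (Φ s w) * ‖u s (Φ s w)‖ ^ 2 / 2 - p s (Φ s w)) (G' s w) w := by
    intro s w hw
    exact (KK_deriv10702_weber hm hE s (F.maps s hw)).comp w (jc_hasFDerivAt F.smooth s hw)
  -- slices in time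
  have hslice : ∀ w ∈ UH, Continuous fun s : ℝ => (s, w) := fun w _ => by fun_prop
  have hsc : ∀ w ∈ UH, Continuous fun s : ℝ =>
      m (Φ s w) * ‖u s (Φ s w)‖ ^ 2 / 2 - p s (Φ s w) := by
    intro w hw
    have := hGc.comp_continuous (f := fun s : ℝ => (s, w)) (by fun_prop) (fun s => ⟨trivial, hw⟩)
    exact this
  have hsc' : ∀ w ∈ UH, Continuous fun s : ℝ => G' s w := by
    intro w hw
    have := hG'c.comp_continuous (f := fun s : ℝ => (s, w)) (by fun_prop) (fun s => ⟨trivial, hw⟩)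
    exact this
  obtain ⟨r, hr, hball⟩ := Metric.nhds_basis_closedBall.mem_iff.1 (isOpen_UH.mem_nhds hz)
  obtain ⟨C, hC⟩ : ∃ C, ∀ q ∈ (uIcc 0 t ×ˢ Metric.closedBall z r : Set (ℝ × ℂ)),
      ‖G' q.1 q.2‖ ≤ C :=
    (isCompact_uIcc.prod (isCompact_closedBall z r)).exists_bound_of_continuousOn
      (hG'c.mono (prod_mono (subset_univ _) hball))
  have hder : HasFDerivAt (wfun m u p Φ t) (∫ s in (0 : ℝ)..t, G' s z) z := by
    refine intervalIntegral.hasFDerivAt_integral_of_dominated_of_fderiv_le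
      (F := fun w s => m (Φ s w) * ‖u s (Φ s w)‖ ^ 2 / 2 - p s (Φ s w))
      (F' := fun w s => G' s w) (bound := fun _ => C) (s := Metric.closedBall z r)
      (Metric.closedBall_mem_nhds z hr) ?_ ?_ ?_ ?_ ?_ ?_
    · filter_upwards [isOpen_UH.mem_nhds hz] with w hw
      exact (hsc w hw).aestronglyMeasurable
    · exact (hsc z hz).intervalIntegrable _ _
    · exact (hsc' z hz).aestronglyMeasurable
    · refine Filter.Eventually.of_forall fun s hs w hw => ?_
      exact hC (s, w) ⟨uIoc_subset_uIcc hs, hw⟩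
    · exact intervalIntegrable_const
    · refine Filter.Eventually.of_forall fun s _ w hw => ?_
      exact hG'd s w (hball hw)
  refine ⟨hder.differentiableAt, fun v => ?_⟩
  rw [hder.fderiv, ContinuousLinearMap.intervalIntegral_apply
    ((hsc' z hz).intervalIntegrable _ _)]
  -- the primitive
  have hprim : ∀ s : ℝ, HasDerivAt (fun s => m (Φ s z) *
      ((starRingEnd ℂ) (u s (Φ s z)) * fderiv ℝ (Φ s) z v).re) (G' s z v) s := by
    intro s
    have hxs := F.maps s hz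
    have hx := F.flow s z hz
    have hX := lin hE.u_smooth F.smooth F.maps F.flow s hz v
    have hU := chain10702_weber hE.u_smooth s hx hxs
    have hdm : HasFDerivAt m (fderiv ℝ m (Φ s z)) (Φ s z) :=
      ((hm.smooth.differentiableOn (by simp)).differentiableAt
        (isOpen_UH.mem_nhds hxs)).hasFDerivAt
    have hmx := hdm.comp_hasDerivAt s hx
    have heu := hE.euler s (Φ s z) hxs
    have hm0 := hm.pos (Φ s z) hxs
    -- logarithmic derivative
    have hL : fderiv ℝ (Lm m) (Φ s z) = (m (Φ s z))⁻¹ • fderiv ℝ m (Φ s z) :=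
      (hdm.log hm0.ne').fderiv
    have hconj : HasDerivAt (fun s => (starRingEnd ℂ) (u s (Φ s z)))
        ((starRingEnd ℂ) (deriv (fun s' => u s' (Φ s z)) s +
          fderiv ℝ (u s) (Φ s z) (u s (Φ s z)))) s :=
      (Complex.conjCLE.toContinuousLinearMap.hasFDerivAt).comp_hasDerivAt s hU
    have hre := (Complex.reCLM.hasFDerivAt).comp_hasDerivAt s (hconj.mul hX)
    have hfin := hmx.mul hre
    refine HasDerivAt.congr_deriv hfin ?_
    have hm1 : fderiv ℝ m (Φ s z) = m (Φ s z) • fderiv ℝ (Lm m) (Φ s z) := by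
      rw [hL, smul_smul, mul_inv_cancel₀ hm0.ne', one_smul]
    -- expand everything
    simp only [hG', KK10702_weber, ContinuousLinearMap.comp_apply, ContinuousLinearMap.sub_apply,
      ContinuousLinearMap.add_apply, ContinuousLinearMap.smul_apply, smul_eq_mul, innerSL_apply_apply,
      Complex.inner, Function.comp, Complex.reCLM_apply, Pi.mul_apply, hm1]
    have heu2 : deriv (fun s' => u s' (Φ s z)) s + fderiv ℝ (u s) (Φ s z) (u s (Φ s z)) =
        - (pz m (Φ s z) * u s (Φ s z) * u s (Φ s z)) - grad m (p s) (Φ s z) := by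
      simp only [cov] at heu
      linear_combination heu
    rw [heu2]
    have hlin : ∀ (A : ℂ →L[ℝ] ℝ) (w : ℂ), A w = w.re * A 1 + w.im * A I := by
      intro A w
      have e : w = w.re • (1 : ℂ) + w.im • I := by
        simp [Complex.re_add_im]
      conv_lhs => rw [e]
      rw [map_add, map_smul, map_smul, smul_eq_mul, smul_eq_mul]
    rw [hlin (fderiv ℝ (Lm m) (Φ s z)), hlin (fderiv ℝ (Lm m) (Φ s z)) (fderiv ℝ (Φ s) z v),
      hlin (fderiv ℝ (p s) (Φ s z)) (fderiv ℝ (Φ s) z v)]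
    simp only [pz, grad]
    generalize fderiv ℝ (Lm m) (Φ s z) 1 = l1
    generalize fderiv ℝ (Lm m) (Φ s z) I = l2
    generalize fderiv ℝ (p s) (Φ s z) 1 = p1
    generalize fderiv ℝ (p s) (Φ s z) I = p2
    generalize fderiv ℝ (u s) (Φ s z) (fderiv ℝ (Φ s) z v) = Y
    generalize fderiv ℝ (Φ s) z v = X
    generalize u s (Φ s z) = U
    generalize hM : m (Φ s z) = M at hm0 ⊢
    have hM0 : M ≠ 0 := hm0.ne'
    have hn : ‖U‖ ^ 2 = U.re ^ 2 + U.im ^ 2 := by
      rw [← Complex.normSq_eq_norm_sq, Complex.normSq_apply]; ring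
    rw [hn]
    simp only [Complex.mul_re, Complex.mul_im, Complex.add_re, Complex.add_im, Complex.sub_re,
      Complex.sub_im, Complex.neg_re, Complex.neg_im, Complex.conj_re, Complex.conj_im,
      Complex.div_ofNat_re, Complex.div_ofNat_im, Complex.ofReal_re, Complex.ofReal_im,
      Complex.I_re, Complex.I_im, Complex.div_ofReal_re, Complex.div_ofReal_im]
    field_simp
    ring
  rw [intervalIntegral.integral_eq_sub_of_hasDerivAt (fun s _ => hprim s)]
  · have h0 : Φ 0 z = z := F.zero z hz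
    have h1 : fderiv ℝ (Φ 0) z = ContinuousLinearMap.id ℝ ℂ := by
      have : Φ 0 =ᶠ[𝓝 z] id := by
        filter_upwards [isOpen_UH.mem_nhds hz] with w hw
        exact F.zero w hw
      rw [this.fderiv_eq, fderiv_id]
    rw [h0, h1]
    rfl
  · have : Continuous fun s => G' s z v := (hsc' z hz).clm_apply continuous_const
    exact this.intervalIntegrable _ _

end Pool.Agent.Helper131.CG
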