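import Pool.Agent.Helper131.CG.Base
import Pool.Agent.Helper131.CG.L_field_equiv
import Pool.Agent.Helper131.CG.L_weber

namespace Pool.Agent.Helper131.CG

open Complex MeasureTheory Set Filter Topology
open scoped ContDiff

theorem wfun_contDiff {Γ : Subgroup SL2R} {m : ℂ → ℝ} (hm : ConfMetric Γ m) {u : ℝ → ℂ → ℂ}
    {p : ℝ → ℂ → ℝ} {Φ Ψ : ℝ → ℂ → ℂ} (F : Flow Γ m u p Φ Ψ) (t : ℝ) :
    ContDiffOn ℝ 1 (wfun m u p Φ t) UH := by
  have hΦ := (jc_slice F.smooth t).continuousOn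
  have hm1 := hm.smooth.continuousOn
  have hut := (jc_slice F.sol.u_smooth t).continuousOn
  have hu0 := (jc_slice F.sol.u_smooth 0).continuousOn
  have hdΦ : ContinuousOn (fun z => fderiv ℝ (Φ t) z) UH :=
    (jc_slice F.smooth t).continuousOn_fderiv_of_isOpen isOpen_UH le_rfl
  rw [show (1 : WithTop ℕ∞) = 0 + 1 from (zero_add 1).symm,
    contDiffOn_succ_iff_fderiv_of_isOpen isOpen_UH]
  refine ⟨fun z hz => (weber hm F t hz).1.differentiableWithinAt, by simp, ?_⟩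
  rw [contDiffOn_zero]
  rw [continuousOn_clm_apply]
  intro v
  have h1 : ContinuousOn (fun z => m (Φ t z) * ((starRingEnd ℂ) (u t (Φ t z)) *
      fderiv ℝ (Φ t) z v).re - m z * ((starRingEnd ℂ) (u 0 z) * v).re) UH := by
    have c1 : ContinuousOn (fun z => m (Φ t z)) UH := hm1.comp hΦ (F.maps t)
    have c2 : ContinuousOn (fun z => u t (Φ t z)) UH := hut.comp hΦ (F.maps t)
    have c3 : ContinuousOn (fun z => (starRingEnd ℂ) (u t (Φ t z))) UH :=
      Complex.continuous_conj.comp_continuousOn c2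
    have c4 : ContinuousOn (fun z => (starRingEnd ℂ) (u 0 z)) UH :=
      Complex.continuous_conj.comp_continuousOn hu0
    have c5 : ContinuousOn (fun z => fderiv ℝ (Φ t) z v) UH :=
      hdΦ.clm_apply continuousOn_const
    exact (c1.mul (Complex.continuous_re.comp_continuousOn (c3.mul c5))).sub
      (hm1.mul (Complex.continuous_re.comp_continuousOn (c4.mul continuousOn_const)))
  refine h1.congr fun z hz => ?_
  exact (weber hm F t hz).2 v

theorem wfun_inv {Γ : Subgroup SL2R} {m : ℂ → ℝ} (hm : ConfMetric Γ m) {u : ℝ → ℂ → ℂ}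
    {p : ℝ → ℂ → ℝ} {Φ Ψ : ℝ → ℂ → ℂ} (F : Flow Γ m u p Φ Ψ) (t : ℝ) :
    ∀ g ∈ Γ, ∀ z ∈ UH, wfun m u p Φ t (mob g z) = wfun m u p Φ t z := by
  intro g hg z hz
  unfold wfun
  apply intervalIntegral.integral_congr
  intro s _
  show m (Φ s (mob g z)) * ‖u s (Φ s (mob g z))‖ ^ 2 / 2 - p s (Φ s (mob g z)) =
    m (Φ s z) * ‖u s (Φ s z)‖ ^ 2 / 2 - p s (Φ s z)
  have h1 := norm_inv hm (F.sol.u_equiv s) g hg (Φ s z) (F.maps s hz)
  rw [F.comm s g hg z hz, h1, F.sol.p_inv s g hg (Φ s z) (F.maps s hz)]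

end Pool.Agent.Helper131.CG
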