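import Pool.Agent.Helper131.CG.Base
import Pool.Agent.Helper131.CG.L_weber
import Pool.Agent.Helper131.CG.L_wfun_cont

namespace Pool.Agent.Helper131.CG

open Complex MeasureTheory Set Filter Topology
open scoped ContDiff

theorem im_conj_det_dw_field (D : ℂ →L[ℝ] ℂ) (a b : ℂ) :
    ((starRingEnd ℂ) (D a) * D b).im = D.det * ((starRingEnd ℂ) a * b).im := by
  have hD : ∀ c : ℂ, D c = c.re • D 1 + c.im • D I := by
    intro c
    have : c = c.re • (1 : ℂ) + c.im • I := by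
      apply Complex.ext <;> simp
    conv_lhs => rw [this]
    rw [map_add, map_smul, map_smul]
  have hdet : D.det = (D 1).re * (D I).im - (D I).re * (D 1).im := by
    have : D.det = LinearMap.det (D : ℂ →ₗ[ℝ] ℂ) := rfl
    rw [this, ← LinearMap.det_toMatrix Complex.basisOneI, Matrix.det_fin_two]
    simp [LinearMap.toMatrix_apply]
  rw [hdet, hD a, hD b]
  simp
  ring



/-- `μ(D_t(i u_0), u_t∘Φ_t) = (dw̃(u_t) - |u_t|²)∘Φ_t`, with `w̃ = w_t ∘ Ψ_t` -/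
theorem dw_field {Γ : Subgroup SL2R} {m : ℂ → ℝ} (hm : ConfMetric Γ m)
    {u : ℝ → ℂ → ℂ} {p : ℝ → ℂ → ℝ} {Φ Ψ : ℝ → ℂ → ℂ} (F : Flow Γ m u p Φ Ψ) (t : ℝ)
    {z : ℂ} (hz : z ∈ UH) :
    m (Φ t z) * ((starRingEnd ℂ) (fderiv ℝ (Φ t) z (I * u 0 z)) * u t (Φ t z)).im =
      fderiv ℝ (fun ζ => wfun m u p Φ t (Ψ t ζ)) (Φ t z) (u t (Φ t z))
        - m (Φ t z) * ‖u t (Φ t z)‖ ^ 2 := by
  have hP : Φ t z ∈ UH := F.maps t hz
  have hΨ : Ψ t (Φ t z) = z := F.left t z hz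
  set P := Φ t z with hPdef
  set D := fderiv ℝ (Φ t) z with hD
  have h1 : HasFDerivAt (Φ t) D z := jc_hasFDerivAt F.smooth t hz
  have h2 : DifferentiableAt ℝ (Ψ t) P :=
    ((F.ismooth t).contDiffAt (isOpen_UH.mem_nhds hP)).differentiableAt one_ne_zero
  set D' := fderiv ℝ (Ψ t) P with hD'
  have h2' : HasFDerivAt (Ψ t) D' P := h2.hasFDerivAt
  have h1' : HasFDerivAt (Φ t) D (Ψ t P) := by rw [hΨ]; exact h1
  have h3 : HasFDerivAt (fun ζ => Φ t (Ψ t ζ)) (D.comp D') P := h1'.comp P h2'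
  have h4 : (fun ζ => Φ t (Ψ t ζ)) =ᶠ[𝓝 P] id := by
    filter_upwards [isOpen_UH.mem_nhds hP] with ζ hζ
    exact F.right t ζ hζ
  have h5 : D.comp D' = ContinuousLinearMap.id ℝ ℂ :=
    h3.unique ((hasFDerivAt_id P).congr_of_eventuallyEq h4)
  set U := D' (u t P) with hU
  have hDU : D U = u t P := by
    have := congrArg (fun L : ℂ →L[ℝ] ℂ => L (u t P)) h5
    simpa using this
  obtain ⟨hw1, hw2⟩ := weber hm F t hz
  have h6 : HasFDerivAt (wfun m u p Φ t) (fderiv ℝ (wfun m u p Φ t) z) (Ψ t P) := by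
    rw [hΨ]; exact hw1.hasFDerivAt
  have h7 : HasFDerivAt (fun ζ => wfun m u p Φ t (Ψ t ζ))
      ((fderiv ℝ (wfun m u p Φ t) z).comp D') P := h6.comp P h2'
  rw [h7.fderiv]
  have h8 : ((fderiv ℝ (wfun m u p Φ t) z).comp D') (u t P) = fderiv ℝ (wfun m u p Φ t) z U := rfl
  rw [h8, hw2 U]
  have harea : D.det * m P = m z := F.area t z hz
  rw [← hPdef, ← hD]
  have h9 : ((starRingEnd ℂ) (D (I * u 0 z)) * u t P).im
      = D.det * ((starRingEnd ℂ) (I * u 0 z) * U).im := by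
    rw [← im_conj_det_dw_field, hDU]
  have h10 : ((starRingEnd ℂ) (I * u 0 z) * U).im = - ((starRingEnd ℂ) (u 0 z) * U).re := by
    simp
    ring
  have h11 : ((starRingEnd ℂ) (u t P) * u t P).re = ‖u t P‖ ^ 2 := by
    rw [← Complex.normSq_eq_norm_sq, Complex.normSq_apply]
    simp
  rw [h9, h10, hDU, h11, ← harea]
  ring

theorem wt_contDiff {Γ : Subgroup SL2R} {m : ℂ → ℝ} (hm : ConfMetric Γ m)
    {u : ℝ → ℂ → ℂ} {p : ℝ → ℂ → ℝ} {Φ Ψ : ℝ → ℂ → ℂ} (F : Flow Γ m u p Φ Ψ) (t : ℝ) :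
    ContDiffOn ℝ 1 (fun ζ => wfun m u p Φ t (Ψ t ζ)) UH :=
  (wfun_contDiff hm F t).comp (F.ismooth t) (F.imaps t)

theorem wt_inv {Γ : Subgroup SL2R} {m : ℂ → ℝ} (hm : ConfMetric Γ m)
    {u : ℝ → ℂ → ℂ} {p : ℝ → ℂ → ℝ} {Φ Ψ : ℝ → ℂ → ℂ} (F : Flow Γ m u p Φ Ψ) (t : ℝ) :
    ∀ g ∈ Γ, ∀ z ∈ UH, (fun ζ => wfun m u p Φ t (Ψ t ζ)) (mob g z) =
      (fun ζ => wfun m u p Φ t (Ψ t ζ)) z := by
  intro g hg z hz
  have h1 : Ψ t (mob g z) = mob g (Ψ t z) := by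
    have h2 : mob g z = Φ t (mob g (Ψ t z)) := by
      rw [F.comm t g hg (Ψ t z) (F.imaps t hz), F.right t z hz]
    rw [h2, F.left t _ (mob_mem g (F.imaps t hz))]
  show wfun m u p Φ t (Ψ t (mob g z)) = wfun m u p Φ t (Ψ t z)
  rw [h1]
  exact wfun_inv hm F t g hg _ (F.imaps t hz)

end Pool.Agent.Helper131.CG
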