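import Pool.Agent.Helper131.CG.Base

namespace Pool.Agent.Helper131.CG

open Complex MeasureTheory Set Filter Topology
open scoped ContDiff

theorem cut_comp {Γ : Subgroup SL2R} {χ : ℂ → ℝ} (hχ : Cut Γ χ) {f h : ℂ → ℂ}
    (hf : ContinuousOn f UH) (hh : ContDiffOn ℝ 1 h UH) (hfm : MapsTo f UH UH)
    (hhm : MapsTo h UH UH) (left : ∀ z ∈ UH, h (f z) = z) (right : ∀ z ∈ UH, f (h z) = z)
    (comm : ∀ g ∈ Γ, ∀ z ∈ UH, h (mob g z) = mob g (h z)) :
    Cut Γ (UH.indicator (fun z => χ (h z))) := by
  have hK : IsCompact (f '' (tsupport χ)) := (hχ.compact.isCompact).image_of_continuousOn (hf.mono hχ.supp)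
  have hKU : f '' (tsupport χ) ⊆ UH := by
    rintro _ ⟨z, hz, rfl⟩
    exact hfm (hχ.supp hz)
  have hzero : ∀ z, z ∉ f '' (tsupport χ) → UH.indicator (fun z => χ (h z)) z = 0 := by
    intro z hz
    by_cases hzU : z ∈ UH
    · rw [indicator_of_mem hzU]
      by_contra hne
      exact hz ⟨h z, subset_tsupport χ hne, right z hzU⟩
    · exact indicator_of_notMem hzU _
  have hts : tsupport (UH.indicator (fun z => χ (h z))) ⊆ f '' (tsupport χ) := by
    apply closure_minimal _ hK.isClosed
    intro z hz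
    by_contra hcon
    exact hz (hzero z hcon)
  refine ⟨?_, ?_, hts.trans hKU, ?_, ?_⟩
  · rw [contDiff_iff_contDiffAt]
    intro z
    by_cases hzU : z ∈ UH
    · have h1 : ContDiffAt ℝ 1 (fun z => χ (h z)) z :=
        hχ.smooth.contDiffAt.comp z (hh.contDiffAt (isOpen_UH.mem_nhds hzU))
      refine h1.congr_of_eventuallyEq ?_
      filter_upwards [isOpen_UH.mem_nhds hzU] with w hw
      exact indicator_of_mem hw _
    · have hz' : z ∈ (f '' (tsupport χ))ᶜ := fun hz => hzU (hKU hz)
      refine (contDiffAt_const (c := (0 : ℝ))).congr_of_eventuallyEq ?_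
      filter_upwards [hK.isClosed.isOpen_compl.mem_nhds hz'] with w hw
      exact hzero w hw
  · exact HasCompactSupport.intro hK hzero
  · intro z
    exact indicator_nonneg (fun _ _ => hχ.nonneg _) z
  · intro z hz
    rw [← hχ.sum_one (h z) (hhm hz)]
    refine finsum_congr fun g => ?_
    rw [indicator_of_mem (mob_mem _ hz), comm g g.2 z hz]

end Pool.Agent.Helper131.CG
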