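import Pool.Agent.Helper131.CG.Base
import Pool.Agent.Helper131.CG.L_integral_mob
import Pool.Agent.Helper131.CG.L_locfin

namespace Pool.Agent.Helper131.CG

open Complex MeasureTheory Set Filter Topology
open scoped ContDiff

theorem cut_expand_aux_cut_indep {Γ : Subgroup SL2R} {m : ℂ → ℝ} (hm : ConfMetric Γ m)
    {χ₁ χ₂ : ℂ → ℝ} (h1 : Cut Γ χ₁) (h2 : Cut Γ χ₂) {F : ℂ → ℝ} (hF : ContinuousOn F UH)
    (S : Finset Γ) (hS : ∀ g : Γ, ∀ z ∈ tsupport χ₁, mob (g : SL2R) z ∈ tsupport χ₂ → g ∈ S) :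
    ∫ z, χ₁ z * F z * m z = ∑ g ∈ S, ∫ z in UH, χ₁ z * χ₂ (mob (g : SL2R) z) * F z * m z := by
  have hout : ∀ z, z ∉ UH → χ₁ z * F z * m z = 0 := by
    intro z hz
    have : χ₁ z = 0 := image_eq_zero_of_notMem_tsupport (fun h => hz (h1.supp h))
    rw [this]; ring
  rw [← setIntegral_eq_integral_of_forall_compl_eq_zero (s := UH) hout]
  have hint : ∀ g ∈ S, Integrable (fun z => χ₁ z * χ₂ (mob (g : SL2R) z) * F z * m z) (volume.restrict UH) := by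
    intro g _
    have hc : ContinuousOn (fun z => χ₁ z * χ₂ (mob (g : SL2R) z) * F z * m z) UH := by
      have c1 : ContinuousOn χ₁ UH := h1.smooth.continuous.continuousOn
      have c2 : ContinuousOn (fun z => χ₂ (mob (g : SL2R) z)) UH :=
        h2.smooth.continuous.comp_continuousOn (contDiffOn_mob (g : SL2R)).continuousOn
      have c3 : ContinuousOn m UH := hm.smooth.continuousOn
      exact ((c1.mul c2).mul hF).mul c3
    have hK : IntegrableOn (fun z => χ₁ z * χ₂ (mob (g : SL2R) z) * F z * m z) (tsupport χ₁) :=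
      (hc.mono h1.supp).integrableOn_compact h1.compact
    refine hK.of_forall_diff_eq_zero isOpen_UH.measurableSet ?_
    intro z hz
    have : χ₁ z = 0 := image_eq_zero_of_notMem_tsupport hz.2
    rw [this]; ring
  rw [← integral_finsetSum _ hint]
  refine setIntegral_congr_fun isOpen_UH.measurableSet (fun z hz => ?_)
  by_cases hz0 : χ₁ z = 0
  · simp [hz0]
  · have hzK : z ∈ tsupport χ₁ := subset_tsupport _ hz0
    have hsub : Function.support (fun g : Γ => χ₂ (mob (g : SL2R) z)) ⊆ (S : Set Γ) := by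
      intro g hg
      exact hS g z hzK (subset_tsupport _ hg)
    have hsum : ∑ g ∈ S, χ₂ (mob (g : SL2R) z) = 1 := by
      rw [← h2.sum_one z hz, finsum_eq_sum_of_support_subset _ hsub]
    show χ₁ z * F z * m z = ∑ g ∈ S, χ₁ z * χ₂ (mob (g : SL2R) z) * F z * m z
    calc χ₁ z * F z * m z = χ₁ z * (∑ g ∈ S, χ₂ (mob (g : SL2R) z)) * F z * m z := by
          rw [hsum]; ring
      _ = _ := by
          rw [Finset.mul_sum, Finset.sum_mul, Finset.sum_mul]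

theorem cut_swap_aux_cut_indep {Γ : Subgroup SL2R} {m : ℂ → ℝ} (hm : ConfMetric Γ m)
    {χ₁ χ₂ : ℂ → ℝ} {F : ℂ → ℝ}
    (hinv : ∀ g ∈ Γ, ∀ z ∈ UH, F (mob g z) = F z) (g : Γ) :
    ∫ z in UH, χ₁ z * χ₂ (mob (g : SL2R) z) * F z * m z =
      ∫ z in UH, χ₂ z * χ₁ (mob ((g⁻¹ : Γ) : SL2R) z) * F z * m z := by
  have h := integral_mob hm.equiv (g : SL2R) g.2 (fun z => χ₂ z * χ₁ (mob ((g⁻¹ : Γ) : SL2R) z) * F z)
  rw [← h]
  refine setIntegral_congr_fun isOpen_UH.measurableSet (fun z hz => ?_)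
  have e1 : mob ((g⁻¹ : Γ) : SL2R) (mob (g : SL2R) z) = z := by
    have : ((g⁻¹ : Γ) : SL2R) = (g : SL2R)⁻¹ := rfl
    rw [this]; exact mob_inv_mob _ hz
  show χ₁ z * χ₂ (mob (g : SL2R) z) * F z * m z = χ₂ (mob (g : SL2R) z) * χ₁ (mob ((g⁻¹ : Γ) : SL2R) (mob (g : SL2R) z)) * F (mob (g : SL2R) z) * m z
  rw [e1, hinv _ g.2 z hz]
  ring

theorem cut_indep {Γ : Subgroup SL2R} (hΓ : SurfaceGroup Γ) {m : ℂ → ℝ} (hm : ConfMetric Γ m)
    {χ₁ χ₂ : ℂ → ℝ} (h1 : Cut Γ χ₁) (h2 : Cut Γ χ₂) {F : ℂ → ℝ} (hF : ContinuousOn F UH)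
    (hinv : ∀ g ∈ Γ, ∀ z ∈ UH, F (mob g z) = F z) :
    ∫ z, χ₁ z * F z * m z = ∫ z, χ₂ z * F z * m z := by
  classical
  have hK : IsCompact (tsupport χ₁ ∪ tsupport χ₂) := h1.compact.union h2.compact
  have hKU : tsupport χ₁ ∪ tsupport χ₂ ⊆ UH := union_subset h1.supp h2.supp
  have hfin := locfin hΓ hK hKU
  set S : Finset Γ := hfin.toFinset with hSdef
  have hS1 : ∀ g : Γ, ∀ z ∈ tsupport χ₁, mob (g : SL2R) z ∈ tsupport χ₂ → g ∈ S := by
    intro g z hz hgz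
    rw [hSdef, Set.Finite.mem_toFinset]
    exact ⟨z, Or.inl hz, Or.inr hgz⟩
  have hS2 : ∀ g : Γ, ∀ z ∈ tsupport χ₂, mob (g : SL2R) z ∈ tsupport χ₁ → g ∈ S := by
    intro g z hz hgz
    rw [hSdef, Set.Finite.mem_toFinset]
    exact ⟨z, Or.inr hz, Or.inl hgz⟩
  have hSinv : ∀ g ∈ S, g⁻¹ ∈ S := by
    intro g hg
    rw [hSdef, Set.Finite.mem_toFinset] at hg ⊢
    obtain ⟨z, hz, hgz⟩ := hg
    refine ⟨mob (g : SL2R) z, hgz, ?_⟩
    have e1 : mob ((g⁻¹ : Γ) : SL2R) (mob (g : SL2R) z) = z := by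
      have : ((g⁻¹ : Γ) : SL2R) = (g : SL2R)⁻¹ := rfl
      rw [this]; exact mob_inv_mob _ (hKU hz)
    rw [e1]; exact hz
  rw [cut_expand_aux_cut_indep hm h1 h2 hF S hS1, cut_expand_aux_cut_indep hm h2 h1 hF S hS2]
  refine Finset.sum_bij' (fun g _ => g⁻¹) (fun g _ => g⁻¹) hSinv hSinv (fun g _ => inv_inv g) (fun g _ => inv_inv g) ?_
  intro g _
  exact cut_swap_aux_cut_indep hm hinv g

end Pool.Agent.Helper131.CG
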