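import Pool.Agent.Helper131.CG.Base
import Pool.Agent.Helper131.CG.L_cut_comp
import Pool.Agent.Helper131.CG.L_cut_indep

namespace Pool.Agent.Helper131.CG

open Complex MeasureTheory Set Filter Topology
open scoped ContDiff

theorem int_inv {Γ : Subgroup SL2R} (hΓ : SurfaceGroup Γ) {m : ℂ → ℝ} (hm : ConfMetric Γ m)
    {χ : ℂ → ℝ} (hχ : Cut Γ χ) {f h : ℂ → ℂ}
    (hf : ContDiffOn ℝ 1 f UH) (hh : ContDiffOn ℝ 1 h UH) (hfm : MapsTo f UH UH)
    (hhm : MapsTo h UH UH) (left : ∀ z ∈ UH, h (f z) = z) (right : ∀ z ∈ UH, f (h z) = z)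
    (comm : ∀ g ∈ Γ, ∀ z ∈ UH, f (mob g z) = mob g (f z))
    (area : ∀ z ∈ UH, (fderiv ℝ f z).det * m (f z) = m z)
    {F : ℂ → ℝ} (hF : ContinuousOn F UH) (hinv : ∀ g ∈ Γ, ∀ z ∈ UH, F (mob g z) = F z) :
    ∫ z, χ z * F (f z) * m z = ∫ z, χ z * F z * m z := by
  have hcomm : ∀ g ∈ Γ, ∀ z ∈ UH, h (mob g z) = mob g (h z) := by
    intro g hg z hz
    have h1 : mob g z = f (mob g (h z)) := by
      rw [comm g hg (h z) (hhm hz), right z hz]
    rw [h1, left _ (mob_mem g (hhm hz))]
  have hcut := cut_comp hχ hf.continuousOn hh hfm hhm left right hcomm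
  have himg : f '' UH = UH := by
    apply Subset.antisymm
    · rintro _ ⟨z, hz, rfl⟩; exact hfm hz
    · intro z hz; exact ⟨h z, hhm hz, right z hz⟩
  have hinj : InjOn f UH := by
    intro x hx y hy hxy
    rw [← left x hx, ← left y hy, hxy]
  have hder : ∀ x ∈ UH, HasFDerivWithinAt f (fderiv ℝ f x) UH x := by
    intro x hx
    have h1 : DifferentiableAt ℝ f x :=
      (hf.differentiableOn (by norm_num)).differentiableAt (isOpen_UH.mem_nhds hx)
    exact h1.hasFDerivAt.hasFDerivWithinAt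
  have hcv := integral_image_eq_integral_abs_det_fderiv_smul (volume : Measure ℂ)
    isOpen_UH.measurableSet hder hinj (fun ζ => χ (h ζ) * F ζ * m ζ)
  rw [himg] at hcv
  have h2 : ∫ z in UH, |(fderiv ℝ f z).det| • (χ (h (f z)) * F (f z) * m (f z)) =
      ∫ z in UH, χ z * F (f z) * m z := by
    apply setIntegral_congr_fun isOpen_UH.measurableSet
    intro z hz
    have ha := area z hz
    have hm1 := hm.pos z hz
    have hm2 := hm.pos (f z) (hfm hz)
    have hdet : 0 < (fderiv ℝ f z).det := by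
      by_contra hcon
      have := mul_nonpos_of_nonpos_of_nonneg (not_lt.1 hcon) hm2.le
      linarith
    show |(fderiv ℝ f z).det| • (χ (h (f z)) * F (f z) * m (f z)) = χ z * F (f z) * m z
    rw [abs_of_pos hdet, left z hz, smul_eq_mul, ← ha]
    ring
  rw [h2] at hcv
  have h3 : ∫ z in UH, χ z * F (f z) * m z = ∫ z, χ z * F (f z) * m z := by
    apply setIntegral_eq_integral_of_forall_compl_eq_zero
    intro z hz
    have : χ z = 0 := image_eq_zero_of_notMem_tsupport (fun h => hz (hχ.supp h))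
    rw [this]; ring
  have h4 : ∫ ζ in UH, χ (h ζ) * F ζ * m ζ = ∫ z, (UH.indicator (fun z => χ (h z))) z * F z * m z := by
    have h5 : ∫ z in UH, (UH.indicator (fun z => χ (h z))) z * F z * m z =
        ∫ z, (UH.indicator (fun z => χ (h z))) z * F z * m z :=
      setIntegral_eq_integral_of_forall_compl_eq_zero (fun z hz => by
        rw [indicator_of_notMem hz]; ring)
    rw [← h5]
    apply setIntegral_congr_fun isOpen_UH.measurableSet
    intro z hz
    show χ (h z) * F z * m z = (UH.indicator (fun z => χ (h z))) z * F z * m z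
    rw [indicator_of_mem hz]
  rw [← h3, ← hcv, h4]
  exact cut_indep hΓ hm hcut hχ hF hinv

end Pool.Agent.Helper131.CG
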