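import Pool.Agent.Helper131.CG.Base
import Pool.Agent.Helper131.CG.L_locfin

namespace Pool.Agent.Helper131.CG

open Complex MeasureTheory Set Filter Topology
open scoped ContDiff

theorem exists_cut_bump_exists_cut (K : Set ℂ) (hK : IsCompact K) (hKU : K ⊆ UH) :
    ∃ ψ : ℂ → ℝ, ContDiff ℝ 1 ψ ∧ HasCompactSupport ψ ∧ tsupport ψ ⊆ UH ∧ (∀ z, 0 ≤ ψ z) ∧
      ∀ z ∈ K, 0 < ψ z := by
  classical
  have h1 : ∀ x : K, ∃ f : ℂ → ℝ, tsupport f ⊆ UH ∧ HasCompactSupport f ∧ ContDiff ℝ 1 f ∧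
      range f ⊆ Icc 0 1 ∧ f x = 1 := by
    intro x
    obtain ⟨f, h1, h2, h3, h4, h5⟩ :=
      exists_contDiff_tsupport_subset (n := 1) (isOpen_UH.mem_nhds (hKU x.2))
    exact ⟨f, h1, h2, h3, h4, h5⟩
  choose f f1 f2 f3 f4 f5 using h1
  have hopen : ∀ x : K, IsOpen {z | 0 < f x z} := fun x =>
    isOpen_lt continuous_const (f3 x).continuous
  obtain ⟨t, ht⟩ := hK.elim_finite_subcover (fun x : K => {z | 0 < f x z}) hopen (by
    intro z hz
    refine mem_iUnion.2 ⟨⟨z, hz⟩, ?_⟩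
    change 0 < f ⟨z, hz⟩ z
    have := f5 ⟨z, hz⟩
    rw [this]
    exact one_pos)
  have hnn : ∀ x z, 0 ≤ f x z := fun x z => (f4 x (mem_range_self z)).1
  refine ⟨fun z => ∑ x ∈ t, f x z, ?_, ?_, ?_, ?_, ?_⟩
  · exact ContDiff.sum fun x _ => f3 x
  · have hcomp : IsCompact (⋃ x ∈ t, tsupport (f x)) :=
      t.finite_toSet.isCompact_biUnion fun x _ => f2 x
    refine HasCompactSupport.intro hcomp fun z hz => ?_
    refine Finset.sum_eq_zero fun x hx => ?_
    refine image_eq_zero_of_notMem_tsupport fun h => hz ?_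
    exact mem_biUnion (Finset.mem_coe.2 hx) h
  · have hcl : IsClosed (⋃ x ∈ t, tsupport (f x)) :=
      t.finite_toSet.isClosed_biUnion fun x _ => isClosed_tsupport _
    have hsub : tsupport (fun z => ∑ x ∈ t, f x z) ⊆ ⋃ x ∈ t, tsupport (f x) := by
      refine closure_minimal ?_ hcl
      intro z hz
      by_contra hcon
      refine hz (Finset.sum_eq_zero fun x hx => ?_)
      refine image_eq_zero_of_notMem_tsupport fun h => hcon ?_
      exact mem_biUnion (Finset.mem_coe.2 hx) h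
    refine hsub.trans (iUnion₂_subset fun x _ => f1 x)
  · intro z
    exact Finset.sum_nonneg fun x _ => hnn x z
  · intro z hz
    obtain ⟨x, hx, hxz⟩ := mem_iUnion₂.1 (ht hz)
    exact Finset.sum_pos' (fun y _ => hnn y z) ⟨x, hx, hxz⟩

theorem exists_cut {Γ : Subgroup SL2R} (hΓ : SurfaceGroup Γ) : ∃ χ : ℂ → ℝ, Cut Γ χ := by
  classical
  obtain ⟨K, hK, hKU, hcov⟩ := hΓ.cocompact
  obtain ⟨ψ, p1, p2, p3, p4, p5⟩ := exists_cut_bump_exists_cut K hK hKU
  let S : ℂ → ℝ := fun z => ∑ᶠ g : Γ, ψ (mob (g : SL2R) z)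
  -- local finiteness
  have hloc : ∀ z0 ∈ UH, ∃ F : Finset Γ, ∃ N ∈ 𝓝 z0, N ⊆ UH ∧ ∀ z ∈ N, ∀ g : Γ,
      ψ (mob (g : SL2R) z) ≠ 0 → g ∈ F := by
    intro z0 hz0
    obtain ⟨N, hN1, hN2, hN3⟩ := exists_compact_subset isOpen_UH hz0
    have hc : IsCompact (N ∪ tsupport ψ) := hN1.union p2
    have hfin := locfin hΓ hc (union_subset hN3 p3)
    refine ⟨hfin.toFinset, N, mem_interior_iff_mem_nhds.1 hN2, hN3, fun z hz g hg => ?_⟩
    rw [Set.Finite.mem_toFinset]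
    exact ⟨z, Or.inl hz, Or.inr (subset_tsupport _ hg)⟩
  have hsum : ∀ (F : Finset Γ) (z : ℂ), (∀ g : Γ, ψ (mob (g : SL2R) z) ≠ 0 → g ∈ F) →
      S z = ∑ g ∈ F, ψ (mob (g : SL2R) z) := by
    intro F z h
    refine finsum_eq_sum_of_support_subset _ ?_
    intro g hg
    exact h g hg
  have hSpos : ∀ z ∈ UH, 0 < S z := by
    intro z hz
    obtain ⟨F, N, hN, -, hF⟩ := hloc z hz
    rw [hsum F z (hF z (mem_of_mem_nhds hN))]
    obtain ⟨g, hg, hgK⟩ := hcov z hz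
    have hpos := p5 _ hgK
    exact Finset.sum_pos' (fun y _ => p4 _) ⟨⟨g, hg⟩, hF z (mem_of_mem_nhds hN) ⟨g, hg⟩ hpos.ne', hpos⟩
  have hSnn : ∀ z, 0 ≤ S z := fun z => finsum_nonneg fun g => p4 _
  have hSsm : ∀ z ∈ UH, ContDiffAt ℝ 1 S z := by
    intro z hz
    obtain ⟨F, N, hN, hNU, hF⟩ := hloc z hz
    have h1 : ContDiffAt ℝ 1 (fun z => ∑ g ∈ F, ψ (mob (g : SL2R) z)) z := by
      refine ContDiffAt.sum fun g _ => ?_
      have h2 : ContDiffAt ℝ 1 (mob (g : SL2R)) z :=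
        ((contDiffOn_mob (g : SL2R)).contDiffAt (isOpen_UH.mem_nhds hz)).of_le (by norm_cast)
      exact p1.contDiffAt.comp z h2
    refine h1.congr_of_eventuallyEq ?_
    filter_upwards [hN] with w hw
    exact hsum F w (hF w hw)
  have hSinv : ∀ (h : Γ), ∀ z ∈ UH, S (mob (h : SL2R) z) = S z := by
    intro h z hz
    change ∑ᶠ g : Γ, ψ (mob (g : SL2R) (mob (h : SL2R) z)) = ∑ᶠ g : Γ, ψ (mob (g : SL2R) z)
    rw [← finsum_comp_equiv (Equiv.mulRight h) (f := fun g : Γ => ψ (mob (g : SL2R) z))]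
    refine finsum_congr fun g => ?_
    change _ = ψ (mob (((g * h : Γ)) : SL2R) z)
    rw [Subgroup.coe_mul, mob_mul _ _ hz]
  refine ⟨fun z => ψ z / S z, ?_, ?_, ?_, ?_, ?_⟩
  · rw [contDiff_iff_contDiffAt]
    intro z
    by_cases hz : z ∈ UH
    · exact p1.contDiffAt.div (hSsm z hz) (hSpos z hz).ne'
    · have hz' : z ∉ tsupport ψ := fun h => hz (p3 h)
      have h1 : (fun z => ψ z / S z) =ᶠ[𝓝 z] fun _ => 0 := by
        filter_upwards [(isClosed_tsupport ψ).isOpen_compl.mem_nhds hz'] with w hw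
        rw [image_eq_zero_of_notMem_tsupport hw, zero_div]
      exact contDiffAt_const.congr_of_eventuallyEq h1
  · refine p2.mono fun z hz => ?_
    intro h0
    apply hz
    change ψ z / S z = 0
    rw [h0, zero_div]
  · refine Subset.trans (closure_mono fun z hz => ?_) p3
    intro h0
    apply hz
    change ψ z / S z = 0
    rw [h0, zero_div]
  · intro z
    exact div_nonneg (p4 z) (hSnn z)
  · intro z hz
    have h1 : ∀ g : Γ, ψ (mob (g : SL2R) z) / S (mob (g : SL2R) z) =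
        (S z)⁻¹ • ψ (mob (g : SL2R) z) := by
      intro g
      rw [hSinv g z hz, smul_eq_mul, div_eq_inv_mul]
    rw [finsum_congr h1, ← smul_finsum, smul_eq_mul]
    exact inv_mul_cancel₀ (hSpos z hz).ne'

end Pool.Agent.Helper131.CG
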