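import Pool.Agent.Helper131.CG.Base
import Pool.Agent.Helper131.CG.L_D0
import Pool.Agent.Helper131.CG.L_exists_cut
import Pool.Agent.Helper131.CG.L_field_equiv
import Pool.Agent.Helper131.CG.L_tools
import Pool.Agent.Helper131.CG.L_weber
import Pool.Agent.Helper131.CG.L_wfun_cont

namespace Pool.Agent.Helper131.CG

open Complex MeasureTheory Set Filter Topology
open scoped ContDiff

/-- Kelvin-Helmholtz: a loop is a closed geodesic; the Weber potential is constant after a loop -/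
theorem loop_closed {Γ : Subgroup SL2R} (hΓ : SurfaceGroup Γ) {m : ℂ → ℝ} (hm : ConfMetric Γ m)
    {u : ℝ → ℂ → ℂ} {p : ℝ → ℂ → ℝ} {Φ Ψ : ℝ → ℂ → ℂ} (F : Flow Γ m u p Φ Ψ) {T : ℝ}
    (hret : ∀ z ∈ UH, Φ T z = z) :
    (∀ z ∈ UH, u T z = u 0 z) ∧ ∃ W : ℝ, ∀ z ∈ UH, wfun m u p Φ T z = W := by
  obtain ⟨χ, hχ⟩ := exists_cut hΓ
  set v : ℂ → ℂ := fun z => u T z - u 0 z with hvdef
  have hv : ContDiffOn ℝ 1 v UH :=
    (jc_slice F.sol.u_smooth T).sub (jc_slice F.sol.u_smooth 0)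
  have heq : ∀ g ∈ Γ, ∀ z ∈ UH, v (mob g z) = v z / den g z ^ 2 := by
    intro g hg z hz
    simp only [hvdef]
    rw [F.sol.u_equiv T g hg z hz, F.sol.u_equiv 0 g hg z hz, sub_div]
  have hdiv : ∀ z ∈ UH, dvg m v z = 0 := by
    intro z hz
    have h1 := F.sol.div_free T z hz
    have h2 := F.sol.div_free 0 z hz
    have h3 : fderiv ℝ v z = fderiv ℝ (u T) z - fderiv ℝ (u 0) z :=
      ((jc_hasFDerivAt F.sol.u_smooth T hz).sub (jc_hasFDerivAt F.sol.u_smooth 0 hz)).fderiv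
    unfold dvg at h1 h2 ⊢
    rw [h3]
    simp only [hvdef, ContinuousLinearMap.sub_apply, Complex.sub_re, Complex.sub_im, map_sub]
    linarith
  have hf := wfun_contDiff hm F T
  have hinv := wfun_inv hm F T
  have hfd : ∀ z ∈ UH, ∀ w : ℂ, fderiv ℝ (wfun m u p Φ T) z w =
      m z * ((starRingEnd ℂ) (v z) * w).re := by
    intro z hz w
    have h1 := (weber hm F T hz).2 w
    have h2 : fderiv ℝ (Φ T) z = ContinuousLinearMap.id ℝ ℂ := by
      have h3 : Φ T =ᶠ[𝓝 z] id := by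
        filter_upwards [isOpen_UH.mem_nhds hz] with y hy
        exact hret y hy
      rw [h3.fderiv_eq, fderiv_id]
    rw [h1, h2, hret z hz]
    simp only [hvdef, ContinuousLinearMap.id_apply, map_sub, sub_mul, Complex.sub_re]
    ring
  have h0 := D0 hΓ hm hχ hv heq hdiv hf hinv
  have hcongr : ∀ z ∈ UH, fderiv ℝ (wfun m u p Φ T) z (v z) = m z * ‖v z‖ ^ 2 := by
    intro z hz
    rw [hfd z hz, ← Complex.normSq_eq_conj_mul_self, Complex.ofReal_re,
      Complex.normSq_eq_norm_sq]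
  rw [int_cut_congr hχ hcongr] at h0
  have hmc : ContinuousOn m UH := hm.smooth.continuousOn
  have hG := eq_zero_of_int_cut hχ hmc hm.pos (G := fun z => m z * ‖v z‖ ^ 2)
    (hmc.mul (hv.continuousOn.norm.pow 2))
    (fun z hz => mul_nonneg (hm.pos z hz).le (by positivity)) (norm_inv hm heq) h0.le
  have hvz : ∀ z ∈ UH, v z = 0 := by
    intro z hz
    have h1 := hG z hz
    have h2 := hm.pos z hz
    rcases mul_eq_zero.1 h1 with h | h
    · exact absurd h h2.ne'
    · exact norm_eq_zero.1 (pow_eq_zero_iff (two_ne_zero) |>.1 h)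
  refine ⟨fun z hz => sub_eq_zero.1 (hvz z hz), wfun m u p Φ T I, fun z hz => ?_⟩
  have hI : I ∈ UH := by
    change 0 < I.im
    rw [Complex.I_im]; exact one_pos
  refine isOpen_UH.is_const_of_fderiv_eq_zero (𝕜 := ℝ) ?_ (hf.differentiableOn (by norm_num)) ?_ hz hI
  · exact (convex_halfSpace_im_gt 0).isPreconnected
  · intro y hy
    ext w
    rw [hfd y hy, hvz y hy]
    simp

end Pool.Agent.Helper131.CG
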