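import Pool.Agent.Helper131.CG.Base

namespace Pool.Agent.Helper131.CG

open Complex MeasureTheory Set Filter Topology
open scoped ContDiff

theorem cont_H_swap {χ m : ℂ → ℝ} (hχ : Continuous χ)
    (hs : tsupport χ ⊆ UH) (hm : ContinuousOn m UH) {G : ℝ → ℂ → ℝ}
    (hG : ContinuousOn (fun q : ℝ × ℂ => G q.1 q.2) (univ ×ˢ UH)) :
    Continuous (fun q : ℝ × ℂ => χ q.2 * G q.1 q.2 * m q.2) := by
  have hUH : IsOpen UH := isOpen_lt continuous_const Complex.continuous_im
  rw [continuous_iff_continuousAt]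
  rintro ⟨t, z⟩
  by_cases hz : z ∈ UH
  · have hG' : ContinuousAt (fun q : ℝ × ℂ => G q.1 q.2) (t, z) :=
      hG.continuousAt ((isOpen_univ.prod hUH).mem_nhds ⟨mem_univ _, hz⟩)
    have hm' : ContinuousAt (fun q : ℝ × ℂ => m q.2) (t, z) := by
      have h1 : ContinuousAt m z := hm.continuousAt (hUH.mem_nhds hz)
      exact ContinuousAt.comp (f := fun q : ℝ × ℂ => q.2) (x := (t, z)) h1 continuousAt_snd
    exact ((hχ.comp continuous_snd).continuousAt.mul hG').mul hm'
  · have hz' : z ∉ tsupport χ := fun h => hz (hs h)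
    have hev : (fun q : ℝ × ℂ => χ q.2 * G q.1 q.2 * m q.2) =ᶠ[𝓝 (t, z)] fun _ => 0 := by
      have h1 : ∀ᶠ w in 𝓝 z, w ∉ tsupport χ :=
        (isClosed_tsupport χ).isOpen_compl.mem_nhds hz'
      have h2 : ∀ᶠ q : ℝ × ℂ in 𝓝 (t, z), q.2 ∉ tsupport χ :=
        (continuous_snd.tendsto (t, z)).eventually h1
      filter_upwards [h2] with q hq
      rw [image_eq_zero_of_notMem_tsupport hq]; ring
    exact (continuousAt_const.congr hev.symm)

theorem swap_int {χ m : ℂ → ℝ} (hχ : Continuous χ) (hc : HasCompactSupport χ)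
    (hs : tsupport χ ⊆ UH) (hm : ContinuousOn m UH) {G : ℝ → ℂ → ℝ}
    (hG : ContinuousOn (fun q : ℝ × ℂ => G q.1 q.2) (univ ×ˢ UH)) (T : ℝ) :
    ∫ z, χ z * (∫ t in (0 : ℝ)..T, G t z) * m z = ∫ t in (0 : ℝ)..T, ∫ z, χ z * G t z * m z := by
  have hH := cont_H_swap hχ hs hm hG
  have hK : IsCompact (tsupport χ) := hc
  have hz0 : ∀ (t : ℝ) (z : ℂ), z ∉ tsupport χ → χ z * G t z * m z = 0 := by
    intro t z hz
    rw [image_eq_zero_of_notMem_tsupport hz]; ring
  have e1 : ∀ t : ℝ, ∫ z, χ z * G t z * m z = ∫ z in tsupport χ, χ z * G t z * m z := by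
    intro t
    exact (setIntegral_eq_integral_of_forall_compl_eq_zero (hz0 t)).symm
  have e2 : ∫ z, χ z * (∫ t in (0 : ℝ)..T, G t z) * m z
      = ∫ z in tsupport χ, ∫ t in (0 : ℝ)..T, χ z * G t z * m z := by
    have : ∀ z, χ z * (∫ t in (0 : ℝ)..T, G t z) * m z = ∫ t in (0 : ℝ)..T, χ z * G t z * m z := by
      intro z
      rw [← intervalIntegral.integral_const_mul, ← intervalIntegral.integral_mul_const]
    simp_rw [this]
    refine (setIntegral_eq_integral_of_forall_compl_eq_zero ?_).symm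
    intro z hz
    have : ∀ t : ℝ, χ z * G t z * m z = 0 := fun t => hz0 t z hz
    simp [this]
  rw [e2]
  simp_rw [e1]
  have key : ∀ a b : ℝ, ∫ z in tsupport χ, ∫ t in Ioc a b, χ z * G t z * m z
      = ∫ t in Ioc a b, ∫ z in tsupport χ, χ z * G t z * m z := by
    intro a b
    apply MeasureTheory.integral_integral_swap
    have h1 : IntegrableOn (fun q : ℂ × ℝ => χ q.1 * G q.2 q.1 * m q.1)
        (tsupport χ ×ˢ Icc a b) (volume.prod volume) := by
      apply ContinuousOn.integrableOn_compact (hK.prod isCompact_Icc)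
      exact (hH.comp (continuous_snd.prodMk continuous_fst)).continuousOn
    have h2 := h1.mono_set (Set.prod_mono (le_refl (tsupport χ)) (Ioc_subset_Icc_self (a := a) (b := b)))
    rw [IntegrableOn, ← Measure.prod_restrict] at h2
    exact h2
  rcases le_total 0 T with hT | hT
  · simp only [intervalIntegral.integral_of_le hT]
    exact key 0 T
  · simp only [intervalIntegral.integral_of_ge hT]
    rw [integral_neg, key T 0]

theorem swap_cont {χ m : ℂ → ℝ} (hχ : Continuous χ) (hc : HasCompactSupport χ)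
    (hs : tsupport χ ⊆ UH) (hm : ContinuousOn m UH) {G : ℝ → ℂ → ℝ}
    (hG : ContinuousOn (fun q : ℝ × ℂ => G q.1 q.2) (univ ×ˢ UH)) :
    Continuous (fun t : ℝ => ∫ z, χ z * G t z * m z) := by
  have hH := cont_H_swap hχ hs hm hG
  have hK : IsCompact (tsupport χ) := hc
  have hz0 : ∀ (t : ℝ) (z : ℂ), z ∉ tsupport χ → χ z * G t z * m z = 0 := by
    intro t z hz
    rw [image_eq_zero_of_notMem_tsupport hz]; ring
  have e1 : ∀ t : ℝ, ∫ z, χ z * G t z * m z = ∫ z in tsupport χ, χ z * G t z * m z := by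
    intro t
    exact (setIntegral_eq_integral_of_forall_compl_eq_zero (hz0 t)).symm
  simp_rw [e1]
  exact continuous_parametric_integral_of_continuous (f := fun t z => χ z * G t z * m z) hH hK

end Pool.Agent.Helper131.CG
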