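import Pool.Agent.Helper131.CG.Base
import Pool.Agent.Helper131.CG.L_D0
import Pool.Agent.Helper131.CG.L_curv_facts
import Pool.Agent.Helper131.CG.L_dw_field
import Pool.Agent.Helper131.CG.L_field_equiv
import Pool.Agent.Helper131.CG.L_int_inv
import Pool.Agent.Helper131.CG.L_loop_closed
import Pool.Agent.Helper131.CG.L_swap
import Pool.Agent.Helper131.CG.L_tools
import Pool.Agent.Helper131.CG.L_weber
import Pool.Agent.Helper131.CG.L_wfun_cont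

namespace Pool.Agent.Helper131.CG

open Complex MeasureTheory Set Filter Topology
open scoped ContDiff

section AG2aux

variable {Γ : Subgroup SL2R} {m : ℂ → ℝ} {u : ℝ → ℂ → ℂ} {p : ℝ → ℂ → ℝ} {Φ Ψ : ℝ → ℂ → ℂ}

theorem AG2_maps_AG2 (F : Flow Γ m u p Φ Ψ) :
    MapsTo (fun q : ℝ × ℂ => (q.1, Φ q.1 q.2)) (univ ×ˢ UH) (univ ×ˢ UH) :=
  fun q hq => ⟨mem_univ _, F.maps q.1 hq.2⟩

theorem AG2_phi_cont_AG2 (F : Flow Γ m u p Φ Ψ) :
    ContinuousOn (fun q : ℝ × ℂ => (q.1, Φ q.1 q.2)) (univ ×ˢ UH) :=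
  continuousOn_fst.prodMk F.smooth.continuousOn

theorem AG2_m_cont_AG2 (hm : ConfMetric Γ m) :
    ContinuousOn (fun q : ℝ × ℂ => m q.2) (univ ×ˢ UH) :=
  hm.smooth.continuousOn.comp continuousOn_snd (fun q hq => hq.2)

theorem AG2_K_cont_AG2 (hm : ConfMetric Γ m) :
    ContinuousOn (fun q : ℝ × ℂ => curv m q.2) (univ ×ˢ UH) :=
  (curv_contDiff hm).continuousOn.comp continuousOn_snd (fun q hq => hq.2)

theorem AG2_dK_cont_AG2 (hm : ConfMetric Γ m) : ContinuousOn (fderiv ℝ (curv m)) UH :=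
  (curv_contDiff hm).continuousOn_fderiv_of_isOpen isOpen_UH (by norm_num)

theorem AG2_l0_cont_AG2 (hm : ConfMetric Γ m) (F : Flow Γ m u p Φ Ψ) :
    ContinuousOn (fun q : ℝ × ℂ => m q.2 * ‖u q.1 q.2‖ ^ 2 / 2 - p q.1 q.2) (univ ×ˢ UH) :=
  (((AG2_m_cont_AG2 hm).mul (F.sol.u_smooth.continuousOn.norm.pow 2)).div_const 2).sub F.sol.p_cont

theorem AG2_l_cont_AG2 (hm : ConfMetric Γ m) (F : Flow Γ m u p Φ Ψ) :
    ContinuousOn (fun q : ℝ × ℂ => m (Φ q.1 q.2) * ‖u q.1 (Φ q.1 q.2)‖ ^ 2 / 2 -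
      p q.1 (Φ q.1 q.2)) (univ ×ˢ UH) :=
  (AG2_l0_cont_AG2 hm F).comp (AG2_phi_cont_AG2 F) (AG2_maps_AG2 F)

theorem AG2_kp_cont_AG2 (hm : ConfMetric Γ m) (F : Flow Γ m u p Φ Ψ) :
    ContinuousOn (fun q : ℝ × ℂ => curv m (Φ q.1 q.2)) (univ ×ˢ UH) :=
  (AG2_K_cont_AG2 hm).comp (AG2_phi_cont_AG2 F) (AG2_maps_AG2 F)

theorem AG2_kd0_cont_AG2 (hm : ConfMetric Γ m) (F : Flow Γ m u p Φ Ψ) :
    ContinuousOn (fun q : ℝ × ℂ => fderiv ℝ (curv m) q.2 (u q.1 q.2)) (univ ×ˢ UH) :=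
  ((AG2_dK_cont_AG2 hm).comp continuousOn_snd (fun q hq => hq.2)).clm_apply
    F.sol.u_smooth.continuousOn

theorem AG2_kd_cont_AG2 (hm : ConfMetric Γ m) (F : Flow Γ m u p Φ Ψ) :
    ContinuousOn (fun q : ℝ × ℂ => fderiv ℝ (curv m) (Φ q.1 q.2) (u q.1 (Φ q.1 q.2)))
      (univ ×ˢ UH) :=
  (AG2_kd0_cont_AG2 hm F).comp (AG2_phi_cont_AG2 F) (AG2_maps_AG2 F)

theorem AG2_w_cont_AG2 (hm : ConfMetric Γ m) (F : Flow Γ m u p Φ Ψ) :
    ContinuousOn (fun q : ℝ × ℂ => wfun m u p Φ q.1 q.2) (univ ×ˢ UH) := by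
  haveI : LocallyCompactSpace UH := isOpen_UH.locallyCompactSpace
  let f : UH → ℝ → ℝ := fun z s => m (Φ s z.1) * ‖u s (Φ s z.1)‖ ^ 2 / 2 - p s (Φ s z.1)
  have hf : Continuous f.uncurry := by
    have h1 : Continuous (fun q : UH × ℝ => ((q.2, q.1.1) : ℝ × ℂ)) :=
      continuous_snd.prodMk (continuous_subtype_val.comp continuous_fst)
    exact (AG2_l_cont_AG2 hm F).comp_continuous h1 (fun q => ⟨mem_univ _, q.1.2⟩)
  have h2 : Continuous fun q : UH × ℝ => ∫ s in (0 : ℝ)..q.2, f q.1 s :=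
    intervalIntegral.continuous_parametric_primitive_of_continuous hf
  rw [continuousOn_iff_continuous_restrict]
  have h3 : Continuous (fun q : ↥((univ : Set ℝ) ×ˢ UH) =>
      ((⟨q.1.2, q.2.2⟩, q.1.1) : UH × ℝ)) :=
    (Continuous.subtype_mk (continuous_snd.comp continuous_subtype_val) _).prodMk
      (continuous_fst.comp continuous_subtype_val)
  exact h2.comp h3

theorem AG2_slice_AG2 {E : Type*} [TopologicalSpace E] {f : ℝ → ℂ → E}
    (hf : ContinuousOn (fun q : ℝ × ℂ => f q.1 q.2) (univ ×ˢ UH)) (t : ℝ) :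
    ContinuousOn (f t) UH :=
  hf.comp (continuousOn_const.prodMk continuousOn_id) (fun z hz => ⟨mem_univ _, hz⟩)

theorem AG2_tslice_AG2 {E : Type*} [TopologicalSpace E] {f : ℝ → ℂ → E}
    (hf : ContinuousOn (fun q : ℝ × ℂ => f q.1 q.2) (univ ×ˢ UH)) {z : ℂ} (hz : z ∈ UH) :
    Continuous (fun t => f t z) :=
  hf.comp_continuous (continuous_id.prodMk continuous_const) (fun t => ⟨mem_univ _, hz⟩)

theorem AG2_kderiv_AG2 (hm : ConfMetric Γ m) (F : Flow Γ m u p Φ Ψ) (t : ℝ) {z : ℂ} (hz : z ∈ UH) :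
    HasDerivAt (fun s => curv m (Φ s z)) (fderiv ℝ (curv m) (Φ t z) (u t (Φ t z))) t := by
  have h1 : HasFDerivAt (curv m) (fderiv ℝ (curv m) (Φ t z)) (Φ t z) :=
    (((curv_contDiff hm).differentiableOn (by norm_num)).differentiableAt
      (isOpen_UH.mem_nhds (F.maps t hz))).hasFDerivAt
  exact h1.comp_hasDerivAt t (F.flow t z hz)

theorem AG2_kinv_AG2 (hm : ConfMetric Γ m) (F : Flow Γ m u p Φ Ψ) (t : ℝ) :
    ∀ g ∈ Γ, ∀ z ∈ UH, fderiv ℝ (curv m) (mob g z) (u t (mob g z)) =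
      fderiv ℝ (curv m) z (u t z) := by
  intro g hg z hz
  have hy : Ψ t z ∈ UH := F.imaps t hz
  have h1 := AG2_kderiv_AG2 hm F t (mob_mem g hy)
  have h2 := AG2_kderiv_AG2 hm F t hy
  have e : (fun s => curv m (Φ s (mob g (Ψ t z)))) = fun s => curv m (Φ s (Ψ t z)) := by
    funext s
    rw [F.comm s g hg _ hy, curv_inv hm g hg _ (F.maps s hy)]
  rw [e] at h1
  have h3 := h1.unique h2
  rw [F.comm t g hg _ hy, F.right t z hz] at h3
  exact h3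

/-- first step: integration by parts in space and change of variables -/
theorem AG2_space_AG2 (hΓ : SurfaceGroup Γ) (hm : ConfMetric Γ m) {χ : ℂ → ℝ} (hχ : Cut Γ χ)
    (F : Flow Γ m u p Φ Ψ) (t : ℝ) :
    ∫ z, χ z * (curv m z * fderiv ℝ (fun ζ => wfun m u p Φ t (Ψ t ζ)) z (u t z)) * m z =
      - ∫ z, χ z * (wfun m u p Φ t z * fderiv ℝ (curv m) (Φ t z) (u t (Φ t z))) * m z := by
  obtain ⟨w, hw⟩ : ∃ w : ℂ → ℝ, w = fun ζ => wfun m u p Φ t (Ψ t ζ) := ⟨_, rfl⟩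
  have hwc : ContDiffOn ℝ 1 w UH := by rw [hw]; exact wt_contDiff hm F t
  have hwi : ∀ g ∈ Γ, ∀ z ∈ UH, w (mob g z) = w z := by rw [hw]; exact wt_inv hm F t
  have hmc : ContinuousOn m UH := hm.smooth.continuousOn
  have hKc : ContDiffOn ℝ 1 (curv m) UH := (curv_contDiff hm).of_le (by norm_num)
  have hut : ContDiffOn ℝ 1 (u t) UH := jc_slice F.sol.u_smooth t
  have hdw : ContinuousOn (fderiv ℝ w) UH := hwc.continuousOn_fderiv_of_isOpen isOpen_UH le_rfl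
  rw [← hw]
  have hD0 := D0 hΓ hm hχ hut (F.sol.u_equiv t) (F.sol.div_free t) (f := fun z => curv m z * w z)
    (hKc.mul hwc) (fun g hg z hz => by
      show curv m (mob g z) * w (mob g z) = curv m z * w z
      rw [curv_inv hm g hg z hz, hwi g hg z hz])
  have hprod : ∀ z ∈ UH, fderiv ℝ (fun z => curv m z * w z) z (u t z) =
      curv m z * fderiv ℝ w z (u t z) + w z * fderiv ℝ (curv m) z (u t z) := by
    intro z hz
    have h1 : HasFDerivAt (curv m) (fderiv ℝ (curv m) z) z :=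
      ((hKc.differentiableOn (by norm_num)).differentiableAt (isOpen_UH.mem_nhds hz)).hasFDerivAt
    have h2 : HasFDerivAt w (fderiv ℝ w z) z :=
      ((hwc.differentiableOn (by norm_num)).differentiableAt (isOpen_UH.mem_nhds hz)).hasFDerivAt
    rw [(h1.fun_mul h2).fderiv]
    simp [smul_eq_mul]
  rw [int_cut_congr hχ hprod, int_cut_add hχ hmc
    (A := fun z => curv m z * fderiv ℝ w z (u t z))
    (B := fun z => w z * fderiv ℝ (curv m) z (u t z))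
    (hKc.continuousOn.mul (hdw.clm_apply hut.continuousOn))
    (hwc.continuousOn.mul ((AG2_dK_cont_AG2 hm).clm_apply hut.continuousOn))] at hD0
  have hinv := int_inv hΓ hm hχ (jc_slice F.smooth t) (F.ismooth t) (F.maps t) (F.imaps t)
    (F.left t) (F.right t) (F.comm t) (F.area t)
    (F := fun z => w z * fderiv ℝ (curv m) z (u t z))
    (hwc.continuousOn.mul ((AG2_dK_cont_AG2 hm).clm_apply hut.continuousOn))
    (fun g hg z hz => by
      show w (mob g z) * fderiv ℝ (curv m) (mob g z) (u t (mob g z)) =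
        w z * fderiv ℝ (curv m) z (u t z)
      rw [hwi g hg z hz, AG2_kinv_AG2 hm F t g hg z hz])
  have hcong : ∫ z, χ z * (w (Φ t z) * fderiv ℝ (curv m) (Φ t z) (u t (Φ t z))) * m z =
      ∫ z, χ z * (wfun m u p Φ t z * fderiv ℝ (curv m) (Φ t z) (u t (Φ t z))) * m z := by
    apply int_cut_congr hχ (m := m)
      (A := fun z => w (Φ t z) * fderiv ℝ (curv m) (Φ t z) (u t (Φ t z)))
      (B := fun z => wfun m u p Φ t z * fderiv ℝ (curv m) (Φ t z) (u t (Φ t z)))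
    intro z hz
    show w (Φ t z) * _ = wfun m u p Φ t z * _
    rw [hw]
    simp only
    rw [F.left t z hz]
  rw [← hcong]
  have hinv' : ∫ z, χ z * (w (Φ t z) * fderiv ℝ (curv m) (Φ t z) (u t (Φ t z))) * m z =
    ∫ z, χ z * (w z * fderiv ℝ (curv m) z (u t z)) * m z := hinv
  rw [hinv']
  linarith

/-- fundamental theorem of calculus in time -/
theorem AG2_time_AG2 (hm : ConfMetric Γ m) (F : Flow Γ m u p Φ Ψ) {T : ℝ}
    (hret : ∀ z ∈ UH, Φ T z = z) {W : ℝ} (hW : ∀ z ∈ UH, wfun m u p Φ T z = W) {z : ℂ}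
    (hz : z ∈ UH) :
    ∫ t in (0 : ℝ)..T, (wfun m u p Φ t z * fderiv ℝ (curv m) (Φ t z) (u t (Φ t z)) +
      (m (Φ t z) * ‖u t (Φ t z)‖ ^ 2 / 2 - p t (Φ t z)) * curv m (Φ t z)) = W * curv m z := by
  have hl : Continuous (fun s => m (Φ s z) * ‖u s (Φ s z)‖ ^ 2 / 2 - p s (Φ s z)) :=
    AG2_tslice_AG2 (f := fun s z => m (Φ s z) * ‖u s (Φ s z)‖ ^ 2 / 2 - p s (Φ s z))
      (AG2_l_cont_AG2 hm F) hz
  have hk : Continuous (fun s => curv m (Φ s z)) :=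
    AG2_tslice_AG2 (f := fun s z => curv m (Φ s z)) (AG2_kp_cont_AG2 hm F) hz
  have hkd : Continuous (fun s => fderiv ℝ (curv m) (Φ s z) (u s (Φ s z))) :=
    AG2_tslice_AG2 (f := fun s z => fderiv ℝ (curv m) (Φ s z) (u s (Φ s z))) (AG2_kd_cont_AG2 hm F) hz
  have hw : Continuous (fun s => wfun m u p Φ s z) :=
    AG2_tslice_AG2 (f := fun s z => wfun m u p Φ s z) (AG2_w_cont_AG2 hm F) hz
  have hder : ∀ t ∈ uIcc 0 T, HasDerivAt (fun s => wfun m u p Φ s z * curv m (Φ s z))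
      (wfun m u p Φ t z * fderiv ℝ (curv m) (Φ t z) (u t (Φ t z)) +
      (m (Φ t z) * ‖u t (Φ t z)‖ ^ 2 / 2 - p t (Φ t z)) * curv m (Φ t z)) t := by
    intro t _
    have h1 : HasDerivAt (fun s => wfun m u p Φ s z)
        (m (Φ t z) * ‖u t (Φ t z)‖ ^ 2 / 2 - p t (Φ t z)) t :=
      (hl.integral_hasStrictDerivAt 0 t).hasDerivAt
    have h2 := h1.mul (AG2_kderiv_AG2 hm F t hz)
    refine h2.congr_deriv ?_
    ring
  rw [intervalIntegral.integral_eq_sub_of_hasDerivAt hder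
    (((hw.mul hkd).add (hl.mul hk)).intervalIntegrable 0 T), hW z hz, hret z hz]
  have h0 : wfun m u p Φ 0 z = 0 := intervalIntegral.integral_same
  rw [h0, zero_mul, sub_zero]

end AG2aux

theorem AG2 {Γ : Subgroup SL2R} (hΓ : SurfaceGroup Γ) {m : ℂ → ℝ} (hm : ConfMetric Γ m)
    {χ : ℂ → ℝ} (hχ : Cut Γ χ)
    {u : ℝ → ℂ → ℂ} {p : ℝ → ℂ → ℝ} {Φ Ψ : ℝ → ℂ → ℂ} (F : Flow Γ m u p Φ Ψ) {T : ℝ}
    (hret : ∀ z ∈ UH, Φ T z = z) {W : ℝ} (hW : ∀ z ∈ UH, wfun m u p Φ T z = W) :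
    ∫ t in (0 : ℝ)..T, (∫ z, χ z * (curv m z *
        fderiv ℝ (fun ζ => wfun m u p Φ t (Ψ t ζ)) z (u t z)) * m z) =
      (∫ t in (0 : ℝ)..T, (∫ z, χ z * (curv m z * (m z * ‖u t z‖ ^ 2 / 2 - p t z)) * m z))
        - W * ∫ z, χ z * curv m z * m z := by
  have hmc : ContinuousOn m UH := hm.smooth.continuousOn
  have e1 : ∀ t, ∫ z, χ z * (curv m z * fderiv ℝ (fun ζ => wfun m u p Φ t (Ψ t ζ)) z (u t z)) * m z =
      - ∫ z, χ z * (wfun m u p Φ t z * fderiv ℝ (curv m) (Φ t z) (u t (Φ t z))) * m z :=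
    fun t => AG2_space_AG2 hΓ hm hχ F t
  have hA : ContinuousOn (fun q : ℝ × ℂ => wfun m u p Φ q.1 q.2 *
      fderiv ℝ (curv m) (Φ q.1 q.2) (u q.1 (Φ q.1 q.2))) (univ ×ˢ UH) :=
    (AG2_w_cont_AG2 hm F).mul (AG2_kd_cont_AG2 hm F)
  have hB : ContinuousOn (fun q : ℝ × ℂ => (m (Φ q.1 q.2) * ‖u q.1 (Φ q.1 q.2)‖ ^ 2 / 2 -
      p q.1 (Φ q.1 q.2)) * curv m (Φ q.1 q.2)) (univ ×ˢ UH) :=
    (AG2_l_cont_AG2 hm F).mul (AG2_kp_cont_AG2 hm F)
  have e2 : ∀ t, ∫ z, χ z * (curv m z * (m z * ‖u t z‖ ^ 2 / 2 - p t z)) * m z =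
      ∫ z, χ z * ((m (Φ t z) * ‖u t (Φ t z)‖ ^ 2 / 2 - p t (Φ t z)) * curv m (Φ t z)) * m z := by
    intro t
    have hinv := int_inv hΓ hm hχ (jc_slice F.smooth t) (F.ismooth t) (F.maps t) (F.imaps t)
      (F.left t) (F.right t) (F.comm t) (F.area t)
      (F := fun z => (m z * ‖u t z‖ ^ 2 / 2 - p t z) * curv m z)
      (AG2_slice_AG2 (f := fun t z => (m z * ‖u t z‖ ^ 2 / 2 - p t z) * curv m z)
        ((AG2_l0_cont_AG2 hm F).mul (AG2_K_cont_AG2 hm)) t)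
      (fun g hg z hz => by
        show (m (mob g z) * ‖u t (mob g z)‖ ^ 2 / 2 - p t (mob g z)) * curv m (mob g z) =
          (m z * ‖u t z‖ ^ 2 / 2 - p t z) * curv m z
        rw [norm_inv hm (F.sol.u_equiv t) g hg z hz, F.sol.p_inv t g hg z hz,
          curv_inv hm g hg z hz])
    have hinv' : ∫ z, χ z * ((m (Φ t z) * ‖u t (Φ t z)‖ ^ 2 / 2 - p t (Φ t z)) *
        curv m (Φ t z)) * m z =
        ∫ z, χ z * ((m z * ‖u t z‖ ^ 2 / 2 - p t z) * curv m z) * m z := hinv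
    rw [hinv']
    congr 1
    funext z
    ring
  have hsw := swap_int hχ.smooth.continuous hχ.compact hχ.supp hmc
    (G := fun t z => wfun m u p Φ t z * fderiv ℝ (curv m) (Φ t z) (u t (Φ t z)) +
      (m (Φ t z) * ‖u t (Φ t z)‖ ^ 2 / 2 - p t (Φ t z)) * curv m (Φ t z)) (hA.add hB) T
  have hcA : Continuous (fun t : ℝ => ∫ z, χ z * (wfun m u p Φ t z *
      fderiv ℝ (curv m) (Φ t z) (u t (Φ t z))) * m z) :=
    swap_cont hχ.smooth.continuous hχ.compact hχ.supp hmc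
      (G := fun t z => wfun m u p Φ t z * fderiv ℝ (curv m) (Φ t z) (u t (Φ t z))) hA
  have hcB : Continuous (fun t : ℝ => ∫ z, χ z * ((m (Φ t z) * ‖u t (Φ t z)‖ ^ 2 / 2 -
      p t (Φ t z)) * curv m (Φ t z)) * m z) :=
    swap_cont hχ.smooth.continuous hχ.compact hχ.supp hmc
      (G := fun t z => (m (Φ t z) * ‖u t (Φ t z)‖ ^ 2 / 2 - p t (Φ t z)) * curv m (Φ t z)) hB
  have e3 : ∀ t, ∫ z, χ z * (wfun m u p Φ t z * fderiv ℝ (curv m) (Φ t z) (u t (Φ t z)) +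
      (m (Φ t z) * ‖u t (Φ t z)‖ ^ 2 / 2 - p t (Φ t z)) * curv m (Φ t z)) * m z =
      (∫ z, χ z * (wfun m u p Φ t z * fderiv ℝ (curv m) (Φ t z) (u t (Φ t z))) * m z) +
      ∫ z, χ z * ((m (Φ t z) * ‖u t (Φ t z)‖ ^ 2 / 2 - p t (Φ t z)) * curv m (Φ t z)) * m z :=
    fun t => int_cut_add hχ hmc
      (AG2_slice_AG2 (f := fun t z => wfun m u p Φ t z *
        fderiv ℝ (curv m) (Φ t z) (u t (Φ t z))) hA t)
      (AG2_slice_AG2 (f := fun t z => (m (Φ t z) * ‖u t (Φ t z)‖ ^ 2 / 2 - p t (Φ t z)) *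
        curv m (Φ t z)) hB t)
  have e4 : ∫ z, χ z * (∫ t in (0 : ℝ)..T, (wfun m u p Φ t z *
      fderiv ℝ (curv m) (Φ t z) (u t (Φ t z)) +
      (m (Φ t z) * ‖u t (Φ t z)‖ ^ 2 / 2 - p t (Φ t z)) * curv m (Φ t z))) * m z =
      W * ∫ z, χ z * curv m z * m z := by
    rw [← int_cut_smul]
    exact int_cut_congr hχ fun z hz => AG2_time_AG2 hm F hret hW hz
  rw [e4] at hsw
  simp only [e3] at hsw
  rw [intervalIntegral.integral_add (hcA.intervalIntegrable 0 T)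
    (hcB.intervalIntegrable 0 T)] at hsw
  simp only [e1, e2]
  rw [intervalIntegral.integral_neg]
  linarith

end Pool.Agent.Helper131.CG
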