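import Pool.Agent.Helper131.CG.Base

namespace Pool.Agent.Helper131.CG

open Complex MeasureTheory Set Filter Topology
open scoped ContDiff

theorem disp_mob_sub_disp (g : SL2R) {z w : ℂ} (hz : z ∈ UH) (hw : w ∈ UH) :
    mob g z - mob g w = (z - w) / (den g z * den g w) := by
  have h1 := den_ne_zero g hz
  have h2 := den_ne_zero g hw
  have hdet : ((g 0 0 : ℝ) : ℂ) * (g 1 1 : ℝ) - (g 0 1 : ℝ) * (g 1 0 : ℝ) = 1 := by
    have h := g.det_coe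
    rw [Matrix.det_fin_two] at h
    exact_mod_cast h
  unfold mob
  rw [div_sub_div _ _ h1 h2]
  congr 1
  unfold den
  linear_combination (z - w) * hdet

theorem disp_inv_disp (g : SL2R) {z w : ℂ} (hz : z ∈ UH) (hw : w ∈ UH) (C : ℝ)
    (h : ‖mob g w - mob g z‖ ^ 2 ≤ C * ((mob g z).im * (mob g w).im)) :
    ‖w - z‖ ^ 2 ≤ C * (z.im * w.im) := by
  have h1 : 0 < ‖den g z‖ := norm_pos_iff.2 (den_ne_zero g hz)
  have h2 : 0 < ‖den g w‖ := norm_pos_iff.2 (den_ne_zero g hw)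
  rw [disp_mob_sub_disp g hw hz, mob_im g hz, mob_im g hw, norm_div, norm_mul, div_pow, mul_pow] at h
  have h3 : C * (z.im / ‖den g z‖ ^ 2 * (w.im / ‖den g w‖ ^ 2)) =
      (C * (z.im * w.im)) / (‖den g w‖ ^ 2 * ‖den g z‖ ^ 2) := by
    field_simp
  rw [h3] at h
  exact (div_le_div_iff_of_pos_right (by positivity)).1 h

/-- bounded displacement -/
theorem disp {Γ : Subgroup SL2R} (hΓ : SurfaceGroup Γ) {Φ : ℝ → ℂ → ℂ}
    (hΦ : ContinuousOn (fun q : ℝ × ℂ => Φ q.1 q.2) (univ ×ˢ UH))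
    (maps : ∀ t, MapsTo (Φ t) UH UH)
    (comm : ∀ t, ∀ g ∈ Γ, ∀ z ∈ UH, Φ t (mob g z) = mob g (Φ t z)) (T : ℝ) :
    ∃ C : ℝ, ∀ t ∈ Icc 0 T, ∀ z ∈ UH, ‖Φ t z - z‖ ^ 2 ≤ C * (z.im * (Φ t z).im) := by
  obtain ⟨K, hK, hKU, hKc⟩ := hΓ.cocompact
  have hS : IsCompact (Icc (0 : ℝ) T ×ˢ K) := isCompact_Icc.prod hK
  have hsub : Icc (0 : ℝ) T ×ˢ K ⊆ univ ×ˢ UH := prod_mono (subset_univ _) hKU
  have hc1 : ContinuousOn (fun q : ℝ × ℂ => Φ q.1 q.2) (Icc (0 : ℝ) T ×ˢ K) := hΦ.mono hsub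
  have hf : ContinuousOn (fun q : ℝ × ℂ => ‖Φ q.1 q.2 - q.2‖ ^ 2 / (q.2.im * (Φ q.1 q.2).im))
      (Icc (0 : ℝ) T ×ˢ K) := by
    refine ContinuousOn.div ?_ ?_ ?_
    · exact ((hc1.sub continuous_snd.continuousOn).norm).pow 2
    · exact ((Complex.continuous_im.comp continuous_snd).continuousOn).mul
        (Complex.continuous_im.comp_continuousOn hc1)
    · rintro ⟨t, z⟩ hq
      have hz : z ∈ UH := hKU hq.2
      exact (mul_pos hz (maps t hz)).ne'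
  obtain ⟨C, hC⟩ := hS.exists_bound_of_continuousOn hf
  refine ⟨C, fun t ht z hz => ?_⟩
  obtain ⟨g, hg, hgz⟩ := hKc z hz
  refine disp_inv_disp g hz (maps t hz) C ?_
  rw [← comm t g hg z hz]
  have h1 := hC (t, mob g z) ⟨ht, hgz⟩
  have hpos : 0 < (mob g z).im * (Φ t (mob g z)).im :=
    mul_pos (mob_mem g hz) (maps t (mob_mem g hz))
  rw [Real.norm_of_nonneg (by positivity), div_le_iff₀ hpos] at h1
  exact h1

theorem disp_im {Γ : Subgroup SL2R} (hΓ : SurfaceGroup Γ) {Φ : ℝ → ℂ → ℂ}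
    (hΦ : ContinuousOn (fun q : ℝ × ℂ => Φ q.1 q.2) (univ ×ˢ UH))
    (maps : ∀ t, MapsTo (Φ t) UH UH)
    (comm : ∀ t, ∀ g ∈ Γ, ∀ z ∈ UH, Φ t (mob g z) = mob g (Φ t z)) (T : ℝ) :
    ∃ c : ℝ, 0 < c ∧ ∀ t ∈ Icc 0 T, ∀ z ∈ UH, c * z.im ≤ (Φ t z).im ∧ c * (Φ t z).im ≤ z.im := by
  obtain ⟨C, hC⟩ := disp hΓ hΦ maps comm T
  have hC0 : 0 < max C 0 + 2 := by positivity
  refine ⟨1 / (max C 0 + 2), by positivity, fun t ht z hz => ?_⟩
  have ha : 0 < z.im := hz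
  have hb : 0 < (Φ t z).im := maps t hz
  have h1 := hC t ht z hz
  have h2 : ((Φ t z).im - z.im) ^ 2 ≤ ‖Φ t z - z‖ ^ 2 := by
    rw [← Complex.sub_im, ← sq_abs]
    exact pow_le_pow_left₀ (abs_nonneg _) (Complex.abs_im_le_norm _) 2
  have h3 : C * (z.im * (Φ t z).im) ≤ max C 0 * (z.im * (Φ t z).im) :=
    mul_le_mul_of_nonneg_right (le_max_left _ _) (mul_pos ha hb).le
  have h4 : z.im ^ 2 + (Φ t z).im ^ 2 ≤ (max C 0 + 2) * (z.im * (Φ t z).im) := by nlinarith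
  constructor
  · rw [one_div, inv_mul_le_iff₀ hC0]
    have h5 : z.im * z.im ≤ z.im * ((max C 0 + 2) * (Φ t z).im) := by
      nlinarith [sq_nonneg (Φ t z).im]
    exact le_of_mul_le_mul_left h5 ha
  · rw [one_div, inv_mul_le_iff₀ hC0]
    have h5 : (Φ t z).im * (Φ t z).im ≤ (Φ t z).im * ((max C 0 + 2) * z.im) := by
      nlinarith [sq_nonneg z.im]
    exact le_of_mul_le_mul_left h5 hb

end Pool.Agent.Helper131.CG
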