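import Pool.Agent.Helper131.CG.Base
import Pool.Agent.Helper131.CG.L_disp
import Pool.Agent.Helper131.CG.L_locfin

namespace Pool.Agent.Helper131.CG

open Complex MeasureTheory Set Filter Topology
open scoped ContDiff

theorem deck_lin_deck {α M : ℝ} (h : ∀ x : ℝ, |α * x ^ 2| ≤ M) : α = 0 := by
  by_contra hα
  have h0 : 0 < |α| := abs_pos.2 hα
  have hM : 0 ≤ M := (abs_nonneg _).trans (h 0)
  set x : ℝ := M / |α| + 1 with hx
  have hx1 : 1 ≤ x := by
    have : 0 ≤ M / |α| := by positivity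
    linarith
  have h1 := h x
  rw [abs_mul, abs_of_nonneg (sq_nonneg x)] at h1
  have h2 : |α| * x ≤ |α| * x ^ 2 := by
    apply mul_le_mul_of_nonneg_left _ h0.le
    nlinarith
  have h3 : |α| * x = M + |α| := by
    rw [hx]; field_simp
  linarith

theorem deck_lin'_deck {α M : ℝ} (h : ∀ x : ℝ, |α * x| ≤ M) : α = 0 := by
  apply deck_lin_deck (M := M)
  intro x
  exact h (x ^ 2)

theorem deck_step1_deck {Γ : Subgroup SL2R} (hΓ : SurfaceGroup Γ) {f : ℂ → ℂ} (hf : ContinuousOn f UH)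
    (hmaps : MapsTo f UH UH) (hret : ∀ z ∈ UH, ∃ g ∈ Γ, f z = mob g z) :
    ∃ g ∈ Γ, ∀ z ∈ UH, f z = mob g z := by
  have hI : I ∈ UH := by
    show 0 < I.im
    simp
  obtain ⟨g0, hg0, hfI⟩ := hret I hI
  refine ⟨g0, hg0, ?_⟩
  have hconn : IsPreconnected UH := by
    have : Convex ℝ UH := convex_halfSpace_im_gt 0
    exact this.isPreconnected
  have hmobc : ∀ (g : SL2R) (z : ℂ), z ∈ UH → ContinuousAt (mob g) z := fun g z hz =>
    (contDiffOn_mob g).continuousOn.continuousAt (isOpen_UH.mem_nhds hz)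
  have hfc : ∀ z ∈ UH, ContinuousAt f z := fun z hz => hf.continuousAt (isOpen_UH.mem_nhds hz)
  set S : Set ℂ := {z | z ∈ UH ∧ f z = mob g0 z} with hS
  have hSopen : IsOpen S := by
    rw [isOpen_iff_mem_nhds]
    rintro z ⟨hz, hfz⟩
    obtain ⟨r, hr, hball⟩ := Metric.nhds_basis_closedBall.mem_iff.1 (isOpen_UH.mem_nhds hz)
    have hN : IsCompact (Metric.closedBall z r) := isCompact_closedBall z r
    have hfN : IsCompact (f '' Metric.closedBall z r) :=
      hN.image_of_continuousOn (hf.mono hball)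
    have hK : IsCompact (Metric.closedBall z r ∪ f '' Metric.closedBall z r) := hN.union hfN
    have hKU : (Metric.closedBall z r ∪ f '' Metric.closedBall z r) ⊆ UH := by
      apply union_subset hball
      rintro _ ⟨w, hw, rfl⟩
      exact hmaps (hball hw)
    have hfin := locfin hΓ hK hKU
    have hev : ∀ᶠ w in 𝓝 z, ∀ g ∈ {g : Γ | ∃ z' ∈ (Metric.closedBall z r ∪ f '' Metric.closedBall z r),
        mob (g : SL2R) z' ∈ (Metric.closedBall z r ∪ f '' Metric.closedBall z r)},
        mob (g : SL2R) z ≠ f z → mob (g : SL2R) w ≠ f w := by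
      rw [Filter.eventually_all_finite hfin]
      intro g _
      by_cases h : mob (g : SL2R) z = f z
      · exact Filter.Eventually.of_forall fun w h' => absurd h h'
      · have hprod : Tendsto (fun w => (mob (g : SL2R) w, f w)) (𝓝 z) (𝓝 (mob (g : SL2R) z, f z)) :=
          (hmobc (g : SL2R) z hz).tendsto.prodMk_nhds (hfc z hz).tendsto
        have := hprod.eventually (isClosed_diagonal.isOpen_compl.mem_nhds (show (mob (g : SL2R) z, f z) ∈ (diagonal ℂ)ᶜ from h))
        filter_upwards [this] with w hw _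
        exact hw
    filter_upwards [hev, Metric.closedBall_mem_nhds z hr] with w hw hwN
    have hwU : w ∈ UH := hball hwN
    refine ⟨hwU, ?_⟩
    obtain ⟨g, hg, hfw⟩ := hret w hwU
    have hmem : (⟨g, hg⟩ : Γ) ∈ {g : Γ | ∃ z' ∈ (Metric.closedBall z r ∪ f '' Metric.closedBall z r),
        mob (g : SL2R) z' ∈ (Metric.closedBall z r ∪ f '' Metric.closedBall z r)} := by
      refine ⟨w, Or.inl hwN, ?_⟩
      show mob g w ∈ _
      rw [← hfw]
      exact Or.inr ⟨w, hwN, rfl⟩
    have hgz : mob g z = f z := by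
      by_contra hne
      exact hw ⟨g, hg⟩ hmem hne hfw.symm
    have hfix : mob (g0⁻¹ * g) z = z := by
      rw [mob_mul _ _ hz, hgz, hfz, mob_inv_mob g0 hz]
    have hall := hΓ.free (g0⁻¹ * g) (Γ.mul_mem (Γ.inv_mem hg0) hg) z hz hfix w hwU
    rw [mob_mul _ _ hwU] at hall
    rw [hfw]
    have h1 := mob_mob_inv g0 (mob_mem g hwU)
    rw [hall] at h1
    exact h1.symm
  have hsub : UH ⊆ S := by
    apply hconn.subset_of_closure_inter_subset hSopen
    · exact ⟨I, hI, hI, hfI⟩
    · rintro z ⟨hz1, hz2⟩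
      refine ⟨hz2, ?_⟩
      have hne : (𝓝[S] z).NeBot := mem_closure_iff_nhdsWithin_neBot.1 hz1
      have t1 : Tendsto f (𝓝[S] z) (𝓝 (f z)) := (hfc z hz2).tendsto.mono_left nhdsWithin_le_nhds
      have t2 : Tendsto (mob g0) (𝓝[S] z) (𝓝 (mob g0 z)) :=
        (hmobc g0 z hz2).tendsto.mono_left nhdsWithin_le_nhds
      have t3 : Tendsto f (𝓝[S] z) (𝓝 (mob g0 z)) := by
        refine t2.congr' ?_
        filter_upwards [self_mem_nhdsWithin] with w hw
        exact hw.2.symm
      exact tendsto_nhds_unique t1 t3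
  intro z hz
  exact (hsub hz).2

theorem deck_step2_deck (g : SL2R) (C : ℝ)
    (h : ∀ z ∈ UH, ‖mob g z - z‖ ^ 2 ≤ C * (z.im * (mob g z).im)) :
    ∀ z ∈ UH, mob g z = z := by
  set a : ℝ := g 0 0 with ha
  set b : ℝ := g 0 1 with hb
  set c : ℝ := g 1 0 with hc
  set d : ℝ := g 1 1 with hd
  have hdet : a * d - b * c = 1 := by
    have := g.det_coe
    rw [Matrix.det_fin_two] at this
    exact this
  have hP : ∀ z ∈ UH, ‖((a : ℂ) * z + b) - z * ((c : ℂ) * z + d)‖ ^ 2 ≤ C * z.im ^ 2 := by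
    intro z hz
    have hden := den_ne_zero g hz
    have hden' : 0 < ‖den g z‖ := norm_pos_iff.2 hden
    have h1 := h z hz
    rw [mob_im g hz] at h1
    have h2 : mob g z - z = (((a : ℂ) * z + b) - z * ((c : ℂ) * z + d)) / den g z := by
      unfold mob
      rw [eq_div_iff hden, sub_mul, div_mul_cancel₀ _ hden]
      rfl
    rw [h2, norm_div, div_pow, div_le_iff₀ (by positivity)] at h1
    calc _ ≤ C * (z.im * (z.im / ‖den g z‖ ^ 2)) * ‖den g z‖ ^ 2 := h1
      _ = C * z.im ^ 2 := by field_simp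
  -- real part on the line Im z = 1
  have hre : ∀ x : ℝ, |(-c) * x ^ 2 + (a - d) * x + (b + c)| ≤ √C := by
    intro x
    have hz : ((x : ℂ) + I) ∈ UH := by
      show 0 < ((x : ℂ) + I).im
      simp
    have h1 := hP _ hz
    have him : ((x : ℂ) + I).im = 1 := by simp
    rw [him, one_pow, mul_one] at h1
    have h2 : (((a : ℂ) * ((x : ℂ) + I) + b) - ((x : ℂ) + I) * ((c : ℂ) * ((x : ℂ) + I) + d)).re =
        (-c) * x ^ 2 + (a - d) * x + (b + c) := by
      simp
      ring
    rw [← h2]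
    refine (Complex.abs_re_le_norm _).trans ?_
    exact Real.le_sqrt_of_sq_le h1
  have hc0 : c = 0 := by
    have : -c = 0 := by
      apply deck_lin_deck (M := 2 * √C)
      intro x
      have h1 := hre x
      have h2 := hre (-x)
      have h3 := hre 0
      rw [abs_le] at h1 h2 h3 ⊢
      constructor <;> nlinarith
    linarith
  have had : a = d := by
    have : a - d = 0 := by
      apply deck_lin'_deck (M := √C)
      intro x
      have h1 := hre x
      have h2 := hre (-x)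
      rw [abs_le] at h1 h2 ⊢
      constructor <;> nlinarith
    linarith
  have ha2 : a * a = 1 := by
    rw [hc0, ← had] at hdet
    linarith
  have ha0 : a ≠ 0 := by
    intro h0
    rw [h0] at ha2
    norm_num at ha2
  have hbb : ∀ y : ℝ, 0 < y → b ^ 2 ≤ C * y ^ 2 := by
    intro y hy
    have hz : ((y : ℂ) * I) ∈ UH := by
      show 0 < ((y : ℂ) * I).im
      simpa using hy
    have h1 := hP _ hz
    have him : ((y : ℂ) * I).im = y := by simp
    rw [him, hc0, ← had] at h1
    have h2 : (((a : ℂ) * ((y : ℂ) * I) + b) - ((y : ℂ) * I) * (((0 : ℝ) : ℂ) * ((y : ℂ) * I) + a)) =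
        (b : ℂ) := by
      push_cast
      ring
    rw [h2, Complex.norm_real, Real.norm_eq_abs, sq_abs] at h1
    exact h1
  have hb0 : b = 0 := by
    by_contra hne
    have hb2 : 0 < b ^ 2 := by positivity
    have hC : 0 < C := by
      have := hbb 1 one_pos
      linarith
    have h1 := hbb (√(b ^ 2 / (2 * C))) (Real.sqrt_pos.2 (by positivity))
    rw [Real.sq_sqrt (by positivity)] at h1
    have h2 : C * (b ^ 2 / (2 * C)) = b ^ 2 / 2 := by field_simp
    rw [h2] at h1
    linarith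
  intro z hz
  have hac : (a : ℂ) ≠ 0 := by exact_mod_cast ha0
  unfold mob den
  rw [← ha, ← hb, ← hc, ← hd, hb0, hc0, ← had]
  simp only [Complex.ofReal_zero, add_zero, zero_mul, zero_add]
  field_simp

theorem deck {Γ : Subgroup SL2R} (hΓ : SurfaceGroup Γ) {Φ : ℝ → ℂ → ℂ}
    (hΦ : ContinuousOn (fun q : ℝ × ℂ => Φ q.1 q.2) (univ ×ˢ UH))
    (maps : ∀ t, MapsTo (Φ t) UH UH)
    (comm : ∀ t, ∀ g ∈ Γ, ∀ z ∈ UH, Φ t (mob g z) = mob g (Φ t z)) {T : ℝ} (hT : 0 < T)
    (hret : ∀ z ∈ UH, ∃ g ∈ Γ, Φ T z = mob g z) : ∀ z ∈ UH, Φ T z = z := by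
  have hfc : ContinuousOn (Φ T) UH := by
    have h1 : ContinuousOn (fun z : ℂ => ((T, z) : ℝ × ℂ)) UH :=
      (continuous_const.prodMk continuous_id).continuousOn
    exact hΦ.comp h1 (fun z hz => ⟨mem_univ _, hz⟩)
  obtain ⟨g, hg, hfg⟩ := deck_step1_deck hΓ hfc (maps T) hret
  obtain ⟨C, hC⟩ := disp hΓ hΦ maps comm T
  have h2 := deck_step2_deck g C (fun z hz => by
    have := hC T ⟨hT.le, le_rfl⟩ z hz
    rw [hfg z hz] at this
    exact this)
  intro z hz
  rw [hfg z hz, h2 z hz]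

end Pool.Agent.Helper131.CG
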