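import Pool.Agent.Helper131.CG.Base
import Pool.Agent.Helper131.CG.L_lin

namespace Pool.Agent.Helper131.CG

open Complex MeasureTheory Set Filter Topology
open scoped ContDiff

theorem a1_slice_A1 {E : Type*} [TopologicalSpace E] {f : ℝ → ℂ → E}
    (hf : ContinuousOn (fun q : ℝ × ℂ => f q.1 q.2) (univ ×ˢ UH)) {z : ℂ} (hz : z ∈ UH) :
    Continuous (fun t => f t z) := by
  have h : ContinuousOn ((fun q : ℝ × ℂ => f q.1 q.2) ∘ (fun t : ℝ => (t, z))) univ :=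
    hf.comp (by fun_prop) (fun t _ => ⟨mem_univ _, hz⟩)
  exact continuousOn_univ.1 h

theorem a1_curve_A1 {E : Type*} [TopologicalSpace E] {f : ℝ → ℂ → E}
    (hf : ContinuousOn (fun q : ℝ × ℂ => f q.1 q.2) (univ ×ˢ UH)) {x : ℝ → ℂ}
    (hx : Continuous x) (hxm : ∀ t, x t ∈ UH) :
    Continuous (fun t => f t (x t)) := by
  have h : ContinuousOn ((fun q : ℝ × ℂ => f q.1 q.2) ∘ (fun t : ℝ => (t, x t))) univ :=
    hf.comp (by fun_prop) (fun t _ => ⟨mem_univ _, hxm t⟩)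
  exact continuousOn_univ.1 h

theorem a1_diff_A1 {H : ℝ → ℂ → ℝ}
    (hH : ContDiffOn ℝ 1 (fun q : ℝ × ℂ => H q.1 q.2) (univ ×ˢ UH)) (T : ℝ) {z : ℂ}
    (hz : z ∈ UH) :
    HasFDerivAt (fun w => ∫ t in (0 : ℝ)..T, H t w) (∫ t in (0 : ℝ)..T, fderiv ℝ (H t) z) z := by
  obtain ⟨ε, hε, hball⟩ := Metric.nhds_basis_closedBall.mem_iff.1 (isOpen_UH.mem_nhds hz)
  have hK : IsCompact (uIcc (0 : ℝ) T ×ˢ Metric.closedBall z ε) :=
    isCompact_uIcc.prod (isCompact_closedBall z ε)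
  have hFc := jc_fderiv hH
  obtain ⟨C, hC⟩ := hK.exists_bound_of_continuousOn
    (hFc.mono (prod_mono (subset_univ _) hball))
  refine intervalIntegral.hasFDerivAt_integral_of_dominated_of_fderiv_le
    (F := fun w t => H t w) (F' := fun w t => fderiv ℝ (H t) w) (bound := fun _ => C)
    (Metric.ball_mem_nhds z hε) ?_ ?_ ?_ ?_ ?_ ?_
  · filter_upwards [isOpen_UH.mem_nhds hz] with w hw
    exact (a1_slice_A1 hH.continuousOn hw).aestronglyMeasurable
  · exact (a1_slice_A1 hH.continuousOn hz).intervalIntegrable _ _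
  · exact (a1_slice_A1 (f := fun t w => fderiv ℝ (H t) w) hFc hz).aestronglyMeasurable
  · refine Filter.Eventually.of_forall fun t ht w hw => ?_
    exact hC (t, w) ⟨uIoc_subset_uIcc ht, Metric.ball_subset_closedBall hw⟩
  · exact intervalIntegrable_const
  · refine Filter.Eventually.of_forall fun t _ w hw => ?_
    exact jc_hasFDerivAt hH t (hball (Metric.ball_subset_closedBall hw))

theorem a1_lm_A1 {Γ : Subgroup SL2R} {m : ℂ → ℝ} (hm : ConfMetric Γ m) :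
    ContDiffOn ℝ 2 (Lm m) UH := by
  have h1 : ContDiffOn ℝ 2 m UH := by exact_mod_cast contDiffOn_infty.1 hm.smooth 2
  exact h1.log (fun x hx => (hm.pos x hx).ne')

theorem a1_lx_A1 {Γ : Subgroup SL2R} {m : ℂ → ℝ} (hm : ConfMetric Γ m) (v : ℂ) :
    ContDiffOn ℝ 1 (fun z => fderiv ℝ (Lm m) z v) UH := by
  have h := (a1_lm_A1 hm).fderiv_of_isOpen (m := 1) isOpen_UH (by norm_num)
  exact h.clm_apply contDiffOn_const

theorem a1_pz_A1 {Γ : Subgroup SL2R} {m : ℂ → ℝ} (hm : ConfMetric Γ m) :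
    ContDiffOn ℝ 1 (pz m) UH := by
  have h1 : ContDiffOn ℝ 1 (fun z => ((fderiv ℝ (Lm m) z 1 : ℝ) : ℂ)) UH :=
    Complex.ofRealCLM.contDiff.comp_contDiffOn (a1_lx_A1 hm 1)
  have h2 : ContDiffOn ℝ 1 (fun z => ((fderiv ℝ (Lm m) z I : ℝ) : ℂ)) UH :=
    Complex.ofRealCLM.contDiff.comp_contDiffOn (a1_lx_A1 hm I)
  have h3 := (h1.sub (h2.mul (contDiffOn_const (c := I)))).div_const 2
  exact h3

theorem a1_pz_fd_A1 {Γ : Subgroup SL2R} {m : ℂ → ℝ} (hm : ConfMetric Γ m) {x : ℂ} (hx : x ∈ UH) :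
    HasFDerivAt (pz m) (fderiv ℝ (pz m) x) x :=
  (((a1_pz_A1 hm).contDiffAt (isOpen_UH.mem_nhds hx)).differentiableAt one_ne_zero).hasFDerivAt

theorem a1_re_A1 {Γ : Subgroup SL2R} {m : ℂ → ℝ} (hm : ConfMetric Γ m) {x : ℂ} (hx : x ∈ UH)
    (v : ℂ) : (fderiv ℝ (pz m) x v).re = fderiv ℝ (fun w => fderiv ℝ (Lm m) w 1) x v / 2 := by
  have h1 : HasFDerivAt (fun w => (pz m w).re) (Complex.reCLM.comp (fderiv ℝ (pz m) x)) x :=
    Complex.reCLM.hasFDerivAt.comp x (a1_pz_fd_A1 hm hx)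
  have h2 : HasFDerivAt (fun w => fderiv ℝ (Lm m) w 1)
      (fderiv ℝ (fun w => fderiv ℝ (Lm m) w 1) x) x :=
    (((a1_lx_A1 hm 1).contDiffAt (isOpen_UH.mem_nhds hx)).differentiableAt one_ne_zero).hasFDerivAt
  have h3 : (fun w => (pz m w).re) = fun w => (1 / 2 : ℝ) * fderiv ℝ (Lm m) w 1 := by
    funext w
    unfold pz
    simp
    ring
  rw [h3] at h1
  have h4 := h2.const_mul (1 / 2 : ℝ)
  have h5 := h1.unique h4
  have h6 := congrArg (fun L : ℂ →L[ℝ] ℝ => L v) h5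
  simp at h6
  rw [h6]; ring

theorem a1_im_A1 {Γ : Subgroup SL2R} {m : ℂ → ℝ} (hm : ConfMetric Γ m) {x : ℂ} (hx : x ∈ UH)
    (v : ℂ) : (fderiv ℝ (pz m) x v).im = - fderiv ℝ (fun w => fderiv ℝ (Lm m) w I) x v / 2 := by
  have h1 : HasFDerivAt (fun w => (pz m w).im) (Complex.imCLM.comp (fderiv ℝ (pz m) x)) x :=
    Complex.imCLM.hasFDerivAt.comp x (a1_pz_fd_A1 hm hx)
  have h2 : HasFDerivAt (fun w => fderiv ℝ (Lm m) w I)
      (fderiv ℝ (fun w => fderiv ℝ (Lm m) w I) x) x :=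
    (((a1_lx_A1 hm I).contDiffAt (isOpen_UH.mem_nhds hx)).differentiableAt one_ne_zero).hasFDerivAt
  have h3 : (fun w => (pz m w).im) = fun w => (-1 / 2 : ℝ) * fderiv ℝ (Lm m) w I := by
    funext w
    unfold pz
    simp
    ring
  rw [h3] at h1
  have h4 := h2.const_mul (-1 / 2 : ℝ)
  have h5 := h1.unique h4
  have h6 := congrArg (fun L : ℂ →L[ℝ] ℝ => L v) h5
  simp at h6
  rw [h6]; ring

/-- the pointwise identity -/
theorem a1_point_A1 {Γ : Subgroup SL2R} {m : ℂ → ℝ} (hm : ConfMetric Γ m) {x : ℂ} (hx : x ∈ UH)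
    (X U : ℂ) : (fderiv ℝ (pz m) x X * U - fderiv ℝ (pz m) x U * X).im =
      -(curv m x * (m x * ((starRingEnd ℂ) X * U).im)) := by
  have hlin : ∀ w : ℂ, fderiv ℝ (pz m) x w =
      (w.re : ℂ) * fderiv ℝ (pz m) x 1 + (w.im : ℂ) * fderiv ℝ (pz m) x I := by
    intro w
    have : w = w.re • (1 : ℂ) + w.im • I := by
      apply Complex.ext <;> simp
    conv_lhs => rw [this]
    rw [map_add, map_smul, map_smul]
    simp
  rw [hlin X, hlin U]
  have h1 := a1_re_A1 hm hx 1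
  have h2 := a1_im_A1 hm hx I
  set a := fderiv ℝ (pz m) x 1
  set b := fderiv ℝ (pz m) x I
  have hmx := (hm.pos x hx).ne'
  have hcurv : curv m x * m x = - lap (Lm m) x / 2 := by
    unfold curv
    field_simp
  have hlap : lap (Lm m) x / 2 = a.re - b.im := by
    rw [h1, h2]
    unfold lap
    ring
  rw [← mul_assoc, hcurv, neg_div, hlap]
  simp only [Complex.sub_im, Complex.mul_im, Complex.add_im, Complex.add_re, Complex.mul_re,
    Complex.ofReal_re, Complex.ofReal_im, Complex.conj_re, Complex.conj_im]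
  ring

theorem A1 {Γ : Subgroup SL2R} {m : ℂ → ℝ} (hm : ConfMetric Γ m)
    {u : ℝ → ℂ → ℂ} {p : ℝ → ℂ → ℝ} {Φ Ψ : ℝ → ℂ → ℂ} (F : Flow Γ m u p Φ Ψ) {T : ℝ}
    (hret : ∀ z ∈ UH, Φ T z = z) {z : ℂ} (hz : z ∈ UH) :
    DifferentiableAt ℝ (Afun m u Φ T) z ∧
    ∀ v : ℂ, fderiv ℝ (Afun m u Φ T) z v =
      - ∫ t in (0 : ℝ)..T, curv m (Φ t z) * (m (Φ t z) *
          ((starRingEnd ℂ) (fderiv ℝ (Φ t) z v) * u t (Φ t z)).im) := by
  have hu := F.sol.u_smooth
  have hΦ := F.smooth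
  have hpz := a1_pz_A1 hm
  -- joint smoothness of the integrand
  set H : ℝ → ℂ → ℝ := fun t w => (pz m (Φ t w) * u t (Φ t w)).im with hHdef
  have hH : ContDiffOn ℝ 1 (fun q : ℝ × ℂ => H q.1 q.2) (univ ×ˢ UH) := by
    have h1 : ContDiffOn ℝ 1 (fun q : ℝ × ℂ => pz m (Φ q.1 q.2)) (univ ×ˢ UH) :=
      hpz.comp hΦ (fun q hq => F.maps q.1 hq.2)
    have h2 : ContDiffOn ℝ 1 (fun q : ℝ × ℂ => u q.1 (Φ q.1 q.2)) (univ ×ˢ UH) := by
      have h3 : ContDiffOn ℝ 1 (fun q : ℝ × ℂ => (q.1, Φ q.1 q.2)) (univ ×ˢ UH) :=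
        contDiff_fst.contDiffOn.prodMk hΦ
      exact hu.comp h3 (fun q hq => ⟨mem_univ _, F.maps q.1 hq.2⟩)
    exact Complex.imCLM.contDiff.comp_contDiffOn (h1.mul h2)
  have hA : HasFDerivAt (Afun m u Φ T) (∫ t in (0 : ℝ)..T, fderiv ℝ (H t) z) z := a1_diff_A1 hH T hz
  refine ⟨hA.differentiableAt, fun v => ?_⟩
  rw [hA.fderiv]
  have hHfc : Continuous (fun t => fderiv ℝ (H t) z) :=
    a1_slice_A1 (f := fun t w => fderiv ℝ (H t) w) (jc_fderiv hH) hz
  rw [ContinuousLinearMap.intervalIntegral_apply (hHfc.intervalIntegrable _ _)]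
  -- the curves
  have hx : Continuous (fun t => Φ t z) := a1_slice_A1 hΦ.continuousOn hz
  have hxm : ∀ t, Φ t z ∈ UH := fun t => F.maps t hz
  have hXc : Continuous (fun t => fderiv ℝ (Φ t) z v) :=
    (a1_slice_A1 (f := fun t w => fderiv ℝ (Φ t) w) (jc_fderiv hΦ) hz).clm_apply continuous_const
  have hUc : Continuous (fun t => u t (Φ t z)) := a1_curve_A1 hu.continuousOn hx hxm
  have hDuc : Continuous (fun t => fderiv ℝ (u t) (Φ t z)) :=
    a1_curve_A1 (f := fun t w => fderiv ℝ (u t) w) (jc_fderiv hu) hx hxm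
  have hpc : Continuous (fun t => pz m (Φ t z)) := by
    have h : ContinuousOn ((pz m) ∘ (fun t : ℝ => Φ t z)) univ :=
      hpz.continuousOn.comp hx.continuousOn (fun t _ => hxm t)
    exact continuousOn_univ.1 h
  have hDpc : Continuous (fun t => fderiv ℝ (pz m) (Φ t z)) := by
    have h0 : ContinuousOn (fderiv ℝ (pz m)) UH := hpz.continuousOn_fderiv_of_isOpen isOpen_UH le_rfl
    have h : ContinuousOn ((fderiv ℝ (pz m)) ∘ (fun t : ℝ => Φ t z)) univ :=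
      h0.comp hx.continuousOn (fun t _ => hxm t)
    exact continuousOn_univ.1 h
  -- the derivative of `H`
  have hHf : ∀ t, fderiv ℝ (H t) z v =
      (pz m (Φ t z) * fderiv ℝ (u t) (Φ t z) (fderiv ℝ (Φ t) z v) +
        u t (Φ t z) * fderiv ℝ (pz m) (Φ t z) (fderiv ℝ (Φ t) z v)).im := by
    intro t
    have h1 := (a1_pz_fd_A1 hm (hxm t)).mul (jc_hasFDerivAt hu t (hxm t))
    have h2 := h1.comp z (jc_hasFDerivAt hΦ t hz)
    have h3 : HasFDerivAt (H t) _ z := Complex.imCLM.hasFDerivAt.comp z h2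
    rw [h3.fderiv]
    simp
  -- the time derivative
  set D : ℝ → ℝ := fun t => (fderiv ℝ (pz m) (Φ t z) (u t (Φ t z)) * fderiv ℝ (Φ t) z v +
        pz m (Φ t z) * fderiv ℝ (u t) (Φ t z) (fderiv ℝ (Φ t) z v)).im with hD
  have hDd : ∀ t, HasDerivAt (fun s => (pz m (Φ s z) * fderiv ℝ (Φ s) z v).im) (D t) t := by
    intro t
    have h1 : HasDerivAt (fun s => pz m (Φ s z)) (fderiv ℝ (pz m) (Φ t z) (u t (Φ t z))) t :=
      HasFDerivAt.comp_hasDerivAt (l := pz m) (f := fun s => Φ s z) t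
        (a1_pz_fd_A1 hm (hxm t)) (F.flow t z hz)
    have h2 := lin hu hΦ F.maps F.flow t hz v
    have h3 := h1.mul h2
    exact Complex.imCLM.hasFDerivAt.comp_hasDerivAt t h3
  have hDc : Continuous D := by
    have h1 : Continuous (fun t => fderiv ℝ (pz m) (Φ t z) (u t (Φ t z))) := hDpc.clm_apply hUc
    have h2 : Continuous (fun t => fderiv ℝ (u t) (Φ t z) (fderiv ℝ (Φ t) z v)) :=
      hDuc.clm_apply hXc
    exact Complex.continuous_im.comp ((h1.mul hXc).add (hpc.mul h2))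
  have hid : ∀ S : ℝ, (∀ w ∈ UH, Φ S w = w) → fderiv ℝ (Φ S) z v = v := by
    intro S hS
    have h1 : Φ S =ᶠ[𝓝 z] id := by
      filter_upwards [isOpen_UH.mem_nhds hz] with w hw using hS w hw
    rw [h1.fderiv_eq, fderiv_id]
    rfl
  have hFTC : ∫ t in (0 : ℝ)..T, D t = 0 := by
    rw [intervalIntegral.integral_eq_sub_of_hasDerivAt (fun t _ => hDd t)
      (hDc.intervalIntegrable _ _)]
    rw [hid T hret, hid 0 F.zero, hret z hz, F.zero z hz, sub_self]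
  have hHc : Continuous (fun t => fderiv ℝ (H t) z v) := hHfc.clm_apply continuous_const
  have hsub : ∫ t in (0 : ℝ)..T, fderiv ℝ (H t) z v =
      ∫ t in (0 : ℝ)..T, (fderiv ℝ (H t) z v - D t) := by
    rw [intervalIntegral.integral_sub (hHc.intervalIntegrable _ _) (hDc.intervalIntegrable _ _),
      hFTC, sub_zero]
  rw [hsub, ← intervalIntegral.integral_neg]
  refine intervalIntegral.integral_congr fun t _ => ?_
  rw [← a1_point_A1 hm (hxm t), hHf t, hD]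
  simp only [Complex.sub_im, Complex.add_im]
  rw [mul_comm (u t (Φ t z))]
  ring

end Pool.Agent.Helper131.CG
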