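import Pool.Agent.Helper131.CG.Base
import Pool.Agent.Helper131.CG.L_A1

namespace Pool.Agent.Helper131.CG

open Complex MeasureTheory Set Filter Topology
open scoped ContDiff

theorem curv_cont10709_A1c {Γ : Subgroup SL2R} {m : ℂ → ℝ} (hm : ConfMetric Γ m) :
    ContinuousOn (curv m) UH := by
  have hL : ContDiffOn ℝ ∞ (Lm m) UH :=
    hm.smooth.log (fun z hz => (hm.pos z hz).ne')
  have h1 : ∀ v : ℂ, ContDiffOn ℝ ∞ (fun w => fderiv ℝ (Lm m) w v) UH := fun v =>
    (hL.fderiv_of_isOpen isOpen_UH (m := ∞) (by simp)).clm_apply contDiffOn_const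
  have h2 : ∀ v v' : ℂ, ContinuousOn
      (fun z => fderiv ℝ (fun w => fderiv ℝ (Lm m) w v) z v') UH := fun v v' =>
    ((h1 v).continuousOn_fderiv_of_isOpen isOpen_UH (by simp)).clm_apply continuousOn_const
  have h3 : ContinuousOn (fun z => - lap (Lm m) z / (2 * m z)) UH := by
    apply ContinuousOn.div
    · unfold lap
      exact ((h2 1 1).add (h2 I I)).neg
    · exact continuousOn_const.mul hm.smooth.continuousOn
    · intro z hz
      have := hm.pos z hz
      positivity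
  exact h3

theorem param_cont10709_A1c (G : ℝ × ℂ → ℝ) (hG : ContinuousOn G (univ ×ˢ UH)) (T : ℝ) :
    ContinuousOn (fun z => ∫ t in (0 : ℝ)..T, G (t, z)) UH := by
  rw [continuousOn_iff_continuous_domRestrict]
  have h1 : Continuous (fun q : UH × ℝ => G (q.2, (q.1 : ℂ))) := by
    apply hG.comp_continuous
      ((continuous_snd).prodMk (continuous_subtype_val.comp continuous_fst))
    intro q
    exact ⟨mem_univ _, q.1.2⟩
  exact intervalIntegral.continuous_parametric_intervalIntegral_of_continuous'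
    (f := fun (z : UH) (t : ℝ) => G (t, (z : ℂ))) h1 0 T

theorem Afun_contDiff {Γ : Subgroup SL2R} {m : ℂ → ℝ} (hm : ConfMetric Γ m)
    {u : ℝ → ℂ → ℂ} {p : ℝ → ℂ → ℝ} {Φ Ψ : ℝ → ℂ → ℂ} (F : Flow Γ m u p Φ Ψ) {T : ℝ}
    (hret : ∀ z ∈ UH, Φ T z = z) : ContDiffOn ℝ 1 (Afun m u Φ T) UH := by
  have hΦc : ContinuousOn (fun q : ℝ × ℂ => Φ q.1 q.2) (univ ×ˢ UH) := F.smooth.continuousOn
  have hmaps : MapsTo (fun q : ℝ × ℂ => Φ q.1 q.2) (univ ×ˢ UH) UH :=
    fun q hq => F.maps q.1 hq.2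
  have hu : ContinuousOn (fun q : ℝ × ℂ => u q.1 (Φ q.1 q.2)) (univ ×ˢ UH) :=
    F.sol.u_smooth.continuousOn.comp (continuousOn_fst.prodMk hΦc)
      (fun q hq => ⟨mem_univ _, F.maps q.1 hq.2⟩)
  have hfd := jc_fderiv F.smooth
  have hint : ∀ v : ℂ, ContinuousOn (fun z => - ∫ t in (0 : ℝ)..T, curv m (Φ t z) * (m (Φ t z) *
          ((starRingEnd ℂ) (fderiv ℝ (Φ t) z v) * u t (Φ t z)).im)) UH := by
    intro v
    apply ContinuousOn.neg
    apply param_cont10709_A1c (fun q : ℝ × ℂ => curv m (Φ q.1 q.2) * (m (Φ q.1 q.2) *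
          ((starRingEnd ℂ) (fderiv ℝ (Φ q.1) q.2 v) * u q.1 (Φ q.1 q.2)).im))
    apply ContinuousOn.mul
    · exact (curv_cont10709_A1c hm).comp hΦc hmaps
    · apply ContinuousOn.mul
      · exact hm.smooth.continuousOn.comp hΦc hmaps
      · apply Complex.continuous_im.comp_continuousOn
        apply ContinuousOn.mul
        · apply Complex.continuous_conj.comp_continuousOn
          exact hfd.clm_apply continuousOn_const
        · exact hu
  have h1 : ContDiffOn ℝ ((0 : WithTop ℕ∞) + 1) (Afun m u Φ T) UH := by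
    rw [contDiffOn_succ_iff_fderiv_of_isOpen isOpen_UH]
    refine ⟨fun z hz => (A1 hm F hret hz).1.differentiableWithinAt, by simp, ?_⟩
    rw [contDiffOn_zero, continuousOn_clm_apply]
    intro v
    exact (hint v).congr (fun z hz => (A1 hm F hret hz).2 v)
  simpa using h1

end Pool.Agent.Helper131.CG
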