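import Pool.Agent.Helper131.CG.Base
import Pool.Agent.Helper131.CG.L_pz_equiv

namespace Pool.Agent.Helper131.CG

open Complex MeasureTheory Set Filter Topology
open scoped ContDiff

theorem A2_hasDerivAt_den_A2 (g : SL2R) {x : ℝ → ℂ} {x' : ℂ} {t : ℝ} (h : HasDerivAt x x' t) :
    HasDerivAt (fun s => den g (x s)) ((g 1 0 : ℂ) * x') t := by
  unfold den
  exact (h.const_mul _).add_const _

theorem A2_int_A2 (g : SL2R) (x U : ℝ → ℂ) (T : ℝ) (hx : ∀ t, x t ∈ UH)
    (hxU : ∀ t, HasDerivAt x (U t) t) (hU : Continuous U) (h0 : x T = x 0) :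
    IntervalIntegrable (fun t => 2 * ((g 1 0 : ℂ) * U t / den g (x t)).im) volume 0 T ∧
    ∫ t in (0 : ℝ)..T, 2 * ((g 1 0 : ℂ) * U t / den g (x t)).im = 0 := by
  have hxc : Continuous x := continuous_iff_continuousAt.2 fun t => (hxU t).continuousAt
  have hdc : Continuous fun t => den g (x t) :=
    continuous_iff_continuousAt.2 fun t => (A2_hasDerivAt_den_A2 g (hxU t)).continuousAt
  have hne : ∀ t, den g (x t) ≠ 0 := fun t => den_ne_zero g (hx t)
  have hc : Continuous fun t => 2 * ((g 1 0 : ℂ) * U t / den g (x t)).im :=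
    continuous_const.mul (Complex.continuous_im.comp ((continuous_const.mul hU).div hdc hne))
  refine ⟨hc.intervalIntegrable 0 T, ?_⟩
  by_cases hc0 : g 1 0 = 0
  · simp [hc0]
  · have hslit : ∀ t, den g (x t) ∈ Complex.slitPlane := by
      intro t
      rw [Complex.mem_slitPlane_iff]
      right
      have h1 : (den g (x t)).im = g 1 0 * (x t).im := by
        unfold den
        simp
      rw [h1]
      have h2 : 0 < (x t).im := hx t
      exact mul_ne_zero hc0 h2.ne'
    have hder : ∀ t, HasDerivAt (fun s => 2 * (Complex.log (den g (x s))).im)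
        (2 * ((g 1 0 : ℂ) * U t / den g (x t)).im) t := by
      intro t
      have h1 : HasDerivAt (fun s => Complex.log (den g (x s)))
          ((g 1 0 : ℂ) * U t / den g (x t)) t :=
        (A2_hasDerivAt_den_A2 g (hxU t)).clog_real (hslit t)
      have h2 : HasDerivAt (fun s => (Complex.log (den g (x s))).im)
          (((g 1 0 : ℂ) * U t / den g (x t)).im) t :=
        Complex.imCLM.hasFDerivAt.comp_hasDerivAt t h1
      exact h2.const_mul 2
    rw [intervalIntegral.integral_eq_sub_of_hasDerivAt (fun t _ => hder t)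
      (hc.intervalIntegrable 0 T), h0, sub_self]

theorem A2 {Γ : Subgroup SL2R} {m : ℂ → ℝ} (hm : ConfMetric Γ m)
    {u : ℝ → ℂ → ℂ} {p : ℝ → ℂ → ℝ} {Φ Ψ : ℝ → ℂ → ℂ} (F : Flow Γ m u p Φ Ψ) {T : ℝ}
    (hret : ∀ z ∈ UH, Φ T z = z) :
    ∀ g ∈ Γ, ∀ z ∈ UH, Afun m u Φ T (mob g z) = Afun m u Φ T z := by
  intro g hg z hz
  have hx : ∀ t, Φ t z ∈ UH := fun t => F.maps t hz
  have hxU : ∀ t, HasDerivAt (fun s => Φ s z) (u t (Φ t z)) t := fun t => F.flow t z hz
  have hU : Continuous fun t => u t (Φ t z) := by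
    have h1 : (fun t => u t (Φ t z)) = fun t => deriv (fun s => Φ s z) t :=
      funext fun t => (hxU t).deriv.symm
    rw [h1]
    have h2 := jc_timeDeriv_cont F.smooth
    have h3 : Continuous fun t : ℝ => ((t, z) : ℝ × ℂ) := by fun_prop
    exact h2.comp_continuous h3 fun t => ⟨mem_univ _, hz⟩
  obtain ⟨hint, hzero⟩ := A2_int_A2 g (fun t => Φ t z) (fun t => u t (Φ t z)) T hx hxU hU
    (by show Φ T z = Φ 0 z
        rw [hret z hz, F.zero z hz])
  have he : ∀ t, (pz m (Φ t (mob g z)) * u t (Φ t (mob g z))).im =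
      (pz m (Φ t z) * u t (Φ t z)).im + 2 * ((g 1 0 : ℂ) * u t (Φ t z) / den g (Φ t z)).im := by
    intro t
    have hd := den_ne_zero g (hx t)
    rw [F.comm t g hg z hz, pz_equiv hm hg (hx t), F.sol.u_equiv t g hg _ (hx t)]
    have h1 : (den g (Φ t z) ^ 2 * pz m (Φ t z) + 2 * (g 1 0 : ℂ) * den g (Φ t z)) *
        (u t (Φ t z) / den g (Φ t z) ^ 2) = pz m (Φ t z) * u t (Φ t z) +
        ((2 : ℝ) : ℂ) * ((g 1 0 : ℂ) * u t (Φ t z) / den g (Φ t z)) := by
      push_cast
      field_simp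
    rw [h1, Complex.add_im, Complex.im_ofReal_mul]
  unfold Afun
  simp only [he]
  by_cases hf : IntervalIntegrable (fun t => (pz m (Φ t z) * u t (Φ t z)).im) volume 0 T
  · rw [intervalIntegral.integral_add hf hint, hzero, add_zero]
  · rw [intervalIntegral.integral_undef hf, intervalIntegral.integral_undef]
    intro hcon
    apply hf
    have := hcon.sub hint
    simpa using this

end Pool.Agent.Helper131.CG
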