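import Pool.Agent.Helper131.CG.Base
import Pool.Agent.Helper131.CG.L_A1
import Pool.Agent.Helper131.CG.L_A1c
import Pool.Agent.Helper131.CG.L_A2
import Pool.Agent.Helper131.CG.L_D0
import Pool.Agent.Helper131.CG.L_dw_field
import Pool.Agent.Helper131.CG.L_field_equiv
import Pool.Agent.Helper131.CG.L_int_inv
import Pool.Agent.Helper131.CG.L_swap

namespace Pool.Agent.Helper131.CG

open Complex MeasureTheory Set Filter Topology
open scoped ContDiff

theorem j10714_den_AG (g : SL2R) {z : ℂ} (hz : z ∈ UH) : den g z ≠ 0 := by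
  intro h
  have hz' : 0 < z.im := hz
  have him := congrArg Complex.im h
  have hre := congrArg Complex.re h
  simp only [den, Complex.add_im, Complex.mul_im, Complex.ofReal_re, Complex.ofReal_im, zero_mul,
    add_zero, Complex.zero_im, Complex.add_re, Complex.mul_re, sub_zero, Complex.zero_re] at him hre
  have h1 : g 1 0 = 0 := by
    rcases mul_eq_zero.1 him with h1 | h1
    · exact h1
    · exact absurd h1 hz'.ne'
  rw [h1, zero_mul, zero_add] at hre
  have h2 := g.det_coe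
  rw [Matrix.det_fin_two] at h2
  rw [h1, hre] at h2
  simp at h2

theorem j10714_mob_AG (g : SL2R) {z : ℂ} (hz : z ∈ UH) :
    HasDerivAt (mob g) (1 / den g z ^ 2) z := by
  have hd := j10714_den_AG g hz
  have h1 : HasDerivAt (fun z : ℂ => (g 0 0 : ℂ) * z + (g 0 1 : ℂ)) (g 0 0 : ℂ) z := by
    simpa using ((hasDerivAt_id z).const_mul (g 0 0 : ℂ)).add_const (g 0 1 : ℂ)
  have h2' : HasDerivAt (fun z : ℂ => (g 1 0 : ℂ) * z + (g 1 1 : ℂ)) (g 1 0 : ℂ) z := by
    simpa using ((hasDerivAt_id z).const_mul (g 1 0 : ℂ)).add_const (g 1 1 : ℂ)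
  have h2 : HasDerivAt (den g) (g 1 0 : ℂ) z := h2'
  have h3 := h1.div h2 hd
  refine h3.congr_deriv ?_
  congr 1
  have h4 := g.det_coe
  rw [Matrix.det_fin_two] at h4
  have h5 : (g 0 0 : ℂ) * (g 1 1 : ℂ) - (g 0 1 : ℂ) * (g 1 0 : ℂ) = 1 := by
    exact_mod_cast congrArg (fun x : ℝ => (x : ℂ)) h4
  unfold den
  linear_combination h5

theorem j10714_fd_AG {Γ : Subgroup SL2R} {wt : ℂ → ℝ} (hw : ContDiffOn ℝ 1 wt UH)
    (hinv : ∀ g ∈ Γ, ∀ z ∈ UH, wt (mob g z) = wt z) {g : SL2R} (hg : g ∈ Γ) {z : ℂ} (hz : z ∈ UH)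
    (w : ℂ) : fderiv ℝ wt (mob g z) (w / den g z ^ 2) = fderiv ℝ wt z w := by
  have h0 : ∀ y ∈ UH, HasFDerivAt wt (fderiv ℝ wt y) y := fun y hy =>
    ((hw.differentiableOn (by norm_num)).differentiableAt (isOpen_UH.mem_nhds hy)).hasFDerivAt
  have h1 := h0 _ (mob_mem g hz)
  have h2 : HasFDerivAt (mob g) ((ContinuousLinearMap.toSpanSingleton ℂ
      (1 / den g z ^ 2)).restrictScalars ℝ) z :=
    (j10714_mob_AG g hz).hasFDerivAt.restrictScalars ℝ
  have h3 := h1.comp z h2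
  have h4 : wt =ᶠ[𝓝 z] wt ∘ mob g :=
    Filter.eventually_of_mem (isOpen_UH.mem_nhds hz) fun y hy => (hinv g hg y hy).symm
  have h5 := h3.congr_of_eventuallyEq h4
  have h6 := (h0 z hz).unique h5
  have h7 := congrArg (fun L : ℂ →L[ℝ] ℝ => L w) h6
  simp only [ContinuousLinearMap.comp_apply, ContinuousLinearMap.coe_restrictScalars',
    ContinuousLinearMap.toSpanSingleton_apply, smul_eq_mul, mul_one_div] at h7
  exact h7.symm

theorem j10714_curv_AG {Γ : Subgroup SL2R} {m : ℂ → ℝ} (hm : ConfMetric Γ m) :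
    ContinuousOn (curv m) UH := by
  have hL : ContDiffOn ℝ ∞ (Lm m) UH := hm.smooth.log fun z hz => (hm.pos z hz).ne'
  have hL1 : ContDiffOn ℝ ∞ (fderiv ℝ (Lm m)) UH := hL.fderiv_of_isOpen isOpen_UH (by norm_num)
  have hd : ∀ v : ℂ, ContinuousOn (fun z => fderiv ℝ (fun w => fderiv ℝ (Lm m) w v) z v) UH := by
    intro v
    have h1 : ContDiffOn ℝ ∞ (fun w => fderiv ℝ (Lm m) w v) UH := hL1.clm_apply contDiffOn_const
    exact (h1.continuousOn_fderiv_of_isOpen isOpen_UH (by norm_num)).clm_apply continuousOn_const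
  unfold curv lap
  refine ContinuousOn.div ((hd 1).add (hd I)).neg (continuousOn_const.mul hm.smooth.continuousOn) ?_
  intro z hz
  have := hm.pos z hz
  positivity

theorem AG {Γ : Subgroup SL2R} (hΓ : SurfaceGroup Γ) {m : ℂ → ℝ} (hm : ConfMetric Γ m)
    (hK : ∀ g ∈ Γ, ∀ z ∈ UH, curv m (mob g z) = curv m z)
    {χ : ℂ → ℝ} (hχ : Cut Γ χ)
    {u : ℝ → ℂ → ℂ} {p : ℝ → ℂ → ℝ} {Φ Ψ : ℝ → ℂ → ℂ} (F : Flow Γ m u p Φ Ψ) {T : ℝ}
    (hret : ∀ z ∈ UH, Φ T z = z) :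
    ∫ z, χ z * (vort m (u 0) z * Afun m u Φ T z) * m z =
      ∫ t in (0 : ℝ)..T, ∫ z, χ z * (curv m z * (m z * ‖u t z‖ ^ 2 -
        fderiv ℝ (fun ζ => wfun m u p Φ t (Ψ t ζ)) z (u t z))) * m z := by
  have hχ0 : ∀ z, z ∉ UH → χ z = 0 := fun z hz =>
    image_eq_zero_of_notMem_tsupport fun h => hz (hχ.supp h)
  have hint : ∀ A B : ℂ → ℝ, (∀ z ∈ UH, A z = B z) →
      ∫ z, χ z * A z * m z = ∫ z, χ z * B z * m z := by
    intro A B hAB
    refine integral_congr_ae (Filter.Eventually.of_forall fun z => ?_)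
    by_cases hz : z ∈ UH
    · simp only [hAB z hz]
    · simp only [hχ0 z hz, zero_mul]
  have hu0 : ∀ t, ContDiffOn ℝ 1 (u t) UH := fun t => jc_slice F.sol.u_smooth t
  rw [A4 hΓ hm hχ (hu0 0) (F.sol.u_equiv 0) (Afun_contDiff hm F hret) (A2 hm F hret)]
  let G : ℝ → ℂ → ℝ := fun t z => -(curv m (Φ t z) * (m (Φ t z) *
          ((starRingEnd ℂ) (fderiv ℝ (Φ t) z (I * u 0 z)) * u t (Φ t z)).im))
  have h1 : ∫ z, χ z * fderiv ℝ (Afun m u Φ T) z (I * u 0 z) * m z =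
      ∫ z, χ z * (∫ t in (0 : ℝ)..T, G t z) * m z := by
    refine hint _ _ fun z hz => ?_
    rw [(A1 hm F hret hz).2, intervalIntegral.integral_neg]
  rw [h1]
  have hΦc : ContinuousOn (fun q : ℝ × ℂ => Φ q.1 q.2) (univ ×ˢ UH) := F.smooth.continuousOn
  have hΦm : MapsTo (fun q : ℝ × ℂ => Φ q.1 q.2) (univ ×ˢ UH) UH := fun q hq => F.maps q.1 hq.2
  have huΦ : ContinuousOn (fun q : ℝ × ℂ => u q.1 (Φ q.1 q.2)) (univ ×ˢ UH) := by
    have h2 : ContinuousOn (fun q : ℝ × ℂ => (q.1, Φ q.1 q.2)) (univ ×ˢ UH) :=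
      continuousOn_fst.prodMk hΦc
    exact F.sol.u_smooth.continuousOn.comp h2 fun q hq => ⟨mem_univ _, F.maps q.1 hq.2⟩
  have hu0c : ContinuousOn (fun q : ℝ × ℂ => I * u 0 q.2) (univ ×ˢ UH) :=
    continuousOn_const.mul ((hu0 0).continuousOn.comp continuousOn_snd fun q hq => hq.2)
  have hG : ContinuousOn (fun q : ℝ × ℂ => G q.1 q.2) (univ ×ˢ UH) := by
    refine ContinuousOn.neg ?_
    refine ContinuousOn.mul ((j10714_curv_AG hm).comp hΦc hΦm) ?_
    refine ContinuousOn.mul (hm.smooth.continuousOn.comp hΦc hΦm) ?_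
    refine Complex.continuous_im.comp_continuousOn (ContinuousOn.mul ?_ huΦ)
    exact Complex.continuous_conj.comp_continuousOn ((jc_fderiv F.smooth).clm_apply hu0c)
  rw [swap_int hχ.smooth.continuous hχ.compact hχ.supp hm.smooth.continuousOn hG T]
  refine intervalIntegral.integral_congr fun t _ => ?_
  show ∫ z, χ z * G t z * m z = ∫ z, χ z * (curv m z * (m z * ‖u t z‖ ^ 2 -
        fderiv ℝ (fun ζ => wfun m u p Φ t (Ψ t ζ)) z (u t z))) * m z
  let H : ℂ → ℝ := fun z => curv m z * (m z * ‖u t z‖ ^ 2 -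
        fderiv ℝ (fun ζ => wfun m u p Φ t (Ψ t ζ)) z (u t z))
  have h2 : ∫ z, χ z * G t z * m z = ∫ z, χ z * H (Φ t z) * m z := by
    refine hint _ _ fun z hz => ?_
    simp only [G, H]
    rw [dw_field hm F t hz]
    ring
  rw [h2]
  refine int_inv hΓ hm hχ (jc_slice F.smooth t) (F.ismooth t) (F.maps t) (F.imaps t) (F.left t)
    (F.right t) (F.comm t) (F.area t) (F := H) ?_ ?_
  · refine (j10714_curv_AG hm).mul (ContinuousOn.sub ?_ ?_)
    · exact hm.smooth.continuousOn.mul ((hu0 t).continuousOn.norm.pow 2)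
    · exact ((wt_contDiff hm F t).continuousOn_fderiv_of_isOpen isOpen_UH le_rfl).clm_apply
        (hu0 t).continuousOn
  · intro g hg z hz
    simp only [H]
    rw [hK g hg z hz, norm_inv hm (F.sol.u_equiv t) g hg z hz, F.sol.u_equiv t g hg z hz,
      j10714_fd_AG (wt_contDiff hm F t) (wt_inv hm F t) hg hz]

end Pool.Agent.Helper131.CG
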