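import Pool.Agent.Helper131.CG.Base
import Pool.Agent.Helper131.CG.L_ibp

namespace Pool.Agent.Helper131.CG

open Complex MeasureTheory Set Filter Topology
open scoped ContDiff

theorem nl_uc_null_lag {E' : Type*} [NormedAddCommGroup E'] {D : ℂ → E'} (hD : Continuous D)
    (hc : HasCompactSupport D) : UniformContinuous D :=
  hD.uniformContinuous_of_tendsto_cocompact hc.is_zero_at_infty

open scoped Convolution in
theorem nl_approx_null_lag {φ : ℂ → ℝ} (hφ : ContDiff ℝ 1 φ) (hc : HasCompactSupport φ) {ε δ : ℝ}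
    (hε : 0 < ε) (hδ : 0 < δ) : ∃ ψ : ℂ → ℝ, ContDiff ℝ 2 ψ ∧ HasCompactSupport ψ ∧
      tsupport ψ ⊆ Metric.cthickening δ (tsupport φ) ∧ ∀ z, ‖fderiv ℝ ψ z - fderiv ℝ φ z‖ ≤ ε := by
  have hD : Continuous (fderiv ℝ φ) := hφ.continuous_fderiv one_ne_zero
  have hDu : UniformContinuous (fderiv ℝ φ) := nl_uc_null_lag hD (hc.fderiv ℝ)
  obtain ⟨δ', hδ', hu⟩ := Metric.uniformContinuous_iff.1 hDu ε hε
  set r := min δ δ' with hr
  have hr0 : 0 < r := lt_min hδ hδ'
  let b : ContDiffBump (0 : ℂ) := ⟨r / 2, r, by positivity, by linarith⟩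
  have hconv : ∀ z, HasFDerivAt (b.normed volume ⋆[ContinuousLinearMap.lsmul ℝ ℝ, volume] φ)
      ((b.normed volume ⋆[ContinuousLinearMap.lsmul ℝ ℝ, volume] (fderiv ℝ φ)) z) z := by
    intro z
    have h1 := HasCompactSupport.hasFDerivAt_convolution_right (ContinuousLinearMap.lsmul ℝ ℝ) hc
      (b.continuous_normed.locallyIntegrable (μ := volume)) hφ z (f := b.normed volume) (μ := volume)
    have e : (b.normed volume ⋆[ContinuousLinearMap.lsmul ℝ ℝ, volume] (fderiv ℝ φ)) z =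
        (b.normed volume ⋆[ContinuousLinearMap.precompR ℂ (ContinuousLinearMap.lsmul ℝ ℝ), volume]
          fderiv ℝ φ) z := by
      rw [convolution_def, convolution_def]
      congr 1
    rw [e]
    exact h1
  refine ⟨b.normed volume ⋆[ContinuousLinearMap.lsmul ℝ ℝ, volume] φ, ?_, ?_, ?_, ?_⟩
  · exact b.hasCompactSupport_normed.contDiff_convolution_left _ b.contDiff_normed
      hφ.continuous.locallyIntegrable
  · exact HasCompactSupport.convolution _ b.hasCompactSupport_normed hc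
  · apply closure_minimal _ Metric.isClosed_cthickening
    intro x hx
    have h1 := support_convolution_subset_swap _ hx
    obtain ⟨y, hy, w, hw, rfl⟩ := Set.mem_add.1 h1
    rw [b.support_normed_eq] at hw
    apply Metric.mem_cthickening_of_dist_le _ y _ _ (subset_tsupport _ hy)
    have : dist w 0 < r := hw
    rw [dist_zero_right] at this
    rw [dist_eq_norm, add_sub_cancel_left]
    exact this.le.trans (min_le_left _ _)
  · intro z
    rw [(hconv z).fderiv, ← dist_eq_norm]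
    apply b.dist_normed_convolution_le hD.aestronglyMeasurable
    intro x hx
    exact (hu ((Metric.mem_ball.1 hx).trans_le (min_le_right _ _))).le

theorem nl_int_null_lag {a b : ℂ → ℝ} (ha : Continuous a) (hc : HasCompactSupport a) (hs : tsupport a ⊆ UH)
    (hb : ContinuousOn b UH) : Integrable (fun z => a z * b z) := by
  have h1 : IntegrableOn (fun z => a z * b z) (tsupport a) :=
    (ha.continuousOn.mul (hb.mono hs)).integrableOn_compact hc.isCompact
  rw [integrableOn_iff_integrable_of_support_subset] at h1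
  · exact h1
  · intro z hz
    apply subset_tsupport
    intro h
    apply hz
    simp only
    rw [h, zero_mul]

theorem nl_fderiv_null_lag {f : ℂ → ℝ} (hf : ContDiffOn ℝ 1 f UH) (w : ℂ) :
    ContinuousOn (fun z => fderiv ℝ f z w) UH := by
  have := hf.continuousOn_fderiv_of_isOpen isOpen_UH le_rfl
  exact this.clm_apply continuousOn_const

theorem null_lag2_null_lag {φ : ℂ → ℝ} (hφ : ContDiff ℝ 2 φ) (hc : HasCompactSupport φ)
    (hs : tsupport φ ⊆ UH) {f : ℂ → ℝ} (hf : ContDiffOn ℝ 1 f UH) :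
    ∫ z, (fderiv ℝ φ z 1 * fderiv ℝ f z I - fderiv ℝ φ z I * fderiv ℝ f z 1) = 0 := by
  have hφ' : ∀ w, ContDiff ℝ 1 (fun z => fderiv ℝ φ z w) := fun w =>
    (hφ.fderiv_right (by norm_num)).clm_apply contDiff_const
  have hc' : ∀ w, HasCompactSupport (fun z => fderiv ℝ φ z w) := fun w => hc.fderiv_apply ℝ w
  have hs' : ∀ w, tsupport (fun z => fderiv ℝ φ z w) ⊆ UH := fun w =>
    (tsupport_fderiv_apply_subset ℝ w).trans hs
  rw [integral_sub (nl_int_null_lag (hφ' 1).continuous (hc' 1) (hs' 1) (nl_fderiv_null_lag hf I))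
    (nl_int_null_lag (hφ' I).continuous (hc' I) (hs' I) (nl_fderiv_null_lag hf 1)),
    ibp (hφ' 1) (hc' 1) (hs' 1) hf I, ibp (hφ' I) (hc' I) (hs' I) hf 1, sub_eq_zero]
  congr 2
  funext z
  congr 1
  have hd : DifferentiableAt ℝ (fderiv ℝ φ) z :=
    (hφ.fderiv_right (m := 1) (by norm_num)).differentiable one_ne_zero z
  have h1 : ∀ v w, fderiv ℝ (fun z => fderiv ℝ φ z v) z w = fderiv ℝ (fderiv ℝ φ) z w v := by
    intro v w
    rw [fderiv_clm_apply hd (differentiableAt_const _)]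
    simp
  rw [h1, h1]
  exact (hφ.contDiffAt.isSymmSndFDerivAt (by simp)) I 1



/-- symmetry of mixed second derivatives, weak form for `C¹` functions -/
theorem null_lag {φ : ℂ → ℝ} (hφ : ContDiff ℝ 1 φ) (hc : HasCompactSupport φ)
    (hs : tsupport φ ⊆ UH) {f : ℂ → ℝ} (hf : ContDiffOn ℝ 1 f UH) :
    ∫ z, (fderiv ℝ φ z 1 * fderiv ℝ f z I - fderiv ℝ φ z I * fderiv ℝ f z 1) = 0 := by
  obtain ⟨δ, hδ, hδs⟩ : ∃ δ : ℝ, 0 < δ ∧ Metric.cthickening δ (tsupport φ) ⊆ UH :=
    hc.isCompact.exists_cthickening_subset_open isOpen_UH hs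
  have hK : IsCompact (Metric.cthickening δ (tsupport φ)) := hc.isCompact.cthickening
  set K := Metric.cthickening δ (tsupport φ) with hKdef
  have hφK : tsupport φ ⊆ K := Metric.self_subset_cthickening _
  set M : ℝ := ∫ z in K, (‖fderiv ℝ f z I‖ + ‖fderiv ℝ f z 1‖) with hM
  have hMi : IntegrableOn (fun z => ‖fderiv ℝ f z I‖ + ‖fderiv ℝ f z 1‖) K :=
    (((nl_fderiv_null_lag hf I).mono hδs).norm.add ((nl_fderiv_null_lag hf 1).mono hδs).norm).integrableOn_compact hK
  have hM0 : 0 ≤ M := by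
    apply integral_nonneg
    intro z
    positivity
  have hφ' : ∀ w, Continuous (fun z => fderiv ℝ φ z w) := fun w =>
    (hφ.continuous_fderiv one_ne_zero).clm_apply continuous_const
  have hφi : Integrable (fun z => (fderiv ℝ φ z 1 * fderiv ℝ f z I - fderiv ℝ φ z I * fderiv ℝ f z 1)) :=
    (nl_int_null_lag (hφ' 1) (hc.fderiv_apply ℝ 1) ((tsupport_fderiv_apply_subset ℝ 1).trans hs)
      (nl_fderiv_null_lag hf I)).sub (nl_int_null_lag (hφ' I) (hc.fderiv_apply ℝ I)
      ((tsupport_fderiv_apply_subset ℝ I).trans hs) (nl_fderiv_null_lag hf 1))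
  have key : ∀ ε : ℝ, 0 < ε →
      ‖∫ z, (fderiv ℝ φ z 1 * fderiv ℝ f z I - fderiv ℝ φ z I * fderiv ℝ f z 1)‖ ≤ ε * M := by
    intro ε hε
    obtain ⟨ψ, hψ, hψc, hψs, hψd⟩ := nl_approx_null_lag hφ hc hε hδ
    have hψ' : ∀ w, Continuous (fun z => fderiv ℝ ψ z w) := fun w =>
      (hψ.continuous_fderiv two_ne_zero).clm_apply continuous_const
    have hψU : tsupport ψ ⊆ UH := hψs.trans hδs
    have h0 := null_lag2_null_lag hψ hψc hψU hf
    have hψi : Integrable (fun z => (fderiv ℝ ψ z 1 * fderiv ℝ f z I - fderiv ℝ ψ z I * fderiv ℝ f z 1)) :=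
      (nl_int_null_lag (hψ' 1) (hψc.fderiv_apply ℝ 1) ((tsupport_fderiv_apply_subset ℝ 1).trans hψU)
        (nl_fderiv_null_lag hf I)).sub (nl_int_null_lag (hψ' I) (hψc.fderiv_apply ℝ I)
        ((tsupport_fderiv_apply_subset ℝ I).trans hψU) (nl_fderiv_null_lag hf 1))
    have h1 : ∫ z, (fderiv ℝ φ z 1 * fderiv ℝ f z I - fderiv ℝ φ z I * fderiv ℝ f z 1) =
        ∫ z, ((fderiv ℝ φ z 1 * fderiv ℝ f z I - fderiv ℝ φ z I * fderiv ℝ f z 1) -
          (fderiv ℝ ψ z 1 * fderiv ℝ f z I - fderiv ℝ ψ z I * fderiv ℝ f z 1)) := by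
      rw [integral_sub hφi hψi, h0, sub_zero]
    have h2 : ∫ z, ((fderiv ℝ φ z 1 * fderiv ℝ f z I - fderiv ℝ φ z I * fderiv ℝ f z 1) -
          (fderiv ℝ ψ z 1 * fderiv ℝ f z I - fderiv ℝ ψ z I * fderiv ℝ f z 1)) =
        ∫ z in K, ((fderiv ℝ φ z 1 * fderiv ℝ f z I - fderiv ℝ φ z I * fderiv ℝ f z 1) -
          (fderiv ℝ ψ z 1 * fderiv ℝ f z I - fderiv ℝ ψ z I * fderiv ℝ f z 1)) := by
      rw [setIntegral_eq_integral_of_forall_compl_eq_zero]
      intro z hz
      have e1 : fderiv ℝ φ z = 0 := by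
        by_contra h
        exact hz (hφK (tsupport_fderiv_subset ℝ (subset_tsupport _ h)))
      have e2 : fderiv ℝ ψ z = 0 := by
        by_contra h
        exact hz (hψs (tsupport_fderiv_subset ℝ (subset_tsupport _ h)))
      rw [e1, e2]
      simp
    rw [h1, h2]
    calc _ ≤ ∫ z in K, ε * (‖fderiv ℝ f z I‖ + ‖fderiv ℝ f z 1‖) := by
          apply norm_integral_le_of_norm_le (hMi.const_mul ε)
          apply Eventually.of_forall
          intro z
          have e : (fderiv ℝ φ z 1 * fderiv ℝ f z I - fderiv ℝ φ z I * fderiv ℝ f z 1) -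
            (fderiv ℝ ψ z 1 * fderiv ℝ f z I - fderiv ℝ ψ z I * fderiv ℝ f z 1) =
            -((fderiv ℝ ψ z - fderiv ℝ φ z) 1) * fderiv ℝ f z I +
              ((fderiv ℝ ψ z - fderiv ℝ φ z) I) * fderiv ℝ f z 1 := by
            simp only [ContinuousLinearMap.sub_apply]
            ring
          rw [e]
          have b1 : ‖(fderiv ℝ ψ z - fderiv ℝ φ z) 1‖ ≤ ε := by
            refine (ContinuousLinearMap.le_opNorm _ _).trans ?_
            simpa using hψd z
          have b2 : ‖(fderiv ℝ ψ z - fderiv ℝ φ z) I‖ ≤ ε := by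
            refine (ContinuousLinearMap.le_opNorm _ _).trans ?_
            simpa using hψd z
          calc _ ≤ ‖-((fderiv ℝ ψ z - fderiv ℝ φ z) 1) * fderiv ℝ f z I‖ +
                ‖((fderiv ℝ ψ z - fderiv ℝ φ z) I) * fderiv ℝ f z 1‖ := norm_add_le _ _
            _ = ‖(fderiv ℝ ψ z - fderiv ℝ φ z) 1‖ * ‖fderiv ℝ f z I‖ +
                ‖(fderiv ℝ ψ z - fderiv ℝ φ z) I‖ * ‖fderiv ℝ f z 1‖ := by
                  rw [norm_mul, norm_mul, norm_neg]
            _ ≤ ε * ‖fderiv ℝ f z I‖ + ε * ‖fderiv ℝ f z 1‖ := by gcongr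
            _ = _ := by ring
      _ = ε * M := by rw [integral_const_mul]
  have h0 : ‖∫ z, (fderiv ℝ φ z 1 * fderiv ℝ f z I - fderiv ℝ φ z I * fderiv ℝ f z 1)‖ ≤ 0 := by
    apply le_of_forall_pos_le_add
    intro e he
    have := key (e / (M + 1)) (by positivity)
    refine this.trans ?_
    rw [zero_add, div_mul_eq_mul_div, div_le_iff₀ (by positivity)]
    nlinarith
  exact norm_le_zero_iff.1 h0

end Pool.Agent.Helper131.CG
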