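import Pool.Agent.Helper131.CG.Base
import Pool.Agent.Helper131.CG.L_ibp
import Pool.Agent.Helper131.CG.L_null_lag

namespace Pool.Agent.Helper131.CG

open Complex MeasureTheory Set Filter Topology
open scoped ContDiff

theorem b1_lin_bochner1 {E : Type*} [NormedAddCommGroup E] [NormedSpace ℝ E] (T : ℂ →L[ℝ] E) (w : ℂ) :
    T w = w.re • T 1 + w.im • T I := by
  conv_lhs => rw [← Complex.re_add_im w]
  have h1 : (w.re : ℂ) = w.re • (1 : ℂ) := by simp
  have h2 : (w.im : ℂ) * I = w.im • I := by simp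
  rw [h1, h2, map_add, map_smul, map_smul]

theorem b1_contDiff_bochner1 {φ f : ℂ → ℝ} (hφ : ContDiff ℝ 1 φ) (hs : tsupport φ ⊆ UH)
    (hf : ContDiffOn ℝ 1 f UH) : ContDiff ℝ 1 (fun z => φ z * f z) := by
  rw [contDiff_iff_contDiffAt]
  intro z
  by_cases hz : z ∈ UH
  · exact hφ.contDiffAt.mul (hf.contDiffAt (isOpen_UH.mem_nhds hz))
  · have hz' : z ∉ tsupport φ := fun h => hz (hs h)
    have h0 : (fun z => φ z * f z) =ᶠ[𝓝 z] fun _ => 0 := by
      filter_upwards [notMem_tsupport_iff_eventuallyEq.1 hz'] with y hy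
      rw [hy]; simp
    exact contDiffAt_const.congr_of_eventuallyEq h0

theorem b1_tsupport_bochner1 {φ f : ℂ → ℝ} (hs : tsupport φ ⊆ UH) : tsupport (fun z => φ z * f z) ⊆ UH :=
  (tsupport_mul_subset_left).trans hs

theorem b1_int_bochner1 {K : Set ℂ} (hK : IsCompact K) (hKU : K ⊆ UH) {F : ℂ → ℝ}
    (hF : ContinuousOn F UH) (h0 : ∀ z, z ∉ K → F z = 0) : Integrable F := by
  have hc : Continuous F := by
    rw [continuous_iff_continuousAt]
    intro z
    by_cases hz : z ∈ UH
    · exact hF.continuousAt (isOpen_UH.mem_nhds hz)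
    · have hz' : Kᶜ ∈ 𝓝 z := hK.isClosed.isOpen_compl.mem_nhds (fun h => hz (hKU h))
      have : F =ᶠ[𝓝 z] fun _ => 0 := by
        filter_upwards [hz'] with y hy
        exact h0 y hy
      exact continuousAt_const.congr this.symm
  exact hc.integrable_of_hasCompactSupport (HasCompactSupport.intro hK h0)

theorem b1_fd_bochner1 {f : ℂ → ℝ} (hf : ContDiffOn ℝ 1 f UH) (w : ℂ) :
    ContinuousOn (fun z => fderiv ℝ f z w) UH :=
  (hf.continuousOn_fderiv_of_isOpen isOpen_UH le_rfl).clm_apply continuousOn_const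

theorem b1_fdc_bochner1 {f : ℂ → ℂ} (hf : ContDiffOn ℝ 1 f UH) (w : ℂ) :
    ContinuousOn (fun z => fderiv ℝ f z w) UH :=
  (hf.continuousOn_fderiv_of_isOpen isOpen_UH le_rfl).clm_apply continuousOn_const

theorem b1_lin3_bochner1 {A B C : ℂ → ℝ} (iA : Integrable A) (iB : Integrable B) (iC : Integrable C) :
    ∫ z, (A z + (1 / 2) * B z + (1 / 2) * C z) =
      (∫ z, A z) + (1 / 2) * (∫ z, B z) + (1 / 2) * ∫ z, C z := by
  have iB' : Integrable (fun z => (1 / 2) * B z) := iB.const_mul _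
  have iC' : Integrable (fun z => (1 / 2) * C z) := iC.const_mul _
  have iAB : Integrable (fun z => A z + (1 / 2) * B z) := iA.add iB'
  rw [integral_add iAB iC', integral_add iA iB', integral_const_mul, integral_const_mul]

theorem b1_lin4_bochner1 {A B C D : ℂ → ℝ} (iA : Integrable A) (iB : Integrable B) (iC : Integrable C)
    (iD : Integrable D) :
    ∫ z, (1 / 2) * (A z - B z - (C z + D z)) =
      (1 / 2) * ((∫ z, A z) - (∫ z, B z) - ((∫ z, C z) + ∫ z, D z)) := by
  have iAB : Integrable (fun z => A z - B z) := iA.sub iB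
  have iCD : Integrable (fun z => C z + D z) := iC.add iD
  rw [integral_const_mul, integral_sub iAB iCD, integral_sub iA iB, integral_add iC iD]

theorem b1_alg_bochner1 (c m a b ax ay bx by' Lx Ly Lxx Lyy cx cy tx ty : ℝ)
    (htx : tx = m * cx + c * (m * Lx)) (hty : ty = m * cy + c * (m * Ly))
    (hd : ax + by' + (a * Lx + b * Ly) = 0) :
    c * (((ax - by') ^ 2 + (bx + ay) ^ 2) / 4 - (bx - ay + (Lx * b - Ly * a)) ^ 2 / 4) * m
      + (1 / 2) * (c * (-(1 / 2) * (Lxx + Lyy) * (a ^ 2 + b ^ 2)) * m)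
      + (1 / 2) * (((a * ax + b * ay + (Lx * (a ^ 2 - b ^ 2) + 2 * a * b * Ly) / 2) * cx
        + (a * bx + b * by' + (2 * a * b * Lx - Ly * (a ^ 2 - b ^ 2)) / 2) * cy) * m) =
    (1 / 2) * (((tx * b + c * m * bx) * ay - (ty * b + c * m * by') * ax)
      - ((tx * a + c * m * ax) * by' - (ty * a + c * m * ay) * bx)
      - (c * m * (((a * ax + b * bx) * Lx + (1 / 2) * (a ^ 2 + b ^ 2) * Lxx)
          + ((a * ay + b * by') * Ly + (1 / 2) * (a ^ 2 + b ^ 2) * Lyy))
        + ((1 / 2) * (a ^ 2 + b ^ 2) * Lx * tx + (1 / 2) * (a ^ 2 + b ^ 2) * Ly * ty))) := by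
  have h : by' = -ax - (a * Lx + b * Ly) := by linarith
  subst h
  subst htx hty
  ring

/-- localised Bochner identity for a divergence free `C¹` vector field -/
theorem bochner1 {Γ : Subgroup SL2R} {m : ℂ → ℝ} (hm : ConfMetric Γ m)
    {χ : ℂ → ℝ} (hχ : ContDiff ℝ 1 χ) (hc : HasCompactSupport χ) (hs : tsupport χ ⊆ UH)
    {v : ℂ → ℂ} (hv : ContDiffOn ℝ 1 v UH) (hdiv : ∀ z ∈ UH, dvg m v z = 0) :
    ∫ z, χ z * (‖dbar v z‖ ^ 2 - vort m v z ^ 2 / 4) * m z =
      - (1 / 2) * (∫ z, χ z * (curv m z * (m z * ‖v z‖ ^ 2)) * m z)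
      - (1 / 2) * (∫ z, fderiv ℝ χ z (cov m v v z) * m z) := by
  have hL : ContDiffOn ℝ ∞ (Lm m) UH := hm.smooth.log (fun z hz => (hm.pos z hz).ne')
  have hm1 : ContDiffOn ℝ 1 m UH := hm.smooth.of_le (by exact_mod_cast le_top)
  have hL1 : ContDiffOn ℝ 1 (Lm m) UH := hL.of_le (by exact_mod_cast le_top)
  have hfL : ContDiffOn ℝ 1 (fderiv ℝ (Lm m)) UH :=
    hL.fderiv_of_isOpen isOpen_UH (by
      have : (((1 : ℕ∞) + 1 : ℕ∞) : WithTop ℕ∞) ≤ ((⊤ : ℕ∞) : WithTop ℕ∞) :=
        WithTop.coe_le_coe.2 le_top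
      exact this)
  have hLx : ContDiffOn ℝ 1 (fun z => fderiv ℝ (Lm m) z 1) UH := hfL.clm_apply contDiffOn_const
  have hLy : ContDiffOn ℝ 1 (fun z => fderiv ℝ (Lm m) z I) UH := hfL.clm_apply contDiffOn_const
  have ha : ContDiffOn ℝ 1 (fun z => (v z).re) UH := Complex.reCLM.contDiff.comp_contDiffOn hv
  have hb : ContDiffOn ℝ 1 (fun z => (v z).im) UH := Complex.imCLM.contDiff.comp_contDiffOn hv
  have hP : ContDiffOn ℝ 1 (fun z => (1 / 2) * ((v z).re ^ 2 + (v z).im ^ 2) *
      fderiv ℝ (Lm m) z 1) UH := (contDiffOn_const.mul ((ha.pow 2).add (hb.pow 2))).mul hLx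
  have hQ : ContDiffOn ℝ 1 (fun z => (1 / 2) * ((v z).re ^ 2 + (v z).im ^ 2) *
      fderiv ℝ (Lm m) z I) UH := (contDiffOn_const.mul ((ha.pow 2).add (hb.pow 2))).mul hLy
  obtain ⟨V, hVdef⟩ : ∃ V : ℂ → ℂ, V = fun z =>
      (((1 / 2) * ((v z).re ^ 2 + (v z).im ^ 2) * fderiv ℝ (Lm m) z 1 : ℝ) : ℂ) +
      (((1 / 2) * ((v z).re ^ 2 + (v z).im ^ 2) * fderiv ℝ (Lm m) z I : ℝ) : ℂ) * I := ⟨_, rfl⟩
  have hV : ContDiffOn ℝ 1 V UH := by
    rw [hVdef]
    exact (Complex.ofRealCLM.contDiff.comp_contDiffOn hP).add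
      ((Complex.ofRealCLM.contDiff.comp_contDiffOn hQ).mul contDiffOn_const)
  have hVre : ∀ z, (V z).re = (1 / 2) * ((v z).re ^ 2 + (v z).im ^ 2) * fderiv ℝ (Lm m) z 1 := by
    intro z; rw [hVdef]
    simp only [Complex.add_re, Complex.mul_re, Complex.ofReal_re, Complex.ofReal_im,
      Complex.I_re, Complex.I_im]
    ring
  have hVim : ∀ z, (V z).im = (1 / 2) * ((v z).re ^ 2 + (v z).im ^ 2) * fderiv ℝ (Lm m) z I := by
    intro z; rw [hVdef]
    simp only [Complex.add_im, Complex.mul_im, Complex.ofReal_re, Complex.ofReal_im,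
      Complex.I_re, Complex.I_im]
    ring
  have hdV : ∀ z ∈ UH, DifferentiableAt ℝ V z := fun z hz =>
    (hV.contDiffAt (isOpen_UH.mem_nhds hz)).differentiableAt one_ne_zero
  have hdv : ∀ z ∈ UH, DifferentiableAt ℝ v z := fun z hz =>
    (hv.contDiffAt (isOpen_UH.mem_nhds hz)).differentiableAt one_ne_zero
  -- the three null integrals
  have hθ : ContDiff ℝ 1 (fun z => χ z * m z) := b1_contDiff_bochner1 hχ hs hm1
  have hθc : HasCompactSupport (fun z => χ z * m z) := hc.mul_right
  have hθs : tsupport (fun z => χ z * m z) ⊆ UH := b1_tsupport_bochner1 hs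
  have N1 := null_lag (b1_contDiff_bochner1 hθ hθs hb) hθc.mul_right (b1_tsupport_bochner1 hθs) ha
  have N2 := null_lag (b1_contDiff_bochner1 hθ hθs ha) hθc.mul_right (b1_tsupport_bochner1 hθs) hb
  have N3 := ibp_div hθ hθc hθs hV
  -- vanishing outside the support
  have z0 : ∀ z, z ∉ tsupport χ → χ z = 0 := fun z hz => image_eq_zero_of_notMem_tsupport hz
  have zf : ∀ (f : ℂ → ℝ), ∀ z, z ∉ tsupport χ → fderiv ℝ (fun z => χ z * f z) z = 0 := by
    intro f z hz
    have h0 : (fun z => χ z * f z) =ᶠ[𝓝 z] fun _ => 0 := by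
      filter_upwards [notMem_tsupport_iff_eventuallyEq.1 hz] with y hy
      rw [hy]; simp
    rw [h0.fderiv_eq]; simp
  have zf0 : ∀ z, z ∉ tsupport χ → fderiv ℝ χ z = 0 := by
    intro z hz
    rw [(notMem_tsupport_iff_eventuallyEq.1 hz).fderiv_eq]; simp
  have zf2 : ∀ (f g : ℂ → ℝ), ∀ z, z ∉ tsupport χ →
      fderiv ℝ (fun z => χ z * f z * g z) z = 0 := by
    intro f g z hz
    have := zf (fun z => f z * g z) z hz
    simpa [mul_assoc] using this
  -- pointwise identity
  have key : ∀ z, χ z * (‖dbar v z‖ ^ 2 - vort m v z ^ 2 / 4) * m z +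
      (1 / 2) * (χ z * (curv m z * (m z * ‖v z‖ ^ 2)) * m z) +
      (1 / 2) * (fderiv ℝ χ z (cov m v v z) * m z) =
      (1 / 2) * ((fderiv ℝ (fun z => χ z * m z * (v z).im) z 1 * fderiv ℝ (fun z => (v z).re) z I -
        fderiv ℝ (fun z => χ z * m z * (v z).im) z I * fderiv ℝ (fun z => (v z).re) z 1) -
        (fderiv ℝ (fun z => χ z * m z * (v z).re) z 1 * fderiv ℝ (fun z => (v z).im) z I -
        fderiv ℝ (fun z => χ z * m z * (v z).re) z I * fderiv ℝ (fun z => (v z).im) z 1) -
        (χ z * m z * ((fderiv ℝ V z 1).re + (fderiv ℝ V z I).im) +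
          fderiv ℝ (fun z => χ z * m z) z (V z))) := by
    intro z
    by_cases hz : z ∈ UH
    · have hU := isOpen_UH.mem_nhds hz
      have hmz : m z ≠ 0 := (hm.pos z hz).ne'
      have dχ : DifferentiableAt ℝ χ z := (hχ.differentiable one_ne_zero) z
      have dm : DifferentiableAt ℝ m z := (hm1.contDiffAt hU).differentiableAt one_ne_zero
      have dθ : DifferentiableAt ℝ (fun z => χ z * m z) z := dχ.mul dm
      have da : DifferentiableAt ℝ (fun z => (v z).re) z :=
        (ha.contDiffAt hU).differentiableAt one_ne_zero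
      have db : DifferentiableAt ℝ (fun z => (v z).im) z :=
        (hb.contDiffAt hU).differentiableAt one_ne_zero
      have dLx : DifferentiableAt ℝ (fun z => fderiv ℝ (Lm m) z 1) z :=
        (hLx.contDiffAt hU).differentiableAt one_ne_zero
      have dLy : DifferentiableAt ℝ (fun z => fderiv ℝ (Lm m) z I) z :=
        (hLy.contDiffAt hU).differentiableAt one_ne_zero
      have fa : ∀ w, fderiv ℝ (fun z => (v z).re) z w = (fderiv ℝ v z w).re := by
        intro w
        have := (Complex.reCLM.hasFDerivAt.comp z (hdv z hz).hasFDerivAt).fderiv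
        have h2 : fderiv ℝ (fun z => (v z).re) z = Complex.reCLM.comp (fderiv ℝ v z) := this
        rw [h2]; rfl
      have fb : ∀ w, fderiv ℝ (fun z => (v z).im) z w = (fderiv ℝ v z w).im := by
        intro w
        have := (Complex.imCLM.hasFDerivAt.comp z (hdv z hz).hasFDerivAt).fderiv
        have h2 : fderiv ℝ (fun z => (v z).im) z = Complex.imCLM.comp (fderiv ℝ v z) := this
        rw [h2]; rfl
      have fVre : ∀ w, (fderiv ℝ V z w).re = fderiv ℝ (fun z => (1 / 2) * ((v z).re ^ 2 +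
          (v z).im ^ 2) * fderiv ℝ (Lm m) z 1) z w := by
        intro w
        have := (Complex.reCLM.hasFDerivAt.comp z (hdV z hz).hasFDerivAt).fderiv
        have h2 : fderiv ℝ (fun z => (V z).re) z = Complex.reCLM.comp (fderiv ℝ V z) := this
        have h3 : (fun z => (V z).re) = fun z => (1 / 2) * ((v z).re ^ 2 +
          (v z).im ^ 2) * fderiv ℝ (Lm m) z 1 := funext hVre
        rw [h3] at h2
        rw [h2]; rfl
      have fVim : ∀ w, (fderiv ℝ V z w).im = fderiv ℝ (fun z => (1 / 2) * ((v z).re ^ 2 +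
          (v z).im ^ 2) * fderiv ℝ (Lm m) z I) z w := by
        intro w
        have := (Complex.imCLM.hasFDerivAt.comp z (hdV z hz).hasFDerivAt).fderiv
        have h2 : fderiv ℝ (fun z => (V z).im) z = Complex.imCLM.comp (fderiv ℝ V z) := this
        have h3 : (fun z => (V z).im) = fun z => (1 / 2) * ((v z).re ^ 2 +
          (v z).im ^ 2) * fderiv ℝ (Lm m) z I := funext hVim
        rw [h3] at h2
        rw [h2]; rfl
      have fN : ∀ w, fderiv ℝ (fun z => (1 / 2) * ((v z).re ^ 2 + (v z).im ^ 2)) z w =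
          (v z).re * (fderiv ℝ v z w).re + (v z).im * (fderiv ℝ v z w).im := by
        intro w
        have h1 := (((da.hasFDerivAt.pow 2).add (db.hasFDerivAt.pow 2)).const_mul (1 / 2)).fderiv
        have h2 : fderiv ℝ (fun z => (1 / 2) * ((v z).re ^ 2 + (v z).im ^ 2)) z = _ := h1
        rw [h2]
        simp only [smul_apply, add_apply, fa, fb,
          smul_eq_mul, nsmul_eq_mul]
        push_cast
        ring
      have dN : DifferentiableAt ℝ (fun z => (1 / 2) * ((v z).re ^ 2 + (v z).im ^ 2)) z :=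
        ((da.pow 2).add (db.pow 2)).const_mul _
      have fL : ∀ w, fderiv ℝ m z w = m z * fderiv ℝ (Lm m) z w := by
        intro w
        have h1 : fderiv ℝ (Lm m) z = (m z)⁻¹ • fderiv ℝ m z := fderiv.log dm hmz
        rw [h1, smul_apply, smul_eq_mul, ← mul_assoc, mul_inv_cancel₀ hmz,
          one_mul]
      have fθ : ∀ w, fderiv ℝ (fun z => χ z * m z) z w =
          m z * fderiv ℝ χ z w + χ z * (m z * fderiv ℝ (Lm m) z w) := by
        intro w
        rw [fderiv_fun_mul dχ dm]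
        simp only [add_apply, smul_apply, smul_eq_mul, fL]
        ring
      have f1 : ∀ w, fderiv ℝ (fun z => χ z * m z * (v z).im) z w =
          fderiv ℝ (fun z => χ z * m z) z w * (v z).im + χ z * m z * (fderiv ℝ v z w).im := by
        intro w
        rw [fderiv_fun_mul dθ db]
        simp only [add_apply, smul_apply, smul_eq_mul, fb]
        ring
      have f2 : ∀ w, fderiv ℝ (fun z => χ z * m z * (v z).re) z w =
          fderiv ℝ (fun z => χ z * m z) z w * (v z).re + χ z * m z * (fderiv ℝ v z w).re := by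
        intro w
        rw [fderiv_fun_mul dθ da]
        simp only [add_apply, smul_apply, smul_eq_mul, fa]
        ring
      have f3 : (fderiv ℝ V z 1).re = ((v z).re * (fderiv ℝ v z 1).re +
          (v z).im * (fderiv ℝ v z 1).im) * fderiv ℝ (Lm m) z 1 +
          (1 / 2) * ((v z).re ^ 2 + (v z).im ^ 2) *
            fderiv ℝ (fun w => fderiv ℝ (Lm m) w 1) z 1 := by
        rw [fVre, fderiv_fun_mul dN dLx]
        simp only [add_apply, smul_apply, smul_eq_mul, fN]
        ring
      have f4 : (fderiv ℝ V z I).im = ((v z).re * (fderiv ℝ v z I).re +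
          (v z).im * (fderiv ℝ v z I).im) * fderiv ℝ (Lm m) z I +
          (1 / 2) * ((v z).re ^ 2 + (v z).im ^ 2) *
            fderiv ℝ (fun w => fderiv ℝ (Lm m) w I) z I := by
        rw [fVim, fderiv_fun_mul dN dLy]
        simp only [add_apply, smul_apply, smul_eq_mul, fN]
        ring
      have hd := hdiv z hz
      unfold dvg at hd
      rw [b1_lin_bochner1 (fderiv ℝ (Lm m) z) (v z)] at hd
      simp only [smul_eq_mul] at hd
      have g1 : ‖dbar v z‖ ^ 2 = (((fderiv ℝ v z 1).re - (fderiv ℝ v z I).im) ^ 2 +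
          ((fderiv ℝ v z 1).im + (fderiv ℝ v z I).re) ^ 2) / 4 := by
        rw [Complex.sq_norm, Complex.normSq_apply]
        have hre : (dbar v z).re = ((fderiv ℝ v z 1).re - (fderiv ℝ v z I).im) / 2 := by
          simp [dbar]
          ring
        have him : (dbar v z).im = ((fderiv ℝ v z 1).im + (fderiv ℝ v z I).re) / 2 := by
          simp [dbar]
        rw [hre, him]; ring
      have hpre : (pz m z).re = fderiv ℝ (Lm m) z 1 / 2 := by simp [pz]
      have hpim : (pz m z).im = - fderiv ℝ (Lm m) z I / 2 := by simp [pz]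
      have g2 : vort m v z = (fderiv ℝ v z 1).im - (fderiv ℝ v z I).re +
          (fderiv ℝ (Lm m) z 1 * (v z).im - fderiv ℝ (Lm m) z I * (v z).re) := by
        unfold vort
        rw [Complex.mul_im, hpre, hpim]
        ring
      have g3 : curv m z * (m z * ‖v z‖ ^ 2) = -(1 / 2) *
          (fderiv ℝ (fun w => fderiv ℝ (Lm m) w 1) z 1 +
            fderiv ℝ (fun w => fderiv ℝ (Lm m) w I) z I) * ((v z).re ^ 2 + (v z).im ^ 2) := by
        unfold curv lap
        rw [Complex.sq_norm, Complex.normSq_apply]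
        field_simp
      have g4 : (cov m v v z).re = (v z).re * (fderiv ℝ v z 1).re + (v z).im * (fderiv ℝ v z I).re
          + (fderiv ℝ (Lm m) z 1 * ((v z).re ^ 2 - (v z).im ^ 2) + 2 * (v z).re * (v z).im *
            fderiv ℝ (Lm m) z I) / 2 := by
        unfold cov
        rw [b1_lin_bochner1 (fderiv ℝ v z) (v z)]
        simp only [Complex.add_re, Complex.mul_re, Complex.mul_im, Complex.real_smul,
          Complex.ofReal_re, Complex.ofReal_im, hpre, hpim]
        ring
      have g5 : (cov m v v z).im = (v z).re * (fderiv ℝ v z 1).im + (v z).im * (fderiv ℝ v z I).im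
          + (2 * (v z).re * (v z).im * fderiv ℝ (Lm m) z 1 -
            fderiv ℝ (Lm m) z I * ((v z).re ^ 2 - (v z).im ^ 2)) / 2 := by
        unfold cov
        rw [b1_lin_bochner1 (fderiv ℝ v z) (v z)]
        simp only [Complex.add_im, Complex.mul_re, Complex.mul_im, Complex.real_smul,
          Complex.ofReal_re, Complex.ofReal_im, hpre, hpim]
        ring
      have hA := b1_alg_bochner1 (χ z) (m z) (v z).re (v z).im (fderiv ℝ v z 1).re (fderiv ℝ v z I).re
        (fderiv ℝ v z 1).im (fderiv ℝ v z I).im (fderiv ℝ (Lm m) z 1) (fderiv ℝ (Lm m) z I)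
        (fderiv ℝ (fun w => fderiv ℝ (Lm m) w 1) z 1) (fderiv ℝ (fun w => fderiv ℝ (Lm m) w I) z I)
        (fderiv ℝ χ z 1) (fderiv ℝ χ z I) (fderiv ℝ (fun z => χ z * m z) z 1)
        (fderiv ℝ (fun z => χ z * m z) z I) (fθ 1) (fθ I) hd
      rw [b1_lin_bochner1 (fderiv ℝ χ z) (cov m v v z), b1_lin_bochner1 (fderiv ℝ (fun z => χ z * m z) z) (V z),
        g1, g2, g3, g4, g5, f1, f1, f2, f2, f3, f4, hVre, hVim, fa, fa, fb, fb]
      simp only [smul_eq_mul]
      exact hA
    · have hz' : z ∉ tsupport χ := fun h => hz (hs h)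
      rw [zf2 m (fun z => (v z).im) z hz', zf2 m (fun z => (v z).re) z hz', zf m z hz', zf0 z hz',
        z0 z hz']
      simp
  -- continuity
  have cχ : ContinuousOn χ UH := hχ.continuous.continuousOn
  have cm : ContinuousOn m UH := hm1.continuousOn
  have cv : ContinuousOn v UH := hv.continuousOn
  have cv1 : ContinuousOn (fun z => fderiv ℝ v z 1) UH := b1_fdc_bochner1 hv 1
  have cvI : ContinuousOn (fun z => fderiv ℝ v z I) UH := b1_fdc_bochner1 hv I
  have cre : ∀ {f : ℂ → ℂ}, ContinuousOn f UH → ContinuousOn (fun z => (f z).re) UH :=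
    fun hf => Complex.continuous_re.comp_continuousOn hf
  have cim : ∀ {f : ℂ → ℂ}, ContinuousOn f UH → ContinuousOn (fun z => (f z).im) UH :=
    fun hf => Complex.continuous_im.comp_continuousOn hf
  have cof : ∀ {f : ℂ → ℝ}, ContinuousOn f UH → ContinuousOn (fun z => ((f z : ℝ) : ℂ)) UH :=
    fun hf => Complex.continuous_ofReal.comp_continuousOn hf
  have cdbar : ContinuousOn (fun z => dbar v z) UH :=
    (cv1.add (continuousOn_const.mul cvI)).div_const 2
  have cpz : ContinuousOn (fun z => pz m z) UH :=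
    ((cof hLx.continuousOn).sub ((cof hLy.continuousOn).mul continuousOn_const)).div_const 2
  have cvort : ContinuousOn (fun z => vort m v z) UH :=
    ((cim cv1).sub (cre cvI)).add (continuousOn_const.mul (cim (cpz.mul cv)))
  have ccurv : ContinuousOn (fun z => curv m z) UH :=
    ((b1_fd_bochner1 hLx 1).add (b1_fd_bochner1 hLy I)).neg.div (continuousOn_const.mul cm)
      (fun z hz => mul_ne_zero two_ne_zero (hm.pos z hz).ne')
  have ccov : ContinuousOn (fun z => cov m v v z) UH :=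
    ((hv.continuousOn_fderiv_of_isOpen isOpen_UH le_rfl).clm_apply cv).add ((cpz.mul cv).mul cv)
  have hK : IsCompact (tsupport χ) := hc
  have iA : Integrable (fun z => χ z * (‖dbar v z‖ ^ 2 - vort m v z ^ 2 / 4) * m z) :=
    b1_int_bochner1 hK hs ((cχ.mul ((cdbar.norm.pow 2).sub ((cvort.pow 2).div_const 4))).mul cm)
      (fun z hz => by rw [z0 z hz]; simp)
  have iB : Integrable (fun z => χ z * (curv m z * (m z * ‖v z‖ ^ 2)) * m z) :=
    b1_int_bochner1 hK hs ((cχ.mul (ccurv.mul (cm.mul (cv.norm.pow 2)))).mul cm)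
      (fun z hz => by rw [z0 z hz]; simp)
  have iC : Integrable (fun z => fderiv ℝ χ z (cov m v v z) * m z) :=
    b1_int_bochner1 hK hs (((hχ.continuous_fderiv one_ne_zero).continuousOn.clm_apply ccov).mul cm)
      (fun z hz => by rw [zf0 z hz]; simp)
  have hF1 : ContDiffOn ℝ 1 (fun z => χ z * m z * (v z).im) UH :=
    (b1_contDiff_bochner1 hθ hθs hb).contDiffOn
  have hF2 : ContDiffOn ℝ 1 (fun z => χ z * m z * (v z).re) UH :=
    (b1_contDiff_bochner1 hθ hθs ha).contDiffOn
  have i1 : Integrable (fun z => fderiv ℝ (fun z => χ z * m z * (v z).im) z 1 *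
      fderiv ℝ (fun z => (v z).re) z I -
      fderiv ℝ (fun z => χ z * m z * (v z).im) z I * fderiv ℝ (fun z => (v z).re) z 1) :=
    b1_int_bochner1 hK hs (((b1_fd_bochner1 hF1 1).mul (b1_fd_bochner1 ha I)).sub ((b1_fd_bochner1 hF1 I).mul (b1_fd_bochner1 ha 1)))
      (fun z hz => by rw [zf2 m (fun z => (v z).im) z hz]; simp)
  have i2 : Integrable (fun z => fderiv ℝ (fun z => χ z * m z * (v z).re) z 1 *
      fderiv ℝ (fun z => (v z).im) z I -
      fderiv ℝ (fun z => χ z * m z * (v z).re) z I * fderiv ℝ (fun z => (v z).im) z 1) :=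
    b1_int_bochner1 hK hs (((b1_fd_bochner1 hF2 1).mul (b1_fd_bochner1 hb I)).sub ((b1_fd_bochner1 hF2 I).mul (b1_fd_bochner1 hb 1)))
      (fun z hz => by rw [zf2 m (fun z => (v z).re) z hz]; simp)
  have i3 : Integrable (fun z => χ z * m z * ((fderiv ℝ V z 1).re + (fderiv ℝ V z I).im)) :=
    b1_int_bochner1 hK hs ((cχ.mul cm).mul ((cre (b1_fdc_bochner1 hV 1)).add (cim (b1_fdc_bochner1 hV I))))
      (fun z hz => by rw [z0 z hz]; simp)
  have i4 : Integrable (fun z => fderiv ℝ (fun z => χ z * m z) z (V z)) :=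
    b1_int_bochner1 hK hs ((hθ.continuous_fderiv one_ne_zero).continuousOn.clm_apply hV.continuousOn)
      (fun z hz => by rw [zf m z hz]; simp)
  have e1 := b1_lin3_bochner1 iA iB iC
  have e2 := b1_lin4_bochner1 i1 i2 i3 i4
  rw [N1, N2, N3] at e2
  have e3 := e1.symm.trans ((integral_congr_ae (Filter.Eventually.of_forall key)).trans e2)
  linarith

end Pool.Agent.Helper131.CG
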