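import Pool.Agent.Helper131.CG.Base
import Pool.Agent.Helper131.CG.L_int_dcut
import Pool.Agent.Helper131.CG.L_bochner1
import Pool.Agent.Helper131.CG.L_field_equiv

namespace Pool.Agent.Helper131.CG

open Complex MeasureTheory Set Filter Topology
open scoped ContDiff

theorem contDiffOn_Lm {Γ : Subgroup SL2R} {m : ℂ → ℝ} (hm : ConfMetric Γ m) :
    ContDiffOn ℝ ∞ (Lm m) UH :=
  hm.smooth.log (fun z hz => (hm.pos z hz).ne')

theorem contDiffOn_dLm {Γ : Subgroup SL2R} {m : ℂ → ℝ} (hm : ConfMetric Γ m) :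
    ContDiffOn ℝ ∞ (fderiv ℝ (Lm m)) UH :=
  (contDiffOn_Lm hm).fderiv_of_isOpen isOpen_UH (by simp)

theorem contDiffOn_pz {Γ : Subgroup SL2R} {m : ℂ → ℝ} (hm : ConfMetric Γ m) :
    ContDiffOn ℝ ∞ (pz m) UH := by
  have h := contDiffOn_dLm hm
  have h1 : ContDiffOn ℝ ∞ (fun z => ((fderiv ℝ (Lm m) z 1 : ℝ) : ℂ)) UH :=
    Complex.ofRealCLM.contDiff.comp_contDiffOn (h.clm_apply contDiffOn_const)
  have h2 : ContDiffOn ℝ ∞ (fun z => ((fderiv ℝ (Lm m) z I : ℝ) : ℂ)) UH :=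
    Complex.ofRealCLM.contDiff.comp_contDiffOn (h.clm_apply contDiffOn_const)
  exact (h1.sub (h2.mul contDiffOn_const)).div_const 2

theorem continuousOn_cov {Γ : Subgroup SL2R} {m : ℂ → ℝ} (hm : ConfMetric Γ m) {v w : ℂ → ℂ}
    (hv : ContDiffOn ℝ 1 v UH) (hw : ContDiffOn ℝ 1 w UH) : ContinuousOn (cov m v w) UH := by
  have h1 : ContinuousOn (fderiv ℝ w) UH := hw.continuousOn_fderiv_of_isOpen isOpen_UH (by norm_num)
  exact (h1.clm_apply hv.continuousOn).add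
    (((contDiffOn_pz hm).continuousOn.mul hv.continuousOn).mul hw.continuousOn)

theorem bochner {Γ : Subgroup SL2R} (hΓ : SurfaceGroup Γ) {m : ℂ → ℝ} (hm : ConfMetric Γ m)
    {χ : ℂ → ℝ} (hχ : Cut Γ χ) {v : ℂ → ℂ} (hv : ContDiffOn ℝ 1 v UH)
    (heq : ∀ g ∈ Γ, ∀ z ∈ UH, v (mob g z) = v z / den g z ^ 2)
    (hdiv : ∀ z ∈ UH, dvg m v z = 0) :
    ∫ z, χ z * (‖dbar v z‖ ^ 2 - vort m v z ^ 2 / 4) * m z =
      - (1 / 2) * (∫ z, χ z * (curv m z * (m z * ‖v z‖ ^ 2)) * m z) := by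
  have h1 := bochner1 hm hχ.smooth hχ.compact hχ.supp hv hdiv
  have h2 := int_dcut hΓ hm hχ (continuousOn_cov hm hv hv) (cov_equiv hm hv heq)
  rw [h1, h2]
  ring

end Pool.Agent.Helper131.CG
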