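import Pool.Agent.Helper131.CG.Base
import Pool.Agent.Helper131.CG.L_D0
import Pool.Agent.Helper131.CG.L_field_equiv
import Pool.Agent.Helper131.CG.L_int_inv
import Pool.Agent.Helper131.CG.L_lin
import Pool.Agent.Helper131.CG.L_swap

namespace Pool.Agent.Helper131.CG

open Complex MeasureTheory Set Filter Topology
open scoped ContDiff

theorem en_det_energy (g : SL2R) : g 0 0 * g 1 1 - g 0 1 * g 1 0 = 1 := by
  have := g.det_coe
  rw [Matrix.det_fin_two] at this
  exact this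

theorem en_den_ne_energy (g : SL2R) {z : ℂ} (hz : z ∈ UH) : den g z ≠ 0 := by
  intro h
  have him : (den g z).im = g 1 0 * z.im := by simp [den]
  have hre : (den g z).re = g 1 0 * z.re + g 1 1 := by simp [den]
  rw [h] at him hre
  have hz' : (0 : ℝ) < z.im := hz
  have hc : g 1 0 = 0 := by
    have : g 1 0 * z.im = 0 := by simpa using him.symm
    rcases mul_eq_zero.mp this with h1 | h1
    · exact h1
    · exact absurd h1 hz'.ne'
  have hd : g 1 1 = 0 := by
    rw [hc] at hre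
    simpa using hre.symm
  have := en_det_energy g
  rw [hc, hd] at this
  norm_num at this

theorem en_mob_mem_energy (g : SL2R) {z : ℂ} (hz : z ∈ UH) : mob g z ∈ UH := by
  have hz' : (0 : ℝ) < z.im := hz
  have hne := en_den_ne_energy g hz
  have hns : 0 < Complex.normSq (den g z) := Complex.normSq_pos.mpr hne
  have key : (mob g z).im = z.im / Complex.normSq (den g z) := by
    rw [mob, Complex.div_im, ← sub_div]
    congr 1
    have hdet := en_det_energy g
    simp [den]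
    linear_combination z.im * hdet
  show 0 < (mob g z).im
  rw [key]
  positivity

theorem en_mob_deriv_energy (g : SL2R) {z : ℂ} (hz : z ∈ UH) :
    HasDerivAt (mob g) (1 / den g z ^ 2) z := by
  have hne := en_den_ne_energy g hz
  have h1 : HasDerivAt (fun w : ℂ => (g 0 0 : ℂ) * w + (g 0 1 : ℂ)) (g 0 0 : ℂ) z := by
    simpa using ((hasDerivAt_id z).const_mul (g 0 0 : ℂ)).add_const (g 0 1 : ℂ)
  have h2 : HasDerivAt (fun w : ℂ => den g w) (g 1 0 : ℂ) z := by
    have : HasDerivAt (fun w : ℂ => (g 1 0 : ℂ) * w + (g 1 1 : ℂ)) (g 1 0 : ℂ) z := by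
      simpa using ((hasDerivAt_id z).const_mul (g 1 0 : ℂ)).add_const (g 1 1 : ℂ)
    exact this
  have h3 := h1.div h2 hne
  have hdet : (g 0 0 : ℂ) * (g 1 1 : ℂ) - (g 0 1 : ℂ) * (g 1 0 : ℂ) = 1 := by
    exact_mod_cast en_det_energy g
  have e : ((g 0 0 : ℂ) * den g z - ((g 0 0 : ℂ) * z + (g 0 1 : ℂ)) * (g 1 0 : ℂ)) / den g z ^ 2
      = 1 / den g z ^ 2 := by
    congr 1
    simp only [den]
    linear_combination hdet
  rw [e] at h3
  exact h3

/-- invariance of `dp(u)` -/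
theorem en_dp_inv_energy (g : SL2R) {p : ℂ → ℝ} (hp : DifferentiableOn ℝ p UH)
    (hinv : ∀ z ∈ UH, p (mob g z) = p z) {z : ℂ} (hz : z ∈ UH) (w : ℂ) :
    fderiv ℝ p (mob g z) (w / den g z ^ 2) = fderiv ℝ p z w := by
  have hm := en_mob_mem_energy g hz
  have h1 : HasFDerivAt p (fderiv ℝ p (mob g z)) (mob g z) :=
    ((hp (mob g z) hm).differentiableAt (isOpen_UH.mem_nhds hm)).hasFDerivAt
  have h2 : HasFDerivAt (mob g)
      (((ContinuousLinearMap.toSpanSingleton ℂ (1 / den g z ^ 2)).restrictScalars ℝ)) z :=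
    (en_mob_deriv_energy g hz).hasFDerivAt.restrictScalars ℝ
  have h3 := h1.comp z h2
  have h4 : HasFDerivAt p (fderiv ℝ p z) z :=
    ((hp z hz).differentiableAt (isOpen_UH.mem_nhds hz)).hasFDerivAt
  have h5 : HasFDerivAt (p ∘ mob g) (fderiv ℝ p z) z := by
    refine h4.congr_of_eventuallyEq ?_
    filter_upwards [isOpen_UH.mem_nhds hz] with y hy
    exact hinv y hy
  have h6 := h3.unique h5
  have h7 := congrArg (fun (L : ℂ →L[ℝ] ℝ) => L w) h6
  simp only [ContinuousLinearMap.comp_apply] at h7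
  rw [← h7]
  congr 1
  simp [ContinuousLinearMap.toSpanSingleton_apply]
  ring

/-- total derivative along a curve -/
theorem en_chain_energy {u : ℝ → ℂ → ℂ}
    (hu : ContDiffOn ℝ 1 (fun q : ℝ × ℂ => u q.1 q.2) (univ ×ˢ UH)) (t : ℝ) {c : ℝ → ℂ} {v : ℂ}
    (hc : HasDerivAt c v t) (hz : c t ∈ UH) :
    HasDerivAt (fun s => u s (c s))
      (deriv (fun s => u s (c t)) t + fderiv ℝ (u t) (c t) v) t := by
  have hop : IsOpen ((univ : Set ℝ) ×ˢ UH) := isOpen_univ.prod isOpen_UH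
  have hmem : ((t, c t) : ℝ × ℂ) ∈ (univ : Set ℝ) ×ˢ UH := ⟨mem_univ _, hz⟩
  have hd : DifferentiableAt ℝ (fun q : ℝ × ℂ => u q.1 q.2) (t, c t) :=
    (hu.differentiableOn (by norm_num) _ hmem).differentiableAt (hop.mem_nhds hmem)
  set L := fderiv ℝ (fun q : ℝ × ℂ => u q.1 q.2) (t, c t) with hL
  have hf : HasFDerivAt (fun q : ℝ × ℂ => u q.1 q.2) L (t, c t) := hd.hasFDerivAt
  have hcurve : HasDerivAt (fun s : ℝ => (s, c s)) ((1 : ℝ), v) t :=
    (hasDerivAt_id t).prodMk hc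
  have h1 : HasDerivAt (fun s => u s (c s)) (L (1, v)) t := by
    have := HasFDerivAt.comp_hasDerivAt (f := fun s : ℝ => (s, c s)) t hf hcurve
    exact this
  have hcurve2 : HasDerivAt (fun s : ℝ => (s, c t)) ((1 : ℝ), (0 : ℂ)) t :=
    (hasDerivAt_id t).prodMk (hasDerivAt_const t (c t))
  have h2 : HasDerivAt (fun s => u s (c t)) (L (1, 0)) t := by
    have := HasFDerivAt.comp_hasDerivAt (f := fun s : ℝ => (s, c t)) t hf hcurve2
    exact this
  have h3 : HasFDerivAt (fun z : ℂ => ((t, z) : ℝ × ℂ)) (ContinuousLinearMap.inr ℝ ℝ ℂ) (c t) := by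
    exact hasFDerivAt_prodMk_right t (c t)
  have h4 : HasFDerivAt (u t) (L.comp (ContinuousLinearMap.inr ℝ ℝ ℂ)) (c t) :=
    hf.comp (c t) h3
  rw [h2.deriv, h4.fderiv]
  have : L (1, v) = L (1, 0) + L.comp (ContinuousLinearMap.inr ℝ ℝ ℂ) v := by
    rw [ContinuousLinearMap.comp_apply, ContinuousLinearMap.inr_apply, ← L.map_add]
    simp
  rw [← this]
  exact h1

theorem en_fderiv_re_im_energy (L : ℂ →L[ℝ] ℝ) (v : ℂ) : L v = v.re * L 1 + v.im * L I := by
  have : v = (v.re : ℝ) • (1 : ℂ) + (v.im : ℝ) • I := by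
    simp [Complex.re_add_im]
  conv_lhs => rw [this]
  rw [L.map_add, L.map_smul, L.map_smul]
  simp

theorem en_dm_energy {Γ : Subgroup SL2R} {m : ℂ → ℝ} (hm : ConfMetric Γ m) {z : ℂ} (hz : z ∈ UH)
    (v : ℂ) : fderiv ℝ m z v = m z * (2 * (pz m z * v).re) := by
  have hd : DifferentiableAt ℝ m z :=
    (hm.smooth.differentiableOn (by simp) z hz).differentiableAt (isOpen_UH.mem_nhds hz)
  have hpos := hm.pos z hz
  have hL : HasFDerivAt (Lm m) ((m z)⁻¹ • fderiv ℝ m z) z := hd.hasFDerivAt.log hpos.ne'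
  have h1 : fderiv ℝ (Lm m) z v = (m z)⁻¹ * fderiv ℝ m z v := by
    rw [hL.fderiv]; simp
  have h2 : fderiv ℝ (Lm m) z v = 2 * (pz m z * v).re := by
    rw [en_fderiv_re_im_energy]
    simp [pz]
    ring
  rw [← h2, h1]
  field_simp

theorem en_deriv_energy {Γ : Subgroup SL2R} {m : ℂ → ℝ} (hm : ConfMetric Γ m)
    {u : ℝ → ℂ → ℂ} {p : ℝ → ℂ → ℝ} {Φ Ψ : ℝ → ℂ → ℂ} (F : Flow Γ m u p Φ Ψ) (t : ℝ)
    {z : ℂ} (hz : z ∈ UH) :
    HasDerivAt (fun s => m (Φ s z) * ‖u s (Φ s z)‖ ^ 2)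
      (-2 * fderiv ℝ (p t) (Φ t z) (u t (Φ t z))) t := by
  have hfl := F.flow t z hz
  have hmem := F.maps t hz
  have hd : DifferentiableAt ℝ m (Φ t z) :=
    (hm.smooth.differentiableOn (by simp) _ hmem).differentiableAt (isOpen_UH.mem_nhds hmem)
  have h1 : HasDerivAt (fun s => m (Φ s z)) (fderiv ℝ m (Φ t z) (u t (Φ t z))) t :=
    hd.hasFDerivAt.comp_hasDerivAt t hfl
  have h2 := en_chain_energy F.sol.u_smooth t hfl hmem
  have h3 := h2.norm_sq
  have h4 := h1.mul h3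
  refine h4.congr_deriv ?_
  have hE := F.sol.euler t (Φ t z) hmem
  rw [cov] at hE
  have hg : deriv (fun s => u s (Φ t z)) t + fderiv ℝ (u t) (Φ t z) (u t (Φ t z))
      = - (pz m (Φ t z) * u t (Φ t z) * u t (Φ t z)) - grad m (p t) (Φ t z) := by
    linear_combination hE
  rw [hg, en_dm_energy hm hmem, en_fderiv_re_im_energy (fderiv ℝ (p t) (Φ t z)) (u t (Φ t z))]
  have hpos := hm.pos _ hmem
  set w := Φ t z
  set U := u t w
  rw [grad]
  set px := fderiv ℝ (p t) w 1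
  set py := fderiv ℝ (p t) w I
  set P := pz m w
  have e1 : ‖U‖ ^ 2 = U.re ^ 2 + U.im ^ 2 := by
    rw [← Complex.normSq_eq_norm_sq, Complex.normSq_apply]; ring
  have e2 : ((px : ℂ) + (py : ℂ) * I) / (m w : ℂ) = (((m w)⁻¹ * px : ℝ) : ℂ) + (((m w)⁻¹ * py : ℝ) : ℂ) * I := by
    push_cast
    field_simp
  rw [e2, e1, Complex.inner]
  simp
  field_simp
  ring

theorem en_cont_uΦ {Γ : Subgroup SL2R} {m : ℂ → ℝ}
    {u : ℝ → ℂ → ℂ} {p : ℝ → ℂ → ℝ} {Φ Ψ : ℝ → ℂ → ℂ} (F : Flow Γ m u p Φ Ψ) :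
    ContinuousOn (fun q : ℝ × ℂ => ((q.1, Φ q.1 q.2) : ℝ × ℂ)) (univ ×ˢ UH) :=
  continuousOn_fst.prodMk F.smooth.continuousOn

theorem en_contG_energy {Γ : Subgroup SL2R} {m : ℂ → ℝ}
    {u : ℝ → ℂ → ℂ} {p : ℝ → ℂ → ℝ} {Φ Ψ : ℝ → ℂ → ℂ} (F : Flow Γ m u p Φ Ψ) :
    ContinuousOn (fun q : ℝ × ℂ => -2 * fderiv ℝ (p q.1) (Φ q.1 q.2) (u q.1 (Φ q.1 q.2)))
      (univ ×ˢ UH) := by
  have hmaps : MapsTo (fun q : ℝ × ℂ => ((q.1, Φ q.1 q.2) : ℝ × ℂ)) (univ ×ˢ UH) (univ ×ˢ UH) :=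
    fun q hq => ⟨mem_univ _, F.maps q.1 hq.2⟩
  have h1 := F.sol.dp_cont.comp (en_cont_uΦ F) hmaps
  have h2 := F.sol.u_smooth.continuousOn.comp (en_cont_uΦ F) hmaps
  exact continuousOn_const.mul (h1.clm_apply h2)

theorem en_intble_energy {χ f m : ℂ → ℝ} (hχ : Continuous χ) (hc : HasCompactSupport χ)
    (hs : tsupport χ ⊆ UH) (hf : ContinuousOn f UH) (hm : ContinuousOn m UH) :
    Integrable (fun z => χ z * f z * m z) := by
  have hcont : Continuous (fun z => χ z * f z * m z) := by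
    rw [continuous_iff_continuousAt]
    intro z
    by_cases hz : z ∈ tsupport χ
    · have hzU := hs hz
      exact (hχ.continuousAt.mul (hf.continuousAt (isOpen_UH.mem_nhds hzU))).mul
        (hm.continuousAt (isOpen_UH.mem_nhds hzU))
    · have : (fun z => χ z * f z * m z) =ᶠ[𝓝 z] fun _ => 0 := by
        filter_upwards [(isClosed_tsupport χ).isOpen_compl.mem_nhds hz] with y hy
        have : χ y = 0 := image_eq_zero_of_notMem_tsupport hy
        simp [this]
      exact continuousAt_const.congr this.symm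
  have hcs : HasCompactSupport (fun z => χ z * f z * m z) := by
    have h1 : HasCompactSupport (fun z => χ z * f z) := hc.mul_right
    exact h1.mul_right
  exact hcont.integrable_of_hasCompactSupport hcs

theorem energy {Γ : Subgroup SL2R} (hΓ : SurfaceGroup Γ) {m : ℂ → ℝ} (hm : ConfMetric Γ m)
    {χ : ℂ → ℝ} (hχ : Cut Γ χ)
    {u : ℝ → ℂ → ℂ} {p : ℝ → ℂ → ℝ} {Φ Ψ : ℝ → ℂ → ℂ} (F : Flow Γ m u p Φ Ψ) (t : ℝ) :
    ∫ z, χ z * (m z * ‖u t z‖ ^ 2) * m z = ∫ z, χ z * (m z * ‖u 0 z‖ ^ 2) * m z := by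
  have hmc : ContinuousOn m UH := hm.smooth.continuousOn
  have hχc : Continuous χ := hχ.smooth.continuous
  have huc : ∀ s, ContinuousOn (u s) UH := fun s => (jc_slice F.sol.u_smooth s).continuousOn
  have hEc : ∀ s, ContinuousOn (fun z => m z * ‖u s z‖ ^ 2) UH := fun s =>
    hmc.mul ((huc s).norm.pow 2)
  have hinvE : ∀ s, ∀ g ∈ Γ, ∀ z ∈ UH,
      (fun z => m z * ‖u s z‖ ^ 2) (mob g z) = (fun z => m z * ‖u s z‖ ^ 2) z := fun s =>
    norm_inv hm (F.sol.u_equiv s)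
  have hΦc : ∀ s, ContDiffOn ℝ 1 (Φ s) UH := fun s => jc_slice F.smooth s
  -- step 1
  have s1 : ∫ z, χ z * (fun z => m z * ‖u t z‖ ^ 2) (Φ t z) * m z
      = ∫ z, χ z * (fun z => m z * ‖u t z‖ ^ 2) z * m z :=
    int_inv hΓ hm hχ (hΦc t) (F.ismooth t) (F.maps t) (F.imaps t) (F.left t) (F.right t)
      (F.comm t) (F.area t) (hEc t) (hinvE t)
  simp only at s1
  -- the derivative term
  have hp1 : ∀ s, ContDiffOn ℝ 1 (p s) UH := by
    intro s
    have hcont : ContinuousOn (fun z => fderiv ℝ (p s) z) UH := by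
      have h1 : ContinuousOn (fun z : ℂ => ((s, z) : ℝ × ℂ)) UH :=
        (Continuous.prodMk_right s).continuousOn
      exact F.sol.dp_cont.comp h1 (fun z hz => ⟨mem_univ _, hz⟩)
    have := (contDiffOn_succ_iff_fderiv_of_isOpen (𝕜 := ℝ) (n := 0) (f := p s) isOpen_UH).2
      ⟨F.sol.p_diff s, by simp, by
        rw [contDiffOn_zero]; exact hcont⟩
    simpa using this
  have hFc : ∀ s, ContinuousOn (fun z => -2 * fderiv ℝ (p s) z (u s z)) UH := by
    intro s
    have h1 : ContinuousOn (fun z : ℂ => ((s, z) : ℝ × ℂ)) UH :=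
      (Continuous.prodMk_right s).continuousOn
    have h2 : ContinuousOn (fun z => fderiv ℝ (p s) z) UH :=
      F.sol.dp_cont.comp h1 (fun z hz => ⟨mem_univ _, hz⟩)
    exact continuousOn_const.mul (h2.clm_apply (huc s))
  have hFinv : ∀ s, ∀ g ∈ Γ, ∀ z ∈ UH,
      (fun z => -2 * fderiv ℝ (p s) z (u s z)) (mob g z)
        = (fun z => -2 * fderiv ℝ (p s) z (u s z)) z := by
    intro s g hg z hz
    simp only
    rw [F.sol.u_equiv s g hg z hz,
      en_dp_inv_energy g (F.sol.p_diff s) (fun z hz => F.sol.p_inv s g hg z hz) hz]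
  have hzero : ∀ s, ∫ z, χ z * (-2 * fderiv ℝ (p s) (Φ s z) (u s (Φ s z))) * m z = 0 := by
    intro s
    have h1 : ∫ z, χ z * (fun z => -2 * fderiv ℝ (p s) z (u s z)) (Φ s z) * m z
        = ∫ z, χ z * (fun z => -2 * fderiv ℝ (p s) z (u s z)) z * m z :=
      int_inv hΓ hm hχ (hΦc s) (F.ismooth s) (F.maps s) (F.imaps s) (F.left s) (F.right s)
        (F.comm s) (F.area s) (hFc s) (hFinv s)
    simp only at h1
    rw [h1]
    have h2 := D0 hΓ hm hχ (jc_slice F.sol.u_smooth s) (F.sol.u_equiv s) (F.sol.div_free s)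
      (hp1 s) (F.sol.p_inv s)
    have h3 : (fun z => χ z * (-2 * fderiv ℝ (p s) z (u s z)) * m z)
        = fun z => (-2 : ℝ) * (χ z * fderiv ℝ (p s) z (u s z) * m z) := by
      funext z; ring
    rw [h3, integral_const_mul, h2, mul_zero]
  have hswap := swap_int (G := fun s z => -2 * fderiv ℝ (p s) (Φ s z) (u s (Φ s z)))
    hχc hχ.compact hχ.supp hmc (en_contG_energy F) t
  have hD : ∀ z ∈ UH, (∫ s in (0 : ℝ)..t, (-2 * fderiv ℝ (p s) (Φ s z) (u s (Φ s z))))
      = m (Φ t z) * ‖u t (Φ t z)‖ ^ 2 - m z * ‖u 0 z‖ ^ 2 := by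
    intro z hz
    have hint : IntervalIntegrable
        (fun s => -2 * fderiv ℝ (p s) (Φ s z) (u s (Φ s z))) volume 0 t := by
      apply Continuous.intervalIntegrable
      have h1 : Continuous (fun s : ℝ => ((s, z) : ℝ × ℂ)) := Continuous.prodMk_left z
      have h2 := (en_contG_energy F).comp h1.continuousOn (s := univ) (fun s _ => ⟨mem_univ _, hz⟩)
      exact continuousOn_univ.mp h2
    have := intervalIntegral.integral_eq_sub_of_hasDerivAt
      (fun s _ => en_deriv_energy hm F s hz) hint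
    rw [this, F.zero z hz]
  have hAc : ContinuousOn (fun z => m (Φ t z) * ‖u t (Φ t z)‖ ^ 2) UH :=
    (hEc t).comp (hΦc t).continuousOn (F.maps t)
  have i1 := en_intble_energy hχc hχ.compact hχ.supp hAc hmc
  have i2 := en_intble_energy hχc hχ.compact hχ.supp (hEc 0) hmc
  have hsub := integral_sub i1 i2
  have hcongr : (∫ z, (χ z * (m (Φ t z) * ‖u t (Φ t z)‖ ^ 2) * m z - χ z * (m z * ‖u 0 z‖ ^ 2) * m z))
      = ∫ z, χ z * (∫ s in (0 : ℝ)..t, (-2 * fderiv ℝ (p s) (Φ s z) (u s (Φ s z)))) * m z := by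
    congr 1
    funext z
    by_cases hz : z ∈ UH
    · rw [hD z hz]; ring
    · have : χ z = 0 := image_eq_zero_of_notMem_tsupport (fun h => hz (hχ.supp h))
      simp [this]
  rw [hcongr, hswap] at hsub
  simp only [hzero, intervalIntegral.integral_zero] at hsub
  linarith [hsub, s1]

end Pool.Agent.Helper131.CG
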