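import Pool.Agent.Helper131.CG.Base
import Pool.Agent.Helper131.CG.L_ibp
import Pool.Agent.Helper131.CG.L_null_lag
import Pool.Agent.Helper131.CG.L_weber
import Pool.Agent.Helper131.CG.L_wfun_cont

namespace Pool.Agent.Helper131.CG

open Complex MeasureTheory Set Filter Topology
open scoped ContDiff

theorem kv_hasF_kelvin {E : Type*} [NormedAddCommGroup E] [NormedSpace ℝ E] {g : ℂ → E}
    (hg : ContDiffOn ℝ 1 g UH) {z : ℂ} (hz : z ∈ UH) : HasFDerivAt g (fderiv ℝ g z) z :=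
  ((hg.contDiffAt (isOpen_UH.mem_nhds hz)).differentiableAt one_ne_zero).hasFDerivAt

theorem kv_cf_kelvin {E : Type*} [NormedAddCommGroup E] [NormedSpace ℝ E] {g : ℂ → E}
    (hg : ContDiffOn ℝ 1 g UH) : ContinuousOn (fderiv ℝ g) UH :=
  hg.continuousOn_fderiv_of_isOpen isOpen_UH le_rfl

theorem kv_m1_kelvin {Γ : Subgroup SL2R} {m : ℂ → ℝ} (hm : ConfMetric Γ m) : ContDiffOn ℝ 1 m UH :=
  hm.smooth.of_le (by exact_mod_cast le_top)

theorem kv_Lm1_kelvin {Γ : Subgroup SL2R} {m : ℂ → ℝ} (hm : ConfMetric Γ m) :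
    ContDiffOn ℝ 1 (Lm m) UH :=
  (kv_m1_kelvin hm).log (fun z hz => (hm.pos z hz).ne')

theorem kv_vort_cont_kelvin {Γ : Subgroup SL2R} {m : ℂ → ℝ} (hm : ConfMetric Γ m) {v : ℂ → ℂ}
    (hv : ContDiffOn ℝ 1 v UH) : ContinuousOn (fun z => vort m v z) UH := by
  have h1 := kv_cf_kelvin hv
  have h2 := kv_cf_kelvin (kv_Lm1_kelvin hm)
  have hpz : ContinuousOn (fun z => pz m z) UH := by
    unfold pz
    have a1 : ContinuousOn (fun z => ((fderiv ℝ (Lm m) z 1 : ℝ) : ℂ)) UH :=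
      continuous_ofReal.comp_continuousOn (h2.clm_apply continuousOn_const)
    have a2 : ContinuousOn (fun z => ((fderiv ℝ (Lm m) z I : ℝ) : ℂ)) UH :=
      continuous_ofReal.comp_continuousOn (h2.clm_apply continuousOn_const)
    exact (a1.sub (a2.mul continuousOn_const)).div_const 2
  unfold vort
  have b1 : ContinuousOn (fun z => (fderiv ℝ v z 1).im) UH :=
    continuous_im.comp_continuousOn (h1.clm_apply continuousOn_const)
  have b2 : ContinuousOn (fun z => (fderiv ℝ v z I).re) UH :=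
    continuous_re.comp_continuousOn (h1.clm_apply continuousOn_const)
  have b3 : ContinuousOn (fun z => (pz m z * v z).im) UH :=
    continuous_im.comp_continuousOn (hpz.mul hv.continuousOn)
  exact (b1.sub b2).add (continuousOn_const.mul b3)

theorem kv_int_mul_kelvin {φ g : ℂ → ℝ} (hφ : Continuous φ) (hc : HasCompactSupport φ)
    (hs : tsupport φ ⊆ UH) (hg : ContinuousOn g UH) :
    Integrable (fun z => φ z * g z) := by
  have h1 : Continuous (fun z => φ z * g z) := by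
    apply continuous_of_tsupport
    intro x hx
    have hxU : x ∈ UH := hs (tsupport_mul_subset_left hx)
    exact hφ.continuousAt.mul (hg.continuousAt (isOpen_UH.mem_nhds hxU))
  exact h1.integrable_of_hasCompactSupport hc.mul_right

theorem kv_dcont_kelvin {φ : ℂ → ℝ} (hφ : ContDiff ℝ 1 φ) (e : ℂ) :
    Continuous (fun z => fderiv ℝ φ z e) :=
  (hφ.continuous_fderiv one_ne_zero).clm_apply continuous_const

theorem kv_int_dmul_kelvin {φ g : ℂ → ℝ} (hφ : ContDiff ℝ 1 φ) (hc : HasCompactSupport φ)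
    (hs : tsupport φ ⊆ UH) (hg : ContinuousOn g UH) (e : ℂ) :
    Integrable (fun z => fderiv ℝ φ z e * g z) :=
  kv_int_mul_kelvin (kv_dcont_kelvin hφ e) (hc.fderiv_apply (𝕜 := ℝ) e)
    ((tsupport_fderiv_apply_subset ℝ e).trans hs) hg

/-- `m * vort` is an exterior derivative -/
theorem kv_mvort_kelvin {Γ : Subgroup SL2R} {m : ℂ → ℝ} (hm : ConfMetric Γ m) {v : ℂ → ℂ}
    (hv : ContDiffOn ℝ 1 v UH) {z : ℂ} (hz : z ∈ UH) :
    m z * vort m v z = fderiv ℝ (fun w => m w * (v w).im) z 1 -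
      fderiv ℝ (fun w => m w * (v w).re) z I := by
  have hmz := kv_hasF_kelvin (kv_m1_kelvin hm) hz
  have hvz := kv_hasF_kelvin hv hz
  have him : HasFDerivAt (fun w => (v w).im) (Complex.imCLM.comp (fderiv ℝ v z)) z :=
    Complex.imCLM.hasFDerivAt.comp z hvz
  have hre : HasFDerivAt (fun w => (v w).re) (Complex.reCLM.comp (fderiv ℝ v z)) z :=
    Complex.reCLM.hasFDerivAt.comp z hvz
  have h1 := (hmz.mul him).fderiv
  have h2 := (hmz.mul hre).fderiv
  have h3 : fderiv ℝ (Lm m) z = (m z)⁻¹ • fderiv ℝ m z := (hmz.log (hm.pos z hz).ne').fderiv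
  have h1' : fderiv ℝ (fun w => m w * (v w).im) z 1 =
      m z * (fderiv ℝ v z 1).im + (v z).im * fderiv ℝ m z 1 := by
    have : fderiv ℝ (fun w => m w * (v w).im) z =
        m z • (Complex.imCLM.comp (fderiv ℝ v z)) + (v z).im • fderiv ℝ m z := h1
    rw [this]
    rfl
  have h2' : fderiv ℝ (fun w => m w * (v w).re) z I =
      m z * (fderiv ℝ v z I).re + (v z).re * fderiv ℝ m z I := by
    have : fderiv ℝ (fun w => m w * (v w).re) z =
        m z • (Complex.reCLM.comp (fderiv ℝ v z)) + (v z).re • fderiv ℝ m z := h2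
    rw [this]
    rfl
  have hne := (hm.pos z hz).ne'
  have h4 : (pz m z * v z).im = (fderiv ℝ m z 1 * (v z).im - fderiv ℝ m z I * (v z).re) /
      (2 * m z) := by
    unfold pz
    rw [h3]
    have e1 : ((m z)⁻¹ • fderiv ℝ m z) 1 = (m z)⁻¹ * fderiv ℝ m z 1 := rfl
    have e2 : ((m z)⁻¹ • fderiv ℝ m z) I = (m z)⁻¹ * fderiv ℝ m z I := rfl
    rw [e1, e2]
    generalize fderiv ℝ m z 1 = a
    generalize fderiv ℝ m z I = b
    have e3 : ((((m z)⁻¹ * a : ℝ) : ℂ) - (((m z)⁻¹ * b : ℝ) : ℂ) * I) / 2 * v z =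
        ((((m z)⁻¹ / 2 : ℝ) : ℂ)) * (((a : ℂ) - (b : ℂ) * I) * v z) := by
      push_cast
      ring
    rw [e3, Complex.im_ofReal_mul]
    have e4 : (((a : ℂ) - (b : ℂ) * I) * v z).im = a * (v z).im - b * (v z).re := by
      simp [Complex.mul_im, Complex.sub_re, Complex.sub_im]
      ring
    rw [e4]
    field_simp
  rw [h1', h2']
  unfold vort
  rw [h4]
  field_simp
  ring

/-- the weak form of the vorticity -/
theorem kv_star_kelvin {Γ : Subgroup SL2R} {m : ℂ → ℝ} (hm : ConfMetric Γ m) {v : ℂ → ℂ}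
    (hv : ContDiffOn ℝ 1 v UH) {φ : ℂ → ℝ} (hφ : ContDiff ℝ 1 φ) (hc : HasCompactSupport φ)
    (hs : tsupport φ ⊆ UH) : ∫ z, φ z * (m z * vort m v z) =
      ∫ z, m z * (fderiv ℝ φ z I * (v z).re - fderiv ℝ φ z 1 * (v z).im) := by
  have hF1 : ContDiffOn ℝ 1 (fun w => m w * (v w).im) UH :=
    (kv_m1_kelvin hm).mul (Complex.imCLM.contDiff.comp_contDiffOn hv)
  have hF2 : ContDiffOn ℝ 1 (fun w => m w * (v w).re) UH :=
    (kv_m1_kelvin hm).mul (Complex.reCLM.contDiff.comp_contDiffOn hv)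
  have e1 := ibp hφ hc hs hF1 1
  have e2 := ibp hφ hc hs hF2 I
  have hpt : ∀ z, φ z * (m z * vort m v z) = φ z * fderiv ℝ (fun w => m w * (v w).im) z 1 -
      φ z * fderiv ℝ (fun w => m w * (v w).re) z I := by
    intro z
    by_cases hz : z ∈ UH
    · rw [kv_mvort_kelvin hm hv hz]
      ring
    · have : φ z = 0 := image_eq_zero_of_notMem_tsupport (fun h => hz (hs h))
      rw [this]
      ring
  have hpt2 : ∀ z, m z * (fderiv ℝ φ z I * (v z).re - fderiv ℝ φ z 1 * (v z).im) =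
      fderiv ℝ φ z I * (m z * (v z).re) - fderiv ℝ φ z 1 * (m z * (v z).im) := by
    intro z
    ring
  have i1 : Integrable (fun z => φ z * fderiv ℝ (fun w => m w * (v w).im) z 1) :=
    kv_int_mul_kelvin hφ.continuous hc hs ((kv_cf_kelvin hF1).clm_apply continuousOn_const)
  have i2 : Integrable (fun z => φ z * fderiv ℝ (fun w => m w * (v w).re) z I) :=
    kv_int_mul_kelvin hφ.continuous hc hs ((kv_cf_kelvin hF2).clm_apply continuousOn_const)
  have i3 : Integrable (fun z => fderiv ℝ φ z I * (m z * (v z).re)) :=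
    kv_int_dmul_kelvin hφ hc hs hF2.continuousOn I
  have i4 : Integrable (fun z => fderiv ℝ φ z 1 * (m z * (v z).im)) :=
    kv_int_dmul_kelvin hφ hc hs hF1.continuousOn 1
  simp_rw [hpt, hpt2]
  rw [integral_sub i1 i2, integral_sub i3 i4, e1, e2]
  ring

theorem kv_det_kelvin (D : ℂ →L[ℝ] ℂ) : D.det = (D 1).re * (D I).im - (D I).re * (D 1).im := by
  unfold ContinuousLinearMap.det
  rw [← LinearMap.det_toMatrix Complex.basisOneI, Matrix.det_fin_two]
  simp [LinearMap.toMatrix_apply, Complex.coe_basisOneI_repr]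

theorem kv_lin_kelvin (B : ℂ →L[ℝ] ℝ) (w : ℂ) : B w = w.re * B 1 + w.im * B I := by
  have h : w = w.re • (1 : ℂ) + w.im • I := by
    apply Complex.ext <;> simp
  conv_lhs => rw [h]
  rw [map_add, map_smul, map_smul, smul_eq_mul, smul_eq_mul]

/-- two by two determinants -/
theorem kv_two_kelvin (D : ℂ →L[ℝ] ℂ) (B : ℂ →L[ℝ] ℝ) (c : ℝ) (v : ℂ) :
    B (D I) * (c * ((starRingEnd ℂ) v * D 1).re) - B (D 1) * (c * ((starRingEnd ℂ) v * D I).re) =
      D.det * (c * (B I * v.re - B 1 * v.im)) := by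
  rw [kv_det_kelvin, kv_lin_kelvin B (D I), kv_lin_kelvin B (D 1)]
  simp only [Complex.mul_re, Complex.conj_re, Complex.conj_im]
  ring

theorem kv_main_kelvin {Γ : Subgroup SL2R} {m : ℂ → ℝ} (hm : ConfMetric Γ m) {u : ℝ → ℂ → ℂ}
    {p : ℝ → ℂ → ℝ} {Φ Ψ : ℝ → ℂ → ℂ} (F : Flow Γ m u p Φ Ψ) (t : ℝ) {φ : ℂ → ℝ}
    (hφ : ContDiff ℝ 1 φ) (hc : HasCompactSupport φ) (hs : tsupport φ ⊆ UH) :
    ∫ z, φ z * (m z * vort m (u t) (Φ t z)) = ∫ z, φ z * (m z * vort m (u 0) z) := by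
  classical
  have hf : ContDiffOn ℝ 1 (Φ t) UH := jc_slice F.smooth t
  have hh : ContDiffOn ℝ 1 (Ψ t) UH := F.ismooth t
  have hv : ContDiffOn ℝ 1 (u t) UH := jc_slice F.sol.u_smooth t
  have hv0 : ContDiffOn ℝ 1 (u 0) UH := jc_slice F.sol.u_smooth 0
  have hmc : ContinuousOn m UH := hm.smooth.continuousOn
  have hmeas : MeasurableSet UH := isOpen_UH.measurableSet
  -- the pushed forward test function
  obtain ⟨ψ, hψ⟩ : ∃ ψ : ℂ → ℝ, ψ = UH.indicator (fun ζ => φ (Ψ t ζ)) := ⟨_, rfl⟩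
  have hψU : ∀ ζ ∈ UH, ψ ζ = φ (Ψ t ζ) := fun ζ hζ => by
    rw [hψ, indicator_of_mem hζ]
  have hψout : ∀ ζ, ζ ∉ UH → ψ ζ = 0 := fun ζ hζ => by
    rw [hψ, indicator_of_notMem hζ]
  have hK : IsCompact (Φ t '' tsupport φ) := by
    have : IsCompact (tsupport φ) := hc
    exact this.image_of_continuousOn (hf.continuousOn.mono hs)
  have hKU : Φ t '' tsupport φ ⊆ UH := by
    rintro _ ⟨z, hz, rfl⟩
    exact F.maps t (hs hz)
  have hsupp : Function.support ψ ⊆ Φ t '' tsupport φ := by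
    intro ζ hζ
    have hζU : ζ ∈ UH := by
      by_contra h
      exact hζ (hψout ζ h)
    refine ⟨Ψ t ζ, ?_, F.right t ζ hζU⟩
    apply subset_tsupport φ
    intro h0
    exact hζ (by rw [hψU ζ hζU]; exact h0)
  have htsupp : tsupport ψ ⊆ Φ t '' tsupport φ := closure_minimal hsupp hK.isClosed
  have hψs : tsupport ψ ⊆ UH := htsupp.trans hKU
  have hψc : HasCompactSupport ψ := hK.of_isClosed_subset (isClosed_tsupport ψ) htsupp
  have hψ1 : ContDiff ℝ 1 ψ := by
    rw [contDiff_iff_contDiffAt]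
    intro ζ
    by_cases hζ : ζ ∈ tsupport ψ
    · have hζU := hψs hζ
      have hnb := isOpen_UH.mem_nhds hζU
      have h1 : ContDiffAt ℝ 1 (fun ζ => φ (Ψ t ζ)) ζ :=
        hφ.contDiffAt.comp ζ (hh.contDiffAt hnb)
      apply h1.congr_of_eventuallyEq
      filter_upwards [hnb] with w hw
      exact hψU w hw
    · have h1 : ψ =ᶠ[𝓝 ζ] fun _ => 0 := notMem_tsupport_iff_eventuallyEq.1 hζ
      exact contDiffAt_const.congr_of_eventuallyEq h1
  have hφψ : ∀ z ∈ UH, φ z = ψ (Φ t z) := fun z hz => by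
    rw [hψU _ (F.maps t hz), F.left t z hz]
  have hdφ : ∀ z ∈ UH, fderiv ℝ φ z = (fderiv ℝ ψ (Φ t z)).comp (fderiv ℝ (Φ t) z) := by
    intro z hz
    have h1 : φ =ᶠ[𝓝 z] fun w => ψ (Φ t w) := by
      filter_upwards [isOpen_UH.mem_nhds hz] with w hw
      exact hφψ w hw
    rw [h1.fderiv_eq]
    have h2 : HasFDerivAt ψ (fderiv ℝ ψ (Φ t z)) (Φ t z) :=
      ((hψ1.differentiable one_ne_zero) _).hasFDerivAt
    exact (h2.comp z (kv_hasF_kelvin hf hz)).fderiv
  -- bijectivity and the change of variables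
  have himg : Φ t '' UH = UH := by
    apply Subset.antisymm
    · rintro _ ⟨z, hz, rfl⟩
      exact F.maps t hz
    · intro ζ hζ
      exact ⟨Ψ t ζ, F.imaps t hζ, F.right t ζ hζ⟩
  have hinj : InjOn (Φ t) UH := by
    intro z hz z' hz' h
    rw [← F.left t z hz, ← F.left t z' hz', h]
  have hdet : ∀ z ∈ UH, |(fderiv ℝ (Φ t) z).det| = (fderiv ℝ (Φ t) z).det := by
    intro z hz
    apply abs_of_nonneg
    have h1 := F.area t z hz
    have h2 := hm.pos z hz
    have h3 := hm.pos _ (F.maps t hz)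
    by_contra hneg
    rw [not_le] at hneg
    have := mul_neg_of_neg_of_pos hneg h3
    linarith
  have hcov : ∀ g : ℂ → ℝ, ∫ ζ in UH, g ζ =
      ∫ z in UH, (fderiv ℝ (Φ t) z).det * g (Φ t z) := by
    intro g
    have h1 := integral_image_eq_integral_abs_det_fderiv_smul (volume : Measure ℂ) hmeas
      (fun z hz => (kv_hasF_kelvin hf hz).hasFDerivWithinAt) hinj g
    rw [himg] at h1
    rw [h1]
    apply setIntegral_congr_fun hmeas
    intro z hz
    show |(fderiv ℝ (Φ t) z).det| • g (Φ t z) = _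
    rw [hdet z hz, smul_eq_mul]
  -- vanishing outside
  have hdφ0 : ∀ z, z ∉ UH → fderiv ℝ φ z = 0 := fun z hz =>
    fderiv_of_notMem_tsupport ℝ (fun h => hz (hs h))
  have hdψ0 : ∀ z, z ∉ UH → fderiv ℝ ψ z = 0 := fun z hz =>
    fderiv_of_notMem_tsupport ℝ (fun h => hz (hψs h))
  have hφ0 : ∀ z, z ∉ UH → φ z = 0 := fun z hz =>
    image_eq_zero_of_notMem_tsupport (fun h => hz (hs h))
  -- step B
  have hα : ∀ e : ℂ, ContinuousOn (fun z => m (Φ t z) *
      ((starRingEnd ℂ) (u t (Φ t z)) * fderiv ℝ (Φ t) z e).re) UH := by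
    intro e
    have a1 : ContinuousOn (fun z => m (Φ t z)) UH := hmc.comp hf.continuousOn (F.maps t)
    have a2 : ContinuousOn (fun z => u t (Φ t z)) UH :=
      hv.continuousOn.comp hf.continuousOn (F.maps t)
    have a3 : ContinuousOn (fun z => fderiv ℝ (Φ t) z e) UH :=
      (kv_cf_kelvin hf).clm_apply continuousOn_const
    exact a1.mul (continuous_re.comp_continuousOn
      ((Complex.continuous_conj.comp_continuousOn a2).mul a3))
  have hα0r : ContinuousOn (fun z => m z * (u 0 z).re) UH :=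
    hmc.mul (continuous_re.comp_continuousOn hv0.continuousOn)
  have hα0i : ContinuousOn (fun z => m z * (u 0 z).im) UH :=
    hmc.mul (continuous_im.comp_continuousOn hv0.continuousOn)
  have hnull := null_lag hφ hc hs (wfun_contDiff hm F t)
  have hpt : ∀ z, fderiv ℝ φ z 1 * fderiv ℝ (wfun m u p Φ t) z I -
      fderiv ℝ φ z I * fderiv ℝ (wfun m u p Φ t) z 1 =
      m z * (fderiv ℝ φ z I * (u 0 z).re - fderiv ℝ φ z 1 * (u 0 z).im) -
      (fderiv ℝ φ z I * (m (Φ t z) *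
        ((starRingEnd ℂ) (u t (Φ t z)) * fderiv ℝ (Φ t) z 1).re) -
      fderiv ℝ φ z 1 * (m (Φ t z) *
        ((starRingEnd ℂ) (u t (Φ t z)) * fderiv ℝ (Φ t) z I).re)) := by
    intro z
    by_cases hz : z ∈ UH
    · rw [(weber hm F t hz).2, (weber hm F t hz).2]
      have e1 : ((starRingEnd ℂ) (u 0 z) * 1).re = (u 0 z).re := by simp
      have e2 : ((starRingEnd ℂ) (u 0 z) * I).re = (u 0 z).im := by simp
      rw [e1, e2]
      ring
    · rw [hdφ0 z hz]
      simp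
  simp_rw [hpt] at hnull
  have j1 : Integrable (fun z => m z * (fderiv ℝ φ z I * (u 0 z).re -
      fderiv ℝ φ z 1 * (u 0 z).im)) := by
    have k1 := (kv_int_dmul_kelvin hφ hc hs hα0r I).sub (kv_int_dmul_kelvin hφ hc hs hα0i 1)
    refine k1.congr (Filter.Eventually.of_forall fun z => ?_)
    show fderiv ℝ φ z I * (m z * (u 0 z).re) - fderiv ℝ φ z 1 * (m z * (u 0 z).im) = _
    ring
  have j2 : Integrable (fun z => fderiv ℝ φ z I * (m (Φ t z) *
        ((starRingEnd ℂ) (u t (Φ t z)) * fderiv ℝ (Φ t) z 1).re) -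
      fderiv ℝ φ z 1 * (m (Φ t z) *
        ((starRingEnd ℂ) (u t (Φ t z)) * fderiv ℝ (Φ t) z I).re)) :=
    (kv_int_dmul_kelvin hφ hc hs (hα 1) I).sub (kv_int_dmul_kelvin hφ hc hs (hα I) 1)
  rw [integral_sub j1 j2, ← kv_star_kelvin hm hv0 hφ hc hs, sub_eq_zero] at hnull
  rw [hnull]
  -- change of variables
  have c1 : ∫ z, (fderiv ℝ φ z I * (m (Φ t z) *
        ((starRingEnd ℂ) (u t (Φ t z)) * fderiv ℝ (Φ t) z 1).re) -
      fderiv ℝ φ z 1 * (m (Φ t z) *
        ((starRingEnd ℂ) (u t (Φ t z)) * fderiv ℝ (Φ t) z I).re)) =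
      ∫ z in UH, (fderiv ℝ (Φ t) z).det * (m (Φ t z) * (fderiv ℝ ψ (Φ t z) I * (u t (Φ t z)).re -
        fderiv ℝ ψ (Φ t z) 1 * (u t (Φ t z)).im)) := by
    rw [← setIntegral_eq_integral_of_forall_compl_eq_zero (s := UH)]
    · apply setIntegral_congr_fun hmeas
      intro z hz
      show fderiv ℝ φ z I * (m (Φ t z) *
        ((starRingEnd ℂ) (u t (Φ t z)) * fderiv ℝ (Φ t) z 1).re) -
        fderiv ℝ φ z 1 * (m (Φ t z) *
        ((starRingEnd ℂ) (u t (Φ t z)) * fderiv ℝ (Φ t) z I).re) = _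
      rw [hdφ z hz]
      exact kv_two_kelvin (fderiv ℝ (Φ t) z) (fderiv ℝ ψ (Φ t z)) (m (Φ t z)) (u t (Φ t z))
    · intro z hz
      rw [hdφ0 z hz]
      simp
  rw [c1, ← hcov (fun ζ => m ζ * (fderiv ℝ ψ ζ I * (u t ζ).re - fderiv ℝ ψ ζ 1 * (u t ζ).im))]
  rw [setIntegral_eq_integral_of_forall_compl_eq_zero (s := UH) (fun ζ hζ => by
    rw [hdψ0 ζ hζ]
    simp)]
  rw [← kv_star_kelvin hm hv hψ1 hψc hψs]
  rw [← setIntegral_eq_integral_of_forall_compl_eq_zero (s := UH)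
    (f := fun z => ψ z * (m z * vort m (u t) z)) (fun ζ hζ => by
    rw [hψout ζ hζ]
    simp)]
  rw [hcov (fun z => ψ z * (m z * vort m (u t) z))]
  rw [← setIntegral_eq_integral_of_forall_compl_eq_zero (s := UH)
    (f := fun z => φ z * (m z * vort m (u t) (Φ t z))) (fun ζ hζ => by
    rw [hφ0 ζ hζ]
    simp)]
  apply setIntegral_congr_fun hmeas
  intro z hz
  show φ z * (m z * vort m (u t) (Φ t z)) =
    (fderiv ℝ (Φ t) z).det * (ψ (Φ t z) * (m (Φ t z) * vort m (u t) (Φ t z)))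
  rw [← hφψ z hz, ← F.area t z hz]
  ring

theorem kelvin {Γ : Subgroup SL2R} {m : ℂ → ℝ} (hm : ConfMetric Γ m) {u : ℝ → ℂ → ℂ}
    {p : ℝ → ℂ → ℝ} {Φ Ψ : ℝ → ℂ → ℂ} (F : Flow Γ m u p Φ Ψ) (t : ℝ) {z : ℂ} (hz : z ∈ UH) :
    vort m (u t) (Φ t z) = vort m (u 0) z := by
  have hf : ContDiffOn ℝ 1 (Φ t) UH := jc_slice F.smooth t
  have hv : ContDiffOn ℝ 1 (u t) UH := jc_slice F.sol.u_smooth t
  have hv0 : ContDiffOn ℝ 1 (u 0) UH := jc_slice F.sol.u_smooth 0
  have hcv : ContinuousOn (fun z => vort m (u t) (Φ t z)) UH :=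
    (kv_vort_cont_kelvin hm hv).comp hf.continuousOn (F.maps t)
  have hcv0 : ContinuousOn (fun z => vort m (u 0) z) UH := kv_vort_cont_kelvin hm hv0
  have hmc : ContinuousOn m UH := hm.smooth.continuousOn
  have hdiff : ContinuousOn (fun z => m z * (vort m (u t) (Φ t z) - vort m (u 0) z)) UH :=
    hmc.mul (hcv.sub hcv0)
  have hae : ∀ᵐ z ∂(volume : Measure ℂ), z ∈ UH →
      m z * (vort m (u t) (Φ t z) - vort m (u 0) z) = 0 := by
    apply IsOpen.ae_eq_zero_of_integral_contDiff_smul_eq_zero isOpen_UH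
      (hdiff.locallyIntegrableOn isOpen_UH.measurableSet)
    intro φ hφ hc hs
    have hφ1 : ContDiff ℝ 1 φ := hφ.of_le (by exact_mod_cast le_top)
    have h1 := kv_main_kelvin hm F t hφ1 hc hs
    have i1 : Integrable (fun z => φ z * (m z * vort m (u t) (Φ t z))) :=
      kv_int_mul_kelvin hφ1.continuous hc hs (hmc.mul hcv)
    have i2 : Integrable (fun z => φ z * (m z * vort m (u 0) z)) :=
      kv_int_mul_kelvin hφ1.continuous hc hs (hmc.mul hcv0)
    have h2 : ∀ z, φ z • (m z * (vort m (u t) (Φ t z) - vort m (u 0) z)) =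
        φ z * (m z * vort m (u t) (Φ t z)) - φ z * (m z * vort m (u 0) z) := by
      intro z
      rw [smul_eq_mul]
      ring
    simp_rw [h2]
    rw [integral_sub i1 i2, h1, sub_self]
  have heq : EqOn (fun z => m z * (vort m (u t) (Φ t z) - vort m (u 0) z)) (fun _ => 0) UH := by
    apply MeasureTheory.Measure.eqOn_open_of_ae_eq (μ := volume) _ isOpen_UH hdiff
      continuousOn_const
    rw [Filter.EventuallyEq, ae_restrict_iff' isOpen_UH.measurableSet]
    exact hae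
  have h3 : m z * (vort m (u t) (Φ t z) - vort m (u 0) z) = 0 := heq hz
  have h4 := mul_eq_zero.1 h3
  rcases h4 with h4 | h4
  · exact absurd h4 (hm.pos z hz).ne'
  · linarith

end Pool.Agent.Helper131.CG
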