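import Pool.Agent.Helper131.CG.Base
import Pool.Agent.Helper131.CG.L_disp
import Pool.Agent.Helper131.CG.L_lin

namespace Pool.Agent.Helper131.CG

open Complex MeasureTheory Set Filter Topology
open scoped ContDiff

/-- Hadamard quotient in the direction `I`, argument `(s, t)` -/
noncomputable def Hd10706_winding (f : ℝ → ℂ → ℂ) (z : ℂ) (q : ℝ × ℝ) : ℂ :=
  ∫ σ in (0:ℝ)..1, fderiv ℝ (f q.2) (z + ((max σ 0 * max q.1 0 : ℝ) : ℂ) * I) I

lemma pt_mem_10706_winding {z : ℂ} (hz : z ∈ UH) (a b : ℝ) :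
    z + ((max a 0 * max b 0 : ℝ) : ℂ) * I ∈ UH := by
  have h1 : 0 < z.im := hz
  have h2 : 0 ≤ max a 0 * max b 0 := mul_nonneg (le_max_right _ _) (le_max_right _ _)
  show 0 < (z + ((max a 0 * max b 0 : ℝ) : ℂ) * I).im
  have h3 : (z + ((max a 0 * max b 0 : ℝ) : ℂ) * I).im = z.im + max a 0 * max b 0 := by
    rw [add_im, im_ofReal_mul, I_im, mul_one]
  rw [h3]
  linarith

lemma Hd_cont_10706_winding {f : ℝ → ℂ → ℂ}
    (hf : ContDiffOn ℝ 1 (fun q : ℝ × ℂ => f q.1 q.2) (univ ×ˢ UH)) {z : ℂ} (hz : z ∈ UH) :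
    Continuous (Hd10706_winding f z) := by
  unfold Hd10706_winding
  apply intervalIntegral.continuous_parametric_intervalIntegral_of_continuous'
  have h1 : Continuous (fun x : (ℝ × ℝ) × ℝ =>
      ((x.1.2, z + ((max x.2 0 * max x.1.1 0 : ℝ) : ℂ) * I) : ℝ × ℂ)) := by fun_prop
  have h2 := (jc_fderiv hf).comp_continuous h1 (fun x => ⟨mem_univ _, pt_mem_10706_winding hz _ _⟩)
  exact h2.clm_apply continuous_const

lemma Hd_mul_10706_winding {f : ℝ → ℂ → ℂ}
    (hf : ContDiffOn ℝ 1 (fun q : ℝ × ℂ => f q.1 q.2) (univ ×ˢ UH)) {z : ℂ} (hz : z ∈ UH)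
    (s t : ℝ) (hs : 0 ≤ s) :
    (s : ℂ) * Hd10706_winding f z (s, t) = f t (z + (s : ℂ) * I) - f t z := by
  have hcont : Continuous (fun σ : ℝ =>
      fderiv ℝ (f t) (z + ((max σ 0 * max s 0 : ℝ) : ℂ) * I) I) := by
    have h1 : Continuous (fun σ : ℝ =>
      ((t, z + ((max σ 0 * max s 0 : ℝ) : ℂ) * I) : ℝ × ℂ)) := by fun_prop
    have h2 := (jc_fderiv hf).comp_continuous h1 (fun x => ⟨mem_univ _, pt_mem_10706_winding hz _ _⟩)
    exact h2.clm_apply continuous_const
  have hd : ∀ σ ∈ uIcc (0 : ℝ) 1, HasDerivAt (fun σ : ℝ => f t (z + ((σ * s : ℝ) : ℂ) * I))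
      ((s : ℂ) * fderiv ℝ (f t) (z + ((max σ 0 * max s 0 : ℝ) : ℂ) * I) I) σ := by
    intro σ hσ
    rw [uIcc_of_le zero_le_one] at hσ
    have e1 : max σ 0 * max s 0 = σ * s := by rw [max_eq_left hσ.1, max_eq_left hs]
    have hmem := pt_mem_10706_winding hz σ s
    rw [e1] at hmem ⊢
    have h1 := jc_hasFDerivAt hf t hmem
    have h2 : HasDerivAt (fun σ : ℝ => z + ((σ * s : ℝ) : ℂ) * I) ((s : ℂ) * I) σ := by
      have h3 : HasDerivAt (fun σ : ℝ => ((σ * s : ℝ) : ℂ)) ((s : ℝ) : ℂ) σ := by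
        have h4 := (hasDerivAt_id σ).mul_const s
        simp only [id, one_mul] at h4
        exact h4.ofReal_comp
      exact (h3.mul_const I).const_add z
    have h5 := h1.comp_hasDerivAt σ h2
    have h6 : (s : ℂ) * I = (s : ℝ) • I := by rw [real_smul]
    rw [h6, map_smul, real_smul] at h5
    exact h5
  have hint : IntervalIntegrable (fun σ : ℝ =>
      (s : ℂ) * fderiv ℝ (f t) (z + ((max σ 0 * max s 0 : ℝ) : ℂ) * I) I) volume 0 1 :=
    (continuous_const.mul hcont).intervalIntegrable _ _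
  have h := intervalIntegral.integral_eq_sub_of_hasDerivAt hd hint
  unfold Hd10706_winding
  rw [← intervalIntegral.integral_const_mul, h]
  simp

lemma Hd_zero_10706_winding (f : ℝ → ℂ → ℂ) (z : ℂ) (t : ℝ) :
    Hd10706_winding f z (0, t) = fderiv ℝ (f t) z I := by
  unfold Hd10706_winding
  simp

lemma exp_int_10706_winding (Q N : ℝ → ℂ) (hN : Continuous N) (hQ : ∀ t, Q t ≠ 0)
    (hd : ∀ t, HasDerivAt Q (N t) t) (T : ℝ) :
    Q T = Q 0 * exp (∫ t in (0 : ℝ)..T, N t / Q t) := by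
  have hQc : Continuous Q := continuous_iff_continuousAt.mpr fun t => (hd t).continuousAt
  have hc : Continuous (fun t => N t / Q t) := hN.div hQc hQ
  have hJ : ∀ t, HasDerivAt (fun x => ∫ t in (0 : ℝ)..x, N t / Q t) (N t / Q t) t := fun t =>
    intervalIntegral.integral_hasDerivAt_right (hc.intervalIntegrable _ _)
      (hc.stronglyMeasurableAtFilter _ _) hc.continuousAt
  have hG : ∀ t, HasDerivAt (fun x => Q x * exp (-∫ t in (0 : ℝ)..x, N t / Q t)) 0 t := by
    intro t
    have h1 := (hd t).mul ((hJ t).neg.cexp)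
    refine h1.congr_deriv ?_
    have := hQ t
    field_simp
    ring
  have hconst := is_const_of_deriv_eq_zero (fun t => (hG t).differentiableAt)
    (fun t => (hG t).deriv) T 0
  simp only [intervalIntegral.integral_same, neg_zero, exp_zero, mul_one] at hconst
  rw [← hconst, mul_assoc, ← exp_add, neg_add_cancel, exp_zero, mul_one]

theorem winding {Γ : Subgroup SL2R} (hΓ : SurfaceGroup Γ) {m : ℂ → ℝ} {u : ℝ → ℂ → ℂ}
    {p : ℝ → ℂ → ℝ} {Φ Ψ : ℝ → ℂ → ℂ} (F : Flow Γ m u p Φ Ψ) {T : ℝ} (hT : 0 < T)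
    (hret : ∀ z ∈ UH, Φ T z = z) {z : ℂ} (hz : z ∈ UH) :
    ∫ t in (0 : ℝ)..T, (fderiv ℝ (u t) (Φ t z) (fderiv ℝ (Φ t) z I) / fderiv ℝ (Φ t) z I).im
      = 0 := by
  have hz0 : 0 < z.im := hz
  have hΦ := F.smooth
  set f : ℝ → ℂ → ℂ := fun t w => u t (Φ t w) with hfdef
  have hf : ContDiffOn ℝ 1 (fun q : ℝ × ℂ => f q.1 q.2) (univ ×ˢ UH) := by
    have h1 : ContDiffOn ℝ 1 (fun q : ℝ × ℂ => ((q.1, Φ q.1 q.2) : ℝ × ℂ)) (univ ×ˢ UH) :=
      contDiffOn_fst.prodMk hΦ
    exact F.sol.u_smooth.comp h1 (fun q hq => ⟨mem_univ _, F.maps q.1 hq.2⟩)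
  set Q : ℝ × ℝ → ℂ := Hd10706_winding Φ z with hQdef
  set N : ℝ × ℝ → ℂ := Hd10706_winding f z with hNdef
  have hQc : Continuous Q := Hd_cont_10706_winding hΦ hz
  have hNc : Continuous N := Hd_cont_10706_winding hf hz
  have hmem : ∀ s : ℝ, 0 ≤ s → z + (s : ℂ) * I ∈ UH := by
    intro s hs
    show 0 < (z + (s : ℂ) * I).im
    have h3 : (z + (s : ℂ) * I).im = z.im + s := by
      rw [add_im, im_ofReal_mul, I_im, mul_one]
    rw [h3]
    linarith
  have hQpos : ∀ s : ℝ, 0 < s → ∀ t, Q (s, t) = (Φ t (z + (s : ℂ) * I) - Φ t z) / (s : ℂ) := by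
    intro s hs t
    have h1 := Hd_mul_10706_winding hΦ hz s t hs.le
    rw [← h1, mul_div_cancel_left₀]
    exact_mod_cast hs.ne'
  have hNpos : ∀ s : ℝ, 0 < s → ∀ t, N (s, t) = (f t (z + (s : ℂ) * I) - f t z) / (s : ℂ) := by
    intro s hs t
    have h1 := Hd_mul_10706_winding hf hz s t hs.le
    rw [← h1, mul_div_cancel_left₀]
    exact_mod_cast hs.ne'
  have hQ0 : ∀ t, Q (0, t) = fderiv ℝ (Φ t) z I := fun t => Hd_zero_10706_winding Φ z t
  have hN0 : ∀ t, N (0, t) = fderiv ℝ (u t) (Φ t z) (fderiv ℝ (Φ t) z I) := by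
    intro t
    rw [hNdef, Hd_zero_10706_winding]
    have h1 := jc_hasFDerivAt hΦ t hz
    have h2 := jc_hasFDerivAt F.sol.u_smooth t (F.maps t hz)
    have h3 : HasFDerivAt (f t) ((fderiv ℝ (u t) (Φ t z)).comp (fderiv ℝ (Φ t) z)) z :=
      h2.comp z h1
    rw [h3.fderiv]
    rfl
  have hQneg : ∀ s : ℝ, s ≤ 0 → ∀ t, Q (s, t) = Q (0, t) := by
    intro s hs t
    simp only [hQdef, Hd10706_winding]
    rw [max_eq_right hs, max_self]
  have hQne0 : ∀ t, Q (0, t) ≠ 0 := by
    intro t h0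
    rw [hQ0] at h0
    have h1 := jc_hasFDerivAt hΦ t hz
    have h2 : HasFDerivAt (Ψ t) (fderiv ℝ (Ψ t) (Φ t z)) (Φ t z) := by
      have h3 := ((F.ismooth t).differentiableOn one_ne_zero).differentiableAt
        (isOpen_UH.mem_nhds (F.maps t hz))
      exact h3.hasFDerivAt
    have h4 : HasFDerivAt (fun w => Ψ t (Φ t w))
        ((fderiv ℝ (Ψ t) (Φ t z)).comp (fderiv ℝ (Φ t) z)) z := h2.comp z h1
    have h5 : HasFDerivAt (fun w => Ψ t (Φ t w)) (ContinuousLinearMap.id ℝ ℂ) z := by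
      refine (hasFDerivAt_id z).congr_of_eventuallyEq ?_
      filter_upwards [isOpen_UH.mem_nhds hz] with w hw
      exact F.left t w hw
    have h6 := congrArg (fun L : ℂ →L[ℝ] ℂ => L I) (h4.unique h5)
    simp only [ContinuousLinearMap.comp_apply, h0, map_zero, ContinuousLinearMap.id_apply] at h6
    exact I_ne_zero h6.symm
  have hQne : ∀ x : ℝ × ℝ, Q x ≠ 0 := by
    rintro ⟨s, t⟩
    rcases le_or_gt s 0 with hs | hs
    · rw [hQneg s hs]
      exact hQne0 t
    · rw [hQpos s hs]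
      refine div_ne_zero ?_ (by exact_mod_cast hs.ne')
      intro h0
      have h1 : Φ t (z + (s : ℂ) * I) = Φ t z := sub_eq_zero.mp h0
      have h2 := congrArg (Ψ t) h1
      rw [F.left t _ (hmem s hs.le), F.left t z hz] at h2
      have h3 : (s : ℂ) * I = 0 := by
        have := sub_eq_zero.mpr h2
        simpa using this
      rcases mul_eq_zero.mp h3 with h4 | h4
      · exact hs.ne' (by exact_mod_cast h4)
      · exact I_ne_zero h4
  have hder : ∀ s : ℝ, 0 < s → ∀ t, HasDerivAt (fun t => Q (s, t)) (N (s, t)) t := by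
    intro s hs t
    have h1 : (fun t => Q (s, t)) = fun t => (Φ t (z + (s : ℂ) * I) - Φ t z) / (s : ℂ) := by
      funext t
      exact hQpos s hs t
    rw [h1, hNpos s hs]
    exact ((F.flow t _ (hmem s hs.le)).sub (F.flow t z hz)).div_const _
  have hQper : ∀ s : ℝ, 0 < s → Q (s, T) = Q (s, 0) := by
    intro s hs
    rw [hQpos s hs, hQpos s hs, hret _ (hmem s hs.le), hret z hz, F.zero _ (hmem s hs.le),
      F.zero z hz]
  have hNQ : Continuous (fun x : ℝ × ℝ => N x / Q x) := hNc.div hQc hQne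
  set J : ℝ → ℂ := fun s => ∫ t in (0 : ℝ)..T, N (s, t) / Q (s, t) with hJdef
  have hJc : Continuous J := by
    apply intervalIntegral.continuous_parametric_intervalIntegral_of_continuous'
    exact hNQ
  have hexp : ∀ s : ℝ, 0 < s → exp (J s) = 1 := by
    intro s hs
    have h1 := exp_int_10706_winding (fun t => Q (s, t)) (fun t => N (s, t))
      (hNc.comp (by fun_prop)) (fun t => hQne _) (hder s hs) T
    have h2 : Q (s, 0) * exp (J s) = Q (s, 0) * 1 := by
      rw [mul_one]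
      exact h1.symm.trans (hQper s hs)
    exact mul_left_cancel₀ (hQne _) h2
  have hexp' : ∀ s : ℝ, 0 ≤ s → exp (J s) = 1 := by
    intro s hs
    have hcl : IsClosed {s : ℝ | exp (J s) = 1} :=
      isClosed_eq (continuous_exp.comp hJc) continuous_const
    have h1 : closure (Ioi (0 : ℝ)) ⊆ {s : ℝ | exp (J s) = 1} :=
      closure_minimal (fun x hx => hexp x hx) hcl
    rw [closure_Ioi] at h1
    exact h1 hs
  have hint : ∀ s : ℝ, 0 ≤ s → ∃ n : ℤ, (J s).im / (2 * Real.pi) = n := by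
    intro s hs
    obtain ⟨n, hn⟩ := exp_eq_one_iff.mp (hexp' s hs)
    refine ⟨n, ?_⟩
    have h1 : (J s).im = n * (2 * Real.pi) := by
      rw [hn]
      simp
    rw [h1]
    field_simp
  obtain ⟨c, hc, hcc⟩ := disp_im hΓ hΦ.continuousOn F.maps F.comm T
  set S : ℝ := z.im / c ^ 2 + 1 with hSdef
  have hS : 0 < S := by positivity
  have hSim : ∀ t ∈ Icc (0 : ℝ) T, 0 < (Q (S, t)).im := by
    intro t ht
    rw [hQpos S hS]
    have h1 := (hcc t ht _ (hmem S hS.le)).1
    have h2 := (hcc t ht z hz).2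
    have h3 : (z + (S : ℂ) * I).im = z.im + S := by
      rw [add_im, im_ofReal_mul, I_im, mul_one]
    rw [h3] at h1
    have h4 : ((Φ t (z + (S : ℂ) * I) - Φ t z) / (S : ℂ)).im =
        ((Φ t (z + (S : ℂ) * I)).im - (Φ t z).im) / S := by
      rw [div_ofReal_im, sub_im]
    rw [h4]
    apply div_pos _ hS
    have h5 : (Φ t z).im ≤ z.im / c := by
      rw [le_div_iff₀ hc]
      linarith
    have h6 : z.im / c < c * (z.im + S) := by
      have h7 : c * S = z.im / c + c := by
        rw [hSdef]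
        field_simp
      have h8 : 0 < c * z.im := by positivity
      nlinarith
    linarith
  have hJS : J S = 0 := by
    have h1 : ∀ t ∈ uIcc (0 : ℝ) T, HasDerivAt (fun t => log (Q (S, t)))
        (N (S, t) / Q (S, t)) t := by
      intro t ht
      rw [uIcc_of_le hT.le] at ht
      exact (hder S hS t).clog_real (Or.inr (hSim t ht).ne')
    have h2 := intervalIntegral.integral_eq_sub_of_hasDerivAt h1
      ((hNQ.comp (by fun_prop : Continuous fun t : ℝ => (S, t))).intervalIntegrable _ _)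
    rw [hJdef]
    show ∫ t in (0 : ℝ)..T, N (S, t) / Q (S, t) = 0
    rw [h2, hQper S hS, sub_self]
  have hJ0 : (J 0).im = 0 := by
    by_contra hne
    obtain ⟨n, hn⟩ := hint 0 le_rfl
    have hcont : ContinuousOn (fun s => (J s).im / (2 * Real.pi)) (Icc 0 S) := by
      apply Continuous.continuousOn
      exact (continuous_im.comp hJc).div_const _
    have hn0 : n ≠ 0 := by
      intro h0
      rw [h0, Int.cast_zero, div_eq_zero_iff] at hn
      rcases hn with h | h
      · exact hne h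
      · have := Real.pi_pos
        linarith
    have hSval : (J S).im / (2 * Real.pi) = 0 := by rw [hJS]; simp
    rcases lt_or_gt_of_ne hn0 with hneg | hpos
    · have h1 : (n : ℝ) ≤ -1 := by
        have : n ≤ -1 := by omega
        exact_mod_cast this
      have h2 : (-(1 / 2) : ℝ) ∈ Icc ((J 0).im / (2 * Real.pi)) ((J S).im / (2 * Real.pi)) := by
        rw [hn, hSval]
        constructor <;> linarith
      obtain ⟨s, hs, hs2⟩ := intermediate_value_Icc hS.le hcont h2
      obtain ⟨k, hk⟩ := hint s hs.1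
      have h3 : (k : ℝ) = -(1 / 2) := by
        rw [← hk]
        exact hs2
      have h4 : (2 * k : ℝ) = -1 := by linarith
      have h5 : (2 * k : ℤ) = -1 := by exact_mod_cast h4
      omega
    · have h1 : (1 : ℝ) ≤ n := by
        have : 1 ≤ n := by omega
        exact_mod_cast this
      have h2 : (1 / 2 : ℝ) ∈ Icc ((J S).im / (2 * Real.pi)) ((J 0).im / (2 * Real.pi)) := by
        rw [hn, hSval]
        constructor <;> linarith
      obtain ⟨s, hs, hs2⟩ := intermediate_value_Icc' hS.le hcont h2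
      obtain ⟨k, hk⟩ := hint s hs.1
      have h3 : (k : ℝ) = 1 / 2 := by
        rw [← hk]
        exact hs2
      have h4 : (2 * k : ℝ) = 1 := by linarith
      have h5 : (2 * k : ℤ) = 1 := by exact_mod_cast h4
      omega
  have hfin : ∫ t in (0 : ℝ)..T, (N (0, t) / Q (0, t)).im = (J 0).im := by
    have h1 := imCLM.intervalIntegral_comp_comm (μ := volume) (a := 0) (b := T)
      (f := fun t => N (0, t) / Q (0, t))
      ((hNQ.comp (by fun_prop : Continuous fun t : ℝ => ((0 : ℝ), t))).intervalIntegrable _ _)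
    exact h1
  rw [hJ0] at hfin
  refine Eq.trans ?_ hfin
  apply intervalIntegral.integral_congr
  intro t _
  simp only [hQ0, hN0]

end Pool.Agent.Helper131.CG
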