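import Pool.Agent.Helper131.CG.Base
import Pool.Agent.Helper131.CG.L_kelvin
import Pool.Agent.Helper131.CG.L_lin
import Pool.Agent.Helper131.CG.L_winding

namespace Pool.Agent.Helper131.CG

open Complex MeasureTheory Set Filter Topology
open scoped ContDiff

theorem pineq_lin_pineq (A : ℂ →L[ℝ] ℂ) {δ : ℂ} (hδ : δ ≠ 0) :
    (A δ / δ).im = ((A 1).im - (A I).re) / 2
      + (((A 1 + I * A I) / 2) * (starRingEnd ℂ δ) / δ).im := by
  have h1 : A δ = (δ.re : ℂ) * A 1 + (δ.im : ℂ) * A I := by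
    have : δ = δ.re • (1 : ℂ) + δ.im • I := by
      apply Complex.ext <;> simp
    conv_lhs => rw [this]
    rw [map_add, map_smul, map_smul]
    simp [Complex.real_smul]
  have h2 : A δ / δ = (A 1 - I * A I) / 2 + ((A 1 + I * A I) / 2) * (starRingEnd ℂ δ) / δ := by
    rw [div_eq_iff hδ, add_mul, div_mul_cancel₀ _ hδ, h1]
    have e1 : starRingEnd ℂ δ = (δ.re : ℂ) - (δ.im : ℂ) * I := by
      apply Complex.ext <;> simp
    have e2 : δ = (δ.re : ℂ) + (δ.im : ℂ) * I := (Complex.re_add_im δ).symm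
    generalize hx : (δ.re : ℂ) = x at *
    generalize hy : (δ.im : ℂ) = y at *
    rw [e1, e2]
    linear_combination (y * A I) * Complex.I_sq
  rw [h2, Complex.add_im]
  congr 1
  simp [Complex.sub_im, Complex.mul_im]

theorem pineq_bound_pineq {β δ : ℂ} (hδ : δ ≠ 0) :
    |((β * (starRingEnd ℂ δ) / δ).im)| ≤ ‖β‖ := by
  refine (Complex.abs_im_le_norm _).trans ?_
  rw [norm_div, norm_mul, Complex.norm_conj, mul_div_assoc, div_self (norm_ne_zero_iff.2 hδ), mul_one]

theorem pineq_pz_pineq {Γ : Subgroup SL2R} {m : ℂ → ℝ} (hm : ConfMetric Γ m) :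
    ContinuousOn (pz m) UH := by
  have h1 : ContDiffOn ℝ ∞ (Lm m) UH := hm.smooth.log fun z hz => (hm.pos z hz).ne'
  have h2 : ContinuousOn (fderiv ℝ (Lm m)) UH :=
    h1.continuousOn_fderiv_of_isOpen isOpen_UH (by simp)
  unfold pz
  have h3 : ∀ v : ℂ, ContinuousOn (fun z => ((fderiv ℝ (Lm m) z v : ℝ) : ℂ)) UH := fun v =>
    Complex.continuous_ofReal.comp_continuousOn (h2.clm_apply continuousOn_const)
  exact ((h3 1).sub ((h3 I).mul continuousOn_const)).div_const 2

theorem pineq {Γ : Subgroup SL2R} (hΓ : SurfaceGroup Γ) {m : ℂ → ℝ} (hm : ConfMetric Γ m)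
    {u : ℝ → ℂ → ℂ} {p : ℝ → ℂ → ℝ} {Φ Ψ : ℝ → ℂ → ℂ} (F : Flow Γ m u p Φ Ψ) {T : ℝ}
    (hT : 0 < T) (hret : ∀ z ∈ UH, Φ T z = z) {z : ℂ} (hz : z ∈ UH) :
    0 ≤ (∫ t in (0 : ℝ)..T, (‖dbar (u t) (Φ t z)‖ ^ 2 - vort m (u t) (Φ t z) ^ 2 / 4))
      + vort m (u 0) z * Afun m u Φ T z := by
  have hΦc : Continuous (fun t => Φ t z) :=
    continuous_iff_continuousAt.2 fun t => (F.flow t z hz).continuousAt
  have hpath : Continuous (fun t => ((t, Φ t z) : ℝ × ℂ)) := continuous_id.prodMk hΦc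
  have hmem : ∀ t, ((t, Φ t z) : ℝ × ℂ) ∈ (univ ×ˢ UH : Set (ℝ × ℂ)) :=
    fun t => ⟨mem_univ _, F.maps t hz⟩
  have hA : Continuous (fun t => fderiv ℝ (u t) (Φ t z)) :=
    (jc_fderiv F.sol.u_smooth).comp_continuous hpath hmem
  have hδc : Continuous (fun t => fderiv ℝ (Φ t) z I) :=
    ((jc_fderiv F.smooth).comp_continuous
      (continuous_id.prodMk continuous_const : Continuous (fun t : ℝ => ((t, z) : ℝ × ℂ)))
      (fun t => ⟨mem_univ _, hz⟩)).clm_apply continuous_const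
  have hu : Continuous (fun t => u t (Φ t z)) :=
    (F.sol.u_smooth.continuousOn).comp_continuous hpath hmem
  have hpz : Continuous (fun t => pz m (Φ t z)) :=
    (pineq_pz_pineq hm).comp_continuous hΦc (fun t => F.maps t hz)
  have hδ0 : ∀ t, fderiv ℝ (Φ t) z I ≠ 0 := by
    intro t h0
    have h1 : HasFDerivAt (Φ t) (fderiv ℝ (Φ t) z) z := jc_hasFDerivAt F.smooth t hz
    have h2 : HasFDerivAt (Ψ t) (fderiv ℝ (Ψ t) (Φ t z)) (Φ t z) :=
      (((F.ismooth t).differentiableOn (by simp)).differentiableAt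
        (isOpen_UH.mem_nhds (F.maps t hz))).hasFDerivAt
    have h3 := h2.comp z h1
    have h4 : HasFDerivAt (Ψ t ∘ Φ t) (ContinuousLinearMap.id ℝ ℂ) z := by
      refine (hasFDerivAt_id z).congr_of_eventuallyEq ?_
      filter_upwards [isOpen_UH.mem_nhds hz] with w hw
      exact F.left t w hw
    have h5 := h3.unique h4
    have h6 := congrArg (fun L : ℂ →L[ℝ] ℂ => L I) h5
    simp [h0] at h6
    exact Complex.I_ne_zero h6.symm
  set ω0 : ℝ := vort m (u 0) z with hω
  set W : ℝ → ℝ := fun t => (fderiv ℝ (u t) (Φ t z) (fderiv ℝ (Φ t) z I) / fderiv ℝ (Φ t) z I).im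
    with hW
  set P : ℝ → ℝ := fun t => (pz m (Φ t z) * u t (Φ t z)).im with hP
  set B : ℝ → ℝ := fun t => ‖dbar (u t) (Φ t z)‖ ^ 2 with hB
  have hWc : Continuous W :=
    Complex.continuous_im.comp ((hA.clm_apply hδc).div hδc hδ0)
  have hPc : Continuous P := Complex.continuous_im.comp (hpz.mul hu)
  have hBc : Continuous B := by
    have : Continuous (fun t => dbar (u t) (Φ t z)) := by
      unfold dbar
      exact ((hA.clm_apply continuous_const).add
        (continuous_const.mul (hA.clm_apply continuous_const))).div_const 2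
    exact this.norm.pow 2
  have hpt : ∀ t, 0 ≤ (B t - ω0 ^ 2 / 4) + ω0 * W t + ω0 * P t := by
    intro t
    have h1 := pineq_lin_pineq (fderiv ℝ (u t) (Φ t z)) (hδ0 t)
    have h2 := kelvin hm F t hz
    rw [← hω] at h2
    unfold vort at h2
    have h3 := pineq_bound_pineq (β := dbar (u t) (Φ t z)) (hδ0 t)
    set s : ℝ := (dbar (u t) (Φ t z) * (starRingEnd ℂ (fderiv ℝ (Φ t) z I)) / fderiv ℝ (Φ t) z I).im
      with hs
    have h4 : W t = ω0 / 2 - P t + s := by
      simp only [hW, hP]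
      rw [h1]
      have : ((fderiv ℝ (u t) (Φ t z) 1 + I * fderiv ℝ (u t) (Φ t z) I) / 2) = dbar (u t) (Φ t z) := rfl
      rw [this, ← hs]
      linarith
    have h5 : s ^ 2 ≤ B t := by
      simp only [hB]
      rw [← sq_abs s]
      exact pow_le_pow_left₀ (abs_nonneg _) h3 2
    rw [h4]
    nlinarith [sq_nonneg (s + ω0 / 2)]
  have hint : 0 ≤ ∫ t in (0 : ℝ)..T, ((B t - ω0 ^ 2 / 4) + ω0 * W t + ω0 * P t) :=
    intervalIntegral.integral_nonneg hT.le fun t _ => hpt t
  have e1 : ∫ t in (0 : ℝ)..T, ((B t - ω0 ^ 2 / 4) + ω0 * W t + ω0 * P t)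
      = (∫ t in (0 : ℝ)..T, (B t - ω0 ^ 2 / 4)) + ω0 * (∫ t in (0 : ℝ)..T, W t)
        + ω0 * ∫ t in (0 : ℝ)..T, P t := by
    have i1 : IntervalIntegrable (fun t => B t - ω0 ^ 2 / 4) volume 0 T :=
      (hBc.sub continuous_const).intervalIntegrable _ _
    have i2 : IntervalIntegrable (fun t => ω0 * W t) volume 0 T :=
      (continuous_const.mul hWc).intervalIntegrable _ _
    have i3 : IntervalIntegrable (fun t => ω0 * P t) volume 0 T :=
      (continuous_const.mul hPc).intervalIntegrable _ _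
    rw [intervalIntegral.integral_add (i1.add i2) i3, intervalIntegral.integral_add i1 i2,
      intervalIntegral.integral_const_mul, intervalIntegral.integral_const_mul]
  have e2 : ∫ t in (0 : ℝ)..T, W t = 0 := winding hΓ F hT hret hz
  have e3 : (∫ t in (0 : ℝ)..T, P t) = Afun m u Φ T z := rfl
  have e4 : (∫ t in (0 : ℝ)..T, (‖dbar (u t) (Φ t z)‖ ^ 2 - vort m (u t) (Φ t z) ^ 2 / 4))
      = ∫ t in (0 : ℝ)..T, (B t - ω0 ^ 2 / 4) := by
    apply intervalIntegral.integral_congr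
    intro t _
    simp only [hB]
    rw [kelvin hm F t hz]
  rw [e1, e2, e3] at hint
  rw [e4]
  linarith

end Pool.Agent.Helper131.CG
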