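import Pool.Agent.Helper131.CG.Tools
import Pool.Agent.Helper131.CG.L_exists_cut
import Pool.Agent.Helper131.CG.L_field_equiv
import Pool.Agent.Helper131.CG.L_bochner
import Pool.Agent.Helper131.CG.L_pineq
import Pool.Agent.Helper131.CG.L_AG
import Pool.Agent.Helper131.CG.L_energy
import Pool.Agent.Helper131.CG.L_swap
import Pool.Agent.Helper131.CG.L_int_inv
import Pool.Agent.Helper131.CG.L_D0
import Pool.Agent.Helper131.CG.L_dw_field
import Pool.Agent.Helper131.CG.L_hyp_metric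
import Pool.Agent.Helper131.CG.L_A1c

namespace Pool.Agent.Helper131.CG

open Complex MeasureTheory Set Filter Topology
open scoped ContDiff

theorem continuousOn_dbar {v : ℂ → ℂ} (hv : ContDiffOn ℝ 1 v UH) : ContinuousOn (dbar v) UH := by
  have h1 : ContinuousOn (fderiv ℝ v) UH := hv.continuousOn_fderiv_of_isOpen isOpen_UH (by norm_num)
  exact ((h1.clm_apply continuousOn_const).add
    (continuousOn_const.mul (h1.clm_apply continuousOn_const))).div_const 2

theorem continuousOn_vort {Γ : Subgroup SL2R} {m : ℂ → ℝ} (hm : ConfMetric Γ m) {v : ℂ → ℂ}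
    (hv : ContDiffOn ℝ 1 v UH) : ContinuousOn (vort m v) UH := by
  have h1 : ContinuousOn (fderiv ℝ v) UH := hv.continuousOn_fderiv_of_isOpen isOpen_UH (by norm_num)
  have h2 : ContinuousOn (fun z => (fderiv ℝ v z 1).im) UH :=
    Complex.continuous_im.comp_continuousOn (h1.clm_apply continuousOn_const)
  have h3 : ContinuousOn (fun z => (fderiv ℝ v z I).re) UH :=
    Complex.continuous_re.comp_continuousOn (h1.clm_apply continuousOn_const)
  have h4 : ContinuousOn (fun z => (pz m z * v z).im) UH :=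
    Complex.continuous_im.comp_continuousOn ((contDiffOn_pz hm).continuousOn.mul hv.continuousOn)
  exact (h2.sub h3).add (continuousOn_const.mul h4)

section
variable {Γ : Subgroup SL2R} {m : ℂ → ℝ} {u : ℝ → ℂ → ℂ} {p : ℝ → ℂ → ℝ} {Φ Ψ : ℝ → ℂ → ℂ}

theorem cont_uΦ (F : Flow Γ m u p Φ Ψ) :
    ContinuousOn (fun q : ℝ × ℂ => u q.1 (Φ q.1 q.2)) (univ ×ˢ UH) :=
  F.sol.u_smooth.continuousOn.comp (continuousOn_fst.prodMk F.smooth.continuousOn)
    fun q hq => ⟨mem_univ _, F.maps q.1 hq.2⟩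

theorem cont_DuΦ (F : Flow Γ m u p Φ Ψ) :
    ContinuousOn (fun q : ℝ × ℂ => fderiv ℝ (u q.1) (Φ q.1 q.2)) (univ ×ˢ UH) :=
  (jc_fderiv F.sol.u_smooth).comp (continuousOn_fst.prodMk F.smooth.continuousOn)
    fun q hq => ⟨mem_univ _, F.maps q.1 hq.2⟩

theorem cont_dbarΦ (F : Flow Γ m u p Φ Ψ) :
    ContinuousOn (fun q : ℝ × ℂ => dbar (u q.1) (Φ q.1 q.2)) (univ ×ˢ UH) := by
  have h1 := cont_DuΦ F
  exact ((h1.clm_apply continuousOn_const).add
    (continuousOn_const.mul (h1.clm_apply continuousOn_const))).div_const 2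

theorem cont_vortΦ (hm : ConfMetric Γ m) (F : Flow Γ m u p Φ Ψ) :
    ContinuousOn (fun q : ℝ × ℂ => vort m (u q.1) (Φ q.1 q.2)) (univ ×ˢ UH) := by
  have h1 := cont_DuΦ F
  have h2 : ContinuousOn (fun q : ℝ × ℂ => (fderiv ℝ (u q.1) (Φ q.1 q.2) 1).im) (univ ×ˢ UH) :=
    Complex.continuous_im.comp_continuousOn (h1.clm_apply continuousOn_const)
  have h3 : ContinuousOn (fun q : ℝ × ℂ => (fderiv ℝ (u q.1) (Φ q.1 q.2) I).re) (univ ×ˢ UH) :=
    Complex.continuous_re.comp_continuousOn (h1.clm_apply continuousOn_const)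
  have h4 : ContinuousOn (fun q : ℝ × ℂ => pz m (Φ q.1 q.2)) (univ ×ˢ UH) :=
    (contDiffOn_pz hm).continuousOn.comp F.smooth.continuousOn fun q hq => F.maps q.1 hq.2
  have h5 : ContinuousOn (fun q : ℝ × ℂ => (pz m (Φ q.1 q.2) * u q.1 (Φ q.1 q.2)).im)
      (univ ×ˢ UH) := Complex.continuous_im.comp_continuousOn (h4.mul (cont_uΦ F))
  exact (h2.sub h3).add (continuousOn_const.mul h5)

/-- the pointwise inequality, integrated over the surface -/
theorem int_ineq (hΓ : SurfaceGroup Γ) (hm : ConfMetric Γ m) {χ : ℂ → ℝ} (hχ : Cut Γ χ)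
    (F : Flow Γ m u p Φ Ψ) {T : ℝ} (hT : 0 < T) (hret : ∀ z ∈ UH, Φ T z = z) :
    0 ≤ (∫ t in (0 : ℝ)..T, - (1 / 2) * (∫ z, χ z * (curv m z * (m z * ‖u t z‖ ^ 2)) * m z))
      + ∫ z, χ z * (vort m (u 0) z * Afun m u Φ T z) * m z := by
  have hmc : ContinuousOn m UH := hm.smooth.continuousOn
  let A : ℂ → ℝ := fun z => vort m (u 0) z * Afun m u Φ T z
  have hAc : ContinuousOn A UH := (continuousOn_vort hm (jc_slice F.sol.u_smooth 0)).mul
    (Afun_contDiff hm F hret).continuousOn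
  let G : ℝ → ℂ → ℝ := fun t z => ‖dbar (u t) (Φ t z)‖ ^ 2 - vort m (u t) (Φ t z) ^ 2 / 4
  let G' : ℝ → ℂ → ℝ := fun t z => G t z + T⁻¹ * A z
  have hG : ContinuousOn (fun q : ℝ × ℂ => G q.1 q.2) (univ ×ˢ UH) :=
    ((cont_dbarΦ F).norm.pow 2).sub (((cont_vortΦ hm F).pow 2).div_const 4)
  have hA2 : ContinuousOn (fun q : ℝ × ℂ => A q.2) (univ ×ˢ UH) :=
    hAc.comp continuousOn_snd fun q hq => hq.2
  have hG' : ContinuousOn (fun q : ℝ × ℂ => G' q.1 q.2) (univ ×ˢ UH) :=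
    hG.add (continuousOn_const.mul hA2)
  have hslice : ∀ t, ContinuousOn (G t) UH := fun t =>
    hG.comp (f := fun z : ℂ => (t, z)) (by fun_prop) fun z hz => ⟨mem_univ _, hz⟩
  have hGt : ∀ z ∈ UH, Continuous (fun t => G t z) := fun z hz => by
    have h1 : ContinuousOn (fun t : ℝ => G t z) univ :=
      hG.comp (f := fun t : ℝ => (t, z)) (by fun_prop) fun t _ => ⟨mem_univ _, hz⟩
    exact continuousOn_univ.1 h1
  have h1 : ∀ z ∈ UH, 0 ≤ ∫ t in (0 : ℝ)..T, G' t z := by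
    intro z hz
    have h2 := pineq hΓ hm F hT hret hz
    have h3 : ∫ t in (0 : ℝ)..T, G' t z = (∫ t in (0 : ℝ)..T, G t z) + A z := by
      rw [intervalIntegral.integral_add ((hGt z hz).intervalIntegrable _ _)
        (continuous_const.intervalIntegrable _ _), intervalIntegral.integral_const]
      simp only [sub_zero, smul_eq_mul]
      rw [← mul_assoc, mul_inv_cancel₀ hT.ne', one_mul]
    rw [h3]
    exact h2
  have h2 : 0 ≤ ∫ z, χ z * (∫ t in (0 : ℝ)..T, G' t z) * m z := by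
    refine integral_nonneg fun z => ?_
    by_cases hz : z ∈ UH
    · exact mul_nonneg (mul_nonneg (hχ.nonneg z) (h1 z hz)) (hm.pos z hz).le
    · simp [cut_zero hχ hz]
  rw [swap_int hχ.smooth.continuous hχ.compact hχ.supp hmc hG' T] at h2
  have h3 : ∀ t, ∫ z, χ z * G' t z * m z =
      - (1 / 2) * (∫ z, χ z * (curv m z * (m z * ‖u t z‖ ^ 2)) * m z)
        + T⁻¹ * ∫ z, χ z * A z * m z := by
    intro t
    have hut := jc_slice F.sol.u_smooth t
    have e1 : ∫ z, χ z * G' t z * m z =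
        (∫ z, χ z * G t z * m z) + ∫ z, χ z * (T⁻¹ * A z) * m z :=
      int_cut_add hχ hmc (hslice t) (continuousOn_const.mul hAc)
    have e2 : ∫ z, χ z * G t z * m z =
        ∫ z, χ z * (‖dbar (u t) z‖ ^ 2 - vort m (u t) z ^ 2 / 4) * m z := by
      refine int_inv hΓ hm hχ (jc_slice F.smooth t) (F.ismooth t) (F.maps t) (F.imaps t)
        (F.left t) (F.right t) (F.comm t) (F.area t)
        (F := fun z => ‖dbar (u t) z‖ ^ 2 - vort m (u t) z ^ 2 / 4) ?_ ?_
      · exact ((continuousOn_dbar hut).norm.pow 2).sub (((continuousOn_vort hm hut).pow 2).div_const 4)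
      · intro g hg z hz
        rw [dbar_inv hut (F.sol.u_equiv t) g hg z hz, vort_inv hm hut (F.sol.u_equiv t) g hg z hz]
    rw [e1, e2, bochner hΓ hm hχ hut (F.sol.u_equiv t) (F.sol.div_free t), int_cut_smul]
  have hKc : ContinuousOn (curv m) UH := j10714_curv_AG hm
  have hc : Continuous (fun t : ℝ =>
      - (1 / 2) * (∫ z, χ z * (curv m z * (m z * ‖u t z‖ ^ 2)) * m z)) := by
    refine continuous_const.mul (swap_cont hχ.smooth.continuous hχ.compact hχ.supp hmc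
      (G := fun t z => curv m z * (m z * ‖u t z‖ ^ 2)) ?_)
    have e1 : ContinuousOn (fun q : ℝ × ℂ => curv m q.2) (univ ×ˢ UH) :=
      hKc.comp continuousOn_snd fun q hq => hq.2
    have e2 : ContinuousOn (fun q : ℝ × ℂ => m q.2) (univ ×ˢ UH) :=
      hmc.comp continuousOn_snd fun q hq => hq.2
    exact e1.mul (e2.mul (F.sol.u_smooth.continuousOn.norm.pow 2))
  simp only [h3] at h2
  rw [intervalIntegral.integral_add (hc.intervalIntegrable _ _)
    (continuous_const.intervalIntegrable _ _), intervalIntegral.integral_const] at h2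
  simp only [sub_zero, smul_eq_mul] at h2
  rw [← mul_assoc, mul_inv_cancel₀ hT.ne', one_mul] at h2
  exact h2

end

/-- hyperbolic case: a flow that returns to the identity has zero velocity -/
theorem main_flow {Γ : Subgroup SL2R} (hΓ : SurfaceGroup Γ)
    {u : ℝ → ℂ → ℂ} {p : ℝ → ℂ → ℝ} {Φ Ψ : ℝ → ℂ → ℂ} (F : Flow Γ hyp u p Φ Ψ) {T : ℝ}
    (hT : 0 < T) (hret : ∀ z ∈ UH, Φ T z = z) : ∀ t, ∀ z ∈ UH, u t z = 0 := by
  obtain ⟨χ, hχ⟩ := exists_cut hΓ
  have hm : ConfMetric Γ hyp := hyp_conf Γ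
  have hmc : ContinuousOn hyp UH := hm.smooth.continuousOn
  have hE := energy hΓ hm hχ F
  set E : ℝ := ∫ z, χ z * (hyp z * ‖u 0 z‖ ^ 2) * hyp z with hEdef
  have h1 := int_ineq hΓ hm hχ F hT hret
  have h2 : ∀ t, - (1 / 2) * (∫ z, χ z * (curv hyp z * (hyp z * ‖u t z‖ ^ 2)) * hyp z)
      = E / 2 := by
    intro t
    have e1 : ∫ z, χ z * (curv hyp z * (hyp z * ‖u t z‖ ^ 2)) * hyp z =
        ∫ z, χ z * ((-1) * (hyp z * ‖u t z‖ ^ 2)) * hyp z :=
      int_cut_congr hχ fun z hz => by rw [curv_hyp hz]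
    rw [e1, int_cut_smul, hE t]
    ring
  simp only [h2] at h1
  have hK : ∀ g ∈ Γ, ∀ z ∈ UH, curv hyp (mob g z) = curv hyp z := fun g hg z hz => by
    rw [curv_hyp hz, curv_hyp (mob_mem g hz)]
  rw [AG hΓ hm hK hχ F hret, intervalIntegral.integral_const] at h1
  have h3 : ∀ t, ∫ z, χ z * (curv hyp z * (hyp z * ‖u t z‖ ^ 2 -
        fderiv ℝ (fun ζ => wfun hyp u p Φ t (Ψ t ζ)) z (u t z))) * hyp z = - E := by
    intro t
    have hut := jc_slice F.sol.u_smooth t
    have hw := wt_contDiff hm F t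
    have e0 : ContinuousOn (fun z => fderiv ℝ (fun ζ => wfun hyp u p Φ t (Ψ t ζ)) z (u t z)) UH :=
      (hw.continuousOn_fderiv_of_isOpen isOpen_UH le_rfl).clm_apply hut.continuousOn
    have e1 : ∫ z, χ z * (curv hyp z * (hyp z * ‖u t z‖ ^ 2 -
        fderiv ℝ (fun ζ => wfun hyp u p Φ t (Ψ t ζ)) z (u t z))) * hyp z =
        ∫ z, χ z * (fderiv ℝ (fun ζ => wfun hyp u p Φ t (Ψ t ζ)) z (u t z)
          - hyp z * ‖u t z‖ ^ 2) * hyp z :=
      int_cut_congr hχ fun z hz => by rw [curv_hyp hz]; ring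
    rw [e1, int_cut_sub hχ hmc (B := fun z => hyp z * ‖u t z‖ ^ 2) e0
      (hmc.mul (hut.continuousOn.norm.pow 2)), hE t,
      D0 hΓ hm hχ hut (F.sol.u_equiv t) (F.sol.div_free t) hw (wt_inv hm F t)]
    ring
  simp only [h3] at h1
  rw [intervalIntegral.integral_const] at h1
  simp only [sub_zero, smul_eq_mul] at h1
  have h4 : E ≤ 0 := by nlinarith
  intro t z hz
  have hut := jc_slice F.sol.u_smooth t
  have h5 := eq_zero_of_int_cut hχ hmc hm.pos (G := fun z => hyp z * ‖u t z‖ ^ 2)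
    (hmc.mul (hut.continuousOn.norm.pow 2))
    (fun z hz => mul_nonneg (hm.pos z hz).le (sq_nonneg _)) (norm_inv hm (F.sol.u_equiv t))
    (by rw [hE t]; exact h4) z hz
  have h6 := hm.pos z hz
  rcases mul_eq_zero.1 h5 with h7 | h7
  · exact absurd h7 h6.ne'
  · exact norm_eq_zero.1 (pow_eq_zero_iff (two_ne_zero) |>.1 h7)

end Pool.Agent.Helper131.CG
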