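import Pool.Agent.Helper131.CG.Base

namespace Pool.Agent.Helper131.CG

open Complex MeasureTheory Set Filter Topology
open scoped ContDiff

theorem ift {f : ℂ → ℂ} (hf : ContDiffOn ℝ 1 f UH) (hb : BijOn f UH UH)
    (hd : ∀ z ∈ UH, (fderiv ℝ f z).det ≠ 0) :
    ∃ h : ℂ → ℂ, ContDiffOn ℝ 1 h UH ∧ MapsTo h UH UH ∧ (∀ z ∈ UH, h (f z) = z) ∧
      ∀ z ∈ UH, f (h z) = z := by 
  have hmem : ∀ z ∈ UH, Function.invFunOn f UH z ∈ UH := fun z hz =>
    Function.invFunOn_mem (hb.surjOn hz)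
  have heq : ∀ z ∈ UH, f (Function.invFunOn f UH z) = z := fun z hz =>
    Function.invFunOn_eq (hb.surjOn hz)
  refine ⟨Function.invFunOn f UH, ?_, hmem, ?_, heq⟩
  · intro z0 hz0
    apply ContDiffAt.contDiffWithinAt
    set x0 := Function.invFunOn f UH z0 with hx0
    have hx0m : x0 ∈ UH := hmem z0 hz0
    have hfx0 : f x0 = z0 := heq z0 hz0
    have hfc : ContDiffAt ℝ 1 f x0 := hf.contDiffAt (isOpen_UH.mem_nhds hx0m)
    let e : ℂ ≃L[ℝ] ℂ := (fderiv ℝ f x0).toContinuousLinearEquivOfDetNeZero (hd x0 hx0m)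
    have he : (e : ℂ →L[ℝ] ℂ) = fderiv ℝ f x0 := ContinuousLinearMap.ext fun _ => rfl
    have hf' : HasFDerivAt f (e : ℂ →L[ℝ] ℂ) x0 := by
      rw [he]
      exact (hfc.differentiableAt (by simp)).hasFDerivAt
    have hs : HasStrictFDerivAt f (e : ℂ →L[ℝ] ℂ) x0 := hfc.hasStrictFDerivAt' hf' (by simp)
    have h1 : ContDiffAt ℝ 1 (hfc.localInverse hf' (by simp)) (f x0) :=
      hfc.to_localInverse hf' (by simp)
    have h2 : hfc.localInverse hf' (by simp) (f x0) = x0 :=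
      hfc.localInverse_apply_image hf' (by simp)
    have h3 : ∀ᶠ y in 𝓝 (f x0), f (hfc.localInverse hf' (by simp) y) = y :=
      hs.eventually_right_inverse
    have h4 : ∀ᶠ y in 𝓝 (f x0), hfc.localInverse hf' (by simp) y ∈ UH := by
      apply h1.continuousAt.eventually_mem
      rw [h2]
      exact isOpen_UH.mem_nhds hx0m
    have h5 : ∀ᶠ y in 𝓝 (f x0), y ∈ UH := by
      rw [hfx0]
      exact isOpen_UH.mem_nhds hz0
    have h6 : Function.invFunOn f UH =ᶠ[𝓝 (f x0)] hfc.localInverse hf' (by simp) := by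
      filter_upwards [h3, h4, h5] with y hy3 hy4 hy5
      exact hb.injOn (hmem y hy5) hy4 (by rw [heq y hy5, hy3])
    rw [← hfx0]
    exact h1.congr_of_eventuallyEq h6
  · intro z hz
    have hfz := hb.mapsTo hz
    exact hb.injOn (hmem _ hfz) hz (heq _ hfz)

end Pool.Agent.Helper131.CG
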