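import Pool.Agent.Helper131.CG.Base
import Pool.Agent.Helper131.CG.L_ift

namespace Pool.Agent.Helper131.CG

open Complex MeasureTheory Set Filter Topology
open scoped ContDiff

theorem reduce_det_comp_reduce (A B : ℂ →L[ℝ] ℂ) : (A.comp B).det = A.det * B.det := by
  show LinearMap.det ((A.comp B : ℂ →L[ℝ] ℂ) : ℂ →ₗ[ℝ] ℂ) = _
  rw [ContinuousLinearMap.toLinearMap_comp, LinearMap.det_comp]

theorem reduce_det_inv_reduce {f h : ℂ → ℂ} (hf : ∀ z ∈ UH, HasFDerivAt f (fderiv ℝ f z) z)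
    (hh : ∀ z ∈ UH, HasFDerivAt h (fderiv ℝ h z) z) (hm : MapsTo h UH UH)
    (hr : ∀ z ∈ UH, f (h z) = z) {z : ℂ} (hz : z ∈ UH) :
    (fderiv ℝ f (h z)).det * (fderiv ℝ h z).det = 1 := by
  have h1 : HasFDerivAt (fun w => f (h w)) ((fderiv ℝ f (h z)).comp (fderiv ℝ h z)) z :=
    (hf (h z) (hm hz)).comp z (hh z hz)
  have h2 : HasFDerivAt (fun w => f (h w)) (ContinuousLinearMap.id ℝ ℂ) z := by
    apply (hasFDerivAt_id z).congr_of_eventuallyEq
    filter_upwards [isOpen_UH.mem_nhds hz] with w hw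
    exact hr w hw
  have h3 := h1.unique h2
  rw [← reduce_det_comp_reduce, h3]
  show LinearMap.det (LinearMap.id : ℂ →ₗ[ℝ] ℂ) = 1
  exact LinearMap.det_id

/-- right translation by `η_0⁻¹` gives a `Flow` -/
theorem reduce {Γ : Subgroup SL2R} {m : ℂ → ℝ} (hm : ConfMetric Γ m)
    {η : ℝ → ℂ → ℂ} (hη : DiffPath Γ m η) {u : ℝ → ℂ → ℂ} {p : ℝ → ℂ → ℝ}
    (hu : EulerSol Γ m u p) (hflow : ∀ t, ∀ z ∈ UH, HasDerivAt (fun s => η s z) (u t (η t z)) t) :
    ∃ Φ Ψ : ℝ → ℂ → ℂ, Flow Γ m u p Φ Ψ ∧ ∀ t, ∀ z ∈ UH, Φ t (η 0 z) = η t z := by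
  have hdet : ∀ t, ∀ z ∈ UH, (fderiv ℝ (η t) z).det ≠ 0 := by
    intro t z hz h0
    have h1 := hη.area t z hz
    rw [h0, zero_mul] at h1
    exact absurd h1 (hm.pos z hz).ne
  obtain ⟨h, hh1, hhm, hhl, hhr⟩ := ift (jc_slice hη.smooth 0) (hη.bij 0) (hdet 0)
  have hsm : ContDiffOn ℝ 1 (fun q : ℝ × ℂ => (fun t z => η t (h z)) q.1 q.2) (univ ×ˢ UH) := by
    have h2 : ContDiffOn ℝ 1 (fun q : ℝ × ℂ => ((q.1, h q.2) : ℝ × ℂ)) (univ ×ˢ UH) :=
      contDiffOn_fst.prodMk (hh1.comp contDiffOn_snd (fun q hq => hq.2))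
    exact hη.smooth.comp h2 (fun q hq => ⟨mem_univ _, hhm hq.2⟩)
  have hhbij : BijOn h UH UH := by
    refine ⟨hhm, ?_, ?_⟩
    · intro a ha b hb hab
      rw [← hhr a ha, ← hhr b hb, hab]
    · intro z hz
      exact ⟨η 0 z, (hη.bij 0).mapsTo hz, hhl z hz⟩
  have hbij : ∀ t, BijOn (fun z => η t (h z)) UH UH := fun t => (hη.bij t).comp hhbij
  have hhd : ∀ z ∈ UH, HasFDerivAt h (fderiv ℝ h z) z := by
    intro z hz
    exact ((hh1.differentiableOn one_ne_zero).differentiableAt (isOpen_UH.mem_nhds hz)).hasFDerivAt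
  have harea : ∀ t, ∀ z ∈ UH, (fderiv ℝ (fun z => η t (h z)) z).det * m (η t (h z)) = m z := by
    intro t z hz
    have h1 : HasFDerivAt (fun w => η t (h w)) ((fderiv ℝ (η t) (h z)).comp (fderiv ℝ h z)) z :=
      (jc_hasFDerivAt hη.smooth t (hhm hz)).comp z (hhd z hz)
    rw [h1.fderiv, reduce_det_comp_reduce]
    have e1 := hη.area t (h z) (hhm hz)
    have e2 := hη.area 0 (h z) (hhm hz)
    have e3 := reduce_det_inv_reduce (fun z hz => jc_hasFDerivAt hη.smooth 0 hz) hhd hhm hhr hz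
    rw [hhr z hz] at e2
    calc (fderiv ℝ (η t) (h z)).det * (fderiv ℝ h z).det * m (η t (h z))
        = (fderiv ℝ h z).det * ((fderiv ℝ (η t) (h z)).det * m (η t (h z))) := by ring
      _ = (fderiv ℝ h z).det * ((fderiv ℝ (η 0) (h z)).det * m z) := by rw [e1, e2]
      _ = ((fderiv ℝ (η 0) (h z)).det * (fderiv ℝ h z).det) * m z := by ring
      _ = m z := by rw [e3, one_mul]
  have hdet' : ∀ t, ∀ z ∈ UH, (fderiv ℝ (fun z => η t (h z)) z).det ≠ 0 := by
    intro t z hz h0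
    have h1 := harea t z hz
    rw [h0, zero_mul] at h1
    exact absurd h1 (hm.pos z hz).ne
  have hinv : ∀ t, ∃ k : ℂ → ℂ, ContDiffOn ℝ 1 k UH ∧ MapsTo k UH UH ∧
      (∀ z ∈ UH, k ((fun z => η t (h z)) z) = z) ∧ ∀ z ∈ UH, (fun z => η t (h z)) (k z) = z :=
    fun t => ift (jc_slice (f := fun t z => η t (h z)) hsm t) (hbij t) (hdet' t)
  choose Ψ hΨ1 hΨ2 hΨ3 hΨ4 using hinv
  refine ⟨fun t z => η t (h z), Ψ, ?_, ?_⟩
  · exact
      { sol := hu
        smooth := hsm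
        maps := fun t => (hbij t).mapsTo
        imaps := hΨ2
        left := hΨ3
        right := hΨ4
        ismooth := hΨ1
        zero := hhr
        comm := by
          intro t g hg z hz
          obtain ⟨g1, hg1, hg1'⟩ := hη.lift' g hg
          have e1 : h (mob g z) = mob g1 (h z) := by
            apply (hη.bij 0).injOn (hhm (mob_mem g hz)) (mob_mem g1 (hhm hz))
            rw [hhr _ (mob_mem g hz), hg1' 0 _ (hhm hz), hhr z hz]
          show η t (h (mob g z)) = mob g (η t (h z))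
          rw [e1, hg1' t _ (hhm hz)]
        area := harea
        flow := fun t z hz => hflow t (h z) (hhm hz) }
  · intro t z hz
    show η t (h (η 0 z)) = η t z
    rw [hhl z hz]

end Pool.Agent.Helper131.CG
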