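import Pool.Agent.Helper131.CG.Base
import Pool.Agent.Helper131.CG.L_D0
import Pool.Agent.Helper131.CG.L_field_equiv
import Pool.Agent.Helper131.CG.L_int_div
import Pool.Agent.Helper131.CG.L_loop_closed
import Pool.Agent.Helper131.CG.L_smooth_facts
import Pool.Agent.Helper131.CG.L_swap
import Pool.Agent.Helper131.CG.L_tools

namespace Pool.Agent.Helper131.CG

open Complex MeasureTheory Set Filter Topology
open scoped ContDiff

theorem virial_lin_virial (L : ℂ →L[ℝ] ℝ) (w : ℂ) : L w = w.re * L 1 + w.im * L I := by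
  conv_lhs => rw [← Complex.re_add_im w]
  rw [map_add]
  have h1 : ((w.re : ℝ) : ℂ) = w.re • (1 : ℂ) := by simp
  have h2 : ((w.im : ℝ) : ℂ) * I = w.im • I := by simp
  rw [h1, h2, map_smul, map_smul, smul_eq_mul, smul_eq_mul]

theorem virial_den_virial {Γ : Subgroup SL2R} {m : ℂ → ℝ} (hm : ConfMetric Γ m) {g : SL2R} (hg : g ∈ Γ)
    {z : ℂ} (hz : z ∈ UH) : den g z ≠ 0 := by
  intro h
  have h1 := hm.equiv g hg z hz
  rw [h, norm_zero] at h1
  have h2 := hm.pos _ (mob_mem g hz)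
  rw [h1] at h2
  norm_num at h2

theorem virial_fderiv_m_virial {Γ : Subgroup SL2R} {m : ℂ → ℝ} (hm : ConfMetric Γ m) {z : ℂ}
    (hz : z ∈ UH) (w : ℂ) : fderiv ℝ m z w = m z * (2 * (pz m z * w).re) := by
  have hd : DifferentiableAt ℝ m z :=
    ((hm.smooth.differentiableOn (by simp)) z hz).differentiableAt (isOpen_UH.mem_nhds hz)
  have hpos := hm.pos z hz
  have h1 : HasFDerivAt (Lm m) ((m z)⁻¹ • fderiv ℝ m z) z := hd.hasFDerivAt.log hpos.ne'
  have h2 : fderiv ℝ (Lm m) z w = (m z)⁻¹ * fderiv ℝ m z w := by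
    rw [h1.fderiv]; rfl
  have h3 := virial_lin_virial (fderiv ℝ (Lm m) z) w
  have h4 : 2 * (pz m z * w).re = fderiv ℝ (Lm m) z w := by
    rw [h3, pz]
    simp only [Complex.mul_re, Complex.div_re, Complex.div_im, Complex.sub_re, Complex.sub_im,
      Complex.ofReal_re, Complex.ofReal_im, Complex.mul_im, Complex.I_re, Complex.I_im]
    norm_num
    ring
  rw [h4, h2]
  field_simp

/-- the function `m Re(conj u X)` -/
noncomputable def virial_f_virial (m : ℂ → ℝ) (u : ℝ → ℂ → ℂ) (X : ℂ → ℂ) (t : ℝ) (z : ℂ) : ℝ :=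
  m z * ((starRingEnd ℂ) (u t z) * X z).re

theorem virial_f_smooth_virial {Γ : Subgroup SL2R} {m : ℂ → ℝ} (hm : ConfMetric Γ m)
    {u : ℝ → ℂ → ℂ} (hu : ContDiffOn ℝ 1 (fun q : ℝ × ℂ => u q.1 q.2) (univ ×ˢ UH))
    {X : ℂ → ℂ} (hX : ContDiffOn ℝ 1 X UH) :
    ContDiffOn ℝ 1 (fun q : ℝ × ℂ => virial_f_virial m u X q.1 q.2) (univ ×ˢ UH) := by
  have hsnd : MapsTo (fun q : ℝ × ℂ => q.2) ((univ : Set ℝ) ×ˢ UH) UH := fun q hq => hq.2
  have h1 : ContDiffOn ℝ 1 (fun q : ℝ × ℂ => m q.2) (univ ×ˢ UH) :=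
    (hm.smooth.of_le (by exact_mod_cast le_top)).comp contDiff_snd.contDiffOn hsnd
  have h2 : ContDiffOn ℝ 1 (fun q : ℝ × ℂ => X q.2) (univ ×ˢ UH) :=
    hX.comp contDiff_snd.contDiffOn hsnd
  have h3 : ContDiffOn ℝ 1 (fun q : ℝ × ℂ => (starRingEnd ℂ) (u q.1 q.2)) (univ ×ˢ UH) :=
    Complex.conjCLE.contDiff.comp_contDiffOn hu
  exact h1.mul (Complex.reCLM.contDiff.comp_contDiffOn (h3.mul h2))

theorem virial_time_virial {m : ℂ → ℝ} {u : ℝ → ℂ → ℂ}
    (hu : ContDiffOn ℝ 1 (fun q : ℝ × ℂ => u q.1 q.2) (univ ×ˢ UH)) (X : ℂ → ℂ) (t : ℝ) {z : ℂ}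
    (hz : z ∈ UH) : deriv (fun s => virial_f_virial m u X s z) t =
      m z * ((starRingEnd ℂ) (deriv (fun s => u s z) t) * X z).re := by
  have h1 := jc_time hu t hz
  have h2 : HasDerivAt (fun s => (starRingEnd ℂ) (u s z))
      ((starRingEnd ℂ) (deriv (fun s => u s z) t)) t :=
    (Complex.conjCLE : ℂ →L[ℝ] ℂ).hasFDerivAt.comp_hasDerivAt t h1
  have h3 := Complex.reCLM.hasFDerivAt.comp_hasDerivAt t (h2.mul_const (X z))
  have h4 := h3.const_mul (m z)
  exact h4.deriv

theorem virial_space_virial {Γ : Subgroup SL2R} {m : ℂ → ℝ} (hm : ConfMetric Γ m) {u : ℝ → ℂ → ℂ}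
    (hu : ContDiffOn ℝ 1 (fun q : ℝ × ℂ => u q.1 q.2) (univ ×ˢ UH)) {X : ℂ → ℂ}
    (hX : ContDiffOn ℝ 1 X UH) (t : ℝ) {z : ℂ} (hz : z ∈ UH) :
    fderiv ℝ (virial_f_virial m u X t) z (u t z) =
      m z * ((starRingEnd ℂ) (cov m (u t) (u t) z) * X z).re +
      m z * ((starRingEnd ℂ) (u t z) * cov m (u t) X z).re := by
  have hd : DifferentiableAt ℝ m z :=
    ((hm.smooth.differentiableOn (by simp)) z hz).differentiableAt (isOpen_UH.mem_nhds hz)
  have hXd : HasFDerivAt X (fderiv ℝ X z) z :=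
    (((hX.differentiableOn (by simp)) z hz).differentiableAt (isOpen_UH.mem_nhds hz)).hasFDerivAt
  have h1 := jc_hasFDerivAt hu t hz
  have h2 : HasFDerivAt (fun y => (starRingEnd ℂ) (u t y))
      ((Complex.conjCLE : ℂ →L[ℝ] ℂ).comp (fderiv ℝ (u t) z)) z :=
    (Complex.conjCLE : ℂ →L[ℝ] ℂ).hasFDerivAt.comp z h1
  have h3 := Complex.reCLM.hasFDerivAt.comp z (h2.mul hXd)
  have h4 := hd.hasFDerivAt.mul h3
  have h5 : fderiv ℝ (virial_f_virial m u X t) z = _ := h4.fderiv
  rw [h5]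
  have e1 : ∀ w, fderiv ℝ m z w = m z * (2 * (pz m z * w).re) := virial_fderiv_m_virial hm hz
  simp only [_root_.add_apply, _root_.smul_apply, Pi.mul_apply,
    ContinuousLinearMap.comp_apply, Function.comp_apply, Complex.reCLM_apply, smul_eq_mul, e1,
    cov]
  simp only [Complex.add_re, Complex.mul_re, Complex.conj_re, Complex.conj_im, Complex.add_im,
    Complex.mul_im, map_add, map_mul, ContinuousLinearEquiv.coe_coe, Complex.conjCLE_apply]
  ring

theorem virial_grad_virial {m : ℂ → ℝ} {z : ℂ} (hpos : 0 < m z) (f : ℂ → ℝ) (w : ℂ) :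
    m z * ((starRingEnd ℂ) (grad m f z) * w).re = fderiv ℝ f z w := by
  rw [virial_lin_virial (fderiv ℝ f z) w, grad]
  have h : ((m z : ℝ) : ℂ) ≠ 0 := by exact_mod_cast hpos.ne'
  have h2 : (starRingEnd ℂ) ((((fderiv ℝ f z 1 : ℝ) : ℂ) + ((fderiv ℝ f z I : ℝ) : ℂ) * I) / (m z : ℂ)) =
      (((m z)⁻¹ : ℝ) : ℂ) * (((fderiv ℝ f z 1 : ℝ) : ℂ) - ((fderiv ℝ f z I : ℝ) : ℂ) * I) := by
    rw [map_div₀, map_add, map_mul, Complex.conj_ofReal, Complex.conj_ofReal, Complex.conj_ofReal,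
      Complex.conj_I]
    push_cast
    field_simp
    ring
  rw [h2, mul_assoc, Complex.re_ofReal_mul, ← mul_assoc, mul_inv_cancel₀ hpos.ne', one_mul]
  simp only [Complex.sub_re, Complex.sub_im, Complex.mul_re, Complex.mul_im, Complex.ofReal_re,
    Complex.ofReal_im, Complex.I_re, Complex.I_im]
  ring

theorem virial_dvg_virial {m : ℂ → ℝ} {p : ℂ → ℝ} {X : ℂ → ℂ} {z : ℂ} (hp : DifferentiableAt ℝ p z)
    (hX : DifferentiableAt ℝ X z) :
    dvg m (fun y => ((p y : ℝ) : ℂ) * X y) z = fderiv ℝ p z (X z) + p z * dvg m X z := by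
  have h1 : HasFDerivAt (fun y => ((p y : ℝ) : ℂ)) (Complex.ofRealCLM.comp (fderiv ℝ p z)) z :=
    Complex.ofRealCLM.hasFDerivAt.comp z hp.hasFDerivAt
  have h2 := h1.mul hX.hasFDerivAt
  have h3 : fderiv ℝ (fun y => ((p y : ℝ) : ℂ) * X y) z = _ := h2.fderiv
  have h4 : fderiv ℝ (Lm m) z (((p z : ℝ) : ℂ) * X z) = p z * fderiv ℝ (Lm m) z (X z) := by
    have : ((p z : ℝ) : ℂ) * X z = p z • X z := by simp
    rw [this, map_smul, smul_eq_mul]
  rw [virial_lin_virial (fderiv ℝ p z) (X z)]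
  simp only [dvg, h3, h4]
  simp only [_root_.add_apply, _root_.smul_apply,
    ContinuousLinearMap.comp_apply, Complex.ofRealCLM_apply, smul_eq_mul, Complex.add_re,
    Complex.add_im, Complex.mul_re, Complex.mul_im, Complex.ofReal_re, Complex.ofReal_im]
  ring

/-- virial identity for a field `X` -/
theorem virial {Γ : Subgroup SL2R} (hΓ : SurfaceGroup Γ) {m : ℂ → ℝ} (hm : ConfMetric Γ m)
    {χ : ℂ → ℝ} (hχ : Cut Γ χ)
    {u : ℝ → ℂ → ℂ} {p : ℝ → ℂ → ℝ} (E : EulerSol Γ m u p) {T : ℝ}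
    (hper : ∀ z ∈ UH, u T z = u 0 z) {X : ℂ → ℂ} (hX : ContDiffOn ℝ 1 X UH)
    (hXe : ∀ g ∈ Γ, ∀ z ∈ UH, X (mob g z) = X z / den g z ^ 2) :
    (∫ t in (0 : ℝ)..T, (∫ z, χ z * (m z * ((starRingEnd ℂ) (u t z) * cov m (u t) X z).re) * m z))
      + (∫ t in (0 : ℝ)..T, (∫ z, χ z * (p t z * dvg m X z) * m z)) = 0 := by
  have hmc : ContinuousOn m UH := hm.smooth.continuousOn
  have hsnd : MapsTo (fun q : ℝ × ℂ => q.2) ((univ : Set ℝ) ×ˢ UH) UH := fun q hq => hq.2
  have c_snd : ∀ {F : Type} [TopologicalSpace F] {f : ℂ → F}, ContinuousOn f UH →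
      ContinuousOn (fun q : ℝ × ℂ => f q.2) ((univ : Set ℝ) ×ˢ UH) := by
    intro F _ f hf
    exact hf.comp continuous_snd.continuousOn hsnd
  have cX : ContinuousOn X UH := hX.continuousOn
  have cDX : ContinuousOn (fderiv ℝ X) UH :=
    hX.continuousOn_fderiv_of_isOpen isOpen_UH le_rfl
  have cL : ContinuousOn (fderiv ℝ (Lm m)) UH :=
    (contDiffOn_Lm hm).continuousOn_fderiv_of_isOpen isOpen_UH (by exact_mod_cast le_top)
  have cpz : ContinuousOn (pz m) UH := (contDiffOn_pz hm).continuousOn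
  have cu : ContinuousOn (fun q : ℝ × ℂ => u q.1 q.2) (univ ×ˢ UH) := E.u_smooth.continuousOn
  -- joint continuity of the two integrands
  have ccov : ContinuousOn (fun q : ℝ × ℂ => cov m (u q.1) X q.2) (univ ×ˢ UH) := by
    unfold cov
    exact ((c_snd cDX).clm_apply cu).add (((c_snd cpz).mul cu).mul (c_snd cX))
  have cG1 : ContinuousOn (fun q : ℝ × ℂ => m q.2 * ((starRingEnd ℂ) (u q.1 q.2) *
      cov m (u q.1) X q.2).re) (univ ×ˢ UH) :=
    (c_snd hmc).mul (Complex.continuous_re.comp_continuousOn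
      ((Complex.continuous_conj.comp_continuousOn cu).mul ccov))
  have cdvg : ContinuousOn (dvg m X) UH := by
    unfold dvg
    exact ((Complex.continuous_re.comp_continuousOn (cDX.clm_apply continuousOn_const)).add
      (Complex.continuous_im.comp_continuousOn (cDX.clm_apply continuousOn_const))).add
      (cL.clm_apply cX)
  have cG2 : ContinuousOn (fun q : ℝ × ℂ => p q.1 q.2 * dvg m X q.2) (univ ×ˢ UH) :=
    E.p_cont.mul (c_snd cdvg)
  have cdp : ContinuousOn (fun q : ℝ × ℂ => fderiv ℝ (p q.1) q.2 (X q.2)) (univ ×ˢ UH) :=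
    E.dp_cont.clm_apply (c_snd cX)
  have hf := virial_f_smooth_virial hm E.u_smooth hX
  have slice : ∀ {F : Type} [TopologicalSpace F] {f : ℝ × ℂ → F},
      ContinuousOn f ((univ : Set ℝ) ×ˢ UH) → ∀ t : ℝ, ContinuousOn (fun z => f (t, z)) UH := by
    intro F _ f hf t
    exact hf.comp (Continuous.prodMk_right t).continuousOn (fun z hz => ⟨mem_univ _, hz⟩)
  -- the identity at each time
  have key : ∀ t, ∫ z, χ z * deriv (fun s => virial_f_virial m u X s z) t * m z =
      (∫ z, χ z * (m z * ((starRingEnd ℂ) (u t z) * cov m (u t) X z).re) * m z) +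
      ∫ z, χ z * (p t z * dvg m X z) * m z := by
    intro t
    have hut : ContDiffOn ℝ 1 (u t) UH := jc_slice E.u_smooth t
    have hft : ContDiffOn ℝ 1 (virial_f_virial m u X t) UH := jc_slice hf t
    have hpt : ContDiffOn ℝ 1 (p t) UH := by
      rw [show (1 : WithTop ℕ∞) = 0 + 1 from rfl, contDiffOn_succ_iff_fderiv_of_isOpen isOpen_UH]
      refine ⟨E.p_diff t, by simp, ?_⟩
      rw [contDiffOn_zero]
      exact slice E.dp_cont t
    have hpd : ∀ z ∈ UH, DifferentiableAt ℝ (p t) z := fun z hz =>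
      (E.p_diff t z hz).differentiableAt (isOpen_UH.mem_nhds hz)
    have hXd : ∀ z ∈ UH, DifferentiableAt ℝ X z := fun z hz =>
      ((hX.differentiableOn (by simp)) z hz).differentiableAt (isOpen_UH.mem_nhds hz)
    have h1 : ∀ z ∈ UH, deriv (fun s => virial_f_virial m u X s z) t =
        (m z * ((starRingEnd ℂ) (u t z) * cov m (u t) X z).re -
          fderiv ℝ (virial_f_virial m u X t) z (u t z)) - fderiv ℝ (p t) z (X z) := by
      intro z hz
      rw [virial_time_virial E.u_smooth X t hz, virial_space_virial hm E.u_smooth hX t hz,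
        ← virial_grad_virial (hm.pos z hz) (p t) (X z)]
      have h2 : deriv (fun s => u s z) t = -(cov m (u t) (u t) z) - grad m (p t) z := by
        have := E.euler t z hz
        linear_combination this
      rw [h2, map_sub, map_neg, sub_mul, neg_mul, Complex.sub_re, Complex.neg_re]
      ring
    have c1 : ContinuousOn (fun z => m z * ((starRingEnd ℂ) (u t z) * cov m (u t) X z).re) UH :=
      slice cG1 t
    have c2 : ContinuousOn (fun z => fderiv ℝ (virial_f_virial m u X t) z (u t z)) UH :=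
      (hft.continuousOn_fderiv_of_isOpen isOpen_UH le_rfl).clm_apply hut.continuousOn
    have c3 : ContinuousOn (fun z => fderiv ℝ (p t) z (X z)) UH := slice cdp t
    have c4 : ContinuousOn (fun z => p t z * dvg m X z) UH := slice cG2 t
    have c12 : ContinuousOn (fun z => m z * ((starRingEnd ℂ) (u t z) * cov m (u t) X z).re -
        fderiv ℝ (virial_f_virial m u X t) z (u t z)) UH := c1.sub c2
    rw [int_cut_congr hχ h1, int_cut_sub hχ hmc c12 c3, int_cut_sub hχ hmc c1 c2]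
    have hinv : ∀ g ∈ Γ, ∀ z ∈ UH, virial_f_virial m u X t (mob g z) = virial_f_virial m u X t z := by
      intro g hg z hz
      have hden := virial_den_virial hm hg hz
      unfold virial_f_virial
      rw [hm.equiv g hg z hz, E.u_equiv t g hg z hz, hXe g hg z hz]
      have e1 : (starRingEnd ℂ) (u t z / den g z ^ 2) * (X z / den g z ^ 2) =
          (((‖den g z‖ ^ 4)⁻¹ : ℝ) : ℂ) * ((starRingEnd ℂ) (u t z) * X z) := by
        have e2 : (starRingEnd ℂ) (den g z) * den g z = ((‖den g z‖ ^ 2 : ℝ) : ℂ) := by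
          rw [mul_comm, Complex.mul_conj, Complex.normSq_eq_norm_sq]
        have e3 : (starRingEnd ℂ) (den g z) ≠ 0 := by simpa using hden
        rw [map_div₀, map_pow, div_mul_div_comm, ← mul_pow, e2]
        push_cast
        rw [← pow_mul]
        field_simp
      rw [e1, Complex.re_ofReal_mul]
      have hn : ‖den g z‖ ≠ 0 := by simpa using hden
      field_simp
    have hD0 := D0 hΓ hm hχ hut (E.u_equiv t) (E.div_free t) hft hinv
    have hV : ContDiffOn ℝ 1 (fun y => ((p t y : ℝ) : ℂ) * X y) UH :=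
      (Complex.ofRealCLM.contDiff.comp_contDiffOn hpt).mul hX
    have hVe : ∀ g ∈ Γ, ∀ z ∈ UH, ((p t (mob g z) : ℝ) : ℂ) * X (mob g z) =
        ((p t z : ℝ) : ℂ) * X z / den g z ^ 2 := by
      intro g hg z hz
      rw [E.p_inv t g hg z hz, hXe g hg z hz, mul_div_assoc]
    have hdiv := int_div hΓ hm hχ hV hVe
    rw [int_cut_congr hχ (fun z hz => virial_dvg_virial (m := m) (hpd z hz) (hXd z hz)),
      int_cut_add hχ hmc c3 c4] at hdiv
    linarith
  -- time integration
  have i1 : IntervalIntegrable (fun t => ∫ z, χ z * (m z * ((starRingEnd ℂ) (u t z) *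
      cov m (u t) X z).re) * m z) volume 0 T :=
    (swap_cont hχ.smooth.continuous hχ.compact hχ.supp hmc cG1).intervalIntegrable _ _
  have i2 : IntervalIntegrable (fun t => ∫ z, χ z * (p t z * dvg m X z) * m z) volume 0 T :=
    (swap_cont hχ.smooth.continuous hχ.compact hχ.supp hmc cG2).intervalIntegrable _ _
  rw [← intervalIntegral.integral_add i1 i2]
  have h1 : ∫ t in (0 : ℝ)..T, ((∫ z, χ z * (m z * ((starRingEnd ℂ) (u t z) *
      cov m (u t) X z).re) * m z) + ∫ z, χ z * (p t z * dvg m X z) * m z) =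
      ∫ t in (0 : ℝ)..T, ∫ z, χ z * deriv (fun s => virial_f_virial m u X s z) t * m z := by
    refine intervalIntegral.integral_congr fun t _ => ?_
    exact (key t).symm
  rw [h1]
  have cA := jc_timeDeriv_cont hf
  rw [← swap_int (G := fun t z => deriv (fun s => virial_f_virial m u X s z) t)
    hχ.smooth.continuous hχ.compact hχ.supp hmc cA T]
  have h2 : ∀ z ∈ UH, (∫ t in (0 : ℝ)..T, deriv (fun s => virial_f_virial m u X s z) t) = 0 := by
    intro z hz
    rw [intervalIntegral.integral_eq_sub_of_hasDerivAt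
      (f := fun s => virial_f_virial m u X s z) (fun t _ => jc_time hf t hz)]
    · show virial_f_virial m u X T z - virial_f_virial m u X 0 z = 0
      unfold virial_f_virial
      rw [hper z hz, sub_self]
    · apply ContinuousOn.intervalIntegrable
      exact cA.comp (Continuous.prodMk_left z).continuousOn (fun t _ => ⟨mem_univ _, hz⟩)
  rw [int_cut_congr hχ h2]
  simp

end Pool.Agent.Helper131.CG
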