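import Pool.Agent.Helper131.CG.Defs2
import Pool.Agent.Helper131.CG.L_main_flow
import Pool.Agent.Helper131.CG.L_curv_facts
import Pool.Agent.Helper131.CG.L_loop_closed
import Pool.Agent.Helper131.CG.AGint
import Pool.Agent.Helper131.CG.L_AG2
import Pool.Agent.Helper131.CG.L_virial
import Pool.Agent.Helper131.CG.L_reduce
import Pool.Agent.Helper131.CG.L_deck

namespace Pool.Agent.Helper131.CG

open Complex MeasureTheory Set Filter Topology
open scoped ContDiff

section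
variable {Γ : Subgroup SL2R} {m : ℂ → ℝ} {χ : ℂ → ℝ}

theorem slice_cont {G : ℝ → ℂ → ℝ}
    (hG : ContinuousOn (fun q : ℝ × ℂ => G q.1 q.2) (univ ×ˢ UH)) (t : ℝ) :
    ContinuousOn (G t) UH :=
  hG.comp (f := fun z : ℂ => (t, z)) (by fun_prop) fun z hz => ⟨mem_univ _, hz⟩

theorem tint_add (hχ : Cut Γ χ) (hm : ContinuousOn m UH) {G H : ℝ → ℂ → ℝ}
    (hG : ContinuousOn (fun q : ℝ × ℂ => G q.1 q.2) (univ ×ˢ UH))
    (hH : ContinuousOn (fun q : ℝ × ℂ => H q.1 q.2) (univ ×ˢ UH)) (T : ℝ) :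
    ∫ t in (0 : ℝ)..T, (∫ z, χ z * (G t z + H t z) * m z) =
      (∫ t in (0 : ℝ)..T, (∫ z, χ z * G t z * m z)) +
        ∫ t in (0 : ℝ)..T, (∫ z, χ z * H t z * m z) := by
  rw [← intervalIntegral.integral_add
    ((swap_cont hχ.smooth.continuous hχ.compact hχ.supp hm hG).intervalIntegrable _ _)
    ((swap_cont hχ.smooth.continuous hχ.compact hχ.supp hm hH).intervalIntegrable _ _)]
  refine intervalIntegral.integral_congr fun t _ => ?_
  exact int_cut_add hχ hm (slice_cont hG t) (slice_cont hH t)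

theorem tint_smul (c : ℝ) (G : ℝ → ℂ → ℝ) (T : ℝ) :
    ∫ t in (0 : ℝ)..T, (∫ z, χ z * (c * G t z) * m z) =
      c * ∫ t in (0 : ℝ)..T, (∫ z, χ z * G t z * m z) := by
  rw [← intervalIntegral.integral_const_mul]
  refine intervalIntegral.integral_congr fun t _ => ?_
  exact int_cut_smul c (G t)

theorem tint_congr (hχ : Cut Γ χ) {G H : ℝ → ℂ → ℝ} (h : ∀ t, ∀ z ∈ UH, G t z = H t z) (T : ℝ) :
    ∫ t in (0 : ℝ)..T, (∫ z, χ z * G t z * m z) =
      ∫ t in (0 : ℝ)..T, (∫ z, χ z * H t z * m z) :=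
  intervalIntegral.integral_congr fun t _ => int_cut_congr hχ (h t)

end

theorem gen_flow {Γ : Subgroup SL2R} (hΓ : SurfaceGroup Γ) {m : ℂ → ℝ} (hm : ConfMetric Γ m)
    {lam : ℝ} {X : ℂ → ℂ} (hX : VirialField Γ m lam X)
    {u : ℝ → ℂ → ℂ} {p : ℝ → ℂ → ℝ} {Φ Ψ : ℝ → ℂ → ℂ} (F : Flow Γ m u p Φ Ψ) {T : ℝ}
    (hT : 0 < T) (hret : ∀ z ∈ UH, Φ T z = z) : ∀ t, ∀ z ∈ UH, u t z = 0 := by
  obtain ⟨χ, hχ⟩ := exists_cut hΓ
  have hmc : ContinuousOn m UH := hm.smooth.continuousOn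
  obtain ⟨hper, W, hW⟩ := loop_closed hΓ hm F hret
  have hKc : ContinuousOn (curv m) UH := (curv_contDiff hm).continuousOn
  have hK2 : ContinuousOn (fun q : ℝ × ℂ => curv m q.2) (univ ×ˢ UH) :=
    hKc.comp continuousOn_snd fun q hq => hq.2
  have hm2 : ContinuousOn (fun q : ℝ × ℂ => m q.2) (univ ×ˢ UH) :=
    hmc.comp continuousOn_snd fun q hq => hq.2
  have hu2 : ContinuousOn (fun q : ℝ × ℂ => u q.1 q.2) (univ ×ˢ UH) := F.sol.u_smooth.continuousOn
  have hp2 : ContinuousOn (fun q : ℝ × ℂ => p q.1 q.2) (univ ×ˢ UH) := F.sol.p_cont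
  have hN2 : ContinuousOn (fun q : ℝ × ℂ => m q.2 * ‖u q.1 q.2‖ ^ 2) (univ ×ˢ UH) :=
    hm2.mul (hu2.norm.pow 2)
  have hX2 : ContinuousOn (fun q : ℝ × ℂ =>
      m q.2 * ((starRingEnd ℂ) (u q.1 q.2) * cov m (u q.1) X q.2).re) (univ ×ˢ UH) := by
    have e1 : ContinuousOn (fun q : ℝ × ℂ => fderiv ℝ X q.2) (univ ×ˢ UH) :=
      (hX.smooth.continuousOn_fderiv_of_isOpen isOpen_UH le_rfl).comp continuousOn_snd
        fun q hq => hq.2
    have e2 : ContinuousOn (fun q : ℝ × ℂ => pz m q.2) (univ ×ˢ UH) :=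
      (contDiffOn_pz hm).continuousOn.comp continuousOn_snd fun q hq => hq.2
    have e3 : ContinuousOn (fun q : ℝ × ℂ => X q.2) (univ ×ˢ UH) :=
      hX.smooth.continuousOn.comp continuousOn_snd fun q hq => hq.2
    refine hm2.mul (Complex.continuous_re.comp_continuousOn ?_)
    exact (Complex.continuous_conj.comp_continuousOn hu2).mul
      ((e1.clm_apply hu2).add ((e2.mul hu2).mul e3))
  -- names for the basic integrals
  set I1 : ℝ := ∫ t in (0 : ℝ)..T, (∫ z, χ z * (curv m z * (m z * ‖u t z‖ ^ 2)) * m z) with hI1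
  set Ip : ℝ := ∫ t in (0 : ℝ)..T, (∫ z, χ z * (curv m z * p t z) * m z) with hIp
  set P : ℝ := ∫ t in (0 : ℝ)..T, (∫ z, χ z * p t z * m z) with hP
  set N : ℝ := ∫ t in (0 : ℝ)..T, (∫ z, χ z * (m z * ‖u t z‖ ^ 2) * m z) with hN
  set V : ℝ := ∫ t in (0 : ℝ)..T, (∫ z, χ z *
    (m z * ((starRingEnd ℂ) (u t z) * cov m (u t) X z).re) * m z) with hV
  set KI : ℝ := ∫ z, χ z * curv m z * m z with hKI
  set One : ℝ := ∫ z, χ z * (1 : ℝ) * m z with hOne
  -- (1) inequality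
  have h1 := int_ineq hΓ hm hχ F hT hret
  have h1a : (∫ t in (0 : ℝ)..T, - (1 / 2) * (∫ z, χ z * (curv m z * (m z * ‖u t z‖ ^ 2)) * m z))
      = - (1 / 2) * I1 := by rw [intervalIntegral.integral_const_mul]
  rw [h1a, AG hΓ hm (curv_inv hm) hχ F hret] at h1
  -- (2) AG
  have hAGsplit : ∫ t in (0 : ℝ)..T, ∫ z, χ z * (curv m z * (m z * ‖u t z‖ ^ 2 -
        fderiv ℝ (fun ζ => wfun m u p Φ t (Ψ t ζ)) z (u t z))) * m z =
      I1 - ∫ t in (0 : ℝ)..T, (∫ z, χ z * (curv m z *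
        fderiv ℝ (fun ζ => wfun m u p Φ t (Ψ t ζ)) z (u t z)) * m z) := by
    have hslice : ∀ t, ∫ z, χ z * (curv m z * (m z * ‖u t z‖ ^ 2 -
        fderiv ℝ (fun ζ => wfun m u p Φ t (Ψ t ζ)) z (u t z))) * m z =
        (∫ z, χ z * (curv m z * (m z * ‖u t z‖ ^ 2)) * m z) - ∫ z, χ z * (curv m z *
        fderiv ℝ (fun ζ => wfun m u p Φ t (Ψ t ζ)) z (u t z)) * m z := by
      intro t
      have hut := jc_slice F.sol.u_smooth t
      have hw := wt_contDiff hm F t
      have e0 : ContinuousOn (fun z => curv m z *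
          fderiv ℝ (fun ζ => wfun m u p Φ t (Ψ t ζ)) z (u t z)) UH :=
        hKc.mul ((hw.continuousOn_fderiv_of_isOpen isOpen_UH le_rfl).clm_apply hut.continuousOn)
      have e1 : ContinuousOn (fun z => curv m z * (m z * ‖u t z‖ ^ 2)) UH :=
        hKc.mul (hmc.mul (hut.continuousOn.norm.pow 2))
      rw [← int_cut_sub hχ hmc e1 e0]
      congr 1; ext z; ring
    have hc1 : Continuous (fun t : ℝ => ∫ z, χ z * (curv m z * (m z * ‖u t z‖ ^ 2)) * m z) :=
      swap_cont hχ.smooth.continuous hχ.compact hχ.supp hmc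
        (G := fun t z => curv m z * (m z * ‖u t z‖ ^ 2)) (hK2.mul hN2)
    by_cases hint : IntervalIntegrable (fun t : ℝ => ∫ z, χ z * (curv m z *
        fderiv ℝ (fun ζ => wfun m u p Φ t (Ψ t ζ)) z (u t z)) * m z) volume 0 T
    · simp only [hslice]
      rw [intervalIntegral.integral_sub (hc1.intervalIntegrable _ _) hint]
    · exfalso
      exact hint (AG2_int hΓ hm hχ F T)
  rw [hAGsplit, AG2 hΓ hm hχ F hret hW] at h1
  have h2 : ∫ t in (0 : ℝ)..T, (∫ z, χ z * (curv m z * (m z * ‖u t z‖ ^ 2 / 2 - p t z)) * m z)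
      = (1 / 2) * I1 - Ip := by
    have e : ∫ t in (0 : ℝ)..T, (∫ z, χ z * (curv m z * (m z * ‖u t z‖ ^ 2 / 2 - p t z)) * m z)
      = ∫ t in (0 : ℝ)..T, (∫ z, χ z * ((1 / 2) * (curv m z * (m z * ‖u t z‖ ^ 2)) +
        (-1) * (curv m z * p t z)) * m z) := tint_congr hχ (fun t z _ => by ring) T
    rw [e, tint_add hχ hmc (G := fun t z => (1 / 2) * (curv m z * (m z * ‖u t z‖ ^ 2)))
      (H := fun t z => (-1) * (curv m z * p t z)) (continuousOn_const.mul (hK2.mul hN2))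
      (continuousOn_const.mul (hK2.mul hp2)), tint_smul, tint_smul]
    ring
  rw [h2] at h1
  -- (3) Weber potential: W * One = N/2 - P
  have h3 : W * One = (1 / 2) * N - P := by
    have hlc : ContinuousOn (fun q : ℝ × ℂ => m (Φ q.1 q.2) * ‖u q.1 (Φ q.1 q.2)‖ ^ 2 / 2
        - p q.1 (Φ q.1 q.2)) (univ ×ˢ UH) := by
      have e1 : ContinuousOn (fun q : ℝ × ℂ => m (Φ q.1 q.2)) (univ ×ˢ UH) :=
        hmc.comp F.smooth.continuousOn fun q hq => F.maps q.1 hq.2
      have e2 : ContinuousOn (fun q : ℝ × ℂ => p q.1 (Φ q.1 q.2)) (univ ×ˢ UH) :=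
        F.sol.p_cont.comp (continuousOn_fst.prodMk F.smooth.continuousOn)
          fun q hq => ⟨mem_univ _, F.maps q.1 hq.2⟩
      exact ((e1.mul ((cont_uΦ F).norm.pow 2)).div_const 2).sub e2
    have e1 : W * One = ∫ z, χ z * wfun m u p Φ T z * m z := by
      have e2 : ∫ z, χ z * wfun m u p Φ T z * m z = ∫ z, χ z * (W * 1) * m z :=
        int_cut_congr hχ fun z hz => by rw [hW z hz, mul_one]
      rw [e2, int_cut_smul]
    have e3 := swap_int hχ.smooth.continuous hχ.compact hχ.supp hmc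
      (G := fun s z => m (Φ s z) * ‖u s (Φ s z)‖ ^ 2 / 2 - p s (Φ s z)) hlc T
    rw [e1]
    have e4 : ∫ z, χ z * wfun m u p Φ T z * m z = ∫ z, χ z *
        (∫ t in (0 : ℝ)..T, (m (Φ t z) * ‖u t (Φ t z)‖ ^ 2 / 2 - p t (Φ t z))) * m z := rfl
    rw [e4, e3]
    have e5 : ∀ t, ∫ z, χ z * (m (Φ t z) * ‖u t (Φ t z)‖ ^ 2 / 2 - p t (Φ t z)) * m z =
        ∫ z, χ z * ((1 / 2) * (m z * ‖u t z‖ ^ 2) + (-1) * p t z) * m z := by
      intro t
      have hut := jc_slice F.sol.u_smooth t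
      have e6 := int_inv hΓ hm hχ (jc_slice F.smooth t) (F.ismooth t) (F.maps t) (F.imaps t)
        (F.left t) (F.right t) (F.comm t) (F.area t)
        (F := fun z => m z * ‖u t z‖ ^ 2 / 2 - p t z) ?_ ?_
      · rw [e6]; congr 1; ext z; ring
      · exact ((hmc.mul (hut.continuousOn.norm.pow 2)).div_const 2).sub
          (slice_cont (G := p) hp2 t)
      · intro g hg z hz
        rw [norm_inv hm (F.sol.u_equiv t) g hg z hz, F.sol.p_inv t g hg z hz]
    simp only [e5]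
    rw [tint_add hχ hmc (G := fun t z => (1 / 2) * (m z * ‖u t z‖ ^ 2))
      (H := fun t z => (-1) * p t z) (continuousOn_const.mul hN2) (continuousOn_const.mul hp2),
      tint_smul, tint_smul]
    ring
  -- (4) KI + lam One = 0
  have h4 : KI + lam * One = 0 := by
    have e1 := int_div hΓ hm hχ hX.smooth hX.equiv
    have e2 : ∫ z, χ z * dvg m X z * m z = ∫ z, χ z * (2 * curv m z + (2 * lam) * 1) * m z :=
      int_cut_congr hχ fun z hz => by rw [hX.div z hz]; ring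
    rw [e2, int_cut_add hχ hmc (A := fun z => 2 * curv m z) (B := fun _ => (2 * lam) * 1)
      (continuousOn_const.mul hKc) continuousOn_const, int_cut_smul, int_cut_smul] at e1
    linarith
  -- (5) virial
  have h5 : V + (2 * Ip + 2 * lam * P) = 0 := by
    have e1 := virial hΓ hm hχ F.sol hper hX.smooth hX.equiv
    have e2 : ∫ t in (0 : ℝ)..T, (∫ z, χ z * (p t z * dvg m X z) * m z) =
        2 * Ip + 2 * lam * P := by
      have e3 : ∫ t in (0 : ℝ)..T, (∫ z, χ z * (p t z * dvg m X z) * m z) =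
          ∫ t in (0 : ℝ)..T, (∫ z, χ z * (2 * (curv m z * p t z) + (2 * lam) * p t z) * m z) :=
        tint_congr hχ (fun t z hz => by rw [hX.div z hz]; ring) T
      rw [e3, tint_add hχ hmc (G := fun t z => 2 * (curv m z * p t z))
        (H := fun t z => (2 * lam) * p t z) (continuousOn_const.mul (hK2.mul hp2))
        (continuousOn_const.mul hp2), tint_smul, tint_smul]
    rw [e2] at e1
    exact e1
  -- conclusion : V + lam * N ≤ 0
  have h6 : V + lam * N ≤ 0 := by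
    rw [← hKI] at h1
    have e : V + lam * N = -2 * (Ip + W * KI) := by
      linear_combination h5 + (-2 * lam) * h3 + 2 * W * h4
    rw [e]
    linarith
  -- the integrand is nonnegative
  have hq : ∀ t, ∀ z ∈ UH, 0 ≤ m z * ((starRingEnd ℂ) (u t z) * cov m (u t) X z).re
      + lam * (m z * ‖u t z‖ ^ 2) := by
    intro t z hz
    have hmp := hm.pos z hz
    by_cases h0 : u t z = 0
    · simp [h0]
    · have := hX.pos z hz (u t z) h0
      have e : m z * ((starRingEnd ℂ) (u t z) * cov m (u t) X z).re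
        + lam * (m z * ‖u t z‖ ^ 2) = m z * (lam * ‖u t z‖ ^ 2 + ((starRingEnd ℂ) (u t z) *
          (fderiv ℝ X z (u t z) + pz m z * u t z * X z)).re) := by rw [cov]; ring
      rw [e]
      positivity
  have h7 : ∫ t in (0 : ℝ)..T, (∫ z, χ z * (m z * ((starRingEnd ℂ) (u t z) *
      cov m (u t) X z).re + lam * (m z * ‖u t z‖ ^ 2)) * m z) ≤ 0 := by
    rw [tint_add hχ hmc (G := fun t z => m z * ((starRingEnd ℂ) (u t z) * cov m (u t) X z).re)
      (H := fun t z => lam * (m z * ‖u t z‖ ^ 2)) hX2 (continuousOn_const.mul hN2), tint_smul]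
    exact h6
  have hcont : Continuous (fun t : ℝ => ∫ z, χ z * (m z * ((starRingEnd ℂ) (u t z) *
      cov m (u t) X z).re + lam * (m z * ‖u t z‖ ^ 2)) * m z) :=
    swap_cont hχ.smooth.continuous hχ.compact hχ.supp hmc
      (G := fun t z => m z * ((starRingEnd ℂ) (u t z) * cov m (u t) X z).re
        + lam * (m z * ‖u t z‖ ^ 2)) (hX2.add (continuousOn_const.mul hN2))
  have hnn : ∀ t, 0 ≤ ∫ z, χ z * (m z * ((starRingEnd ℂ) (u t z) *
      cov m (u t) X z).re + lam * (m z * ‖u t z‖ ^ 2)) * m z := by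
    intro t
    refine integral_nonneg fun z => ?_
    by_cases hz : z ∈ UH
    · exact mul_nonneg (mul_nonneg (hχ.nonneg z) (hq t z hz)) (hm.pos z hz).le
    · simp [cut_zero hχ hz]
  -- at t = 0 the space integral vanishes
  have h8 : ∫ z, χ z * (m z * ((starRingEnd ℂ) (u 0 z) *
      cov m (u 0) X z).re + lam * (m z * ‖u 0 z‖ ^ 2)) * m z ≤ 0 := by
    by_contra hcon
    push Not at hcon
    have : 0 < ∫ t in (0 : ℝ)..T, (∫ z, χ z * (m z * ((starRingEnd ℂ) (u t z) *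
      cov m (u t) X z).re + lam * (m z * ‖u t z‖ ^ 2)) * m z) :=
      intervalIntegral.integral_pos hT hcont.continuousOn (fun t _ => hnn t)
        ⟨0, ⟨le_rfl, hT.le⟩, hcon⟩
    linarith
  have h9 : ∀ z ∈ UH, u 0 z = 0 := by
    have hcz : ∀ z, z ∈ UH → χ z * (m z * ((starRingEnd ℂ) (u 0 z) *
      cov m (u 0) X z).re + lam * (m z * ‖u 0 z‖ ^ 2)) * m z = 0 := by
      have hG0c : ContinuousOn (fun z => m z * ((starRingEnd ℂ) (u 0 z) *
          cov m (u 0) X z).re + lam * (m z * ‖u 0 z‖ ^ 2)) UH :=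
        slice_cont (G := fun t z => m z * ((starRingEnd ℂ) (u t z) * cov m (u t) X z).re
          + lam * (m z * ‖u t z‖ ^ 2)) (hX2.add (continuousOn_const.mul hN2)) 0
      have e1 : ∀ z, 0 ≤ χ z * (m z * ((starRingEnd ℂ) (u 0 z) *
          cov m (u 0) X z).re + lam * (m z * ‖u 0 z‖ ^ 2)) * m z := by
        intro z
        by_cases hz : z ∈ UH
        · exact mul_nonneg (mul_nonneg (hχ.nonneg z) (hq 0 z hz)) (hm.pos z hz).le
        · simp [cut_zero hχ hz]
      have e2 := (integral_eq_zero_iff_of_nonneg e1 (int_cut hχ hmc hG0c)).1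
        (le_antisymm h8 (integral_nonneg e1))
      have e3 : (fun z : ℂ => χ z * (m z * ((starRingEnd ℂ) (u 0 z) *
          cov m (u 0) X z).re + lam * (m z * ‖u 0 z‖ ^ 2)) * m z) = 0 :=
        (Continuous.ae_eq_iff_eq volume (cont_cut hχ hmc hG0c) continuous_zero).1 e2
      intro z _
      exact congrFun e3 z
    intro z hz
    have hs := hχ.sum_one z hz
    obtain ⟨g, hg⟩ : ∃ g : Γ, χ (mob (g : SL2R) z) ≠ 0 := by
      by_contra hcon
      push Not at hcon
      have : ∑ᶠ g : Γ, χ (mob (g : SL2R) z) = 0 := by simp [hcon]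
      rw [this] at hs
      norm_num at hs
    have hgz := mob_mem (g : SL2R) hz
    have e1 := hcz _ hgz
    have hu0 : u 0 (mob (g : SL2R) z) = 0 := by
      by_contra h0
      have e2 := hX.pos _ hgz _ h0
      have hmp := hm.pos _ hgz
      have e3 : m (mob (g : SL2R) z) * ((starRingEnd ℂ) (u 0 (mob (g : SL2R) z)) *
          cov m (u 0) X (mob (g : SL2R) z)).re
          + lam * (m (mob (g : SL2R) z) * ‖u 0 (mob (g : SL2R) z)‖ ^ 2) =
          m (mob (g : SL2R) z) * (lam * ‖u 0 (mob (g : SL2R) z)‖ ^ 2 +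
          ((starRingEnd ℂ) (u 0 (mob (g : SL2R) z)) * (fderiv ℝ X (mob (g : SL2R) z)
            (u 0 (mob (g : SL2R) z)) + pz m (mob (g : SL2R) z) * u 0 (mob (g : SL2R) z) *
              X (mob (g : SL2R) z))).re) := by rw [cov]; ring
      rw [e3] at e1
      have e4 := mul_pos hmp e2
      rcases mul_eq_zero.1 e1 with h | h
      · rcases mul_eq_zero.1 h with h | h
        · exact hg h
        · exact e4.ne' h
      · exact hmp.ne' h
    rw [F.sol.u_equiv 0 g g.2 z hz] at hu0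
    have hd := den_ne_zero (g : SL2R) hz
    rcases div_eq_zero_iff.1 hu0 with h | h
    · exact h
    · exact absurd h (pow_ne_zero 2 hd)
  -- energy conservation
  intro t z hz
  have hut := jc_slice F.sol.u_smooth t
  have hEt := energy hΓ hm hχ F t
  have hE0 : ∫ z, χ z * (m z * ‖u 0 z‖ ^ 2) * m z = 0 := by
    have : ∫ z, χ z * (m z * ‖u 0 z‖ ^ 2) * m z = ∫ z, χ z * (0 : ℝ) * m z :=
      int_cut_congr hχ fun z hz => by rw [h9 z hz]; simp
    rw [this]; simp
  have h10 := eq_zero_of_int_cut hχ hmc hm.pos (G := fun z => m z * ‖u t z‖ ^ 2)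
    (hmc.mul (hut.continuousOn.norm.pow 2))
    (fun z hz => mul_nonneg (hm.pos z hz).le (sq_nonneg _)) (norm_inv hm (F.sol.u_equiv t))
    (by rw [hEt, hE0]) z hz
  have h11 := hm.pos z hz
  rcases mul_eq_zero.1 h10 with h12 | h12
  · exact absurd h12 h11.ne'
  · exact norm_eq_zero.1 (pow_eq_zero_iff (two_ne_zero) |>.1 h12)

theorem gen_no_closed {Γ : Subgroup SL2R} (hΓ : SurfaceGroup Γ) {m : ℂ → ℝ}
    (hm : ConfMetric Γ m) {lam : ℝ} {X : ℂ → ℂ} (hX : VirialField Γ m lam X) {η : ℝ → ℂ → ℂ}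
    (hη : IsGeodesic Γ m η) {T : ℝ} (hT : 0 < T)
    (hret : ∀ z ∈ UH, ∃ g ∈ Γ, η T z = mob g (η 0 z)) : ∀ t, ∀ z ∈ UH, η t z = η 0 z := by
  obtain ⟨hD, u, p, hE, hflow⟩ := hη
  obtain ⟨Φ, Ψ, F, hΦ⟩ := reduce hm hD hE hflow
  have h1 : ∀ z ∈ UH, ∃ g ∈ Γ, Φ T z = mob g z := by
    intro z hz
    obtain ⟨w, hw, rfl⟩ := (hD.bij 0).surjOn hz
    obtain ⟨g, hg, h⟩ := hret w hw
    exact ⟨g, hg, by rw [hΦ T w hw, h]⟩
  have h2 := deck hΓ F.smooth.continuousOn F.maps F.comm hT h1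
  have h3 := gen_flow hΓ hm hX F hT h2
  intro t z hz
  have h4 : ∀ s, HasDerivAt (fun s => η s z) 0 s := by
    intro s
    have := hflow s z hz
    rwa [h3 s _ ((hD.bij s).mapsTo hz)] at this
  exact is_const_of_deriv_eq_zero (fun s => (h4 s).differentiableAt) (fun s => (h4 s).deriv) t 0

end Pool.Agent.Helper131.CG
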