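import Pool.Agent.Helper131.CG.Defs

/-!
# Ideal fluids on closed hyperbolic surfaces: definitions

A closed hyperbolic surface is `M = Γ \ UH` with the metric `|dz|²/y²` (`z = x + i y`); all objects
on `M` are given by their lifts to the upper half plane.
-/

namespace Pool.Agent.Helper131.CG

open Complex Set

/-- `(u, p)` is (the lift to the upper half plane of) a solution, for all times `t ∈ ℝ`, of the
incompressible Euler equations `∂ₜu + ∇_u u + grad p = 0`, `div u = 0` on the hyperbolic surface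
`Γ \ UH`. Vector fields are complex valued functions, and for the metric `|dz|²/y²` one has
`∇_u u = Du(u) + (i/y) u²`, `grad p = y² (p_x + i p_y)`, `div u = tr(Du) - (2/y) Im u`. -/
structure HypEuler (Γ : Subgroup SL2R) (u : ℝ → ℂ → ℂ) (p : ℝ → ℂ → ℝ) : Prop where
  u_smooth : ContDiffOn ℝ 1 (fun q : ℝ × ℂ => u q.1 q.2) (univ ×ˢ UH)
  u_equiv : ∀ t, ∀ g ∈ Γ, ∀ z ∈ UH, u t (mob g z) = u t z / den g z ^ 2
  p_cont : ContinuousOn (fun q : ℝ × ℂ => p q.1 q.2) (univ ×ˢ UH)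
  p_diff : ∀ t, DifferentiableOn ℝ (p t) UH
  dp_cont : ContinuousOn (fun q : ℝ × ℂ => fderiv ℝ (p q.1) q.2) (univ ×ˢ UH)
  p_inv : ∀ t, ∀ g ∈ Γ, ∀ z ∈ UH, p t (mob g z) = p t z
  div_free : ∀ t, ∀ z ∈ UH,
    (fderiv ℝ (u t) z 1).re + (fderiv ℝ (u t) z I).im - 2 / z.im * (u t z).im = 0
  euler : ∀ t, ∀ z ∈ UH,
    deriv (fun s => u s z) t + (fderiv ℝ (u t) z (u t z) + I / z.im * u t z ^ 2)
      + z.im ^ 2 * (fderiv ℝ (p t) z 1 + fderiv ℝ (p t) z I * I) = 0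

/-- `η` is (the lift to the universal cover `UH` of) a geodesic `ℝ → 𝒟_μ(M)`, `M = Γ \ UH`, for the
right invariant `L²` metric: every `η t` is a bijection of `UH` which descends to a bijection of `M`
and preserves orientation and the hyperbolic area `dx dy / y²`; `η` is `C¹` in space and time; and
`dη/dt = u_t ∘ η_t` for a solution `u` of the Euler equations. -/
structure HypGeodesic (Γ : Subgroup SL2R) (η : ℝ → ℂ → ℂ) : Prop where
  smooth : ContDiffOn ℝ 1 (fun q : ℝ × ℂ => η q.1 q.2) (univ ×ˢ UH)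
  bij : ∀ t, BijOn (η t) UH UH
  lift : ∀ g ∈ Γ, ∃ g' ∈ Γ, ∀ t, ∀ z ∈ UH, η t (mob g z) = mob g' (η t z)
  lift' : ∀ g' ∈ Γ, ∃ g ∈ Γ, ∀ t, ∀ z ∈ UH, η t (mob g z) = mob g' (η t z)
  area : ∀ t, ∀ z ∈ UH, (fderiv ℝ (η t) z).det * (1 / (η t z).im ^ 2) = 1 / z.im ^ 2
  geod : ∃ (u : ℝ → ℂ → ℂ) (p : ℝ → ℂ → ℝ), HypEuler Γ u p ∧
    ∀ t, ∀ z ∈ UH, HasDerivAt (fun s => η s z) (u t (η t z)) t

end Pool.Agent.Helper131.CG
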