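import Pool.Agent.Helper131.CG.L_no_closed
import Pool.Agent.Helper131.CG.HypDefs

namespace Pool.Agent.Helper131.CG

open Complex MeasureTheory Set Filter Topology
open scoped ContDiff

theorem hasFDerivAt_Lm_hyp {z : ℂ} (hz : z ∈ UH) :
    HasFDerivAt (Lm hyp) ((-2 / z.im) • Complex.imCLM) z := by
  have hz' : 0 < z.im := hz
  have h1 : HasFDerivAt (fun w : ℂ => -2 * Real.log w.im) ((-2 : ℝ) • (z.im⁻¹ • Complex.imCLM)) z :=
    (Complex.imCLM.hasFDerivAt.log hz'.ne').const_mul (-2)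
  have h2 : Lm hyp =ᶠ[𝓝 z] fun w : ℂ => -2 * Real.log w.im := by
    filter_upwards [isOpen_UH.mem_nhds hz] with w hw
    have hw' : 0 < w.im := hw
    simp only [Lm, hyp, one_div, Real.log_inv, Real.log_pow]
    push_cast; ring
  have h3 := h1.congr_of_eventuallyEq h2
  rw [smul_smul] at h3
  rw [div_eq_mul_inv]
  exact h3

theorem fderiv_Lm_hyp {z : ℂ} (hz : z ∈ UH) (v : ℂ) :
    fderiv ℝ (Lm hyp) z v = -2 / z.im * v.im := by
  rw [(hasFDerivAt_Lm_hyp hz).fderiv]; simp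

theorem pz_hyp {z : ℂ} (hz : z ∈ UH) : pz hyp z = I / z.im := by
  have hz' : (z.im : ℂ) ≠ 0 := by exact_mod_cast (ne_of_gt hz : z.im ≠ 0)
  rw [pz, fderiv_Lm_hyp hz, fderiv_Lm_hyp hz]
  push_cast
  simp only [Complex.one_im, Complex.I_im]
  push_cast
  field_simp
  ring

theorem eulerSol_of_hyp {Γ : Subgroup SL2R} {u : ℝ → ℂ → ℂ} {p : ℝ → ℂ → ℝ}
    (h : HypEuler Γ u p) : EulerSol Γ hyp u p := by
  refine ⟨h.u_smooth, h.u_equiv, h.p_cont, h.p_diff, h.dp_cont, h.p_inv, ?_, ?_⟩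
  · intro t z hz
    have := h.div_free t z hz
    rw [dvg, fderiv_Lm_hyp hz]
    rw [← this]; ring
  · intro t z hz
    have := h.euler t z hz
    have hz' : (z.im : ℂ) ≠ 0 := by exact_mod_cast (ne_of_gt hz : z.im ≠ 0)
    rw [cov, grad, pz_hyp hz, hyp]
    rw [← this]
    push_cast
    field_simp

theorem hyp_main {Γ : Subgroup SL2R} (hΓ : SurfaceGroup Γ) {η : ℝ → ℂ → ℂ}
    (hη : HypGeodesic Γ η) {T : ℝ} (hT : 0 < T)
    (hret : ∀ z ∈ UH, ∃ g ∈ Γ, η T z = mob g (η 0 z)) : ∀ t, ∀ z ∈ UH, η t z = η 0 z := by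
  obtain ⟨u, p, hE, hf⟩ := hη.geod
  exact no_closed hΓ ⟨⟨hη.smooth, hη.bij, hη.lift, hη.lift', hη.area⟩, u, p, eulerSol_of_hyp hE, hf⟩
    hT hret

end Pool.Agent.Helper131.CG
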