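import Pool.Agent.Helper131.CG.L_main_flow
import Pool.Agent.Helper131.CG.L_reduce
import Pool.Agent.Helper131.CG.L_deck

namespace Pool.Agent.Helper131.CG

open Complex MeasureTheory Set Filter Topology
open scoped ContDiff

theorem no_closed {Γ : Subgroup SL2R} (hΓ : SurfaceGroup Γ) {η : ℝ → ℂ → ℂ}
    (hη : IsGeodesic Γ hyp η) {T : ℝ} (hT : 0 < T)
    (hret : ∀ z ∈ UH, ∃ g ∈ Γ, η T z = mob g (η 0 z)) : ∀ t, ∀ z ∈ UH, η t z = η 0 z := by
  obtain ⟨hD, u, p, hE, hflow⟩ := hη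
  obtain ⟨Φ, Ψ, F, hΦ⟩ := reduce (hyp_conf Γ) hD hE hflow
  have h1 : ∀ z ∈ UH, ∃ g ∈ Γ, Φ T z = mob g z := by
    intro z hz
    obtain ⟨w, hw, rfl⟩ := (hD.bij 0).surjOn hz
    obtain ⟨g, hg, h⟩ := hret w hw
    exact ⟨g, hg, by rw [hΦ T w hw, h]⟩
  have h2 := deck hΓ F.smooth.continuousOn F.maps F.comm hT h1
  have h3 := main_flow hΓ F hT h2
  intro t z hz
  have h4 : ∀ s, HasDerivAt (fun s => η s z) 0 s := by
    intro s
    have := hflow s z hz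
    rwa [h3 s _ ((hD.bij s).mapsTo hz)] at this
  exact is_const_of_deriv_eq_zero (fun s => (h4 s).differentiableAt) (fun s => (h4 s).deriv) t 0

end Pool.Agent.Helper131.CG
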