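import Pool.Agent.Helper131.CG.Base
import Pool.Agent.Helper131.CG.L_grad_facts
import Pool.Agent.Helper131.CG.L_hyp_metric
import Pool.Agent.Helper131.CG.L_mF_def
import Pool.Agent.Helper131.CG.L_smooth_facts

namespace Pool.Agent.Helper131.CG

open Complex MeasureTheory Set Filter Topology
open scoped ContDiff

theorem norm_imCLM_le_pos_unif : ‖imCLM‖ ≤ 1 := by
  refine ContinuousLinearMap.opNorm_le_bound _ (by norm_num) fun x => ?_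
  rw [one_mul]
  exact abs_im_le_norm x

/-- derivative of the scalar function `w ↦ iteratedFDeriv ℝ n F w m` -/
theorem has_iter_pos_unif {F : ℂ → ℝ} (hF : ContDiffOn ℝ ∞ F UH) {w : ℂ} (hw : w ∈ UH) (n : ℕ) (m : Fin n → ℂ) :
    ∃ A : ℂ →L[ℝ] ℝ, (∀ a, A a = iteratedFDeriv ℝ (n + 1) F w (Fin.cons a m)) ∧
      HasFDerivAt (fun x => iteratedFDeriv ℝ n F x m) A w := by
  have hc : ContDiffAt ℝ ∞ F w := hF.contDiffAt (isOpen_UH.mem_nhds hw)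
  have hd : DifferentiableAt ℝ (iteratedFDeriv ℝ n F) w :=
    hc.differentiableAt_iteratedFDeriv (by exact_mod_cast (ENat.coe_lt_top n))
  refine ⟨(ContinuousMultilinearMap.apply ℝ (fun _ : Fin n => ℂ) ℝ m).comp
    (fderiv ℝ (iteratedFDeriv ℝ n F) w), fun a => ?_, ?_⟩
  · rw [iteratedFDeriv_succ_apply_left]
    rfl
  · exact (ContinuousMultilinearMap.apply ℝ (fun _ : Fin n => ℂ) ℝ m).hasFDerivAt.comp w hd.hasFDerivAt

theorem iter_bound_pos_unif {F : ℂ → ℝ} {w : ℂ} {n : ℕ} {m : Fin n → ℂ} (hm : ∀ i, ‖m i‖ = 1) {δ : ℝ}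
    (h : ‖iteratedFDeriv ℝ n F w‖ ≤ δ) : |iteratedFDeriv ℝ n F w m| ≤ δ := by
  have h1 := (iteratedFDeriv ℝ n F w).le_opNorm m
  have h2 : ∏ i, ‖m i‖ = 1 := Finset.prod_eq_one fun i _ => hm i
  rw [h2, mul_one, Real.norm_eq_abs] at h1
  exact h1.trans h

theorem iter_bound'_pos_unif {F : ℂ → ℝ} {w : ℂ} {n : ℕ} {m : Fin n → ℂ} (hm : ∀ i, ‖m i‖ = 1) {δ : ℝ}
    (hδ : 0 ≤ δ) (h : ‖iteratedFDeriv ℝ (n + 1) F w‖ ≤ δ) {A : ℂ →L[ℝ] ℝ}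
    (hA : ∀ a, A a = iteratedFDeriv ℝ (n + 1) F w (Fin.cons a m)) : ‖A‖ ≤ δ := by
  refine ContinuousLinearMap.opNorm_le_bound _ hδ fun a => ?_
  rw [hA]
  have h1 := (iteratedFDeriv ℝ (n + 1) F w).le_opNorm (Fin.cons a m)
  have h2 : ∏ i, ‖(Fin.cons a m : Fin (n + 1) → ℂ) i‖ = ‖a‖ := by
    rw [Fin.prod_univ_succ, Fin.cons_zero]
    have : ∏ i : Fin n, ‖(Fin.cons a m : Fin (n + 1) → ℂ) i.succ‖ = 1 :=
      Finset.prod_eq_one fun i _ => by rw [Fin.cons_succ]; exact hm i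
    rw [this, mul_one]
  rw [h2] at h1
  exact h1.trans (mul_le_mul_of_nonneg_right h (norm_nonneg _))

/-- scalar description of the 4-jet of `F` at `z` -/
structure SJet (F : ℂ → ℝ) (z : ℂ) (δ : ℝ) (f : ℂ → ℂ → ℝ) (Λ : ℂ → ℝ) (Λ1 : ℂ → (ℂ →L[ℝ] ℝ)) : Prop where
  h0 : ∀ w ∈ UH, HasFDerivAt F (fderiv ℝ F w) w
  hf : ∀ w ∈ UH, ∀ e, fderiv ℝ F w e = f e w
  hf0 : ‖fderiv ℝ F z‖ ≤ δ
  hf1 : ∀ e, ‖e‖ = 1 → ∃ A : ℂ →L[ℝ] ℝ, ‖A‖ ≤ δ ∧ HasFDerivAt (f e) A z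
  hl : ∀ w ∈ UH, lap F w = Λ w
  hl0 : |Λ z| ≤ 2 * δ
  hl1 : ∀ w ∈ UH, HasFDerivAt Λ (Λ1 w) w
  hl1b : ‖Λ1 z‖ ≤ 2 * δ
  hl2 : ∀ e, ‖e‖ = 1 → ∃ A : ℂ →L[ℝ] ℝ, ‖A‖ ≤ 2 * δ ∧ HasFDerivAt (fun w => Λ1 w e) A z

theorem exists_sjet_pos_unif {F : ℂ → ℝ} (hF : ContDiffOn ℝ ∞ F UH) {z : ℂ} (hz : z ∈ UH) {δ : ℝ} (hδ : 0 ≤ δ)
    (h : ∀ n : ℕ, n ≤ 4 → ‖iteratedFDeriv ℝ n F z‖ ≤ δ) : ∃ f Λ Λ1, SJet F z δ f Λ Λ1 := by
  classical
  -- choose the derivatives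
  have hex : ∀ w : ℂ, ∀ n : ℕ, ∀ m : Fin n → ℂ, ∃ A : ℂ →L[ℝ] ℝ, w ∈ UH →
      ((∀ a, A a = iteratedFDeriv ℝ (n + 1) F w (Fin.cons a m)) ∧
      HasFDerivAt (fun x => iteratedFDeriv ℝ n F x m) A w) := by
    intro w n m
    by_cases hw : w ∈ UH
    · obtain ⟨A, hA⟩ := has_iter_pos_unif hF hw n m
      exact ⟨A, fun _ => hA⟩
    · exact ⟨0, fun h => absurd h hw⟩
  choose A hA using hex
  have hfd : ∀ w ∈ UH, HasFDerivAt F (fderiv ℝ F w) w := fun w hw =>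
    ((hF.differentiableOn (by simp)).differentiableAt (isOpen_UH.mem_nhds hw)).hasFDerivAt
  have h1apply : ∀ w e, fderiv ℝ F w e = iteratedFDeriv ℝ 1 F w (fun _ => e) := by
    intro w e
    rw [iteratedFDeriv_one_apply]
  -- second derivatives
  have hsec : ∀ w ∈ UH, ∀ e, fderiv ℝ (fun x => fderiv ℝ F x e) w e =
      iteratedFDeriv ℝ 2 F w (fun _ => e) := by
    intro w hw e
    have h2 : (fun x => fderiv ℝ F x e) = fun x => iteratedFDeriv ℝ 1 F x (fun _ => e) := by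
      funext x; exact h1apply x e
    rw [h2, (hA w 1 (fun _ => e) hw).2.fderiv, (hA w 1 (fun _ => e) hw).1]
    congr 1
    funext i
    refine Fin.cases ?_ (fun j => ?_) i
    · rfl
    · rfl
  have hn1 : ‖(1 : ℂ)‖ = 1 := norm_one
  have hnI : ‖I‖ = 1 := norm_I
  refine ⟨fun e w => iteratedFDeriv ℝ 1 F w (fun _ => e),
    fun w => iteratedFDeriv ℝ 2 F w (fun _ => 1) + iteratedFDeriv ℝ 2 F w (fun _ => I),
    fun w => A w 2 (fun _ => 1) + A w 2 (fun _ => I), ?_⟩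
  refine ⟨hfd, fun w _ e => h1apply w e, ?_, ?_, ?_, ?_, ?_, ?_, ?_⟩
  · refine ContinuousLinearMap.opNorm_le_bound _ hδ fun a => ?_
    rw [h1apply]
    have h1 := (iteratedFDeriv ℝ 1 F z).le_opNorm (fun _ => a)
    rw [Fin.prod_univ_one] at h1
    exact h1.trans (mul_le_mul_of_nonneg_right (h 1 (by norm_num)) (norm_nonneg _))
  · intro e he
    exact ⟨A z 1 (fun _ => e), iter_bound'_pos_unif (fun _ => he) hδ (h 2 (by norm_num)) (hA z 1 _ hz).1,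
      (hA z 1 (fun _ => e) hz).2⟩
  · intro w hw
    unfold lap
    rw [hsec w hw 1, hsec w hw I]
  · have a1 := iter_bound_pos_unif (F := F) (w := z) (m := fun _ : Fin 2 => (1 : ℂ)) (fun _ => hn1) (h 2 (by norm_num))
    have a2 := iter_bound_pos_unif (F := F) (w := z) (m := fun _ : Fin 2 => I) (fun _ => hnI) (h 2 (by norm_num))
    refine (abs_add_le _ _).trans ?_
    linarith
  · intro w hw
    exact (hA w 2 (fun _ => 1) hw).2.add (hA w 2 (fun _ => I) hw).2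
  · have a1 : ‖A z 2 (fun _ => 1)‖ ≤ δ := iter_bound'_pos_unif (fun _ => hn1) hδ (h 3 (by norm_num)) (hA z 2 _ hz).1
    have a2 : ‖A z 2 (fun _ => I)‖ ≤ δ := iter_bound'_pos_unif (fun _ => hnI) hδ (h 3 (by norm_num)) (hA z 2 _ hz).1
    refine (norm_add_le _ _).trans ?_
    linarith
  · intro e he
    have b1 : ∀ i : Fin 3, ‖(Fin.cons e (fun _ => 1) : Fin 3 → ℂ) i‖ = 1 := by
      intro i
      refine Fin.cases ?_ (fun j => ?_) i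
      · rw [Fin.cons_zero]; exact he
      · rw [Fin.cons_succ]; exact hn1
    have b2 : ∀ i : Fin 3, ‖(Fin.cons e (fun _ => I) : Fin 3 → ℂ) i‖ = 1 := by
      intro i
      refine Fin.cases ?_ (fun j => ?_) i
      · rw [Fin.cons_zero]; exact he
      · rw [Fin.cons_succ]; exact hnI
    refine ⟨A z 3 (Fin.cons e (fun _ => 1)) + A z 3 (Fin.cons e (fun _ => I)), ?_, ?_⟩
    · have a1 : ‖A z 3 (Fin.cons e (fun _ => 1))‖ ≤ δ :=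
        iter_bound'_pos_unif b1 hδ (h 4 (by norm_num)) (hA z 3 _ hz).1
      have a2 : ‖A z 3 (Fin.cons e (fun _ => I))‖ ≤ δ :=
        iter_bound'_pos_unif b2 hδ (h 4 (by norm_num)) (hA z 3 _ hz).1
      refine (norm_add_le _ _).trans ?_
      linarith
    · have h3 := (hA z 3 (Fin.cons e (fun _ => 1)) hz).2.add (hA z 3 (Fin.cons e (fun _ => I)) hz).2
      refine h3.congr_of_eventuallyEq ?_
      filter_upwards [isOpen_UH.mem_nhds hz] with w hw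
      show (A w 2 (fun _ => 1) + A w 2 (fun _ => I)) e = _
      rw [ContinuousLinearMap.add_apply, (hA w 2 (fun _ => 1) hw).1, (hA w 2 (fun _ => I) hw).1]
      rfl

/-- the function `q` -/
noncomputable def qf_pos_unif (Λ : ℂ → ℝ) (w : ℂ) : ℝ := 1 / 2 * w.im ^ 2 * Λ w

/-- its differential -/
noncomputable def Q1f_pos_unif (Λ : ℂ → ℝ) (Λ1 : ℂ → (ℂ →L[ℝ] ℝ)) (w : ℂ) :
    ℂ →L[ℝ] ℝ := (w.im * Λ w) • imCLM + (1 / 2 * w.im ^ 2) • (Λ1 w)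

theorem has_im_pos_unif (w : ℂ) : HasFDerivAt (fun x : ℂ => x.im) imCLM w := imCLM.hasFDerivAt

theorem has_im2_pos_unif (w : ℂ) : HasFDerivAt (fun x : ℂ => 1 / 2 * x.im ^ 2) (w.im • imCLM) w := by
  have h1 : HasDerivAt (fun y : ℝ => 1 / 2 * y ^ 2) w.im w.im := by
    have := (hasDerivAt_pow 2 w.im).const_mul (1 / 2)
    refine this.congr_deriv ?_
    norm_num
    ring
  exact h1.comp_hasFDerivAt w (has_im_pos_unif w)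

section

variable {F : ℂ → ℝ} {z : ℂ} {δ : ℝ} {f : ℂ → ℂ → ℝ} {Λ : ℂ → ℝ} {Λ1 : ℂ → (ℂ →L[ℝ] ℝ)}

theorem has_q_pos_unif (J : SJet F z δ f Λ Λ1) {w : ℂ} (hw : w ∈ UH) :
    HasFDerivAt (qf_pos_unif Λ) (Q1f_pos_unif Λ Λ1 w) w := by
  have h := (has_im2_pos_unif w).mul (J.hl1 w hw)
  have h' : HasFDerivAt (qf_pos_unif Λ) _ w := h
  refine h'.congr_fderiv ?_
  unfold Q1f_pos_unif
  rw [smul_smul, add_comm, mul_comm (Λ w)]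

theorem has_Q1_pos_unif (J : SJet F z δ f Λ Λ1) (hz : z ∈ UH) {B : ℝ} (hB : 1 ≤ B) (hδ : 0 ≤ δ) (hzB : z.im ≤ B)
    {e : ℂ} (he : ‖e‖ = 1) :
    ∃ A : ℂ →L[ℝ] ℝ, ‖A‖ ≤ 7 * B ^ 2 * δ ∧ HasFDerivAt (fun w => Q1f_pos_unif Λ Λ1 w e) A z := by
  obtain ⟨L2, hL2, hL2'⟩ := J.hl2 e he
  have hA : HasFDerivAt (fun x : ℂ => x.im * Λ x) (z.im • Λ1 z + Λ z • imCLM) z :=
    (has_im_pos_unif z).mul (J.hl1 z hz)
  have hA' := hA.mul_const e.im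
  have hB' := (has_im2_pos_unif z).mul hL2'
  refine ⟨_, ?_, (hA'.add hB')⟩
  have hy : 0 < z.im := hz
  have e2 := J.hl0
  have e3 := J.hl1b
  have hy2 : z.im ^ 2 ≤ B ^ 2 := pow_le_pow_left₀ hy.le hzB 2
  have hBB : B ≤ B ^ 2 := by nlinarith
  have h1B : 1 ≤ B ^ 2 := by nlinarith
  have hi := norm_imCLM_le_pos_unif
  have hei : |e.im| ≤ 1 := by rw [← he]; exact abs_im_le_norm e
  have n1 : ‖e.im • (z.im • Λ1 z + Λ z • imCLM)‖ ≤ B * (2 * δ) + 2 * δ := by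
    rw [norm_smul, Real.norm_eq_abs]
    have h1 : ‖z.im • Λ1 z + Λ z • imCLM‖ ≤ B * (2 * δ) + 2 * δ := by
      refine (norm_add_le _ _).trans ?_
      rw [norm_smul, norm_smul, Real.norm_eq_abs, Real.norm_eq_abs, abs_of_pos hy]
      have a1 : z.im * ‖Λ1 z‖ ≤ B * (2 * δ) := by gcongr
      have a2 : |Λ z| * ‖imCLM‖ ≤ (2 * δ) * 1 := by gcongr
      linarith
    calc |e.im| * ‖z.im • Λ1 z + Λ z • imCLM‖ ≤ 1 * (B * (2 * δ) + 2 * δ) := by gcongr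
      _ = _ := by ring
  have n2 : ‖(1 / 2 * z.im ^ 2) • L2‖ ≤ B ^ 2 * δ := by
    rw [norm_smul, Real.norm_eq_abs, abs_of_pos (by positivity : 0 < 1 / 2 * z.im ^ 2)]
    calc 1 / 2 * z.im ^ 2 * ‖L2‖ ≤ 1 / 2 * B ^ 2 * (2 * δ) := by gcongr
      _ = B ^ 2 * δ := by ring
  have n3 : ‖(Λ1 z e) • (z.im • imCLM)‖ ≤ B * (2 * δ) := by
    rw [norm_smul, norm_smul, Real.norm_eq_abs, Real.norm_eq_abs, abs_of_pos hy]
    have a1 : |Λ1 z e| ≤ 2 * δ := by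
      have := (Λ1 z).le_opNorm e
      rw [he, mul_one, Real.norm_eq_abs] at this
      exact this.trans e3
    calc |Λ1 z e| * (z.im * ‖imCLM‖) ≤ (2 * δ) * (B * 1) := by gcongr
      _ = B * (2 * δ) := by ring
  refine (norm_add_le _ _).trans ?_
  have n4 := norm_add_le ((1 / 2 * z.im ^ 2) • L2) ((Λ1 z e) • (z.im • imCLM))
  have a1 : B * δ ≤ B ^ 2 * δ := mul_le_mul_of_nonneg_right hBB hδ
  have a2 : δ ≤ B ^ 2 * δ := le_mul_of_one_le_left hδ h1B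
  linarith

theorem q_bounds_pos_unif (J : SJet F z δ f Λ Λ1) {B : ℝ} (hB : 1 ≤ B) (hδ : 0 ≤ δ) (hz : z ∈ UH) (hzB : z.im ≤ B) :
    |qf_pos_unif Λ z| ≤ B ^ 2 * δ ∧ ‖Q1f_pos_unif Λ Λ1 z‖ ≤ 3 * B ^ 2 * δ := by
  have hy : 0 < z.im := hz
  have e2 := J.hl0
  have e3 := J.hl1b
  have hy2 : z.im ^ 2 ≤ B ^ 2 := pow_le_pow_left₀ hy.le hzB 2
  have hBB : B ≤ B ^ 2 := by nlinarith
  have h1B : 1 ≤ B ^ 2 := by nlinarith
  have hi := norm_imCLM_le_pos_unif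
  refine ⟨?_, ?_⟩
  · unfold qf_pos_unif
    rw [abs_mul, abs_of_pos (by positivity : 0 < 1 / 2 * z.im ^ 2)]
    calc 1 / 2 * z.im ^ 2 * |Λ z| ≤ 1 / 2 * B ^ 2 * (2 * δ) := by gcongr
      _ = B ^ 2 * δ := by ring
  · unfold Q1f_pos_unif
    have hn1 : ‖(z.im * Λ z) • imCLM‖ ≤ B * (2 * δ) := by
      rw [norm_smul, Real.norm_eq_abs, abs_mul, abs_of_pos hy]
      calc z.im * |Λ z| * ‖imCLM‖ ≤ B * (2 * δ) * 1 := by gcongr
        _ = B * (2 * δ) := by ring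
    have hn2 : ‖(1 / 2 * z.im ^ 2) • (Λ1 z)‖ ≤ B ^ 2 * δ := by
      rw [norm_smul, Real.norm_eq_abs, abs_of_pos (by positivity : 0 < 1 / 2 * z.im ^ 2)]
      calc 1 / 2 * z.im ^ 2 * ‖Λ1 z‖ ≤ 1 / 2 * B ^ 2 * (2 * δ) := by gcongr
        _ = B ^ 2 * δ := by ring
    refine (norm_add_le _ _).trans ?_
    have : B * δ ≤ B ^ 2 * δ := mul_le_mul_of_nonneg_right hBB hδ
    linarith

/-- first differential of `G` -/
noncomputable def G1f_pos_unif (F : ℂ → ℝ) (Λ : ℂ → ℝ) (Λ1 : ℂ → (ℂ →L[ℝ] ℝ)) (w : ℂ) : ℂ →L[ℝ] ℝ :=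
  fderiv ℝ F w - (1 + qf_pos_unif Λ w)⁻¹ • Q1f_pos_unif Λ Λ1 w

theorem mF_eq_pos_unif (J : SJet F z δ f Λ Λ1) {w : ℂ} (hw : w ∈ UH) :
    mF F 1 w = hyp w + 1 / 2 * Λ w := by
  unfold mF
  rw [J.hl w hw]

theorem mF_eq'_pos_unif (J : SJet F z δ f Λ Λ1) {w : ℂ} (hw : w ∈ UH) :
    mF F 1 w = (1 + qf_pos_unif Λ w) / w.im ^ 2 := by
  have hy : w.im ≠ 0 := ne_of_gt hw
  rw [mF_eq_pos_unif J hw]
  unfold hyp qf_pos_unif
  field_simp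

theorem GF_eq_pos_unif (J : SJet F z δ f Λ Λ1) {w : ℂ} (hw : w ∈ UH) :
    GF F 1 w = F w - Real.log (1 + qf_pos_unif Λ w) := by
  have hy : w.im ≠ 0 := ne_of_gt hw
  unfold GF
  rw [one_mul, mF_eq'_pos_unif J hw]
  congr 2
  unfold hyp
  field_simp

theorem has_G_pos_unif (J : SJet F z δ f Λ Λ1) {w : ℂ} (hw : w ∈ UH) (hq : 0 < 1 + qf_pos_unif Λ w) :
    HasFDerivAt (GF F 1) (G1f_pos_unif F Λ Λ1 w) w := by
  have h1 : HasFDerivAt (fun x => F x - Real.log (1 + qf_pos_unif Λ x)) (G1f_pos_unif F Λ Λ1 w) w := by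
    have h2 : HasFDerivAt (fun x => 1 + qf_pos_unif Λ x) (Q1f_pos_unif Λ Λ1 w) w := (has_q_pos_unif J hw).const_add 1
    exact (J.h0 w hw).sub (h2.log hq.ne')
  refine h1.congr_of_eventuallyEq ?_
  filter_upwards [isOpen_UH.mem_nhds hw] with x hx
  exact GF_eq_pos_unif J hx

theorem qf_cont_pos_unif (J : SJet F z δ f Λ Λ1) (hz : z ∈ UH) (hq : 0 < 1 + qf_pos_unif Λ z) :
    ∀ᶠ w in 𝓝 z, w ∈ UH ∧ 0 < 1 + qf_pos_unif Λ w := by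
  have h1 : ContinuousAt (fun x => 1 + qf_pos_unif Λ x) z := ((has_q_pos_unif J hz).const_add 1).continuousAt
  have h2 : ∀ᶠ w in 𝓝 z, w ∈ UH := isOpen_UH.mem_nhds hz
  have h3 : ∀ᶠ w in 𝓝 z, 0 < 1 + qf_pos_unif Λ w := h1.eventually (lt_mem_nhds hq)
  exact h2.and h3

theorem G_bounds_pos_unif (J : SJet F z δ f Λ Λ1) {B : ℝ} (hB : 1 ≤ B) (hδ : 0 ≤ δ) (hδ1 : B ^ 2 * δ ≤ 1 / 2)
    (hz : z ∈ UH) (hzB : z.im ≤ B) :
    1 / 2 ≤ 1 + qf_pos_unif Λ z ∧ ‖fderiv ℝ (GF F 1) z‖ ≤ 7 * B ^ 2 * δ ∧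
      ∀ e, ‖e‖ = 1 → ∃ A : ℂ →L[ℝ] ℝ, ‖A‖ ≤ 51 * B ^ 4 * δ ∧
        HasFDerivAt (fun w => fderiv ℝ (GF F 1) w e) A z := by
  obtain ⟨b0, b1⟩ := q_bounds_pos_unif J hB hδ hz hzB
  have hq : 1 / 2 ≤ 1 + qf_pos_unif Λ z := by
    have := (abs_le.mp b0).1
    linarith
  have hqpos : 0 < 1 + qf_pos_unif Λ z := by linarith
  have hinv : (1 + qf_pos_unif Λ z)⁻¹ ≤ 2 := by
    rw [inv_le_comm₀ hqpos (by norm_num)]
    linarith
  have hinvpos : 0 < (1 + qf_pos_unif Λ z)⁻¹ := inv_pos.mpr hqpos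
  have h1B : 1 ≤ B ^ 2 := by nlinarith
  have h14 : B ^ 2 ≤ B ^ 4 := by
    have : B ^ 4 = B ^ 2 * B ^ 2 := by ring
    nlinarith
  refine ⟨hq, ?_, ?_⟩
  · rw [(has_G_pos_unif J hz hqpos).fderiv]
    unfold G1f_pos_unif
    refine (norm_sub_le _ _).trans ?_
    rw [norm_smul, Real.norm_eq_abs, abs_of_pos hinvpos]
    have a1 : (1 + qf_pos_unif Λ z)⁻¹ * ‖Q1f_pos_unif Λ Λ1 z‖ ≤ 2 * (3 * B ^ 2 * δ) := by gcongr
    have a2 : δ ≤ B ^ 2 * δ := le_mul_of_one_le_left hδ h1B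
    have a3 := J.hf0
    linarith
  · intro e he
    obtain ⟨Q2, hQ2, hQ2'⟩ := has_Q1_pos_unif J hz hB hδ hzB he
    obtain ⟨f2, hf2, hf2'⟩ := J.hf1 e he
    have h2 : HasFDerivAt (fun x => 1 + qf_pos_unif Λ x) (Q1f_pos_unif Λ Λ1 z) z := (has_q_pos_unif J hz).const_add 1
    have h3 : HasFDerivAt (fun x => (1 + qf_pos_unif Λ x)⁻¹) ((-((1 + qf_pos_unif Λ z) ^ 2)⁻¹) • Q1f_pos_unif Λ Λ1 z) z :=
      (hasDerivAt_inv hqpos.ne').comp_hasFDerivAt z h2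
    have h4 := hf2'.sub (h3.mul hQ2')
    refine ⟨f2 - ((1 + qf_pos_unif Λ z)⁻¹ • Q2 + (Q1f_pos_unif Λ Λ1 z e) • ((-((1 + qf_pos_unif Λ z) ^ 2)⁻¹) • Q1f_pos_unif Λ Λ1 z)), ?_, ?_⟩
    · refine (norm_sub_le _ _).trans ?_
      have a1 : ‖(1 + qf_pos_unif Λ z)⁻¹ • Q2‖ ≤ 2 * (7 * B ^ 2 * δ) := by
        rw [norm_smul, Real.norm_eq_abs, abs_of_pos hinvpos]
        gcongr
      have a2 : ‖(Q1f_pos_unif Λ Λ1 z e) • ((-((1 + qf_pos_unif Λ z) ^ 2)⁻¹) • Q1f_pos_unif Λ Λ1 z)‖ ≤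
          (3 * B ^ 2 * δ) * (4 * (3 * B ^ 2 * δ)) := by
        rw [norm_smul, norm_smul, norm_neg, Real.norm_eq_abs, Real.norm_eq_abs]
        have a3 : |((1 + qf_pos_unif Λ z) ^ 2)⁻¹| ≤ 4 := by
          rw [← inv_pow, abs_of_pos (by positivity)]
          calc (1 + qf_pos_unif Λ z)⁻¹ ^ 2 ≤ 2 ^ 2 := pow_le_pow_left₀ hinvpos.le hinv 2
            _ = 4 := by norm_num
        have a4 : |Q1f_pos_unif Λ Λ1 z e| ≤ 3 * B ^ 2 * δ := by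
          have := (Q1f_pos_unif Λ Λ1 z).le_opNorm e
          rw [he, mul_one, Real.norm_eq_abs] at this
          exact this.trans b1
        gcongr
      have a3 : (3 * B ^ 2 * δ) * (4 * (3 * B ^ 2 * δ)) ≤ 36 * B ^ 4 * δ := by
        have hδ' : δ ≤ 1 := by
          have : δ ≤ B ^ 2 * δ := le_mul_of_one_le_left hδ h1B
          linarith
        have : (3 * B ^ 2 * δ) * (4 * (3 * B ^ 2 * δ)) = 36 * B ^ 4 * δ * δ := by ring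
        rw [this]
        have h0 : 0 ≤ 36 * B ^ 4 * δ := by positivity
        calc 36 * B ^ 4 * δ * δ ≤ 36 * B ^ 4 * δ * 1 := by gcongr
          _ = _ := by ring
      have a4 : δ ≤ B ^ 4 * δ := le_mul_of_one_le_left hδ (h1B.trans h14)
      have a5 : B ^ 2 * δ ≤ B ^ 4 * δ := mul_le_mul_of_nonneg_right h14 hδ
      have a6 := norm_add_le ((1 + qf_pos_unif Λ z)⁻¹ • Q2)
        ((Q1f_pos_unif Λ Λ1 z e) • ((-((1 + qf_pos_unif Λ z) ^ 2)⁻¹) • Q1f_pos_unif Λ Λ1 z))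
      linarith
    · refine h4.congr_of_eventuallyEq ?_
      filter_upwards [qf_cont_pos_unif J hz hqpos] with x hx
      rw [(has_G_pos_unif J hx.1 hx.2).fderiv]
      unfold G1f_pos_unif
      rw [ContinuousLinearMap.sub_apply, J.hf x hx.1 e]
      rfl

/-- differential of `m` -/
noncomputable def M1f_pos_unif (Λ1 : ℂ → (ℂ →L[ℝ] ℝ)) (w : ℂ) : ℂ →L[ℝ] ℝ :=
  (-2 / w.im ^ 3) • imCLM + (1 / 2 : ℝ) • (Λ1 w)

theorem has_hyp_pos_unif {w : ℂ} (hw : w ∈ UH) : HasFDerivAt hyp ((-2 / w.im ^ 3) • imCLM) w := by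
  have hy : w.im ≠ 0 := ne_of_gt hw
  have h1 : HasDerivAt (fun y : ℝ => 1 / y ^ 2) (-2 / w.im ^ 3) w.im := by
    have := (hasDerivAt_pow 2 w.im).inv (pow_ne_zero 2 hy)
    have h2 : (fun y : ℝ => 1 / y ^ 2) = (fun y : ℝ => y ^ 2)⁻¹ := by
      funext y; rw [one_div]; rfl
    rw [h2]
    refine this.congr_deriv ?_
    have h3 : w.im ^ (2 - 1) = w.im := by norm_num
    rw [h3]
    push_cast
    field_simp
  exact h1.comp_hasFDerivAt w (has_im_pos_unif w)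

theorem has_m_pos_unif (J : SJet F z δ f Λ Λ1) {w : ℂ} (hw : w ∈ UH) :
    HasFDerivAt (mF F 1) (M1f_pos_unif Λ1 w) w := by
  have h1 : HasFDerivAt (fun x => hyp x + 1 / 2 * Λ x) (M1f_pos_unif Λ1 w) w :=
    (has_hyp_pos_unif hw).add ((J.hl1 w hw).const_mul (1 / 2))
  refine h1.congr_of_eventuallyEq ?_
  filter_upwards [isOpen_UH.mem_nhds hw] with x hx
  exact mF_eq_pos_unif J hx

theorem m_bounds_pos_unif (J : SJet F z δ f Λ Λ1) {B : ℝ} (hB : 1 ≤ B) (hδ : 0 ≤ δ) (hδ1 : B ^ 2 * δ ≤ 1 / 2)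
    (hz : z ∈ UH) (hzB : z.im ≤ B) (hzB' : 1 / z.im ≤ B) (hq : 1 / 2 ≤ 1 + qf_pos_unif Λ z) :
    0 < mF F 1 z ∧ (mF F 1 z)⁻¹ ≤ 2 * B ^ 2 ∧ ‖M1f_pos_unif Λ1 z‖ ≤ 3 * B ^ 3 := by
  have hy : 0 < z.im := hz
  have hm := mF_eq'_pos_unif J hz
  have hqpos : 0 < 1 + qf_pos_unif Λ z := by linarith
  have hpos : 0 < mF F 1 z := by rw [hm]; positivity
  have hy2 : z.im ^ 2 ≤ B ^ 2 := pow_le_pow_left₀ hy.le hzB 2
  refine ⟨hpos, ?_, ?_⟩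
  · rw [hm, inv_div, div_le_iff₀ hqpos]
    nlinarith
  · unfold M1f_pos_unif
    refine (norm_add_le _ _).trans ?_
    have h1B : 1 ≤ B ^ 3 := one_le_pow₀ hB
    have h12 : 1 ≤ B ^ 2 := one_le_pow₀ hB
    have hi := norm_imCLM_le_pos_unif
    have a1 : ‖(-2 / z.im ^ 3) • imCLM‖ ≤ 2 * B ^ 3 := by
      rw [norm_smul, Real.norm_eq_abs]
      have : |(-2 / z.im ^ 3)| = 2 * (1 / z.im) ^ 3 := by
        rw [abs_div, abs_neg, abs_of_pos (by norm_num : (0:ℝ) < 2), abs_of_pos (by positivity), one_div,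
          inv_pow, div_eq_mul_inv]
      rw [this]
      have h4 : (1 / z.im) ^ 3 ≤ B ^ 3 := pow_le_pow_left₀ (by positivity) hzB' 3
      calc 2 * (1 / z.im) ^ 3 * ‖imCLM‖ ≤ 2 * B ^ 3 * 1 := by gcongr
        _ = 2 * B ^ 3 := by ring
    have a2 : ‖(1 / 2 : ℝ) • (Λ1 z)‖ ≤ B ^ 3 := by
      rw [norm_smul, Real.norm_eq_abs, abs_of_pos (by norm_num)]
      have h5 := J.hl1b
      have h6 : δ ≤ B ^ 2 * δ := le_mul_of_one_le_left hδ h12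
      linarith
    linarith

theorem pz_bound_pos_unif {m : ℂ → ℝ} {M1 : ℂ →L[ℝ] ℝ} {z : ℂ} (h : HasFDerivAt m M1 z) (hm : 0 < m z) :
    ‖pz m z‖ ≤ (m z)⁻¹ * ‖M1‖ := by
  have h1 : HasFDerivAt (Lm m) ((m z)⁻¹ • M1) z := h.log hm.ne'
  unfold pz
  rw [h1.fderiv]
  set A := (m z)⁻¹ • M1 with hA
  have hAn : ‖A‖ = (m z)⁻¹ * ‖M1‖ := by
    rw [hA, norm_smul, Real.norm_eq_abs, abs_of_pos (inv_pos.mpr hm)]
  have h2 : ‖A 1‖ ≤ ‖A‖ := by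
    have := A.le_opNorm 1
    rwa [norm_one, mul_one] at this
  have h3 : ‖A I‖ ≤ ‖A‖ := by
    have := A.le_opNorm I
    rwa [norm_I, mul_one] at this
  rw [← hAn, norm_div]
  have h4 : ‖((A 1 : ℝ) : ℂ) - ((A I : ℝ) : ℂ) * I‖ ≤ ‖A 1‖ + ‖A I‖ := by
    refine (norm_sub_le _ _).trans ?_
    rw [norm_mul, norm_I, mul_one, norm_real, norm_real]
  have h5 : ‖(2 : ℂ)‖ = 2 := by norm_num
  rw [h5]
  linarith

theorem grad_eq_pos_unif (m f : ℂ → ℝ) (w : ℂ) : grad m f w = (m w)⁻¹ •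
    (((fderiv ℝ f w 1 : ℝ) : ℂ) + ((fderiv ℝ f w I : ℝ) : ℂ) * I) := by
  unfold grad
  rw [Complex.real_smul, Complex.ofReal_inv, div_eq_inv_mul]

theorem hasN_pos_unif {G : ℂ → ℝ} {z : ℂ} {A1 A2 : ℂ →L[ℝ] ℝ} (hA1' : HasFDerivAt (fun w => fderiv ℝ G w 1) A1 z)
    (hA2' : HasFDerivAt (fun w => fderiv ℝ G w I) A2 z) :
    HasFDerivAt (fun w => ((fderiv ℝ G w 1 : ℝ) : ℂ) + ((fderiv ℝ G w I : ℝ) : ℂ) * I)
      (ofRealCLM.comp A1 + I • (ofRealCLM.comp A2)) z := by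
  have h1 : HasFDerivAt (fun w => ((fderiv ℝ G w 1 : ℝ) : ℂ)) (ofRealCLM.comp A1) z :=
    ofRealCLM.hasFDerivAt.comp z hA1'
  have h2 : HasFDerivAt (fun w => ((fderiv ℝ G w I : ℝ) : ℂ)) (ofRealCLM.comp A2) z :=
    ofRealCLM.hasFDerivAt.comp z hA2'
  exact h1.add (h2.mul_const I)

theorem normN_pos_unif {A1 A2 : ℂ →L[ℝ] ℝ} : ‖ofRealCLM.comp A1 + I • (ofRealCLM.comp A2)‖ ≤ ‖A1‖ + ‖A2‖ := by
  refine ContinuousLinearMap.opNorm_le_bound _ (by positivity) fun x => ?_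
  show ‖((A1 x : ℝ) : ℂ) + I * ((A2 x : ℝ) : ℂ)‖ ≤ _
  refine (norm_add_le _ _).trans ?_
  rw [norm_mul, norm_I, one_mul, norm_real, norm_real, add_mul]
  exact add_le_add (A1.le_opNorm x) (A2.le_opNorm x)

theorem covX_bound_pos_unif {m G : ℂ → ℝ} {M1 : ℂ →L[ℝ] ℝ} {z : ℂ}
    (hm : HasFDerivAt m M1 z) (hpos : 0 < m z)
    {B s : ℝ} (hB : 1 ≤ B) (hs : 0 ≤ s) (b1 : (m z)⁻¹ ≤ 2 * B ^ 2) (b2 : ‖M1‖ ≤ 3 * B ^ 3)
    (b3 : ‖fderiv ℝ G z‖ ≤ 7 * B ^ 2 * s)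
    (b4 : ∀ e, ‖e‖ = 1 → ∃ A : ℂ →L[ℝ] ℝ, ‖A‖ ≤ 51 * B ^ 4 * s ∧
        HasFDerivAt (fun w => fderiv ℝ G w e) A z) (v : ℂ) :
    ‖covX m (grad m G) z v‖ ≤ 540 * B ^ 9 * s * ‖v‖ := by
  have hinvpos : 0 < (m z)⁻¹ := inv_pos.mpr hpos
  obtain ⟨A1, hA1, hA1'⟩ := b4 1 norm_one
  obtain ⟨A2, hA2, hA2'⟩ := b4 I norm_I
  have h0 := hasN_pos_unif hA1' hA2'
  have hT2' := normN_pos_unif (A1 := A1) (A2 := A2)
  set N1 : ℂ →L[ℝ] ℂ := ofRealCLM.comp A1 + I • (ofRealCLM.comp A2) with hN1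
  have hT2 : ‖N1‖ ≤ 102 * B ^ 4 * s := by linarith
  set N : ℂ := ((fderiv ℝ G z 1 : ℝ) : ℂ) + ((fderiv ℝ G z I : ℝ) : ℂ) * I with hN
  have hT1 : ‖N‖ ≤ 14 * B ^ 2 * s := by
    rw [hN]
    refine (norm_add_le _ _).trans ?_
    rw [norm_mul, norm_I, mul_one, norm_real, norm_real]
    have c1 : ‖fderiv ℝ G z 1‖ ≤ ‖fderiv ℝ G z‖ := by
      have := (fderiv ℝ G z).le_opNorm 1
      rwa [norm_one, mul_one] at this
    have c2 : ‖fderiv ℝ G z I‖ ≤ ‖fderiv ℝ G z‖ := by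
      have := (fderiv ℝ G z).le_opNorm I
      rwa [norm_I, mul_one] at this
    linarith
  have h1 : HasFDerivAt (fun w => (m w)⁻¹) ((-((m z) ^ 2)⁻¹) • M1) z :=
    (hasDerivAt_inv hpos.ne').comp_hasFDerivAt z hm
  have h2 : HasFDerivAt (grad m G) ((m z)⁻¹ • N1 + ((-((m z) ^ 2)⁻¹) • M1).smulRight N) z := by
    have h3 := h1.smul h0
    have h4 : grad m G = fun w => (m w)⁻¹ •
      (((fderiv ℝ G w 1 : ℝ) : ℂ) + ((fderiv ℝ G w I : ℝ) : ℂ) * I) := funext fun w => grad_eq_pos_unif m G w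
    rw [h4]
    exact h3
  have hX : ‖grad m G z‖ ≤ 28 * B ^ 4 * s := by
    rw [grad_eq_pos_unif, norm_smul, Real.norm_eq_abs, abs_of_pos hinvpos]
    calc (m z)⁻¹ * ‖N‖ ≤ (2 * B ^ 2) * (14 * B ^ 2 * s) := by gcongr
      _ = 28 * B ^ 4 * s := by ring
  have hp : ‖pz m z‖ ≤ 6 * B ^ 5 := by
    refine (pz_bound_pos_unif hm hpos).trans ?_
    calc (m z)⁻¹ * ‖M1‖ ≤ (2 * B ^ 2) * (3 * B ^ 3) := by gcongr
      _ = 6 * B ^ 5 := by ring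
  have hD : ‖(m z)⁻¹ • N1 + ((-((m z) ^ 2)⁻¹) • M1).smulRight N‖ ≤ 372 * B ^ 9 * s := by
    refine (norm_add_le _ _).trans ?_
    have a1 : ‖(m z)⁻¹ • N1‖ ≤ 204 * B ^ 6 * s := by
      rw [norm_smul, Real.norm_eq_abs, abs_of_pos hinvpos]
      calc (m z)⁻¹ * ‖N1‖ ≤ (2 * B ^ 2) * (102 * B ^ 4 * s) := by gcongr
        _ = 204 * B ^ 6 * s := by ring
    have a2 : ‖((-((m z) ^ 2)⁻¹) • M1).smulRight N‖ ≤ 168 * B ^ 9 * s := by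
      rw [ContinuousLinearMap.norm_smulRight_apply, norm_smul, norm_neg, Real.norm_eq_abs, ← inv_pow,
        abs_of_pos (by positivity)]
      calc (m z)⁻¹ ^ 2 * ‖M1‖ * ‖N‖ ≤ (2 * B ^ 2) ^ 2 * (3 * B ^ 3) * (14 * B ^ 2 * s) := by
            gcongr
        _ = 168 * B ^ 9 * s := by ring
    have h69 : B ^ 6 ≤ B ^ 9 := pow_le_pow_right₀ hB (by norm_num)
    have : B ^ 6 * s ≤ B ^ 9 * s := mul_le_mul_of_nonneg_right h69 hs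
    linarith
  unfold covX
  rw [h2.fderiv]
  refine (norm_add_le _ _).trans ?_
  have e1 := ((m z)⁻¹ • N1 + ((-((m z) ^ 2)⁻¹) • M1).smulRight N).le_opNorm v
  have e2 : ‖pz m z * v * grad m G z‖ ≤ 168 * B ^ 9 * s * ‖v‖ := by
    rw [norm_mul, norm_mul]
    calc ‖pz m z‖ * ‖v‖ * ‖grad m G z‖ ≤ (6 * B ^ 5) * ‖v‖ * (28 * B ^ 4 * s) := by gcongr
      _ = 168 * B ^ 9 * s * ‖v‖ := by ring
  have e3 : ‖(m z)⁻¹ • N1 + ((-((m z) ^ 2)⁻¹) • M1).smulRight N‖ * ‖v‖ ≤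
      372 * B ^ 9 * s * ‖v‖ := mul_le_mul_of_nonneg_right hD (norm_nonneg _)
  linarith

end

theorem pos_unif {K : Set ℂ} (hK : IsCompact K) (hKU : K ⊆ UH) :
    ∃ δ : ℝ, 0 < δ ∧ ∀ F : ℂ → ℝ, ContDiffOn ℝ ∞ F UH →
      (∀ z ∈ K, ∀ n : ℕ, n ≤ 4 → ‖iteratedFDeriv ℝ n F z‖ ≤ δ) →
      (∀ z ∈ K, 0 < mF F 1 z) ∧
      ∀ z ∈ K, ∀ v : ℂ, v ≠ 0 →
        0 < ‖v‖ ^ 2 + ((starRingEnd ℂ) v * covX (mF F 1) (grad (mF F 1) (GF F 1)) z v).re := by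
  obtain ⟨C1, hC1⟩ := hK.exists_bound_of_continuousOn (f := fun z : ℂ => z.im) continuous_im.continuousOn
  obtain ⟨C2, hC2⟩ := hK.exists_bound_of_continuousOn (f := fun z : ℂ => 1 / z.im)
    (continuousOn_const.div continuous_im.continuousOn fun z hz => ne_of_gt (hKU hz))
  obtain ⟨B, hB, hBC1, hBC2⟩ : ∃ B : ℝ, 1 ≤ B ∧ C1 ≤ B ∧ C2 ≤ B :=
    ⟨max 1 (max C1 C2), le_max_left _ _, (le_max_left _ _).trans (le_max_right _ _),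
      (le_max_right _ _).trans (le_max_right _ _)⟩
  have hB0 : 0 < B := by linarith
  refine ⟨1 / (1000 * B ^ 9), by positivity, ?_⟩
  intro F hF hsmall
  set δ : ℝ := 1 / (1000 * B ^ 9) with hδ
  have hδ0 : 0 < δ := by positivity
  have hδB : 1000 * B ^ 9 * δ = 1 := by rw [hδ]; field_simp
  have hδ1 : B ^ 2 * δ ≤ 1 / 2 := by
    have h29 : B ^ 2 ≤ B ^ 9 := pow_le_pow_right₀ hB (by norm_num)
    have : B ^ 2 * δ ≤ B ^ 9 * δ := mul_le_mul_of_nonneg_right h29 hδ0.le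
    linarith
  have main : ∀ z ∈ K, 0 < mF F 1 z ∧ ∀ v : ℂ,
      ‖covX (mF F 1) (grad (mF F 1) (GF F 1)) z v‖ ≤ 540 * B ^ 9 * δ * ‖v‖ := by
    intro z hz
    have hzU := hKU hz
    obtain ⟨f, Λ, Λ1, J⟩ := exists_sjet_pos_unif hF hzU hδ0.le (hsmall z hz)
    have hzB : z.im ≤ B := by
      have := hC1 z hz
      rw [Real.norm_eq_abs] at this
      exact (le_abs_self _).trans (this.trans hBC1)
    have hzB' : 1 / z.im ≤ B := by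
      have := hC2 z hz
      rw [Real.norm_eq_abs] at this
      exact (le_abs_self _).trans (this.trans hBC2)
    obtain ⟨g0, g1, g2⟩ := G_bounds_pos_unif J hB hδ0.le hδ1 hzU hzB
    obtain ⟨m0, m1, m2⟩ := m_bounds_pos_unif J hB hδ0.le hδ1 hzU hzB hzB' g0
    refine ⟨m0, fun v => ?_⟩
    exact covX_bound_pos_unif (has_m_pos_unif J hzU) m0 hB hδ0.le m1 m2 g1 g2 v
  refine ⟨fun z hz => (main z hz).1, fun z hz v hv => ?_⟩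
  have h1 := (main z hz).2 v
  have hvpos : 0 < ‖v‖ := norm_pos_iff.mpr hv
  have h2 : 540 * B ^ 9 * δ ≤ 540 / 1000 := by linarith
  have h3 : |((starRingEnd ℂ) v * covX (mF F 1) (grad (mF F 1) (GF F 1)) z v).re| ≤ 540 / 1000 * ‖v‖ ^ 2 := by
    refine (abs_re_le_norm _).trans ?_
    rw [norm_mul, RCLike.norm_conj]
    calc ‖v‖ * ‖covX (mF F 1) (grad (mF F 1) (GF F 1)) z v‖ ≤ ‖v‖ * (540 * B ^ 9 * δ * ‖v‖) := by gcongr
      _ ≤ ‖v‖ * (540 / 1000 * ‖v‖) := by gcongr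
      _ = 540 / 1000 * ‖v‖ ^ 2 := by ring
  have h4 := (abs_le.mp h3).1
  nlinarith [pow_pos hvpos 2]

end Pool.Agent.Helper131.CG
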