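import Pool.Agent.Helper131.CG.Defs

namespace Pool.Agent.Helper131.CG

open Complex MeasureTheory Set Filter Topology
open scoped ContDiff

theorem isOpen_UH : IsOpen UH := isOpen_lt continuous_const Complex.continuous_im

theorem det_eq (g : SL2R) : g 0 0 * g 1 1 - g 0 1 * g 1 0 = 1 := by
  have := g.2
  rw [Matrix.det_fin_two] at this
  exact this

theorem den_ne_zero (g : SL2R) {z : ℂ} (hz : z ∈ UH) : den g z ≠ 0 := by
  intro h
  have h1 := congrArg Complex.im h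
  have h2 := congrArg Complex.re h
  simp [den] at h1 h2
  have hz' : z.im ≠ 0 := ne_of_gt hz
  have hc : g 1 0 = 0 := by
    rcases h1 with h1 | h1
    · exact h1
    · exact absurd h1 hz'
  have hd : g 1 1 = 0 := by
    rw [hc] at h2; simpa using h2
  have := det_eq g
  rw [hc, hd] at this
  simp at this

theorem mob_im (g : SL2R) {z : ℂ} (hz : z ∈ UH) : (mob g z).im = z.im / ‖den g z‖ ^ 2 := by
  have hd := det_eq g
  rw [mob, Complex.div_im, ← Complex.normSq_eq_norm_sq]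
  have hne : Complex.normSq (den g z) ≠ 0 := by
    rw [Ne, Complex.normSq_eq_zero]; exact den_ne_zero g hz
  field_simp
  simp [den]
  linear_combination (z.im) * hd

theorem mob_mem (g : SL2R) {z : ℂ} (hz : z ∈ UH) : mob g z ∈ UH := by
  show 0 < (mob g z).im
  rw [mob_im g hz]
  have := den_ne_zero g hz
  have hz' : 0 < z.im := hz
  positivity

theorem den_mul (g h : SL2R) {z : ℂ} (hz : z ∈ UH) :
    den (g * h) z = den g (mob h z) * den h z := by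
  have hne := den_ne_zero h hz
  have e : mob h z * den h z = (h 0 0 : ℂ) * z + (h 0 1 : ℂ) := by
    rw [mob]; field_simp
  have : den g (mob h z) * den h z = (g 1 0 : ℂ) * (mob h z * den h z) + (g 1 1 : ℂ) * den h z := by
    rw [den]; ring
  rw [this, e]
  simp only [den, Matrix.SpecialLinearGroup.coe_mul, Matrix.mul_apply, Fin.sum_univ_two]
  push_cast
  ring

theorem mob_mul (g h : SL2R) {z : ℂ} (hz : z ∈ UH) : mob (g * h) z = mob g (mob h z) := by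
  have hne := den_ne_zero h hz
  have h1 : den (g * h) z ≠ 0 := den_ne_zero _ hz
  have h2 : den g (mob h z) ≠ 0 := den_ne_zero _ (mob_mem h hz)
  have key := den_mul g h hz
  rw [mob, mob, key, div_eq_div_iff (mul_ne_zero h2 hne) h2]
  have : ((g 0 0 : ℂ) * mob h z + (g 0 1 : ℂ)) * den h z =
      ((g * h) 0 0 : ℝ) * z + ((g * h) 0 1 : ℝ) := by
    rw [mob]
    field_simp
    simp only [den, Matrix.SpecialLinearGroup.coe_mul, Matrix.mul_apply, Fin.sum_univ_two]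
    push_cast
    ring
  rw [← this]; ring

theorem mob_one (z : ℂ) : mob 1 z = z := by simp [mob, den]

theorem mob_inv_mob (g : SL2R) {z : ℂ} (hz : z ∈ UH) : mob g⁻¹ (mob g z) = z := by
  rw [← mob_mul _ _ hz, inv_mul_cancel, mob_one]

theorem mob_mob_inv (g : SL2R) {z : ℂ} (hz : z ∈ UH) : mob g (mob g⁻¹ z) = z := by
  rw [← mob_mul _ _ hz, mul_inv_cancel, mob_one]

theorem hasDerivAt_den (g : SL2R) (z : ℂ) : HasDerivAt (den g) (g 1 0 : ℂ) z := by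
  have : HasDerivAt (fun z : ℂ => (g 1 0 : ℂ) * z + (g 1 1 : ℂ)) ((g 1 0 : ℂ) * 1) z :=
    ((hasDerivAt_id z).const_mul _).add_const _
  rw [mul_one] at this
  exact this

theorem hasDerivAt_mob (g : SL2R) {z : ℂ} (hz : z ∈ UH) :
    HasDerivAt (mob g) (1 / den g z ^ 2) z := by
  have hne := den_ne_zero g hz
  have h1 : HasDerivAt (fun z : ℂ => (g 0 0 : ℂ) * z + (g 0 1 : ℂ)) ((g 0 0 : ℂ) * 1) z :=
    ((hasDerivAt_id z).const_mul _).add_const _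
  have h2 := h1.div (hasDerivAt_den g z) hne
  have hd : (g 0 0 : ℂ) * (g 1 1 : ℂ) - (g 0 1 : ℂ) * (g 1 0 : ℂ) = 1 := by
    exact_mod_cast congrArg (fun x : ℝ => (x : ℂ)) (det_eq g)
  have e : (1 / den g z ^ 2 : ℂ) = ((g 0 0 : ℂ) * 1 * den g z -
      ((g 0 0 : ℂ) * z + (g 0 1 : ℂ)) * (g 1 0 : ℂ)) / den g z ^ 2 := by
    congr 1
    simp only [den]
    linear_combination -hd
  rw [e]
  exact h2

theorem hasFDerivAt_mob (g : SL2R) {z : ℂ} (hz : z ∈ UH) :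
    HasFDerivAt (mob g) ((ContinuousLinearMap.toSpanSingleton ℂ (1 / den g z ^ 2) :
      ℂ →L[ℂ] ℂ).restrictScalars ℝ) z :=
  (hasDerivAt_mob g hz).hasFDerivAt.restrictScalars ℝ

theorem fderiv_mob (g : SL2R) {z : ℂ} (hz : z ∈ UH) (v : ℂ) :
    fderiv ℝ (mob g) z v = v / den g z ^ 2 := by
  rw [(hasFDerivAt_mob g hz).fderiv]
  simp [div_eq_mul_inv]

theorem contDiffOn_mob (g : SL2R) : ContDiffOn ℝ ∞ (mob g) UH := by
  have h1 : ContDiffOn ℝ ∞ (fun z : ℂ => (g 0 0 : ℂ) * z + (g 0 1 : ℂ)) UH := by fun_prop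
  have h2 : ContDiffOn ℝ ∞ (fun z : ℂ => (g 1 0 : ℂ) * z + (g 1 1 : ℂ)) UH := by fun_prop
  have h3 : ContDiffOn ℝ ∞ (fun z : ℂ => ((g 1 0 : ℂ) * z + (g 1 1 : ℂ))⁻¹) UH :=
    h2.inv (fun z hz => den_ne_zero g hz)
  exact (h1.mul h3).congr (fun z _ => by simp [mob, den, div_eq_mul_inv])

theorem bijOn_mob (g : SL2R) : BijOn (mob g) UH UH := by
  refine ⟨fun z hz => mob_mem g hz, ?_, ?_⟩
  · intro z hz w hw h
    rw [← mob_inv_mob g hz, ← mob_inv_mob g hw, h]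
  · intro z hz
    exact ⟨mob g⁻¹ z, mob_mem _ hz, mob_mob_inv g hz⟩

theorem isOpen_prod : IsOpen ((univ : Set ℝ) ×ˢ UH) := isOpen_univ.prod isOpen_UH

section
variable {E : Type*} [NormedAddCommGroup E] [NormedSpace ℝ E] {f : ℝ → ℂ → E}

theorem jc_joint (hf : ContDiffOn ℝ 1 (fun q : ℝ × ℂ => f q.1 q.2) (univ ×ˢ UH)) {q : ℝ × ℂ}
    (hq : q.2 ∈ UH) : HasFDerivAt (fun q : ℝ × ℂ => f q.1 q.2)
      (fderiv ℝ (fun q : ℝ × ℂ => f q.1 q.2) q) q :=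
  ((hf.contDiffAt (isOpen_prod.mem_nhds ⟨mem_univ _, hq⟩)).differentiableAt
    (by norm_num)).hasFDerivAt

theorem jc_slice (hf : ContDiffOn ℝ 1 (fun q : ℝ × ℂ => f q.1 q.2) (univ ×ˢ UH)) (t : ℝ) :
    ContDiffOn ℝ 1 (f t) UH := by
  have h : ContDiffOn ℝ 1 (fun z : ℂ => ((t, z) : ℝ × ℂ)) UH := by fun_prop
  exact hf.comp h (fun z hz => ⟨mem_univ _, hz⟩)

theorem jc_hasFDerivAt' (hf : ContDiffOn ℝ 1 (fun q : ℝ × ℂ => f q.1 q.2) (univ ×ˢ UH)) (t : ℝ)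
    {z : ℂ} (hz : z ∈ UH) : HasFDerivAt (f t)
      ((fderiv ℝ (fun q : ℝ × ℂ => f q.1 q.2) (t, z)).comp (ContinuousLinearMap.inr ℝ ℝ ℂ)) z := by
  have h2 : HasFDerivAt (fun z : ℂ => ((t, z) : ℝ × ℂ)) (ContinuousLinearMap.inr ℝ ℝ ℂ) z :=
    hasFDerivAt_prodMk_right t z
  exact (jc_joint hf (q := (t, z)) hz).comp z h2

theorem jc_hasFDerivAt (hf : ContDiffOn ℝ 1 (fun q : ℝ × ℂ => f q.1 q.2) (univ ×ˢ UH)) (t : ℝ)
    {z : ℂ} (hz : z ∈ UH) : HasFDerivAt (f t) (fderiv ℝ (f t) z) z :=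
  (jc_hasFDerivAt' hf t hz).differentiableAt.hasFDerivAt

theorem jc_fderiv (hf : ContDiffOn ℝ 1 (fun q : ℝ × ℂ => f q.1 q.2) (univ ×ˢ UH)) :
    ContinuousOn (fun q : ℝ × ℂ => fderiv ℝ (f q.1) q.2) (univ ×ˢ UH) := by
  have h1 : ContinuousOn (fderiv ℝ (fun q : ℝ × ℂ => f q.1 q.2)) (univ ×ˢ UH) :=
    hf.continuousOn_fderiv_of_isOpen isOpen_prod (by norm_num)
  have h2 : ContinuousOn (fun q : ℝ × ℂ =>
      (fderiv ℝ (fun q : ℝ × ℂ => f q.1 q.2) q).comp (ContinuousLinearMap.inr ℝ ℝ ℂ))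
      (univ ×ˢ UH) := h1.clm_comp continuousOn_const
  refine h2.congr ?_
  rintro ⟨t, z⟩ ⟨-, hz⟩
  exact (jc_hasFDerivAt' hf t hz).fderiv

theorem jc_time' (hf : ContDiffOn ℝ 1 (fun q : ℝ × ℂ => f q.1 q.2) (univ ×ˢ UH)) (t : ℝ)
    {z : ℂ} (hz : z ∈ UH) : HasDerivAt (fun s => f s z)
      (fderiv ℝ (fun q : ℝ × ℂ => f q.1 q.2) (t, z) (1, 0)) t := by
  have h2 : HasDerivAt (fun s : ℝ => ((s, z) : ℝ × ℂ)) (1, 0) t :=
    (hasDerivAt_id t).prodMk (hasDerivAt_const t z)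
  exact (jc_joint hf (q := (t, z)) hz).comp_hasDerivAt t h2

theorem jc_time (hf : ContDiffOn ℝ 1 (fun q : ℝ × ℂ => f q.1 q.2) (univ ×ˢ UH)) (t : ℝ)
    {z : ℂ} (hz : z ∈ UH) : HasDerivAt (fun s => f s z) (deriv (fun s => f s z) t) t :=
  (jc_time' hf t hz).differentiableAt.hasDerivAt

theorem jc_timeDeriv_cont (hf : ContDiffOn ℝ 1 (fun q : ℝ × ℂ => f q.1 q.2) (univ ×ˢ UH)) :
    ContinuousOn (fun q : ℝ × ℂ => deriv (fun s => f s q.2) q.1) (univ ×ˢ UH) := by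
  have h1 : ContinuousOn (fderiv ℝ (fun q : ℝ × ℂ => f q.1 q.2)) (univ ×ˢ UH) :=
    hf.continuousOn_fderiv_of_isOpen isOpen_prod (by norm_num)
  have h2 : ContinuousOn (fun q : ℝ × ℂ =>
      fderiv ℝ (fun q : ℝ × ℂ => f q.1 q.2) q (1, 0)) (univ ×ˢ UH) := h1.clm_apply continuousOn_const
  refine h2.congr ?_
  rintro ⟨t, z⟩ ⟨-, hz⟩
  exact (jc_time' hf t hz).deriv

end

end Pool.Agent.Helper131.CG
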