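import Pool.Agent.Helper131.CG.Family
import Pool.Agent.Helper131.CG.L_pos_unif

namespace Pool.Agent.Helper131.CG

open Complex MeasureTheory Set Filter Topology
open scoped ContDiff

theorem lap_contDiff {F : ℂ → ℝ} (hF : ContDiffOn ℝ ∞ F UH) : ContDiffOn ℝ ∞ (lap F) UH := by
  have h1 : ∀ v : ℂ, ContDiffOn ℝ ∞ (fun w => fderiv ℝ F w v) UH := fun v =>
    (hF.fderiv_of_isOpen isOpen_UH (by simp)).clm_apply contDiffOn_const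
  have h2 : ∀ v : ℂ, ContDiffOn ℝ ∞ (fun z => fderiv ℝ (fun w => fderiv ℝ F w v) z v) UH := fun v =>
    ((h1 v).fderiv_of_isOpen isOpen_UH (by simp)).clm_apply contDiffOn_const
  exact (h2 1).add (h2 I)

theorem mF_equiv {Γ : Subgroup SL2R} {F : ℂ → ℝ} (hF : ContDiffOn ℝ ∞ F UH)
    (hinv : ∀ g ∈ Γ, ∀ z ∈ UH, F (mob g z) = F z) (ε : ℝ) :
    ∀ g ∈ Γ, ∀ z ∈ UH, mF F ε (mob g z) = mF F ε z * ‖den g z‖ ^ 4 := by
  intro g hg z hz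
  rw [mF, mF, lap_equiv hF hinv g hg z hz, (hyp_conf Γ).equiv g hg z hz]
  ring

theorem conf_of_pos {Γ : Subgroup SL2R} {F : ℂ → ℝ} (hF : ContDiffOn ℝ ∞ F UH)
    (hinv : ∀ g ∈ Γ, ∀ z ∈ UH, F (mob g z) = F z) {ε : ℝ} {K : Set ℂ}
    (hcov : ∀ z ∈ UH, ∃ g ∈ Γ, mob g z ∈ K) (hpos : ∀ z ∈ K, 0 < mF F ε z) :
    ConfMetric Γ (mF F ε) := by
  refine ⟨?_, ?_, mF_equiv hF hinv ε⟩
  · exact (hyp_conf Γ).smooth.add (contDiffOn_const.mul (lap_contDiff hF))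
  · intro z hz
    obtain ⟨g, hg, hgK⟩ := hcov z hz
    have h1 := hpos _ hgK
    rw [mF_equiv hF hinv ε g hg z hz] at h1
    have h2 : 0 < ‖den g z‖ ^ 4 := by
      have := norm_pos_iff.2 (den_ne_zero g hz)
      positivity
    exact (mul_pos_iff_of_pos_right h2).1 h1

theorem virial_of_local {Γ : Subgroup SL2R} {F : ℂ → ℝ}
    (hF : ContDiffOn ℝ ∞ F UH) (hinv : ∀ g ∈ Γ, ∀ z ∈ UH, F (mob g z) = F z) {ε : ℝ} {K : Set ℂ}
    (hcov : ∀ z ∈ UH, ∃ g ∈ Γ, mob g z ∈ K) (hm' : ConfMetric Γ (mF F ε))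
    (hpos : ∀ z ∈ K, ∀ v : ℂ, v ≠ 0 →
        0 < ‖v‖ ^ 2 + ((starRingEnd ℂ) v * covX (mF F ε) (grad (mF F ε) (GF F ε)) z v).re) :
    VirialField Γ (mF F ε) 1 (grad (mF F ε) (GF F ε)) := by
  have hG := GF_contDiff hF hm'
  have hGi := GF_inv hF hinv hm'
  have hX : ContDiffOn ℝ 1 (grad (mF F ε) (GF F ε)) UH := (grad_contDiff hm' hG).of_le (by simp)
  have hXe := grad_equiv hm' hG hGi
  refine ⟨hX, hXe, ?_, ?_⟩
  · intro z hz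
    rw [dvg_grad hm' hG hz, GF_lap hF hm' hz]
  · intro z hz v hv
    obtain ⟨g, hg, hgK⟩ := hcov z hz
    have hd := den_ne_zero g hz
    have hv' : v / den g z ^ 2 ≠ 0 := div_ne_zero hv (pow_ne_zero 2 hd)
    have h3 := hpos _ hgK _ hv'
    rw [covX_equiv hm' hX hXe hg hz v] at h3
    have h4 : (starRingEnd ℂ) (v / den g z ^ 2) *
        (covX (mF F ε) (grad (mF F ε) (GF F ε)) z v / den g z ^ 2) =
        ((1 / ‖den g z‖ ^ 4 : ℝ) : ℂ) * ((starRingEnd ℂ) v *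
          covX (mF F ε) (grad (mF F ε) (GF F ε)) z v) := by
      have e1 : (den g z) * (starRingEnd ℂ) (den g z) = ((‖den g z‖ ^ 2 : ℝ) : ℂ) := by
        rw [Complex.mul_conj, Complex.normSq_eq_norm_sq]
      have hd' : (starRingEnd ℂ) (den g z) ≠ 0 := by simpa using hd
      have e2 : ((‖den g z‖ ^ 4 : ℝ) : ℂ) = (den g z * (starRingEnd ℂ) (den g z)) ^ 2 := by
        rw [e1]; push_cast; ring
      rw [Complex.ofReal_div, e2, map_div₀, map_pow]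
      push_cast
      field_simp
    rw [h4, Complex.re_ofReal_mul, norm_div, norm_pow] at h3
    have hdn : 0 < ‖den g z‖ := norm_pos_iff.2 hd
    have h5 : (‖v‖ / ‖den g z‖ ^ 2) ^ 2 + 1 / ‖den g z‖ ^ 4 * ((starRingEnd ℂ) v *
        covX (mF F ε) (grad (mF F ε) (GF F ε)) z v).re = 1 / ‖den g z‖ ^ 4 * (1 * ‖v‖ ^ 2 +
        ((starRingEnd ℂ) v * covX (mF F ε) (grad (mF F ε) (GF F ε)) z v).re) := by
      field_simp
    rw [h5] at h3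
    have h6 : 0 < 1 / ‖den g z‖ ^ 4 := by positivity
    exact (mul_pos_iff_of_pos_left h6).1 h3

theorem near_hyp_open {Γ : Subgroup SL2R} (hΓ : SurfaceGroup Γ) {K : Set ℂ} (hK : IsCompact K)
    (hKU : K ⊆ UH) (hcov : ∀ z ∈ UH, ∃ g ∈ Γ, mob g z ∈ K) :
    ∃ δ : ℝ, 0 < δ ∧ ∀ F : ℂ → ℝ, ContDiffOn ℝ ∞ F UH →
      (∀ g ∈ Γ, ∀ z ∈ UH, F (mob g z) = F z) →
      (∀ z ∈ K, ∀ n : ℕ, n ≤ 4 → ‖iteratedFDeriv ℝ n F z‖ ≤ δ) →
      ConfMetric Γ (mF F 1) ∧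
      ∀ (η : ℝ → ℂ → ℂ), IsGeodesic Γ (mF F 1) η → ∀ T : ℝ, 0 < T →
        (∀ z ∈ UH, ∃ g ∈ Γ, η T z = mob g (η 0 z)) → ∀ t, ∀ z ∈ UH, η t z = η 0 z := by
  obtain ⟨δ, hδ, h⟩ := pos_unif hK hKU
  refine ⟨δ, hδ, fun F hF hinv hjet => ?_⟩
  obtain ⟨h1, h2⟩ := h F hF hjet
  have hm := conf_of_pos hF hinv hcov h1
  exact ⟨hm, fun η hη T hT hret =>
    gen_no_closed hΓ hm (virial_of_local hF hinv hcov hm h2) hη hT hret⟩

end Pool.Agent.Helper131.CG
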