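import Pool.Agent.Helper131.CG.Base

namespace Pool.Agent.Helper131.CG

open Complex MeasureTheory Set Filter Topology
open scoped ContDiff

theorem cut_zero {Γ : Subgroup SL2R} {χ : ℂ → ℝ} (hχ : Cut Γ χ) {z : ℂ} (hz : z ∉ UH) :
    χ z = 0 := image_eq_zero_of_notMem_tsupport fun h => hz (hχ.supp h)

theorem cont_cut {Γ : Subgroup SL2R} {χ m : ℂ → ℝ} (hχ : Cut Γ χ) (hm : ContinuousOn m UH)
    {G : ℂ → ℝ} (hG : ContinuousOn G UH) : Continuous (fun z : ℂ => χ z * G z * m z) := by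
  rw [continuous_iff_continuousAt]
  intro z
  by_cases hz : z ∈ UH
  · exact (hχ.smooth.continuous.continuousAt.mul (hG.continuousAt (isOpen_UH.mem_nhds hz))).mul
      (hm.continuousAt (isOpen_UH.mem_nhds hz))
  · have hz' : z ∉ tsupport χ := fun h => hz (hχ.supp h)
    have h1 : ∀ᶠ w in 𝓝 z, w ∉ tsupport χ := (isClosed_tsupport χ).isOpen_compl.mem_nhds hz'
    have hev : (fun z : ℂ => χ z * G z * m z) =ᶠ[𝓝 z] fun _ => 0 := by
      filter_upwards [h1] with q hq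
      rw [image_eq_zero_of_notMem_tsupport hq]; ring
    exact continuousAt_const.congr hev.symm

theorem int_cut {Γ : Subgroup SL2R} {χ m : ℂ → ℝ} (hχ : Cut Γ χ) (hm : ContinuousOn m UH)
    {G : ℂ → ℝ} (hG : ContinuousOn G UH) : Integrable (fun z : ℂ => χ z * G z * m z) := by
  refine (cont_cut hχ hm hG).integrable_of_hasCompactSupport ?_
  refine HasCompactSupport.of_support_subset_isCompact (K := tsupport χ) hχ.compact ?_
  intro z hz
  by_contra h
  apply hz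
  simp [image_eq_zero_of_notMem_tsupport h]

theorem int_cut_congr {Γ : Subgroup SL2R} {χ m : ℂ → ℝ} (hχ : Cut Γ χ) {A B : ℂ → ℝ}
    (hAB : ∀ z ∈ UH, A z = B z) : ∫ z, χ z * A z * m z = ∫ z, χ z * B z * m z := by
  refine integral_congr_ae (Filter.Eventually.of_forall fun z => ?_)
  by_cases hz : z ∈ UH
  · simp only [hAB z hz]
  · simp only [cut_zero hχ hz, zero_mul]

theorem int_cut_add {Γ : Subgroup SL2R} {χ m : ℂ → ℝ} (hχ : Cut Γ χ) (hm : ContinuousOn m UH)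
    {A B : ℂ → ℝ} (hA : ContinuousOn A UH) (hB : ContinuousOn B UH) :
    ∫ z, χ z * (A z + B z) * m z = (∫ z, χ z * A z * m z) + ∫ z, χ z * B z * m z := by
  rw [← integral_add (int_cut hχ hm hA) (int_cut hχ hm hB)]
  congr 1; ext z; ring

theorem int_cut_sub {Γ : Subgroup SL2R} {χ m : ℂ → ℝ} (hχ : Cut Γ χ) (hm : ContinuousOn m UH)
    {A B : ℂ → ℝ} (hA : ContinuousOn A UH) (hB : ContinuousOn B UH) :
    ∫ z, χ z * (A z - B z) * m z = (∫ z, χ z * A z * m z) - ∫ z, χ z * B z * m z := by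
  rw [← integral_sub (int_cut hχ hm hA) (int_cut hχ hm hB)]
  congr 1; ext z; ring

theorem int_cut_smul {χ m : ℂ → ℝ} (c : ℝ) (A : ℂ → ℝ) :
    ∫ z, χ z * (c * A z) * m z = c * ∫ z, χ z * A z * m z := by
  rw [← integral_const_mul]
  congr 1; ext z; ring

/-- a nonnegative continuous invariant function with zero integral vanishes on `UH` -/
theorem eq_zero_of_int_cut {Γ : Subgroup SL2R} {χ m : ℂ → ℝ} (hχ : Cut Γ χ)
    (hm : ContinuousOn m UH) (hpos : ∀ z ∈ UH, 0 < m z) {G : ℂ → ℝ} (hG : ContinuousOn G UH)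
    (hG0 : ∀ z ∈ UH, 0 ≤ G z) (hinv : ∀ g ∈ Γ, ∀ z ∈ UH, G (mob g z) = G z)
    (h0 : ∫ z, χ z * G z * m z ≤ 0) : ∀ z ∈ UH, G z = 0 := by
  have hnn : ∀ z, 0 ≤ χ z * G z * m z := by
    intro z
    by_cases hz : z ∈ UH
    · exact mul_nonneg (mul_nonneg (hχ.nonneg z) (hG0 z hz)) (hpos z hz).le
    · simp [cut_zero hχ hz]
  have h1 : ∫ z, χ z * G z * m z = 0 := le_antisymm h0 (integral_nonneg hnn)
  have h2 := (integral_eq_zero_iff_of_nonneg hnn (int_cut hχ hm hG)).1 h1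
  have h3 : (fun z : ℂ => χ z * G z * m z) = 0 :=
    (Continuous.ae_eq_iff_eq volume (cont_cut hχ hm hG) continuous_zero).1 h2
  intro z hz
  have hs := hχ.sum_one z hz
  obtain ⟨g, hg⟩ : ∃ g : Γ, χ (mob (g : SL2R) z) ≠ 0 := by
    by_contra hcon
    push Not at hcon
    have : ∑ᶠ g : Γ, χ (mob (g : SL2R) z) = 0 := by simp [hcon]
    rw [this] at hs
    norm_num at hs
  have h4 := congrFun h3 (mob (g : SL2R) z)
  simp only [Pi.zero_apply] at h4
  have h5 := hpos _ (mob_mem (g : SL2R) hz)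
  rw [hinv g g.2 z hz] at h4
  rcases mul_eq_zero.1 h4 with h6 | h6
  · rcases mul_eq_zero.1 h6 with h7 | h7
    · exact absurd h7 hg
    · exact h7
  · exact absurd h6 h5.ne'

end Pool.Agent.Helper131.CG
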